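import Mathlib

namespace Pool.Agent.Lib.MP_d96856_al

/-- The monoid of endomorphisms of `G` fixing the subgroup `H` pointwise. -/
def eStab {G : Type} [Group G] (H : Subgroup G) : Submonoid (Monoid.End G) where
  carrier := {Ψ | ∀ h ∈ H, Ψ h = h}
  one_mem' := fun _ _ => rfl
  mul_mem' := fun {Ψ Φ} hΨ hΦ h hh => by
    change Ψ (Φ h) = h
    rw [hΦ h hh, hΨ h hh]

end Pool.Agent.Lib.MP_d96856_al
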