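import Mathlib
import Pool.Agent.Lib.MP_d96856_al.Defs

namespace Pool.Agent.Lib.MP_d96856_al

variable {A F : Type} [CommGroup A] [Group F]

lemma mem_eStab {G : Type} [Group G] {H : Subgroup G} {Ψ : Monoid.End G} :
    Ψ ∈ eStab H ↔ ∀ h ∈ H, Ψ h = h := Iff.rfl

def cQ (Ψ : Monoid.End (A × F)) : A →* A := (MonoidHom.fst A F).comp (MonoidHom.comp Ψ (MonoidHom.inl A F))
def cZ (Ψ : Monoid.End (A × F)) : A →* F := (MonoidHom.snd A F).comp (MonoidHom.comp Ψ (MonoidHom.inl A F))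
def cP (Ψ : Monoid.End (A × F)) : F →* A := (MonoidHom.fst A F).comp (MonoidHom.comp Ψ (MonoidHom.inr A F))
def cF (Ψ : Monoid.End (A × F)) : Monoid.End F :=
  (MonoidHom.snd A F).comp (MonoidHom.comp Ψ (MonoidHom.inr A F))

lemma apply_eq (Ψ : Monoid.End (A × F)) (a : A) (u : F) :
    Ψ (a, u) = (cQ Ψ a * cP Ψ u, cZ Ψ a * cF Ψ u) := by
  have : (a, u) = ((a, 1) : A × F) * (1, u) := by simp
  rw [this, map_mul]
  rfl

lemma comm_ZF (Ψ : Monoid.End (A × F)) (a : A) (u : F) : cZ Ψ a * cF Ψ u = cF Ψ u * cZ Ψ a := by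
  have h : ((a, 1) : A × F) * (1, u) = (1, u) * (a, 1) := by simp
  have := congrArg (fun g => (Ψ g).2) h
  simp only [map_mul] at this
  exact this

lemma kill {C : Type} [CommGroup C] (f : F →* C) {u : F} (hu : u ∈ commutator F) : f u = 1 :=
  Abelianization.commutator_subset_ker f hu

lemma cQ_mul (Ψ Φ : Monoid.End (A × F)) (a : A) :
    cQ (Ψ * Φ) a = cQ Ψ (cQ Φ a) * cP Ψ (cZ Φ a) := congrArg Prod.fst (apply_eq Ψ (cQ Φ a) (cZ Φ a))
lemma cZ_mul (Ψ Φ : Monoid.End (A × F)) (a : A) :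
    cZ (Ψ * Φ) a = cZ Ψ (cQ Φ a) * cF Ψ (cZ Φ a) := congrArg Prod.snd (apply_eq Ψ (cQ Φ a) (cZ Φ a))
lemma cP_mul (Ψ Φ : Monoid.End (A × F)) (u : F) :
    cP (Ψ * Φ) u = cQ Ψ (cP Φ u) * cP Ψ (cF Φ u) := congrArg Prod.fst (apply_eq Ψ (cP Φ u) (cF Φ u))
lemma cF_mul (Ψ Φ : Monoid.End (A × F)) (u : F) :
    cF (Ψ * Φ) u = cZ Ψ (cP Φ u) * cF Ψ (cF Φ u) := congrArg Prod.snd (apply_eq Ψ (cP Φ u) (cF Φ u))

/-- condition (i) -/
def Cond (H : Subgroup (A × F)) : Prop :=
  ∀ t : A, ∃ N : ℕ, 0 < N ∧ ∃ u ∈ commutator F, (t ^ N, u) ∈ H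

def Graph (H : Subgroup (A × F)) (z : A →* F) : Prop := ∀ h ∈ H, h.2 = z h.1

/-- the lift of an endomorphism of the second factor -/
def liftE : Monoid.End F →* Monoid.End (A × F) where
  toFun φ := MonoidHom.prodMap (MonoidHom.id A) φ
  map_one' := rfl
  map_mul' _ _ := rfl

def shearF (P : F →* A) : Monoid.End (A × F) :=
  MonoidHom.prod (MonoidHom.fst A F * P.comp (MonoidHom.snd A F)) (MonoidHom.snd A F)

lemma shearF_apply (P : F →* A) (g : A × F) : shearF P g = (g.1 * P g.2, g.2) := rfl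

def shear : (F →* A) →* Monoid.End (A × F) where
  toFun := shearF
  map_one' := by
    apply MonoidHom.ext; intro g
    change (g.1 * 1, g.2) = g
    simp
  map_mul' P P' := by
    apply MonoidHom.ext; intro g
    change (g.1 * (P g.2 * P' g.2), g.2) = (g.1 * P' g.2 * P g.2, g.2)
    rw [mul_comm (P g.2), mul_assoc]

section
variable [IsMulTorsionFree A] [IsMulTorsionFree F] {H : Subgroup (A × F)}

omit [IsMulTorsionFree F] in
lemma cQ_id (hH : Cond H) {Ψ : Monoid.End (A × F)} (hΨ : Ψ ∈ eStab H) (t : A) : cQ Ψ t = t := by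
  obtain ⟨N, hN, u, hu, h⟩ := hH t
  have := congrArg Prod.fst ((apply_eq Ψ _ _).symm.trans (hΨ _ h))
  simp only [kill (cP Ψ) hu, mul_one, map_pow] at this
  exact pow_left_injective hN.ne' this

omit [IsMulTorsionFree A] in
lemma graph_unique (hH : Cond H) {z z' : A →* F} (h : Graph H z) (h' : Graph H z') : z = z' := by
  ext t
  obtain ⟨N, hN, u, -, hu⟩ := hH t
  have := (h _ hu).symm.trans (h' _ hu)
  simp only [map_pow] at this
  exact pow_left_injective hN.ne' this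

omit [IsMulTorsionFree A] [IsMulTorsionFree F] in
lemma typeI_mem {Ψ : Monoid.End (A × F)} (hΨ : Ψ ∈ eStab H) (hz : cZ Ψ = 1) :
    cF Ψ ∈ eStab (H.map (MonoidHom.snd A F)) := by
  rintro _ ⟨⟨a, u⟩, h, rfl⟩
  have := congrArg Prod.snd ((apply_eq Ψ _ _).symm.trans (hΨ _ h))
  simpa [hz] using this

omit [IsMulTorsionFree A] [IsMulTorsionFree F] in
lemma liftE_mem {φ : Monoid.End F} (hφ : φ ∈ eStab (H.map (MonoidHom.snd A F))) :
    (liftE φ : Monoid.End (A × F)) ∈ eStab H := by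
  rintro ⟨a, u⟩ h
  change (a, φ u) = (a, u)
  rw [hφ u ⟨(a, u), h, rfl⟩]

/-- the data attached to a nontrivial graph -/
structure Exc (H : Subgroup (A × F)) (z : A →* F) where
  κ : Multiplicative ℤ →* F
  inj : Function.Injective κ
  l : A →* Multiplicative ℤ
  hl : ∀ a, z a = κ (l a)
  comm : ∀ k, κ k ∈ commutator F
  fix : ∀ φ ∈ eStab (H.map (MonoidHom.snd A F)), ∀ k, φ (κ k) = κ k
  lift : ∀ φ : F →* F, (∀ a u, z a * φ u = φ u * z a) → ∃ h : F →* Multiplicative ℤ, ∀ u, φ u = κ (h u)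

variable (hC : ∀ g : F, g ≠ 1 → IsCyclic (Subgroup.centralizer ({g} : Set F)))
  (hab : ∀ (u : F) (k : ℕ), k ≠ 0 → u ^ k ∈ commutator F → u ∈ commutator F)

omit [IsMulTorsionFree A] in
include hC in
lemma cyc_data {g : F} (hg : g ≠ 1) : ∃ κ : Multiplicative ℤ →* F, Function.Injective κ ∧
    ∀ {X : Type} [Group X] (ψ : X →* F), (∀ x, g * ψ x = ψ x * g) →
      ∃ h : X →* Multiplicative ℤ, ∀ x, ψ x = κ (h x) := by
  have := hC g hg
  set C := Subgroup.centralizer ({g} : Set F) with hCdef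
  have hgC : g ∈ C := by simp [hCdef, Subgroup.mem_centralizer_iff]
  have : Infinite C := by
    refine Infinite.of_injective (fun n : ℕ => (⟨g, hgC⟩ : C) ^ n) ?_
    intro a b hab
    have h1 : g ^ a = g ^ b := congrArg Subtype.val hab
    exact pow_right_injective_of_ne_one hg h1
  let e : Multiplicative ℤ ≃* C := intCyclicMulEquiv
  refine ⟨C.subtype.comp e.toMonoidHom, Subtype.val_injective.comp e.injective, ?_⟩
  intro X _ ψ hψ
  refine ⟨e.symm.toMonoidHom.comp (ψ.codRestrict C (fun x => ?_)), fun x => by simp⟩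
  simp [hCdef, Subgroup.mem_centralizer_iff, hψ x]
where
  pow_right_injective_of_ne_one {g : F} (hg : g ≠ 1) {a b : ℕ} (h : g ^ a = g ^ b) : a = b := by
    have h1 : ¬ IsOfFinOrder g := fun h => hg (IsOfFinOrder.eq_one' h)
    exact (injective_pow_iff_not_isOfFinOrder.2 h1) h

omit [IsMulTorsionFree A] [IsMulTorsionFree F] in
include hab in
lemma kappa_comm (κ : Multiplicative ℤ →* F) {k : Multiplicative ℤ} (hk : k ≠ 1)
    (h : κ k ∈ commutator F) (j : Multiplicative ℤ) : κ j ∈ commutator F := by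
  have e : ∀ j : Multiplicative ℤ, κ j = κ (Multiplicative.ofAdd 1) ^ j.toAdd := by
    intro j; rw [← map_zpow]; congr 1; simp [← ofAdd_zsmul]
  have h1 : κ (Multiplicative.ofAdd 1) ∈ commutator F := by
    apply hab _ k.toAdd.natAbs (by simpa using hk)
    rw [e k] at h
    rcases Int.natAbs_eq k.toAdd with h2 | h2
    · rw [h2, zpow_natCast] at h; exact h
    · rw [h2, zpow_neg, zpow_natCast] at h; exact (Subgroup.inv_mem_iff _).1 h
  rw [e j]; exact Subgroup.zpow_mem _ h1 _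

omit [IsMulTorsionFree A] in
lemma kappa_fix (κ : Multiplicative ℤ →* F) (φ : F →* F) {k : Multiplicative ℤ} (hk : k ≠ 1)
    (h : φ (κ k) = κ k) (j : Multiplicative ℤ) : φ (κ j) = κ j := by
  have e : ∀ j : Multiplicative ℤ, κ j = κ (Multiplicative.ofAdd 1) ^ j.toAdd := by
    intro j; rw [← map_zpow]; congr 1; simp [← ofAdd_zsmul]
  have h1 : φ (κ (Multiplicative.ofAdd 1)) = κ (Multiplicative.ofAdd 1) := by
    rw [e k, map_zpow] at h
    exact zpow_left_injective (by simpa using hk) h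
  rw [e j, map_zpow, h1]

omit [IsMulTorsionFree A] in
include hC hab in
lemma exc_exists (hH : Cond H) {z : A →* F} (hz : z ≠ 1) (hg : Graph H z) : Nonempty (Exc H z) := by
  obtain ⟨t, ht⟩ : ∃ t, z t ≠ 1 := by
    by_contra h
    push Not at h
    exact hz (MonoidHom.ext h)
  obtain ⟨κ, inj, hκ⟩ := cyc_data hC ht
  obtain ⟨l, hl⟩ := hκ z (fun x => by rw [← map_mul, ← map_mul, mul_comm])
  obtain ⟨N, hN, u, hu, h⟩ := hH t
  have h1 : u = κ (l (t ^ N)) := (hg _ h).trans (hl _)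
  have h2 : l (t ^ N) ≠ 1 := by
    intro h3
    have : z t ^ N = 1 := by rw [← map_pow, hl, h3, map_one]
    exact ht ((pow_eq_one_iff_left hN.ne').1 this)
  exact ⟨⟨κ, inj, l, hl, kappa_comm hab κ h2 (h1 ▸ hu),
    fun φ hφ => kappa_fix κ φ h2 (h1 ▸ hφ u ⟨_, h, rfl⟩), fun φ hφ => hκ φ (hφ t)⟩⟩

omit [IsMulTorsionFree A] in
include hC hab in
lemma typeII_graph (hH : Cond H) {Ψ : Monoid.End (A × F)} (hΨ : Ψ ∈ eStab H) (hz : cZ Ψ ≠ 1) :
    Graph H (cZ Ψ) := by
  obtain ⟨t, ht⟩ : ∃ t, cZ Ψ t ≠ 1 := by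
    by_contra h
    push Not at h
    exact hz (MonoidHom.ext h)
  obtain ⟨κ, inj, hκ⟩ := cyc_data hC ht
  obtain ⟨l, hl⟩ := hκ (cZ Ψ) (fun x => by rw [← map_mul, ← map_mul, mul_comm])
  obtain ⟨η, hη⟩ := hκ (cF Ψ) (comm_ZF Ψ t)
  have hη' : ∀ u, cF Ψ u = κ (η u) := hη
  obtain ⟨N, hN, u, hu, h⟩ := hH t
  have h0 := congrArg Prod.snd ((apply_eq Ψ _ _).symm.trans (hΨ _ h))
  simp only [hη', kill η hu, map_one, mul_one, hl] at h0
  have h2 : l (t ^ N) ≠ 1 := by
    intro h3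
    have : cZ Ψ t ^ N = 1 := by rw [← map_pow, hl, h3, map_one]
    exact ht ((pow_eq_one_iff_left hN.ne').1 this)
  have hc := kappa_comm hab κ h2 (h0 ▸ hu)
  rintro ⟨a, v⟩ hv
  have h4 := congrArg Prod.snd ((apply_eq Ψ _ _).symm.trans (hΨ _ hv))
  simp only [hη', hl, ← map_mul] at h4
  have h5 : v ∈ commutator F := h4 ▸ hc _
  rw [kill η h5, mul_one] at h4
  exact h4.symm.trans (hl a).symm

include hC hab in
lemma typeI_of_mul (hH : Cond H) {Ψ Φ : Monoid.End (A × F)} (hΨ : Ψ ∈ eStab H) (hΦ : Φ ∈ eStab H)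
    (h : cZ (Ψ * Φ) = 1) : cZ Ψ = 1 ∧ cZ Φ = 1 := by
  have e : ∀ a, cZ Ψ a * cF Ψ (cZ Φ a) = 1 := fun a => by
    have := cZ_mul Ψ Φ a
    rw [h, cQ_id hH hΦ] at this
    exact this.symm
  by_cases h2 : cZ Φ = 1
  · refine ⟨MonoidHom.ext fun a => ?_, h2⟩
    simpa [h2] using e a
  exfalso
  have g2 := typeII_graph hC hab hH hΦ h2
  obtain ⟨E⟩ := exc_exists hC hab hH h2 g2
  by_cases h1 : cZ Ψ = 1
  · apply h2
    ext a
    have := e a
    rw [h1, E.hl, E.fix _ (typeI_mem hΨ h1)] at this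
    simpa [E.hl] using this
  · have g1 := typeII_graph hC hab hH hΨ h1
    have hz := graph_unique hH g1 g2
    obtain ⟨η, hη⟩ := E.lift (cF Ψ) (fun a u => hz ▸ comm_ZF Ψ a u)
    have hη' : ∀ u, cF Ψ u = E.κ (η u) := hη
    apply h1
    ext a
    have := e a
    rw [hη', E.hl a, kill η (E.comm _)] at this
    simpa using this

include hC hab in
lemma fg_base (hH : Cond H) (h : (eStab H).FG) : (eStab (H.map (MonoidHom.snd A F))).FG := by
  obtain ⟨S, hS, hfin⟩ := (Submonoid.fg_iff _).1 h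
  have hSm : ∀ Ψ ∈ Submonoid.closure S, Ψ ∈ eStab H := fun Ψ h => hS ▸ h
  refine (Submonoid.fg_iff _).2 ⟨cF '' {Ψ ∈ S | cZ Ψ = 1}, le_antisymm ?_ ?_,
    (hfin.subset (Set.sep_subset _ _)).image _⟩
  · rw [Submonoid.closure_le]
    rintro _ ⟨Ψ, ⟨h1, h2⟩, rfl⟩
    exact typeI_mem (hSm Ψ (Submonoid.subset_closure h1)) h2
  · have key : ∀ Ψ ∈ Submonoid.closure S, cZ Ψ = 1 →
        cF Ψ ∈ Submonoid.closure (cF '' {Ψ ∈ S | cZ Ψ = 1}) := by
      intro Ψ hΨ
      induction hΨ using Submonoid.closure_induction with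
      | mem x hx => exact fun h => Submonoid.subset_closure ⟨x, ⟨hx, h⟩, rfl⟩
      | one => exact fun _ => Submonoid.one_mem _
      | mul x y hx hy ihx ihy =>
        intro h
        obtain ⟨h1, h2⟩ := typeI_of_mul hC hab hH (hSm x hx) (hSm y hy) h
        have : cF (x * y) = cF x * cF y := by
          apply MonoidHom.ext; intro u
          have := cF_mul x y u
          rw [h1, MonoidHom.one_apply, one_mul] at this
          exact this
        rw [this]
        exact Submonoid.mul_mem _ (ihx h1) (ihy h2)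
    intro φ hφ
    have := key (liftE φ) (hS ▸ liftE_mem hφ) (MonoidHom.ext fun a => map_one φ)
    exact this

/-- the type II endomorphism with invariant `δ` -/
def Exc.T {z : A →* F} (E : Exc H z) (δ : F →* Multiplicative ℤ) : Monoid.End (A × F) :=
  MonoidHom.prod (MonoidHom.fst A F)
    (E.κ.comp (E.l.comp (MonoidHom.fst A F) * δ.comp (MonoidHom.snd A F)))

omit [IsMulTorsionFree A] [IsMulTorsionFree F] in
lemma Exc.T_apply {z : A →* F} (E : Exc H z) (δ : F →* Multiplicative ℤ) (g : A × F) :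
    E.T δ g = (g.1, z g.1 * E.κ (δ g.2)) := by
  rw [E.hl, ← map_mul]; rfl

omit [IsMulTorsionFree A] [IsMulTorsionFree F] in
lemma Exc.T_mem {z : A →* F} (E : Exc H z) (hg : Graph H z) (δ : F →* Multiplicative ℤ) :
    E.T δ ∈ eStab H := by
  intro g h
  have h1 : g.2 ∈ commutator F := by rw [hg g h, E.hl]; exact E.comm _
  rw [E.T_apply, kill δ h1, map_one, mul_one, ← hg g h]

def Exc.R {z : A →* F} (E : Exc H z) (Ψ : Monoid.End (A × F)) (δ : F →* Multiplicative ℤ) : Prop :=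
  ∀ u, cF Ψ u = z (cP Ψ u) * E.κ (δ u)

omit [IsMulTorsionFree A] [IsMulTorsionFree F] in
lemma Exc.R_exists {z : A →* F} (E : Exc H z) {Ψ : Monoid.End (A × F)} (h : cZ Ψ = z) :
    ∃ δ, E.R Ψ δ := by
  obtain ⟨η, hη⟩ := E.lift (cF Ψ) (fun a u => h ▸ comm_ZF Ψ a u)
  have hη' : ∀ u, cF Ψ u = E.κ (η u) := hη
  refine ⟨η / E.l.comp (cP Ψ), fun u => ?_⟩
  rw [hη', E.hl, ← map_mul]
  congr 1
  simp

include hC hab in
lemma fg_act (hH : Cond H) (h : (eStab H).FG) {z : A →* F} (hz : z ≠ 1) (hg : Graph H z) :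
    ∃ S : Set (F →* Multiplicative ℤ), S.Finite ∧ ∀ δ : F →* Multiplicative ℤ,
      ∃ s ∈ S, ∃ φ ∈ eStab (H.map (MonoidHom.snd A F)), δ = s.comp φ := by
  obtain ⟨E⟩ := exc_exists hC hab hH hz hg
  obtain ⟨S, hS, hfin⟩ := (Submonoid.fg_iff _).1 h
  have hSm : ∀ Ψ ∈ Submonoid.closure S, Ψ ∈ eStab H := fun Ψ h => hS ▸ h
  have hty : ∀ Ψ ∈ eStab H, cZ Ψ = 1 ∨ cZ Ψ = z := fun Ψ hΨ => by
    by_cases h1 : cZ Ψ = 1
    · exact Or.inl h1
    · exact Or.inr (graph_unique hH (typeII_graph hC hab hH hΨ h1) hg)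
  have hex : ∀ Ψ : Monoid.End (A × F), ∃ δ, cZ Ψ = z → E.R Ψ δ := fun Ψ => by
    by_cases h1 : cZ Ψ = z
    · obtain ⟨δ, hδ⟩ := E.R_exists h1
      exact ⟨δ, fun _ => hδ⟩
    · exact ⟨1, fun h => absurd h h1⟩
  choose d hd using hex
  refine ⟨insert 1 (d '' S), (hfin.image d).insert _, ?_⟩
  have key : ∀ Ψ ∈ Submonoid.closure S, cZ Ψ = z → ∃ s ∈ insert 1 (d '' S),
      ∃ φ ∈ eStab (H.map (MonoidHom.snd A F)), E.R Ψ (s.comp φ) := by
    intro Ψ hΨ
    induction hΨ using Submonoid.closure_induction with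
    | mem x hx => exact fun h => ⟨d x, Or.inr ⟨x, hx, rfl⟩, 1, Submonoid.one_mem _, hd x h⟩
    | one => exact fun h => absurd h.symm hz
    | mul x y hx hy ihx ihy =>
      intro h
      have mx := hSm x hx
      have my := hSm y hy
      rcases hty x mx with h1 | h1 <;> rcases hty y my with h2 | h2
      · exfalso
        apply hz
        ext a
        have := cZ_mul x y a
        rw [h, h1, h2] at this
        simpa using this
      · obtain ⟨s, hs, φ, hφ, hR⟩ := ihy h2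
        refine ⟨s, hs, φ, hφ, fun u => ?_⟩
        have e : cF y u = E.κ (E.l (cP y u) * (s.comp φ) u) := by rw [hR u, E.hl, map_mul]
        rw [cF_mul, cP_mul, cQ_id hH mx, h1, e, E.fix _ (typeI_mem mx h1), kill (cP x) (E.comm _),
          E.hl]
        simp
      · obtain ⟨s, hs, φ, hφ, hR⟩ := ihx h1
        refine ⟨s, hs, φ * cF y, Submonoid.mul_mem _ hφ (typeI_mem my h2), fun u => ?_⟩
        rw [cF_mul, cP_mul, cQ_id hH mx, h1, hR, map_mul, mul_assoc]
        rfl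
      · refine ⟨1, Or.inl rfl, 1, Submonoid.one_mem _, fun u => ?_⟩
        have c : cF y u ∈ commutator F := by
          rw [hd y h2 u, E.hl, ← map_mul]; exact E.comm _
        rw [cF_mul, cP_mul, cQ_id hH mx, h1, hd x h1, kill (cP x) c, kill (d x) c]
        simp
  intro δ
  obtain ⟨s, hs, φ, hφ, hR⟩ := key (E.T δ) (hS ▸ E.T_mem hg δ) (by
    ext a
    have := congrArg Prod.snd (E.T_apply δ (a, 1))
    simp only [map_one, mul_one] at this
    exact this)
  refine ⟨s, hs, φ, hφ, MonoidHom.ext fun u => E.inj ?_⟩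
  have h1 : cF (E.T δ) u = E.κ (δ u) := by
    have := congrArg Prod.snd (E.T_apply δ (1, u))
    simp only [map_one, one_mul] at this
    exact this
  have h2 : cP (E.T δ) u = 1 := rfl
  have := hR u
  rw [h1, h2, map_one, one_mul] at this
  exact this

include hC hab in
lemma fg_of (hD : ∀ D : Subgroup (F →* A), D.FG) (hH : Cond H)
    (h2 : (eStab (H.map (MonoidHom.snd A F))).FG)
    (h3 : (∃ z : A →* F, z ≠ 1 ∧ Graph H z) →
      ∃ S : Set (F →* Multiplicative ℤ), S.Finite ∧ ∀ δ : F →* Multiplicative ℤ,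
        ∃ s ∈ S, ∃ φ ∈ eStab (H.map (MonoidHom.snd A F)), δ = s.comp φ) : (eStab H).FG := by
  let D : Subgroup (F →* A) :=
    { carrier := {P | ∀ h ∈ H, P h.2 = 1}
      one_mem' := fun _ _ => rfl
      mul_mem' := fun {P P'} hP hP' h hh => by
        rw [MonoidHom.mul_apply, hP h hh, hP' h hh, mul_one]
      inv_mem' := fun {P} hP h hh => by rw [MonoidHom.inv_apply, hP h hh, inv_one] }
  have f1 := h2.map (liftE : Monoid.End F →* Monoid.End (A × F))
  have f2 := ((Subgroup.fg_iff_submonoid_fg D).1 (hD D)).map shear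
  set M1 := (eStab (H.map (MonoidHom.snd A F))).map (liftE : Monoid.End F →* Monoid.End (A × F))
  set M2 := D.toSubmonoid.map shear
  have l1 : M1 ≤ eStab H := by rintro _ ⟨φ, hφ, rfl⟩; exact liftE_mem hφ
  have l2 : M2 ≤ eStab H := by
    rintro _ ⟨P, hP, rfl⟩ g hg
    change (g.1 * P g.2, g.2) = g
    rw [hP g hg, mul_one]
  have tI : ∀ Ψ ∈ eStab H, cZ Ψ = 1 → Ψ ∈ M1 ⊔ M2 := by
    intro Ψ hΨ h1
    have e : Ψ = liftE (cF Ψ) * shear (cP Ψ) := by
      apply MonoidHom.ext; rintro ⟨a, u⟩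
      have := apply_eq Ψ a u
      rw [cQ_id hH hΨ, h1] at this
      exact this.trans (by simp; rfl)
    rw [e]
    refine Submonoid.mul_mem_sup ⟨_, typeI_mem hΨ h1, rfl⟩ ⟨_, ?_, rfl⟩
    rintro ⟨a, u⟩ h
    have := congrArg Prod.fst ((apply_eq Ψ _ _).symm.trans (hΨ _ h))
    rw [cQ_id hH hΨ] at this
    simpa using this
  by_cases hz : ∃ z : A →* F, z ≠ 1 ∧ Graph H z
  · obtain ⟨S, hS, hall⟩ := h3 hz
    obtain ⟨z, hz, hg⟩ := hz
    obtain ⟨E⟩ := exc_exists hC hab hH hz hg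
    have f3 : (Submonoid.closure (E.T '' S)).FG := (Submonoid.fg_iff _).2 ⟨_, rfl, hS.image _⟩
    have : eStab H = Submonoid.closure (E.T '' S) ⊔ (M1 ⊔ M2) := by
      apply le_antisymm
      · intro Ψ hΨ
        by_cases h1 : cZ Ψ = 1
        · exact Submonoid.mem_sup_right (tI Ψ hΨ h1)
        have h4 := graph_unique hH (typeII_graph hC hab hH hΨ h1) hg
        obtain ⟨δ, hδ⟩ := E.R_exists h4
        obtain ⟨s, hs, φ, hφ, rfl⟩ := hall δ
        have e : Ψ = E.T s * (liftE φ * shear (cP Ψ)) := by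
          apply MonoidHom.ext; rintro ⟨a, u⟩
          have := apply_eq Ψ a u
          rw [cQ_id hH hΨ, h4, hδ u] at this
          refine this.trans ?_
          change _ = E.T s (a * cP Ψ u, φ u)
          rw [E.T_apply, map_mul, mul_assoc]
          rfl
        rw [e]
        refine Submonoid.mul_mem_sup (Submonoid.subset_closure ⟨s, hs, rfl⟩)
          (Submonoid.mul_mem_sup ⟨_, hφ, rfl⟩ ⟨_, ?_, rfl⟩)
        intro g hg'
        apply kill
        rw [hg g hg', E.hl]; exact E.comm _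
      · refine sup_le ?_ (sup_le l1 l2)
        rw [Submonoid.closure_le]
        rintro _ ⟨s, -, rfl⟩
        exact E.T_mem hg s
    rw [this]
    exact f3.sup (f1.sup f2)
  · have : eStab H = M1 ⊔ M2 := by
      refine le_antisymm (fun Ψ hΨ => tI Ψ hΨ ?_) (sup_le l1 l2)
      by_contra h1
      exact hz ⟨_, h1, typeII_graph hC hab hH hΨ h1⟩
    rw [this]
    exact f1.sup f2

end

end Pool.Agent.Lib.MP_d96856_al
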