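import Mathlib
import Pool.Agent.Lib.MP_d96856_al.Abstract

namespace Pool.Agent.Lib.MP_d96856_al

open FreeGroup hiding map_mul map_one map_inv

lemma central_eq_one {α : Type} {x y : α} (hxy : x ≠ y) (w : FreeGroup α)
    (hw : ∀ g, g * w = w * g) : w = 1 := by
  classical
  by_contra h1
  have hL : w.toWord ≠ [] := fun h => h1 (toWord_eq_nil_iff.1 h)
  have hr : IsReduced w.toWord := isReduced_toWord
  obtain ⟨a, L, hL1⟩ := List.exists_cons_of_ne_nil hL
  obtain ⟨L', b, hL2⟩ : ∃ L' b, w.toWord = L' ++ [b] :=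
    ⟨_, _, (List.dropLast_append_getLast hL).symm⟩
  obtain ⟨c, c1, c2⟩ : ∃ c : α × Bool, c.1 ≠ a.1 ∧ (b.1 = c.1 → b.2 = c.2) := by
    by_cases h : x = a.1
    · exact ⟨(y, b.2), fun h' => hxy (h.trans h'.symm), fun _ => rfl⟩
    · exact ⟨(x, b.2), h, fun _ => rfl⟩
  have r1 : IsReduced (c :: w.toWord) := by
    rw [hL1] at hr ⊢
    exact isReduced_cons_cons.2 ⟨fun h => absurd h c1, hr⟩
  have r2 : IsReduced (w.toWord ++ [c]) := by
    rw [hL2] at hr ⊢
    exact IsReduced.append_overlap (L₂ := [b]) hr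
      (isReduced_cons_cons.2 ⟨c2, IsReduced.singleton⟩) (by simp)
  have h2 : mk (c :: w.toWord) = mk (w.toWord ++ [c]) := by
    have := hw (mk [c])
    conv at this => lhs; rw [← mk_toWord (x := w), mul_mk]
    conv at this => rhs; rw [← mk_toWord (x := w), mul_mk]
    exact this
  have h3 := congrArg toWord h2
  rw [toWord_mk, toWord_mk, r1.reduce_eq, r2.reduce_eq, hL1] at h3
  simp only [List.cons_append, List.cons.injEq] at h3
  exact c1 (congrArg Prod.fst h3.1)

lemma centralizer_cyclic {α : Type} (g : FreeGroup α) (hg : g ≠ 1) :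
    IsCyclic (Subgroup.centralizer ({g} : Set (FreeGroup α))) := by
  set C := Subgroup.centralizer ({g} : Set (FreeGroup α)) with hC
  have hgC : g ∈ C := by simp [hC, Subgroup.mem_centralizer_iff]
  let e := IsFreeGroup.toFreeGroup C
  have hne : e ⟨g, hgC⟩ ≠ 1 := by
    intro h
    rw [map_eq_one_iff _ e.injective] at h
    exact hg (congrArg Subtype.val h)
  have hsub : Subsingleton (IsFreeGroup.Generators C) := by
    refine ⟨fun x y => ?_⟩
    by_contra hxy
    apply hne
    apply central_eq_one hxy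
    intro k
    obtain ⟨k, rfl⟩ := e.surjective k
    rw [← map_mul, ← map_mul]
    congr 1
    apply Subtype.ext
    exact ((Subgroup.mem_centralizer_iff.1 k.2) g rfl).symm
  rcases isEmpty_or_nonempty (IsFreeGroup.Generators C) with h | ⟨⟨x⟩⟩
  · exact absurd (Subsingleton.elim _ _) hne
  · let _ : Unique (IsFreeGroup.Generators C) := uniqueOfSubsingleton x
    exact isCyclic_of_surjective e.symm.toMonoidHom e.symm.surjective

variable {m n : ℕ}

abbrev AA (m : ℕ) := Multiplicative (Fin m → ℤ)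
abbrev GG (m n : ℕ) := Multiplicative (Fin m → ℤ) × FreeGroup (Fin n)

def gen : Fin m ⊕ Fin n → GG m n
  | Sum.inl i => (Multiplicative.ofAdd (Pi.single i 1), 1)
  | Sum.inr j => (1, of j)

def coF (j : Fin n) : FreeGroup (Fin n) →* Multiplicative ℤ :=
  FreeGroup.lift fun i => Multiplicative.ofAdd (if i = j then 1 else 0)

def co : Fin m ⊕ Fin n → GG m n →* Multiplicative ℤ
  | Sum.inl i => (AddMonoidHom.toMultiplicative (Pi.evalAddMonoidHom (fun _ => ℤ) i)).comp
      (MonoidHom.fst _ _)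
  | Sum.inr j => (coF j).comp (MonoidHom.snd _ _)

lemma expandF {C : Type} [CommGroup C] (f : FreeGroup (Fin n) →* C) (u : FreeGroup (Fin n)) :
    f u = ∏ j, f (of j) ^ (coF j u).toAdd := by
  induction u using FreeGroup.induction_on with
  | C1 => simp
  | of x =>
    rw [Finset.prod_eq_single x]
    · simp [coF]
    · intro b _ hb; simp [coF, Ne.symm hb]
    · simp
  | inv_of x ih => rw [map_inv, ih, ← Finset.prod_inv_distrib]; simp
  | mul x y hx hy => rw [map_mul, hx, hy, ← Finset.prod_mul_distrib]; simp [zpow_add]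

lemma expandA {C : Type} [CommGroup C] (f : AA m →* C) (a : AA m) :
    f a = ∏ i, f (Multiplicative.ofAdd (Pi.single i 1)) ^ (a.toAdd i) := by
  simp only [← map_zpow, ← map_prod, ← ofAdd_zsmul, ← ofAdd_sum]
  congr 1
  apply Multiplicative.toAdd.injective
  ext k
  simp [Finset.sum_apply, Pi.single_apply]

lemma expandG {C : Type} [CommGroup C] (f : GG m n →* C) (g : GG m n) :
    f g = ∏ k, f (gen k) ^ (co k g).toAdd := by
  obtain ⟨a, u⟩ := g
  have : (a, u) = ((a, 1) : GG m n) * (1, u) := by simp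
  rw [Fintype.prod_sum_type]
  conv_lhs => rw [this, map_mul]
  congr 1
  · exact expandA (f.comp (MonoidHom.inl _ _)) a
  · exact expandF (f.comp (MonoidHom.inr _ _)) u

lemma mem_comm_iff (u : FreeGroup (Fin n)) : u ∈ commutator (FreeGroup (Fin n)) ↔
    ∀ j, coF j u = 1 := by
  refine ⟨fun h j => kill _ h, fun h => ?_⟩
  rw [← Abelianization.ker_of, MonoidHom.mem_ker, expandF Abelianization.of u]
  simp [h]

lemma comm_root (u : FreeGroup (Fin n)) (k : ℕ) (hk : k ≠ 0)
    (h : u ^ k ∈ commutator (FreeGroup (Fin n))) : u ∈ commutator (FreeGroup (Fin n)) := by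
  rw [mem_comm_iff] at h ⊢
  intro j
  have := h j
  rwa [map_pow, pow_eq_one_iff_left hk] at this

lemma sub_fg {B : Type} [CommGroup B] [Group.FG B] (D : Subgroup B) : D.FG := by
  have : Module.Finite ℤ (Additive B) := Module.Finite.iff_addGroup_fg.2 inferInstance
  rw [Subgroup.fg_iff_add_fg]
  have h := IsNoetherian.noetherian (R := ℤ) (AddSubgroup.toIntSubmodule D.toAddSubgroup)
  rw [Submodule.fg_iff_addSubgroup_fg] at h
  exact h

lemma hom_fg (D : Subgroup (FreeGroup (Fin n) →* AA m)) : D.FG := by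
  let f : (Fin n → AA m) →* (FreeGroup (Fin n) →* AA m) :=
    { toFun := fun v => FreeGroup.lift v
      map_one' := by ext; simp
      map_mul' := fun v w => by ext; simp }
  have : Group.FG (FreeGroup (Fin n) →* AA m) :=
    Group.fg_of_surjective (f := f) FreeGroup.lift.surjective
  exact sub_fg D

def mat (Ψ : Monoid.End (GG m n)) : Matrix (Fin m ⊕ Fin n) (Fin m ⊕ Fin n) ℤ :=
  fun i j => (co i (Ψ (gen j))).toAdd

lemma expandZ (f : GG m n →* Multiplicative ℤ) (g : GG m n) :
    (f g).toAdd = ∑ k, (f (gen k)).toAdd * (co k g).toAdd := by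
  rw [expandG f g, toAdd_prod]
  simp [mul_comm]

lemma mat_mul (Ψ Φ : Monoid.End (GG m n)) : mat (Ψ * Φ) = mat Ψ * mat Φ := by
  ext i j
  rw [Matrix.mul_apply]
  exact expandZ ((co i).comp Ψ) (Φ (gen j))

lemma mat_one : mat (1 : Monoid.End (GG m n)) = 1 := by
  ext i j
  change (co i (gen j)).toAdd = _
  rcases i with i | i <;> rcases j with j | j <;>
    simp [co, gen, coF, Matrix.one_apply, Pi.single_apply, eq_comm]

def chi : Monoid.End (GG m n) →* ℤ where
  toFun Ψ := (mat Ψ).det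
  map_one' := by rw [mat_one, Matrix.det_one]
  map_mul' Ψ Φ := by rw [mat_mul, Matrix.det_mul]

lemma not_fg_of_primes {M : Type} [Monoid M] (P : Submonoid M) (χ : M →* ℤ)
    (h : ∀ N : ℕ, ∃ p : ℕ, p.Prime ∧ N < p ∧ ∃ x ∈ P, χ x = p) : ¬ P.FG := by
  rintro ⟨S, hS⟩
  obtain ⟨p, hp, hN, x, hx, hχ⟩ := h (S.sup fun s => (χ s).natAbs)
  have key : ∀ y ∈ Submonoid.closure (S : Set M), χ y = 0 ∨ ¬ (p : ℤ) ∣ χ y := by
    intro y hy
    induction hy using Submonoid.closure_induction with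
    | mem s hs =>
      by_cases h0 : χ s = 0
      · exact Or.inl h0
      · right
        intro hd
        have h1 := Nat.le_of_dvd (Int.natAbs_pos.2 h0) (Int.natCast_dvd.1 hd)
        have h2 : (χ s).natAbs ≤ S.sup fun s => (χ s).natAbs :=
          Finset.le_sup (f := fun s => (χ s).natAbs) hs
        omega
    | one =>
      right
      rw [map_one]
      exact (Nat.prime_iff_prime_int.1 hp).not_dvd_one
    | mul a b _ _ ha hb =>
      rw [map_mul]
      rcases ha with ha | ha
      · left; rw [ha, zero_mul]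
      rcases hb with hb | hb
      · left; rw [hb, mul_zero]
      right
      intro hd
      exact ((Nat.prime_iff_prime_int.1 hp).dvd_or_dvd hd).elim ha hb
  rcases key x (hS ▸ hx) with h0 | h0
  · rw [hχ] at h0
    exact hp.ne_zero (by exact_mod_cast h0)
  · exact h0 (hχ ▸ dvd_refl _)

def abv : GG m n →* Multiplicative (Fin m ⊕ Fin n → ℤ) where
  toFun g := Multiplicative.ofAdd fun k => (co k g).toAdd
  map_one' := by simp; rfl
  map_mul' g h := by simp; rfl

lemma exists_fun (H : Subgroup (GG m n)) (t : AA m)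
    (ht : ∀ N : ℕ, 0 < N → ∀ u ∈ commutator (FreeGroup (Fin n)), (t ^ N, u) ∉ H) :
    ∃ f : GG m n →* Multiplicative ℤ, (∀ h ∈ H, f h = 1) ∧ f (t, 1) ≠ 1 := by
  let K : Submodule ℤ (Fin m ⊕ Fin n → ℤ) :=
    { carrier := {v | ∃ N : ℕ, 0 < N ∧ ∃ h ∈ H, (abv h).toAdd = N • v}
      zero_mem' := ⟨1, one_pos, 1, H.one_mem, by simp⟩
      add_mem' := by
        rintro v w ⟨N, hN, h, hh, e⟩ ⟨N', hN', h', hh', e'⟩
        refine ⟨N * N', by positivity, h ^ N' * h' ^ N, H.mul_mem (H.pow_mem hh _) (H.pow_mem hh' _), ?_⟩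
        rw [map_mul, map_pow, map_pow, toAdd_mul, toAdd_pow, toAdd_pow, e, e', smul_smul, smul_smul,
          smul_add, mul_comm N' N]
      smul_mem' := by
        rintro c v ⟨N, hN, h, hh, e⟩
        refine ⟨N, hN, h ^ c, H.zpow_mem hh _, ?_⟩
        rw [map_zpow, toAdd_zpow, e, smul_comm] }
  have hv : (abv ((t, 1) : GG m n)).toAdd ∉ K := by
    rintro ⟨N, hN, ⟨a, u⟩, hh, e⟩
    have e1 : a = t ^ N := by
      apply Multiplicative.toAdd.injective
      ext i
      simpa [abv, co] using congrFun e (Sum.inl i)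
    have e2 : u ∈ commutator (FreeGroup (Fin n)) := by
      rw [mem_comm_iff]
      intro j
      simpa [abv, co] using congrFun e (Sum.inr j)
    exact ht N hN u e2 (e1 ▸ hh)
  have htf : Module.IsTorsionFree ℤ ((Fin m ⊕ Fin n → ℤ) ⧸ K) := by
    rw [Module.isTorsionFree_iff_smul_eq_zero]
    intro c x hx
    obtain ⟨x, rfl⟩ := K.mkQ_surjective x
    by_cases hc : c = 0
    · exact Or.inl hc
    right
    rw [← map_smul, Submodule.mkQ_apply, Submodule.Quotient.mk_eq_zero] at hx
    rw [Submodule.mkQ_apply, Submodule.Quotient.mk_eq_zero]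
    obtain ⟨N, hN, h, hh, e⟩ := hx
    refine ⟨N * (c.natAbs * c.natAbs), by positivity, h ^ c, H.zpow_mem hh _, ?_⟩
    rw [map_zpow, toAdd_zpow, e]
    ext k
    simp only [Pi.smul_apply, smul_eq_mul]
    simp only [nsmul_eq_mul, Nat.cast_mul, Int.natAbs_mul_self']
    ring
  obtain ⟨f, f1, f2⟩ := K.exists_dual_map_eq_bot_of_notMem hv inferInstance
  refine ⟨(AddMonoidHom.toMultiplicative f.toAddMonoidHom).comp abv, fun h hh => ?_, f1⟩
  have : f (abv h).toAdd ∈ K.map f := ⟨_, ⟨1, one_pos, h, hh, by simp⟩, rfl⟩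
  rw [f2] at this
  exact this

lemma cond_of_fg (H : Subgroup (GG m n)) (h : (eStab H).FG) : Cond H := by
  by_contra hc
  simp only [Cond, not_forall, not_exists, not_and] at hc
  obtain ⟨t, ht⟩ := hc
  obtain ⟨f, f1, f2⟩ := exists_fun H t ht
  refine not_fg_of_primes _ chi (fun N => ?_) h
  set g : ℤ := (f (t, 1)).toAdd with hg
  have hg0 : g ≠ 0 := f2
  obtain ⟨p, hp, hN, hmod⟩ := Nat.exists_prime_gt_modEq_one N (Int.natAbs_ne_zero.2 hg0)
  obtain ⟨s, hs⟩ : g ∣ (p : ℤ) - 1 := by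
    rw [← Int.natAbs_dvd]
    exact_mod_cast hmod.symm.dvd
  let Ψ : Monoid.End (GG m n) := MonoidHom.prod
    (MonoidHom.fst _ _ * (zpowersHom _ (t ^ s)).comp f) (MonoidHom.snd _ _)
  have hΨ : ∀ x, Ψ x = x * ((t, 1) : GG m n) ^ (s * (f x).toAdd) := by
    intro x
    change (x.1 * (t ^ s) ^ (f x).toAdd, x.2) = _
    ext <;> simp [zpow_mul]
  refine ⟨p, hp, hN, Ψ, fun x hx => by rw [hΨ, f1 x hx]; simp, ?_⟩
  have e : mat Ψ = 1 + Matrix.replicateCol Unit (fun k => (co k ((t, 1) : GG m n)).toAdd) *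
      Matrix.replicateRow Unit (fun k => s * (f (gen k)).toAdd) := by
    rw [← mat_one]
    ext i j
    simp only [mat, hΨ, map_mul, map_zpow, toAdd_mul, toAdd_zpow, Matrix.add_apply, Matrix.mul_apply,
      Matrix.replicateCol_apply, Matrix.replicateRow_apply, Finset.univ_unique, Finset.sum_singleton,
      smul_eq_mul]
    rw [mul_comm]
    rfl
  change (mat Ψ).det = p
  rw [e, Matrix.det_one_add_replicateCol_mul_replicateRow]
  have := expandZ f (t, 1)
  simp only [dotProduct, mul_assoc, ← Finset.mul_sum, ← this]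
  linarith

theorem main (H : Subgroup (GG m n)) : (eStab H).FG ↔ Cond H ∧
    (eStab (H.map (MonoidHom.snd _ _))).FG ∧
    ((∃ z : AA m →* FreeGroup (Fin n), z ≠ 1 ∧ Graph H z) →
      ∃ S : Set (FreeGroup (Fin n) →* Multiplicative ℤ), S.Finite ∧ ∀ δ : FreeGroup (Fin n) →* Multiplicative ℤ,
        ∃ s ∈ S, ∃ φ ∈ eStab (H.map (MonoidHom.snd _ _)), δ = s.comp φ) := by
  constructor
  · intro h
    have hH := cond_of_fg H h
    exact ⟨hH, fg_base centralizer_cyclic comm_root hH h,
      fun ⟨z, hz, hg⟩ => fg_act centralizer_cyclic comm_root hH h hz hg⟩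
  · rintro ⟨h1, h2, h3⟩
    exact fg_of centralizer_cyclic comm_root hom_fg h1 h2 h3

end Pool.Agent.Lib.MP_d96856_al
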