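import Mathlib

namespace Pool.Agent.Lib.MP_d96856_al
open FreeGroup hiding map_mul map_one map_inv

variable {α : Type} [DecidableEq α]

/-- length of the longest common initial segment -/
def cp : List (α × Bool) → List (α × Bool) → ℕ
  | x :: l, y :: l' => if x = y then cp l l' + 1 else 0
  | _, _ => 0

lemma cp_ultra : ∀ l1 l2 l3 : List (α × Bool), min (cp l1 l2) (cp l2 l3) ≤ cp l1 l3
  | [], _, _ => by simp [cp]
  | _ :: _, [], _ => by simp [cp]
  | _ :: _, _ :: _, [] => by simp [cp]
  | x :: l1, y :: l2, z :: l3 => by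
    have := cp_ultra l1 l2 l3
    simp only [cp]
    by_cases h1 : x = y <;> by_cases h2 : y = z
    · simp [h1, h2] at this ⊢; omega
    · simp [h2]
    · simp [h1]
    · simp [h1]

lemma norm_red {l : List (α × Bool)} (h : IsReduced l) : (mk l).norm = l.length := by
  rw [FreeGroup.norm, toWord_mk, h.reduce_eq]

lemma red_invRev {l : List (α × Bool)} (h : IsReduced l) : IsReduced (invRev l) := by
  rw [isReduced_iff_reduce_eq, reduce_invRev, h.reduce_eq]

omit [DecidableEq α] in
lemma red_tail {x : α × Bool} {l : List (α × Bool)} (h : IsReduced (x :: l)) : IsReduced l :=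
  List.IsChain.tail h

omit [DecidableEq α] in
lemma mk_cons (x : α × Bool) (l : List (α × Bool)) : mk (x :: l) = mk [x] * mk l := by
  rw [mul_mk]; rfl

lemma norm_cp : ∀ l1 l2 : List (α × Bool), IsReduced l1 → IsReduced l2 →
    ((mk l1)⁻¹ * mk l2).norm + 2 * cp l1 l2 = l1.length + l2.length
  | [], l2, _, h2 => by
    rw [← one_eq_mk, inv_one, one_mul, norm_red h2]; simp [cp]
  | x :: l1, [], h1, _ => by
    rw [← one_eq_mk, mul_one, norm_inv_eq, norm_red h1]; simp [cp]
  | x :: l1, y :: l2, h1, h2 => by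
    by_cases h : x = y
    · subst h
      have := norm_cp l1 l2 (red_tail h1) (red_tail h2)
      have e : (mk (x :: l1))⁻¹ * mk (x :: l2) = (mk l1)⁻¹ * mk l2 := by
        rw [mk_cons x l1, mk_cons x l2]; group
      rw [e]
      simp only [cp, if_true, List.length_cons]
      omega
    · have r : IsReduced (invRev (x :: l1) ++ y :: l2) := by
        have r1 := red_invRev h1
        rw [invRev_cons] at r1 ⊢
        rw [List.append_assoc]
        have r2 : IsReduced (invRev [x] ++ y :: l2) := by
          change IsReduced ((x.1, !x.2) :: y :: l2)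
          refine isReduced_cons_cons.2 ⟨fun h3 => ?_, h2⟩
          by_contra h4
          apply h
          ext
          · exact h3
          · simpa using h4
        have := IsReduced.append_overlap r1 r2 (by simp [invRev])
        rwa [List.append_assoc] at this
      rw [inv_mk, mul_mk, norm_red r]
      simp [cp, h]

/-- the four point inequality in the Cayley tree -/
lemma four (g h k : FreeGroup α) :
    (g⁻¹ * k).norm + h.norm ≤ max ((g⁻¹ * h).norm + k.norm) ((h⁻¹ * k).norm + g.norm) := by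
  have e1 := norm_cp g.toWord h.toWord isReduced_toWord isReduced_toWord
  have e2 := norm_cp h.toWord k.toWord isReduced_toWord isReduced_toWord
  have e3 := norm_cp g.toWord k.toWord isReduced_toWord isReduced_toWord
  have u := cp_ultra g.toWord h.toWord k.toWord
  simp only [mk_toWord] at e1 e2 e3
  change _ = g.norm + h.norm at e1
  change _ = h.norm + k.norm at e2
  change _ = g.norm + k.norm at e3
  omega

/-- cyclic length -/
def cl (w : FreeGroup α) : ℕ := (reduceCyclically w.toWord).length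

/-- length of the conjugating word -/
def cd (w : FreeGroup α) : ℕ := (reduceCyclically.conjugator w.toWord).length

lemma norm_pow_succ (w : FreeGroup α) (n : ℕ) :
    (w ^ (n + 1)).norm = (n + 1) * cl w + 2 * cd w := by
  rw [FreeGroup.norm, toWord_pow, reduceCyclically.reduce_flatten_replicate_succ isReduced_toWord]
  simp [cl, cd]
  omega

lemma norm_cl (w : FreeGroup α) : w.norm = cl w + 2 * cd w := by
  simpa using norm_pow_succ w 0

lemma cl_pos {w : FreeGroup α} (h : w ≠ 1) : 0 < cl w := by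
  by_contra h0
  have h1 : reduceCyclically w.toWord = [] := List.length_eq_zero_iff.1 (by
    change cl w = 0
    omega)
  have h2 := reduceCyclically.conj_conjugator_reduceCyclically w.toWord
  rw [h1] at h2
  apply h
  rw [← mk_toWord (x := w), ← h2, List.append_nil, ← mul_mk, ← inv_mk, mul_inv_cancel]

lemma norm_sq_gt {w : FreeGroup α} (h : w ≠ 1) : w.norm < (w * w).norm := by
  have := norm_pow_succ w 1
  have h1 := norm_cl w
  have h2 := cl_pos h
  rw [show w ^ (1 + 1) = w * w from by rw [pow_succ, pow_one]] at this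
  omega

lemma norm_zpow (w : FreeGroup α) (e : ℤ) : (w ^ e).norm = (w ^ e.natAbs).norm := by
  rcases Int.natAbs_eq e with h | h
  · conv_lhs => rw [h, zpow_natCast]
  · conv_lhs => rw [h, zpow_neg, zpow_natCast, norm_inv_eq]

lemma natAbs_le_norm {w : FreeGroup α} (h : w ≠ 1) (e : ℤ) : e.natAbs ≤ (w ^ e).norm := by
  rw [norm_zpow]
  rcases e.natAbs with _ | n
  · simp
  · rw [norm_pow_succ]
    have := cl_pos h
    nlinarith

lemma norm_le_zpow (w : FreeGroup α) {e : ℤ} (he : e ≠ 0) : w.norm ≤ (w ^ e).norm := by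
  rw [norm_zpow]
  obtain ⟨n, hn⟩ : ∃ n, e.natAbs = n + 1 := Nat.exists_eq_succ_of_ne_zero (by simpa using he)
  rw [hn, norm_pow_succ, norm_cl w]
  nlinarith

lemma norm_zpow_le (w : FreeGroup α) (e : ℤ) : (w ^ e).norm ≤ e.natAbs * w.norm := by
  rw [norm_zpow]
  rcases e.natAbs with _ | n
  · simp
  · rw [norm_pow_succ, norm_cl w]
    nlinarith

lemma norm_conj_le (g w : FreeGroup α) : (g * w * g⁻¹).norm ≤ w.norm + 2 * g.norm := by
  have h1 := norm_mul_le (g * w) g⁻¹
  have h2 := norm_mul_le g w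
  rw [norm_inv_eq] at h1
  omega

lemma le_of_asymp {a b c : ℕ} (h : ∀ n : ℕ, (n + 1) * a ≤ (n + 1) * b + c) : a ≤ b := by
  by_contra hab
  have := h c
  nlinarith

lemma cl_conj_le (g w : FreeGroup α) : cl (g * w * g⁻¹) ≤ cl w := by
  refine le_of_asymp (c := 2 * cd w + 2 * g.norm) fun n => ?_
  have h1 := norm_pow_succ (g * w * g⁻¹) n
  have h2 := norm_pow_succ w n
  have h3 := norm_conj_le g (w ^ (n + 1))
  rw [conj_pow] at h1
  omega

lemma cl_conj (g w : FreeGroup α) : cl (g * w * g⁻¹) = cl w := by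
  refine le_antisymm (cl_conj_le g w) ?_
  have := cl_conj_le g⁻¹ (g * w * g⁻¹)
  rwa [show g⁻¹ * (g * w * g⁻¹) * g⁻¹⁻¹ = w by group] at this

lemma cl_le_norm (w : FreeGroup α) : cl w ≤ w.norm := by
  have := norm_cl w; omega

lemma cl_eq (w : FreeGroup α) : (w * w).norm = w.norm + cl w := by
  have := norm_pow_succ w 1
  have h1 := norm_cl w
  rw [show w ^ (1 + 1) = w * w from by rw [pow_succ, pow_one]] at this
  omega

/-- displacement is quasi-convex along geodesics -/
lemma conj_convex (g1 g2 w : FreeGroup α) (h : (g2 * g1).norm = g2.norm + g1.norm) :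
    (g1 * w * g1⁻¹).norm ≤ max w.norm (g2 * g1 * w * (g2 * g1)⁻¹).norm := by
  have f := four g1 (g1 * w * g1⁻¹) g2⁻¹
  have e1 : (g1⁻¹ * g2⁻¹).norm = g2.norm + g1.norm := by
    rw [← mul_inv_rev, norm_inv_eq, h]
  have e2 : (g1⁻¹ * (g1 * w * g1⁻¹)).norm ≤ w.norm + g1.norm := by
    rw [show g1⁻¹ * (g1 * w * g1⁻¹) = w * g1⁻¹ by group]
    simpa using norm_mul_le w g1⁻¹
  have e3 : ((g1 * w * g1⁻¹)⁻¹ * g2⁻¹).norm ≤ (g2 * g1 * w * (g2 * g1)⁻¹).norm + g2.norm := by
    rw [← norm_inv_eq, show ((g1 * w * g1⁻¹)⁻¹ * g2⁻¹)⁻¹ = g2 * g1 * w * (g2 * g1)⁻¹ * g2 by group]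
    exact norm_mul_le _ _
  rw [norm_inv_eq] at f
  omega

lemma finite_ball [Finite α] (n : ℕ) : {w : FreeGroup α | w.norm ≤ n}.Finite :=
  Set.Finite.of_finite_image (f := toWord)
    ((List.finite_length_le (α × Bool) n).subset (by rintro _ ⟨w, hw, rfl⟩; exact hw))
    toWord_injective.injOn

end Pool.Agent.Lib.MP_d96856_al
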