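import Mathlib
import Pool.Agent.Lib.MP_d96856_al.Main
import Pool.Agent.Lib.MP_d96856_al.R2T

namespace Pool.Agent.Lib.MP_d96856_al.N
open FreeGroup hiding map_mul map_one map_inv

section Poly
variable {G : Type} [Group G]

/-- polynomial functions of degree less than `k` -/
def Pol : ℕ → (G → ℤ) → Prop
  | 0, f => ∀ w, f w = 0
  | k + 1, f => ∀ u, Pol k fun w => f (u * w) - f w

lemma Pol.congr {k : ℕ} {f g : G → ℤ} (h : Pol k f) (e : ∀ w, g w = f w) : Pol k g :=
  (funext e : g = f) ▸ h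

lemma Pol.zero : ∀ k, Pol k fun _ : G => (0 : ℤ)
  | 0 => fun _ => rfl
  | k + 1 => fun _ => (Pol.zero k).congr fun _ => sub_self _

lemma Pol.lin (a b : ℤ) : ∀ {k} {f g : G → ℤ}, Pol k f → Pol k g → Pol k fun w => a * f w + b * g w
  | 0, _, _, hf, hg => fun w => by simp [hf w, hg w]
  | _ + 1, _, _, hf, hg => fun u => (Pol.lin a b (hf u) (hg u)).congr fun w => by ring

lemma Pol.succ : ∀ {k} {f : G → ℤ}, Pol k f → Pol (k + 1) f
  | 0, _, hf => fun u w => by simp [hf w, hf (u * w)]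
  | _ + 1, _, hf => fun u => Pol.succ (hf u)

lemma Pol.shift {k : ℕ} {f : G → ℤ} (h : Pol k f) (u : G) : Pol k fun w => f (u * w) :=
  (Pol.lin 1 1 (h.succ u) h).congr fun w => by ring

lemma Pol.comp (φ : G →* G) : ∀ {k} {f : G → ℤ}, Pol k f → Pol k fun w => f (φ w)
  | 0, _, hf => fun _ => hf _
  | _ + 1, _, hf => fun u => (Pol.comp φ (hf (φ u))).congr fun w => by simp

end Poly

variable {α : Type}

lemma exists_int (a : α → FreeGroup α → ℤ) :
    ∃ f : FreeGroup α → ℤ, f 1 = 0 ∧ ∀ j w, f (of j * w) = f w + a j w := by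
  let e : α → Equiv.Perm (FreeGroup α × ℤ) := fun j =>
    { toFun := fun p => (of j * p.1, p.2 + a j p.1)
      invFun := fun p => ((of j)⁻¹ * p.1, p.2 - a j ((of j)⁻¹ * p.1))
      left_inv := fun p => by simp
      right_inv := fun p => by simp }
  have h1 : ∀ u p, (FreeGroup.lift e u p).1 = u * p.1 := by
    intro u
    induction u using FreeGroup.induction_on with
    | C1 => simp
    | of x => intro p; simp [e]
    | inv_of x _ => intro p; rw [map_inv, lift_apply_of]; rfl
    | mul x y hx hy => intro p; rw [map_mul, Equiv.Perm.mul_apply, hx, hy, mul_assoc]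
  refine ⟨fun u => (FreeGroup.lift e u (1, 0)).2, by simp, fun j w => ?_⟩
  simp only [map_mul, Equiv.Perm.mul_apply, lift_apply_of]
  change _ + a j (FreeGroup.lift e w (1, 0)).1 = _
  rw [h1, mul_one]

lemma pol_gen {k : ℕ} {f g : FreeGroup α → ℤ} (l : FreeGroup α →* Multiplicative ℤ)
    (hg : Pol (k + 1) g)
    (h : ∀ j, Pol k fun w => f (of j * w) - f w - (l (of j)).toAdd * g w) (u : FreeGroup α) :
    Pol k fun w => f (u * w) - f w - (l u).toAdd * g w := by
  induction u using FreeGroup.induction_on with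
  | C1 => exact (Pol.zero k).congr fun w => by simp
  | of x => exact h x
  | inv_of x ih =>
    refine (Pol.lin (-1) (-(l (of x)).toAdd) (ih.shift (of x)⁻¹) (hg (of x)⁻¹)).congr fun w => ?_
    simp only [mul_inv_cancel_left, map_inv, toAdd_inv]
    ring
  | mul x y hx hy =>
    refine (Pol.lin 1 1 (Pol.lin 1 (l x).toAdd (hx.shift y) (hg y)) hy).congr fun w => ?_
    simp only [map_mul, toAdd_mul, mul_assoc]
    ring

lemma pol_gen0 {k : ℕ} {f : FreeGroup α → ℤ} (h : ∀ j, Pol k fun w => f (of j * w) - f w) :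
    Pol (k + 1) f := fun u =>
  (pol_gen (f := f) 1 (Pol.zero _) (fun j => (h j).congr fun w => by simp) u).congr fun w => by simp

variable [DecidableEq α]

/-- the Magnus coefficients -/
noncomputable def mg : List α → FreeGroup α → ℤ
  | [] => fun _ => 1
  | j :: J => (exists_int fun i w => if i = j then mg J w else 0).choose

lemma mg_one (j : α) (J : List α) : mg (j :: J) 1 = 0 :=
  (exists_int fun i w => if i = j then mg J w else 0).choose_spec.1

lemma mg_of (i j : α) (J : List α) (w : FreeGroup α) :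
    mg (j :: J) (of i * w) = mg (j :: J) w + if i = j then mg J w else 0 :=
  (exists_int fun i w => if i = j then mg J w else 0).choose_spec.2 i w

lemma mg_pol : ∀ J : List α, Pol (J.length + 1) (mg J)
  | [] => fun _ _ => sub_self _
  | j :: J => pol_gen0 fun i => by
    by_cases h : i = j
    · exact (mg_pol J).congr fun w => by simp [mg_of, h]
    · exact (Pol.zero _).congr fun w => by simp [mg_of, h]

lemma mg_ne {K : List α} {i : α} (h : K.head? ≠ some i) (s : Bool) (w : FreeGroup α) :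
    mg K (mk [(i, s)] * w) = mg K w := by
  rcases K with _ | ⟨j, J⟩
  · rfl
  have hij : ¬ i = j := fun e => h (by simp [e])
  cases s
  · have := mg_of i j J ((of i)⁻¹ * w)
    rw [mul_inv_cancel_left, if_neg hij, add_zero] at this
    exact this.symm
  · exact (mg_of i j J w).trans (by simp [hij])

lemma mg_eq {J : List α} {i : α} (h : J.head? ≠ some i) (s : Bool) (w : FreeGroup α) :
    mg (i :: J) (mk [(i, s)] * w) = mg (i :: J) w + (if s then 1 else -1) * mg J w := by
  cases s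
  · have := mg_of i i J ((of i)⁻¹ * w)
    have e : mg J ((of i)⁻¹ * w) = mg J w := mg_ne h false w
    rw [mul_inv_cancel_left, if_pos rfl, e] at this
    change mg (i :: J) ((of i)⁻¹ * w) = _
    simp only [Bool.false_eq_true, if_false]
    omega
  · exact (mg_of i i J w).trans (by simp)

omit [DecidableEq α] in
lemma head_ne {i : α} {J : List α} (h : (i :: J).IsChain (· ≠ ·)) : J.head? ≠ some i := by
  rcases J with _ | ⟨j, J⟩
  · simp
  · simpa using (List.isChain_cons_cons.1 h).1.symm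

lemma van_step {i : α} (s : Bool) {w : FreeGroup α} {n : ℕ}
    (h : ∀ K : List α, K.IsChain (· ≠ ·) → (n < K.length ∨ (n = K.length ∧ K.head? ≠ some i)) →
      mg K w = 0) (K : List α) (hK : K.IsChain (· ≠ ·))
    (hn : n < K.length ∨ (n = K.length ∧ K.head? ≠ some i)) : mg K (mk [(i, s)] * w) = 0 := by
  by_cases e : K.head? = some i
  · obtain ⟨J, rfl⟩ := List.head?_eq_some_iff.1 e
    have l : n < (i :: J).length := hn.resolve_right fun h => h.2 e
    rw [mg_eq (head_ne hK), h _ hK (Or.inl l), h J hK.tail (by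
      rw [List.length_cons] at l
      rcases Nat.lt_succ_iff_lt_or_eq.1 l with l | l
      exacts [Or.inl l, Or.inr ⟨l, head_ne hK⟩])]
    simp
  · rw [mg_ne e, h K hK hn]

lemma magnus_aux : ∀ (l : List (α × Bool)) (p : α × Bool), IsReduced (p :: l) →
    ∃ J : List α, (p.1 :: J).IsChain (· ≠ ·) ∧
      0 < (if p.2 then 1 else -1) * mg (p.1 :: J) (mk (p :: l)) * mg J (mk (p :: l)) ∧
      ∀ K : List α, K.IsChain (· ≠ ·) →
        (J.length + 1 < K.length ∨ (J.length + 1 = K.length ∧ K.head? ≠ some p.1)) →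
        mg K (mk (p :: l)) = 0
  | [], (i, s), _ => by
    refine ⟨[], by simp, ?_, fun K hK hn => ?_⟩
    · rw [← mul_one (mk _), mg_eq (by simp), mg_one]
      cases s <;> simp [mg]
    · rw [← mul_one (mk _)]
      refine van_step s (fun K _ hn => ?_) K hK hn
      rcases K with _ | ⟨j, K⟩
      · simp at hn
      · exact mg_one _ _
  | (j, t) :: l, (i, s), h => by
    obtain ⟨h1, h2⟩ := isReduced_cons_cons.1 h
    obtain ⟨J, c, pos, van⟩ := magnus_aux l (j, t) h2
    rw [mk_cons (i, s)]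
    generalize mk ((j, t) :: l) = w at pos van
    by_cases e : i = j
    · subst e
      obtain rfl : s = t := h1 rfl
      refine ⟨J, c, ?_, van_step s van⟩
      rw [mg_eq (head_ne c), mg_ne (head_ne c)]
      cases s <;> simp at pos ⊢ <;> nlinarith [mul_self_nonneg (mg J w)]
    · have c' : (i :: j :: J).IsChain (· ≠ ·) := List.isChain_cons_cons.2 ⟨e, c⟩
      refine ⟨j :: J, c', ?_, van_step s fun K hK hn => van K hK (Or.inl ?_)⟩
      · rw [mg_eq (head_ne c'), mg_ne (head_ne c'), van _ c' (Or.inl (by simp))]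
        have : mg (j :: J) w ≠ 0 := fun e => by simp [e] at pos
        cases s <;> simpa using this
      · rw [List.length_cons] at hn
        omega

lemma magnus {y : FreeGroup α} (hy : y ≠ 1) : ∃ k, ∃ f : FreeGroup α → ℤ, Pol k f ∧ f y ≠ f 1 := by
  obtain ⟨p, l, hl⟩ := List.exists_cons_of_ne_nil (fun h => hy (toWord_eq_nil_iff.1 h))
  obtain ⟨J, -, pos, -⟩ := magnus_aux l p (hl ▸ isReduced_toWord)
  rw [← hl, mk_toWord] at pos
  exact ⟨_, _, mg_pol (p.1 :: J), fun e => by simp [e, mg_one] at pos⟩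

variable {m n : ℕ}

/-- a nonzero family of vectors of the abelianisation that every endomorphism fixing `y`
permutes from the right -/
lemma exists_vec {y : FreeGroup (Fin n)} (hy : y ≠ 1) : ∃ V : Set (Fin n → ℤ), (∃ v ∈ V, v ≠ 0) ∧
    ∀ φ : FreeGroup (Fin n) →* FreeGroup (Fin n), φ y = y → ∀ v ∈ V, ∃ v' ∈ V,
      ∀ j, v j = ∑ i, (coF j (φ (of i))).toAdd * v' i := by
  classical
  have ex := magnus hy
  obtain ⟨f0, p0, n0⟩ := Nat.find_spec ex
  have mn : ∀ k < Nat.find ex, ∀ f, Pol k f → f y = f 1 := fun k hk f hf => by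
    by_contra e
    exact Nat.find_min ex hk ⟨f, hf, e⟩
  generalize Nat.find ex = c at p0 mn
  obtain _ | _ | c := c
  · exact absurd ((p0 y).trans (p0 1).symm) n0
  · exact absurd (by simpa [sub_eq_zero] using p0 y 1) n0
  have I : ∀ (g : FreeGroup (Fin n) → ℤ) (j : Fin n), ∃ f : FreeGroup (Fin n) → ℤ, f 1 = 0 ∧
      ∀ i w, f (of i * w) = f w + (coF j (of i)).toAdd * g w :=
    fun g j => exists_int fun i w => (coF j (of i)).toAdd * g w
  choose I I1 I2 using I
  have sm : ∀ (f : FreeGroup (Fin n) → ℤ) (a : Fin n → ℤ) (g : Fin n → FreeGroup (Fin n) → ℤ),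
      (∀ i, Pol c fun w => f (of i * w) - f w - a i * g i w) →
      f y - f 1 = ∑ i, a i * I (g i) i y := by
    intro f a g h
    have := mn (c + 1) (by omega) (fun w => f w - ∑ i, a i * I (g i) i w) (pol_gen0 fun j =>
      (h j).congr fun w => by
        have e : ∑ i, a i * ((coF i (of j)).toAdd * g i w) = a j * g j w := by
          rw [Finset.sum_eq_single j (fun i _ hi => by simp [coF, Ne.symm hi]) (by simp)]
          simp [coF]
        simp only [I2, mul_add, Finset.sum_add_distrib, e]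
        ring)
    simp only [I1, mul_zero, Finset.sum_const_zero] at this
    omega
  refine ⟨{v | ∃ g, Pol (c + 1) g ∧ v = fun j => I g j y}, ?_, ?_⟩
  · by_contra h
    push Not at h
    have := sm f0 (fun _ => 1) (fun i w => f0 (of i * w) - f0 w)
      fun i => (Pol.zero _).congr fun w => by ring
    rw [Finset.sum_eq_zero fun i _ => by
      rw [congrFun (h _ ⟨_, p0 (of i), rfl⟩) i]; simp] at this
    exact n0 (sub_eq_zero.1 this)
  · rintro φ hφ _ ⟨g, hg, rfl⟩
    refine ⟨_, ⟨_, hg.comp φ, rfl⟩, fun j => ?_⟩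
    have := sm (fun w => I g j (φ w)) (fun i => (coF j (φ (of i))).toAdd) (fun _ w => g (φ w))
      fun i => ((pol_gen (f := I g j) (coF j) hg (fun i => (Pol.zero _).congr fun w => by
        rw [I2]; ring) (φ (of i))).comp φ).congr fun w => by rw [map_mul]
    rwa [hφ, map_one, I1, sub_zero] at this

lemma act_not_fg {y : FreeGroup (Fin n)} (hy : y ≠ 1)
    (S : Set (FreeGroup (Fin n) →* Multiplicative ℤ)) (hS : S.Finite) :
    ¬ ∀ δ : FreeGroup (Fin n) →* Multiplicative ℤ, ∃ s ∈ S,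
      ∃ φ : FreeGroup (Fin n) →* FreeGroup (Fin n), φ y = y ∧ δ = s.comp φ := by
  intro hall
  obtain ⟨V, ⟨v0, hv0, n0⟩, hV⟩ := exists_vec hy
  obtain ⟨j0, hj0⟩ := Function.ne_iff.1 n0
  let dt : (FreeGroup (Fin n) →* Multiplicative ℤ) → (Fin n → ℤ) → ℤ :=
    fun s v => ∑ j, (s (of j)).toAdd * v j
  have ex : ∀ s, ∃ b : ℕ, (∃ v ∈ V, dt s v ≠ 0) → ∃ v ∈ V, dt s v ≠ 0 ∧ (dt s v).natAbs ≤ b := by
    intro s
    by_cases h : ∃ v ∈ V, dt s v ≠ 0
    · obtain ⟨v, h1, h2⟩ := h
      exact ⟨_, fun _ => ⟨v, h1, h2, le_rfl⟩⟩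
    · exact ⟨0, fun h' => absurd h' h⟩
  choose b hb using ex
  obtain ⟨p, hp⟩ := (hS.image b).bddAbove
  obtain ⟨s, hs, φ, hφ, e⟩ := hall (coF j0 ^ (p + 1))
  let Φ : (Fin n → ℤ) → Fin n → ℤ := fun v j => ∑ i, (coF j (φ (of i))).toAdd * v i
  have e1 : ∀ v, dt s (Φ v) = (p + 1 : ℕ) * v j0 := fun v => by
    have e2 : ∀ i, ∑ j, (s (of j)).toAdd * (coF j (φ (of i))).toAdd =
        if i = j0 then ((p + 1 : ℕ) : ℤ) else 0 := fun i => by
      have := congrArg Multiplicative.toAdd ((DFunLike.congr_fun e (of i)).trans (expandF s _))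
      rw [toAdd_prod] at this
      simp only [toAdd_zpow, smul_eq_mul, mul_comm] at this ⊢
      rw [← this]
      simp [coF]
    simp only [dt, Φ, Finset.mul_sum, ← mul_assoc]
    rw [Finset.sum_comm]
    simp only [← Finset.sum_mul, e2]
    simp
  have hV' : ∀ v ∈ V, ∃ v' ∈ V, v = Φ v' := fun v hv => by
    obtain ⟨v', h1, h2⟩ := hV φ hφ v hv
    exact ⟨v', h1, funext h2⟩
  have z : ∀ v ∈ V, dt s v = 0 := by
    by_contra h
    push Not at h
    obtain ⟨v, h1, h2, h3⟩ := hb s h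
    obtain ⟨v', -, rfl⟩ := hV' v h1
    have := hp ⟨s, hs, rfl⟩
    exact h2 (Int.eq_zero_of_dvd_of_natAbs_lt_natAbs ⟨_, e1 v'⟩ (by omega))
  let c : (Fin n → ℤ) → Fin n → ℚ := fun v j => v j
  let D : (Fin n → ℚ) →ₗ[ℚ] ℚ := ∑ j, ((s (of j)).toAdd : ℚ) • LinearMap.proj j
  let P : (Fin n → ℚ) →ₗ[ℚ] Fin n → ℚ :=
    LinearMap.pi fun j => ∑ i, ((coF j (φ (of i))).toAdd : ℚ) • LinearMap.proj i
  have hD : ∀ v, D (c v) = dt s v := fun v => by simp [D, c, dt, LinearMap.sum_apply]
  have hP : ∀ v, P (c v) = c (Φ v) := fun v => by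
    funext j
    simp [P, c, Φ, LinearMap.sum_apply]
  let W := Submodule.span ℚ (c '' V)
  have le : W ≤ W.map P := Submodule.span_le.2 (by
    rintro _ ⟨v, hv, rfl⟩
    obtain ⟨v', h1, rfl⟩ := hV' v hv
    exact ⟨c v', Submodule.subset_span ⟨v', h1, rfl⟩, hP v'⟩)
  have zW : W ≤ LinearMap.ker D := Submodule.span_le.2 (by
    rintro _ ⟨v, hv, rfl⟩
    change D (c v) = 0
    rw [hD, z v hv, Int.cast_zero])
  have eq := Submodule.eq_of_le_of_finrank_le le (Submodule.finrank_map_le P W)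
  have hm : P (c v0) ∈ W := eq ▸ ⟨c v0, Submodule.subset_span ⟨v0, hv0, rfl⟩, rfl⟩
  have := zW hm
  rw [LinearMap.mem_ker, hP, hD, e1, Int.cast_eq_zero, mul_eq_zero] at this
  exact this.elim (by omega) hj0

theorem neg_typeII (H : Subgroup (GG m n)) (hfg : (eStab H).FG) {z : AA m →* FreeGroup (Fin n)}
    (hz : z ≠ 1) : ¬ Graph H z := by
  intro hg
  have hH := cond_of_fg H hfg
  obtain ⟨X⟩ := exc_exists centralizer_cyclic comm_root hH hz hg
  obtain ⟨S, hS, hall⟩ := fg_act centralizer_cyclic comm_root hH hfg hz hg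
  have y1 : X.κ (Multiplicative.ofAdd 1) ≠ 1 := fun h => by
    have := X.inj (h.trans (map_one _).symm)
    simp at this
  refine act_not_fg y1 S hS fun δ => ?_
  obtain ⟨s, hs, φ, hφ, e⟩ := hall δ
  exact ⟨s, hs, φ, X.fix φ hφ _, e⟩

theorem criterion (H : Subgroup (GG m n)) : (eStab H).FG ↔ Cond H ∧
    (eStab (H.map (MonoidHom.snd _ _))).FG ∧
    ∀ z : AA m →* FreeGroup (Fin n), Graph H z → z = 1 := by
  refine ⟨fun h => ⟨((main H).1 h).1, ((main H).1 h).2.1, fun z hz => ?_⟩,
    fun ⟨h1, h2, h3⟩ => (main H).2 ⟨h1, h2, fun ⟨z, hz, hg⟩ => absurd (h3 z hg) hz⟩⟩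
  by_contra e
  exact neg_typeII H h e hz

end Pool.Agent.Lib.MP_d96856_al.N
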