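import Mathlib
import Pool.Agent.Lib.MP_d96856_al.Defs

namespace Pool.Agent.Lib.MP_d96856_al.N

/-- The standard generators `t_1, ..., t_m, a_1, ..., a_n` of `Z^m × F_n`. -/
def gn (m n : ℕ) : Fin (m + n) → Multiplicative (Fin m → ℤ) × FreeGroup (Fin n) :=
  Fin.addCases (fun i => (Multiplicative.ofAdd (Pi.single i 1), 1)) (fun j => (1, FreeGroup.of j))

/-- The element spelled by a word: the letter `(x, true)` is the generator number `x`, the letter
`(x, false)` is its inverse. -/
def ev {G : Type} [Group G] {k : ℕ} (gen : Fin k → G) (w : List (Fin k × Bool)) : G :=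
  (w.map fun p => if p.2 then gen p.1 else (gen p.1)⁻¹).prod

/-- There is an algorithm which, given words generating a subgroup `H`, decides whether the monoid
of endomorphisms fixing `H` pointwise is finitely generated and, if so, outputs the generator
images (as words) of endomorphisms that generate it. -/
def Solvable {G : Type} [Group G] {k : ℕ} (gen : Fin k → G) : Prop :=
  ∃ A : List (List (Fin k × Bool)) → Option (List (Fin k → List (Fin k × Bool))),
    Computable A ∧ ∀ l : List (List (Fin k × Bool)),
      (A l = none ↔ ¬ (eStab (Subgroup.closure {g | ∃ w ∈ l, ev gen w = g})).FG) ∧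
      ∀ S, A l = some S → ∃ Ψ : Fin S.length → Monoid.End G,
        (∀ i x, Ψ i (gen x) = ev gen (S.get i x)) ∧
        Submonoid.closure (Set.range Ψ) = eStab (Subgroup.closure {g | ∃ w ∈ l, ev gen w = g})

end Pool.Agent.Lib.MP_d96856_al.N
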