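import Mathlib
import Pool.Agent.Lib.MP_d96856_al.NA
import Pool.Agent.Lib.MP_d96856_al.NDefs

namespace Pool.Agent.Lib.MP_d96856_al.N
open FreeGroup hiding map_mul map_one map_inv

lemma mk_t {β : Type} (i : β) : mk [(i, true)] = of i := rfl
lemma mk_f {β : Type} (i : β) : mk [(i, false)] = (of i)⁻¹ := rfl

lemma lip_hom {α β : Type} [DecidableEq α] [DecidableEq β] (f : FreeGroup α →* FreeGroup β) {B : ℕ}
    (h : ∀ i, (f (of i)).norm ≤ B) (w : FreeGroup α) : (f w).norm ≤ B * w.norm := by
  have : ∀ l : List (α × Bool), (f (mk l)).norm ≤ B * l.length := by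
    intro l
    induction l with
    | nil => rw [← one_eq_mk, map_one]; simp
    | cons p l ih =>
      rw [mk_cons, map_mul, List.length_cons]
      refine (FreeGroup.norm_mul_le _ _).trans ?_
      have : (f (mk [p])).norm ≤ B := by
        obtain ⟨i, s⟩ := p
        cases s
        · rw [mk_f, map_inv, norm_inv_eq]; exact h i
        · exact h i
      nlinarith
  have := this w.toWord
  rwa [mk_toWord] at this

/-- all lists of length at most `n` with entries in `X` -/
def allL {β : Type} (X : List β) : ℕ → List (List β)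
  | 0 => [[]]
  | n + 1 => [] :: X.flatMap fun x => (allL X n).map fun l => x :: l

lemma mem_allL {β : Type} (X : List β) : ∀ (n : ℕ) (l : List β),
    l ∈ allL X n ↔ l.length ≤ n ∧ ∀ x ∈ l, x ∈ X
  | 0, l => by cases l <;> simp [allL]
  | n + 1, [] => by simp [allL]
  | n + 1, y :: l => by
    simp only [allL, List.mem_cons, reduceCtorEq, List.mem_flatMap, List.mem_map, List.cons.injEq,
      false_or, List.length_cons, Nat.add_le_add_iff_right, forall_eq_or_imp]
    constructor
    · rintro ⟨x, hx, l', hl', rfl, rfl⟩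
      rw [mem_allL] at hl'
      exact ⟨hl'.1, hx, hl'.2⟩
    · rintro ⟨h1, h2, h3⟩
      exact ⟨y, h2, l, (mem_allL X n l).2 ⟨h1, h3⟩, rfl, rfl⟩

@[fun_prop]
def PR {α β : Type} [Primcodable α] [Primcodable β] (f : α → β) : Prop := Primrec f

@[fun_prop]
def PP {α : Type} [Primcodable α] (p : α → Prop) : Prop := PrimrecPred p

def Ball {β : Type} (l : List β) (p : β → Prop) : Prop := ∀ b ∈ l, p b
def Bex {β : Type} (l : List β) (p : β → Prop) : Prop := ∃ b ∈ l, p b
open Classical in
noncomputable def flt {β : Type} (l : List β) (p : β → Prop) : List β :=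
  l.filter fun b => decide (p b)
def apf {n : ℕ} {β : Type} (c : Fin n → β) (i : Fin n) : β := c i

lemma mem_flt {β : Type} {l : List β} {p : β → Prop} {b : β} : b ∈ flt l p ↔ b ∈ l ∧ p b := by
  simp [flt]

variable {α β γ : Type} [Primcodable α] [Primcodable β] [Primcodable γ]

namespace PR

theorem of_eq {f g : α → β} (h : PR f) (H : ∀ a, f a = g a) : PR g := Primrec.of_eq h H

@[fun_prop] theorem id : PR fun a : α => a := Primrec.id
@[fun_prop] theorem const (b : β) : PR fun _ : α => b := Primrec.const b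
@[fun_prop] theorem comp {g : β → γ} {f : α → β} (hg : PR g) (hf : PR f) :
    PR fun a => g (f a) := Primrec.comp hg hf
@[fun_prop] theorem prodMk {f : α → β} {g : α → γ} (hf : PR f) (hg : PR g) :
    PR fun a => (f a, g a) := Primrec.pair hf hg
@[fun_prop] theorem fst {f : α → β × γ} (hf : PR f) : PR fun a => (f a).1 := Primrec.fst.comp hf
@[fun_prop] theorem snd {f : α → β × γ} (hf : PR f) : PR fun a => (f a).2 := Primrec.snd.comp hf
@[fun_prop] theorem add {f g : α → ℕ} (hf : PR f) (hg : PR g) : PR fun a => f a + g a :=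
  Primrec.nat_add.comp hf hg
@[fun_prop] theorem mul {f g : α → ℕ} (hf : PR f) (hg : PR g) : PR fun a => f a * g a :=
  Primrec.nat_mul.comp hf hg
@[fun_prop] theorem pow {f g : α → ℕ} (hf : PR f) (hg : PR g) : PR fun a => f a ^ g a :=
  (Primrec₂.unpaired'.1 Nat.Primrec.pow).comp hf hg
@[fun_prop] theorem ite {p : α → Prop} [DecidablePred p] {f g : α → β}
    (hc : PP p) (hf : PR f) (hg : PR g) : PR fun a => if p a then f a else g a :=
  Primrec.ite hc hf hg
@[fun_prop] theorem not {f : α → Bool} (hf : PR f) : PR fun a => !(f a) := Primrec.not.comp hf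
@[fun_prop] theorem some {f : α → β} (hf : PR f) : PR fun a => some (f a) :=
  Primrec.option_some.comp hf
@[fun_prop] theorem inl {f : α → β} (hf : PR f) : PR fun a => (Sum.inl (f a) : β ⊕ γ) :=
  Primrec.sumInl.comp hf
@[fun_prop] theorem length {f : α → List β} (hf : PR f) : PR fun a => (f a).length :=
  Primrec.list_length.comp hf
@[fun_prop] theorem head {f : α → List β} (hf : PR f) : PR fun a => (f a).head? :=
  Primrec.list_head?.comp hf
@[fun_prop] theorem tail {f : α → List β} (hf : PR f) : PR fun a => (f a).tail :=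
  Primrec.list_tail.comp hf
@[fun_prop] theorem reverse {f : α → List β} (hf : PR f) : PR fun a => (f a).reverse :=
  Primrec.list_reverse.comp hf
@[fun_prop] theorem flatten {f : α → List (List β)} (hf : PR f) : PR fun a => (f a).flatten :=
  Primrec.list_flatten.comp hf
@[fun_prop] theorem cons {f : α → β} {g : α → List β} (hf : PR f) (hg : PR g) :
    PR fun a => f a :: g a := Primrec.list_cons.comp hf hg
@[fun_prop] theorem append {f g : α → List β} (hf : PR f) (hg : PR g) :
    PR fun a => f a ++ g a := Primrec.list_append.comp hf hg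
@[fun_prop] theorem map {f : α → List β} {g : α → β → γ} (hf : PR f)
    (hg : PR fun x : α × β => g x.1 x.2) : PR fun a => (f a).map (g a) :=
  Primrec.list_map hf hg
@[fun_prop] theorem flatMap {f : α → List β} {g : α → β → List γ} (hf : PR f)
    (hg : PR fun x : α × β => g x.1 x.2) : PR fun a => (f a).flatMap (g a) :=
  Primrec.list_flatMap hf hg
@[fun_prop] theorem foldr {f : α → List β} {g : α → γ} {h : α → β → γ → γ} (hf : PR f) (hg : PR g)
    (hh : PR fun x : α × β × γ => h x.1 x.2.1 x.2.2) : PR fun a => (f a).foldr (h a) (g a) :=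
  Primrec.list_foldr (h := fun a x => h a x.1 x.2) hf hg hh
@[fun_prop] theorem apf' {n : ℕ} {f : α → Fin n → β} {g : α → Fin n} (hf : PR f) (hg : PR g) :
    PR fun a => apf (f a) (g a) := Primrec.fin_app.comp hf hg
@[fun_prop] theorem flt' {f : α → List β} {p : α → β → Prop} (hf : PR f)
    (hp : PP fun x : α × β => p x.1 x.2) : PR fun a => flt (f a) (p a) := by
  classical
  have h : PrimrecRel fun (b : β) (a : α) => p a b :=
    PrimrecPred.comp hp (Primrec.pair Primrec.snd Primrec.fst)
  exact h.listFilter.comp hf Primrec.id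
@[fun_prop] theorem invRev' {f : α → List (β × Bool)} (hf : PR f) : PR fun a => invRev (f a) := by
  unfold invRev
  fun_prop
@[fun_prop] theorem allL' {f : α → List β} {g : α → ℕ} (hf : PR f) (hg : PR g) :
    PR fun a => allL (f a) (g a) := by
  have h : PR fun x : α × List (List β) =>
      [] :: (f x.1).flatMap fun y => x.2.map fun l => y :: l := by fun_prop
  refine (Primrec.nat_iterate (h := fun a IH => [] :: (f a).flatMap fun y => IH.map fun l => y :: l)
    hg (Primrec.const [[]]) h).of_eq fun a => ?_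
  induction g a with
  | zero => rfl
  | succ n ih => rw [Function.iterate_succ_apply', ih]; rfl

end PR

namespace PP

theorem of_eq {p q : α → Prop} (h : PP p) (H : ∀ a, p a ↔ q a) : PP q := PrimrecPred.of_eq h H

@[fun_prop] theorem const (p : Prop) : PP fun _ : α => p :=
  ⟨fun _ => Classical.dec p, Primrec.const (@decide p (Classical.dec p))⟩
@[fun_prop] theorem comp {p : β → Prop} {f : α → β} (hp : PP p) (hf : PR f) :
    PP fun a => p (f a) := PrimrecPred.comp hp hf
@[fun_prop] theorem and {p q : α → Prop} (hp : PP p) (hq : PP q) : PP fun a => p a ∧ q a :=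
  PrimrecPred.and hp hq
@[fun_prop] theorem or {p q : α → Prop} (hp : PP p) (hq : PP q) : PP fun a => p a ∨ q a :=
  PrimrecPred.or hp hq
@[fun_prop] theorem not {p : α → Prop} (hp : PP p) : PP fun a => ¬ p a := PrimrecPred.not hp
@[fun_prop] theorem eq {f g : α → β} (hf : PR f) (hg : PR g) : PP fun a => f a = g a :=
  Primrec.eq.comp hf hg
@[fun_prop] theorem bex {f : α → List β} {p : α → β → Prop} (hf : PR f)
    (hp : PP fun x : α × β => p x.1 x.2) : PP fun a => Bex (f a) (p a) := by
  have h : PrimrecRel fun (b : β) (a : α) => p a b :=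
    PrimrecPred.comp hp (Primrec.pair Primrec.snd Primrec.fst)
  exact h.exists_mem_list.comp hf Primrec.id
@[fun_prop] theorem ball {f : α → List β} {p : α → β → Prop} (hf : PR f)
    (hp : PP fun x : α × β => p x.1 x.2) : PP fun a => Ball (f a) (p a) := by
  have h : PrimrecRel fun (b : β) (a : α) => p a b :=
    PrimrecPred.comp hp (Primrec.pair Primrec.snd Primrec.fst)
  exact h.forall_mem_list.comp hf Primrec.id

end PP

lemma unif [Inhabited β] (R : α → β → Prop) (hR : PP fun x : α × β => R x.1 x.2)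
    (tot : ∀ a, ∃ b, R a b) : ∃ f : α → β, Computable f ∧ ∀ a, R a (f a) := by
  classical
  have h1 : PR fun n : ℕ => (Encodable.decode n : Option β).getD default :=
    Primrec.option_getD.comp Primrec.decode (Primrec.const _)
  have h2 : PP fun x : α × ℕ => R x.1 ((Encodable.decode x.2 : Option β).getD default) :=
    hR.comp (f := fun x : α × ℕ => (x.1, (Encodable.decode x.2 : Option β).getD default))
      (PR.prodMk (PR.fst PR.id) (h1.comp (PR.snd PR.id)))
  have ex : ∀ a, ∃ n : ℕ, R a ((Encodable.decode n : Option β).getD default) := fun a => by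
    obtain ⟨b, hb⟩ := tot a
    exact ⟨Encodable.encode b, by simpa using hb⟩
  exact ⟨fun a => (Encodable.decode (Nat.find (ex a)) : Option β).getD default,
    (Primrec.to_comp h1).comp (Computable.find
      (P := fun a n => R a ((Encodable.decode n : Option β).getD default))
      (PrimrecPred.computablePred h2) ex), fun a => Nat.find_spec (ex a)⟩

abbrev Fn (n : ℕ) := FreeGroup (Fin n)
abbrev Wn (n : ℕ) := List (Fin n × Bool)

variable {n : ℕ}

lemma pr_fin {k : ℕ} {f : α → Fin k → β} (h : ∀ x, PR fun a => f a x) : PR f :=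
  Primrec.fin_curry.2 (Primrec.fin_curry₁.2 h).swap

lemma pr_reduce : PR (reduce : Wn n → Wn n) := by
  have : PR fun l : Wn n => l.foldr
      (fun p W => if W.head? = some (p.1, !p.2) then W.tail else p :: W) ([] : Wn n) := by
    fun_prop
  refine this.of_eq fun l => ?_
  induction l with
  | nil => rfl
  | cons p l ih =>
    rw [List.foldr_cons, ih, reduce.cons]
    rcases reduce l with _ | ⟨q, W⟩
    · simp
    · have : (q = (p.1, !p.2)) ↔ (p.1 = q.1 ∧ p.2 = !q.2) := by
        rw [Prod.ext_iff, eq_comm]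
        cases p.2 <;> cases q.2 <;> simp
      simp [this]

lemma pp_red : PrimrecPred fun l : Wn n => reduce l = l := PP.eq pr_reduce PR.id

def fe : Fn n ≃ {l : Wn n // reduce l = l} where
  toFun w := ⟨w.toWord, reduce_toWord w⟩
  invFun l := mk l.1
  left_inv _ := mk_toWord
  right_inv l := Subtype.ext (toWord_mk.trans l.2)

instance pcF : Primcodable (Fn n) :=
  letI := Primcodable.subtype (pp_red (n := n))
  Primcodable.ofEquiv _ fe

@[fun_prop] theorem pr_toWord {f : α → Fn n} (hf : PR f) : PR fun a => (f a).toWord := by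
  let _ := Primcodable.subtype (pp_red (n := n))
  exact (Primrec.subtype_val.comp (Primrec.of_equiv (e := fe))).comp hf

@[fun_prop] theorem pr_mk {f : α → Wn n} (hf : PR f) : PR fun a => mk (f a) := by
  let _ := Primcodable.subtype (pp_red (n := n))
  have : Primrec fun l : Wn n => fe.symm ⟨reduce l, reduce.idem⟩ :=
    (Primrec.of_equiv_symm (e := fe)).comp (Primrec.subtype_mk pr_reduce)
  exact (this.of_eq fun l => reduce.self).comp hf

@[fun_prop] theorem pr_mul {f g : α → Fn n} (hf : PR f) (hg : PR g) : PR fun a => f a * g a := by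
  have : PR fun a => mk ((f a).toWord ++ (g a).toWord) := by fun_prop
  exact this.of_eq fun a => by rw [← mul_mk, mk_toWord, mk_toWord]

@[fun_prop] theorem pr_inv {f : α → Fn n} (hf : PR f) : PR fun a => (f a)⁻¹ := by
  have : PR fun a => mk (invRev (f a).toWord) := by fun_prop
  exact this.of_eq fun a => by rw [← inv_mk, mk_toWord]

@[fun_prop] theorem pr_pow {f : α → Fn n} {g : α → ℕ} (hf : PR f) (hg : PR g) :
    PR fun a => f a ^ g a := by
  have h : PR fun x : α × Fn n => f x.1 * x.2 := by fun_prop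
  refine (Primrec.nat_iterate (h := fun a x => f a * x) hg (Primrec.const 1) h).of_eq fun a => ?_
  induction g a with
  | zero => simp
  | succ n ih => rw [Function.iterate_succ_apply', ih, pow_succ']

lemma lift_foldr {ι G : Type} [Group G] (c : ι → G) (w : List (ι × Bool)) :
    w.foldr (fun p acc => (if p.2 = true then c p.1 else (c p.1)⁻¹) * acc) 1 =
      FreeGroup.lift c (mk w) := by
  induction w with
  | nil => rfl
  | cons p w ih =>
    rw [List.foldr_cons, ih, mk_cons p w, map_mul]
    obtain ⟨i, s⟩ := p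
    cases s <;> simp [mk_t, mk_f]

def lw {k : ℕ} (c : Fin k → Fn n) (w : Wn k) : Fn n := FreeGroup.lift c (mk w)

@[fun_prop] theorem pr_lw {k : ℕ} {c : α → Fin k → Fn n} {f : α → Wn k} (hc : PR c) (hf : PR f) :
    PR fun a => lw (c a) (f a) := by
  have : PR fun a => (f a).foldr (fun p acc => (if p.2 = true then apf (c a) p.1 else
      (apf (c a) p.1)⁻¹) * acc) (1 : Fn n) := by fun_prop
  exact this.of_eq fun a => lift_foldr (apf (c a)) _

section Words
variable {G : Type} [Group G] {k : ℕ} {gen : Fin k → G}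

lemma ev_append (u v : Wn k) : ev gen (u ++ v) = ev gen u * ev gen v := by simp [ev]

lemma ev_eq_lift (w : Wn k) : ev gen w = FreeGroup.lift gen (mk w) := by
  rw [lift_mk, ev]
  congr 1
  refine List.map_congr_left fun p _ => ?_
  cases p.2 <;> rfl

lemma ev_invRev (w : Wn k) : ev gen (invRev w) = (ev gen w)⁻¹ := by
  rw [ev_eq_lift, ev_eq_lift, ← inv_mk, map_inv]

lemma ev_of (w : Wn n) : ev (of : Fin n → Fn n) w = mk w := by
  rw [ev_eq_lift]; exact lift_of_apply _

lemma ev_one (x : Fin k) : ev gen [(x, true)] = gen x := by simp [ev]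

lemma ev_map {j : ℕ} (f : Fin j → Fin k) (w : Wn j) :
    ev gen (w.map fun p => (f p.1, p.2)) = FreeGroup.lift (fun x => gen (f x)) (mk w) := by
  rw [← ev_eq_lift, ev, ev, List.map_map]
  rfl

lemma pr_hw {σ : Type} [Primcodable σ] [Finite σ] (θ : σ → G →* Fn n) {s : α → σ}
    {f : α → Wn k} (hs : PR s) (hf : PR f) : PR fun a => θ (s a) (ev gen (f a)) := by
  have h0 : PR fun (x : σ) (y : Fin k) => θ x (gen y) := Primrec.dom_finite _
  refine (pr_lw (h0.comp hs) hf).of_eq fun a => ?_
  rw [ev_eq_lift]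
  exact (DFunLike.congr_fun (FreeGroup.ext_hom ((θ (s a)).comp (FreeGroup.lift gen)) _
    fun y => by simp) _).symm

def sub (c : Fin k → Wn k) (w : Wn k) : Wn k :=
  w.flatMap fun p => if p.2 = true then apf c p.1 else invRev (apf c p.1)

@[fun_prop] theorem pr_sub {f : α → Fin k → Wn k} {g : α → Wn k} (hf : PR f) (hg : PR g) :
    PR fun a => sub (f a) (g a) := by
  unfold sub
  fun_prop

def Rep (gen : Fin k → G) (Ψ : Monoid.End G) (c : Fin k → Wn k) : Prop :=
  ∀ x, Ψ (gen x) = ev gen (c x)

lemma ev_sub {c : Fin k → Wn k} {Ψ : Monoid.End G} (h : Rep gen Ψ c) (w : Wn k) :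
    Ψ (ev gen w) = ev gen (sub c w) := by
  induction w with
  | nil => exact map_one Ψ
  | cons p w ih =>
    rw [← List.singleton_append, ev_append, map_mul, ih, sub, sub, List.flatMap_append, ev_append]
    congr 1
    obtain ⟨x, s⟩ := p
    cases s <;> simp [ev_invRev, apf, ← h x, show ∀ s, ev gen [(x, s)] =
      if s = true then gen x else (gen x)⁻¹ from fun s => by simp [ev]]

def fw (v : List (Wn k × Bool)) : Wn k := v.flatMap fun p => if p.2 = true then p.1 else invRev p.1

@[fun_prop] theorem pr_fw {f : α → List (Wn k × Bool)} (hf : PR f) : PR fun a => fw (f a) := by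
  unfold fw
  fun_prop

def HH (gen : Fin k → G) (l : List (Wn k)) : Subgroup G :=
  Subgroup.closure {g | ∃ w ∈ l, ev gen w = g}

lemma mem_HH {l : List (Wn k)} {g : G} :
    g ∈ HH gen l ↔ ∃ v : List (Wn k × Bool), (∀ p ∈ v, p.1 ∈ l) ∧ ev gen (fw v) = g := by
  constructor
  · intro h
    induction h using Subgroup.closure_induction'' with
    | mem x hx =>
      obtain ⟨w, hw, rfl⟩ := hx
      exact ⟨[(w, true)], by simpa using hw, by simp [fw]⟩
    | inv_mem x hx =>
      obtain ⟨w, hw, rfl⟩ := hx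
      exact ⟨[(w, false)], by simpa using hw, by simp [fw, ev_invRev]⟩
    | one => exact ⟨[], by simp, rfl⟩
    | mul x y _ _ hx hy =>
      obtain ⟨u, h1, rfl⟩ := hx
      obtain ⟨v, h2, rfl⟩ := hy
      exact ⟨u ++ v, fun p hp => (List.mem_append.1 hp).elim (h1 p) (h2 p), by
        rw [fw, List.flatMap_append, ev_append]; rfl⟩
  · rintro ⟨v, h, rfl⟩
    induction v with
    | nil => exact Subgroup.one_mem _
    | cons p v ih =>
      rw [fw, List.flatMap_cons, ev_append]
      refine Subgroup.mul_mem _ ?_ (ih fun q hq => h q (List.mem_cons_of_mem _ hq))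
      have : ev gen p.1 ∈ HH gen l := Subgroup.subset_closure ⟨_, h p (by simp), rfl⟩
      split_ifs
      · exact this
      · rw [ev_invRev]; exact Subgroup.inv_mem _ this

lemma mem_eStab_HH {l : List (Wn k)} {Ψ : Monoid.End G} :
    Ψ ∈ eStab (HH gen l) ↔ ∀ w ∈ l, Ψ (ev gen w) = ev gen w := by
  refine ⟨fun H w hw => H _ (Subgroup.subset_closure ⟨w, hw, rfl⟩), fun H g hg => ?_⟩
  induction hg using Subgroup.closure_induction with
  | mem x hx => obtain ⟨w, hw, rfl⟩ := hx; exact H w hw
  | one => exact map_one Ψ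
  | mul x y _ _ hx hy => rw [map_mul, hx, hy]
  | inv x _ hx => rw [map_inv, hx]

def Good (gen : Fin k → G) (S : List (Fin k → Wn k)) (M : Submonoid (Monoid.End G)) : Prop :=
  (∀ c ∈ S, ∃ Ψ, Rep gen Ψ c) ∧ Submonoid.closure {Ψ | ∃ c ∈ S, Rep gen Ψ c} = M

lemma good_iff (hs : ∀ g, ∃ w, ev gen w = g) (S : List (Fin k → Wn k))
    (M : Submonoid (Monoid.End G)) : (∃ Ψ : Fin S.length → Monoid.End G,
      (∀ i x, Ψ i (gen x) = ev gen (S.get i x)) ∧ Submonoid.closure (Set.range Ψ) = M) ↔
      Good gen S M := by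
  have key : ∀ Ψ : Fin S.length → Monoid.End G, (∀ i, Rep gen (Ψ i) (S.get i)) →
      Set.range Ψ = {Ψ | ∃ c ∈ S, Rep gen Ψ c} := by
    intro Ψ h
    ext Φ
    constructor
    · rintro ⟨i, rfl⟩
      exact ⟨_, List.get_mem S i, h i⟩
    · rintro ⟨c, hc, h1⟩
      obtain ⟨i, rfl⟩ := List.mem_iff_get.1 hc
      refine ⟨i, MonoidHom.ext fun g => ?_⟩
      obtain ⟨w, rfl⟩ := hs g
      exact (ev_sub (h i) w).trans (ev_sub h1 w).symm
  constructor
  · rintro ⟨Ψ, h1, h2⟩
    refine ⟨fun c hc => ?_, key Ψ h1 ▸ h2⟩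
    obtain ⟨i, rfl⟩ := List.mem_iff_get.1 hc
    exact ⟨_, h1 i⟩
  · rintro ⟨h1, h2⟩
    choose Ψ hΨ using fun i => h1 _ (List.get_mem S i)
    exact ⟨Ψ, hΨ, (key Ψ hΨ).symm ▸ h2⟩

lemma solvable_iff (hs : ∀ g, ∃ w, ev gen w = g) : Solvable gen ↔
    ∃ A : List (Wn k) → Option (List (Fin k → Wn k)), Computable A ∧ ∀ l,
      (A l = none → ¬ (eStab (HH gen l)).FG) ∧ ∀ S, A l = some S → Good gen S (eStab (HH gen l)) := by
  refine exists_congr fun A => and_congr_right fun _ => forall_congr' fun l => ?_
  constructor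
  · exact fun h => ⟨h.1.1, fun S hS => (good_iff hs _ _).1 (h.2 S hS)⟩
  · refine fun h => ⟨⟨h.1, fun h0 => ?_⟩, fun S hS => (good_iff hs _ _).2 (h.2 S hS)⟩
    by_contra h1
    obtain ⟨S, hS⟩ := Option.ne_none_iff_exists'.1 h1
    obtain ⟨Ψ, -, h2⟩ := (good_iff hs _ _).2 (h.2 S hS)
    exact h0 ((Submonoid.fg_iff _).2 ⟨_, h2, Set.finite_range Ψ⟩)

end Words

end Pool.Agent.Lib.MP_d96856_al.N
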