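import Mathlib
import Pool.Agent.Lib.MP_d96856_al.NB

namespace Pool.Agent.Lib.MP_d96856_al.N
open FreeGroup hiding map_mul map_one map_inv

variable {α : Type} [Primcodable α] {m n : ℕ}

lemma gn_l (i : Fin m) : gn m n (Fin.castAdd n i) = (Multiplicative.ofAdd (Pi.single i 1), 1) := by
  simp [gn]

lemma gn_r (j : Fin n) : gn m n (Fin.natAdd m j) = (1, of j) := by simp [gn]

def emb (m : ℕ) (w : Wn n) : Wn (m + n) := w.map fun p => (Fin.natAdd m p.1, p.2)

lemma ev_emb (w : Wn n) : ev (gn m n) (emb m w) = (1, mk w) := by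
  rw [emb, ev_map]
  exact DFunLike.congr_fun (FreeGroup.ext_hom _ (MonoidHom.inr (AA m) (Fn n))
    fun j => by simp [gn_r]) _

@[fun_prop] theorem pr_emb {f : α → Wn n} (hf : PR f) : PR fun a => emb m (f a) :=
  PR.map (g := fun _ (p : Fin n × Bool) => (Fin.natAdd m p.1, p.2)) hf
    (PR.comp (g := fun p : Fin n × Bool => (Fin.natAdd m p.1, p.2)) (Primrec.dom_finite _)
      (PR.snd PR.id))

abbrev a1 : Fn 1 := of 0

lemma a1_inj {i j : ℤ} (h : a1 ^ i = a1 ^ j) : i = j := by
  have h1 : a1 ^ (i - j) = 1 := by rw [zpow_sub, h, mul_inv_cancel]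
  have := natAbs_le_norm (of_ne_one (0 : Fin 1)) (i - j)
  rw [h1, FreeGroup.norm_one] at this
  omega

def tw {k : ℕ} (x : Fin k) (u : Fn 1) : Wn k := u.toWord.map fun p => (x, p.2)

lemma ev_tw {G : Type} [Group G] {k : ℕ} {gen : Fin k → G} (x : Fin k) (e : ℤ) :
    ev gen (tw x (a1 ^ e)) = gen x ^ e := by
  rw [tw, ev_map fun _ => x, mk_toWord, map_zpow, lift_apply_of]

lemma ev_surj (g : GG m n) : ∃ w, ev (gn m n) w = g := by
  obtain ⟨a, u⟩ := g
  have : ∃ v, ev (gn m n) v = (a, 1) := by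
    let Q : Submonoid (AA m) :=
      { carrier := {a | ∃ v, ev (gn m n) v = (a, 1)}
        one_mem' := ⟨[], rfl⟩
        mul_mem' := by
          rintro a b ⟨u, hu⟩ ⟨v, hv⟩
          exact ⟨u ++ v, by rw [ev_append, hu, hv]; simp⟩ }
    change a ∈ Q
    rw [show a = MonoidHom.id _ a from rfl, expandA]
    refine Submonoid.prod_mem _ fun i _ => ⟨tw (Fin.castAdd n i) (a1 ^ a.toAdd i), ?_⟩
    rw [ev_tw, gn_l]; simp
  obtain ⟨v, hv⟩ := this
  exact ⟨v ++ emb m u.toWord, by rw [ev_append, hv, ev_emb, mk_toWord]; simp⟩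

lemma norm_snd_le (w : Wn (m + n)) : (ev (gn m n) w).2.norm ≤ w.length := by
  have := lip_hom (B := 1) ((MonoidHom.snd _ _).comp (FreeGroup.lift (gn m n))) (fun x => by
    refine Fin.addCases (fun i => ?_) (fun j => ?_) x <;> simp [gn_l, gn_r]) (mk w)
  rw [ev_eq_lift]
  rw [one_mul] at this
  exact this.trans norm_mk_le

/-- an endomorphism from images of the generators -/
lemma exists_end (c : Fin (m + n) → GG m n)
    (h : ∀ (i : Fin m) x, Commute (c (Fin.castAdd n i)) (c x)) :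
    ∃ Ψ : Monoid.End (GG m n), ∀ x, Ψ (gn m n x) = c x := by
  let f0 : (Fin m → Multiplicative ℤ) →* GG m n := MonoidHom.noncommPiCoprod
    (fun i : Fin m => zpowersHom (GG m n) (c (Fin.castAdd n i)))
    (fun i j _ a b => (h i _).zpow_zpow _ _)
  let f : AA m →* GG m n := f0.comp (MulEquiv.piMultiplicative fun _ : Fin m => ℤ).toMonoidHom
  have hf : ∀ i, f (Multiplicative.ofAdd (Pi.single i 1)) = c (Fin.castAdd n i) := by
    intro i
    have : (MulEquiv.piMultiplicative fun _ : Fin m => ℤ) (Multiplicative.ofAdd (Pi.single i 1)) =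
        Pi.mulSingle i (Multiplicative.ofAdd 1) := by
      funext j
      by_cases e : j = i
      · subst e; simp
      · simp [Pi.single_eq_of_ne e, Pi.mulSingle_eq_of_ne e]
    refine (congrArg f0 this).trans ((MonoidHom.noncommPiCoprod_mulSingle _ i _).trans ?_)
    simp
  let g : FreeGroup (Fin n) →* GG m n := FreeGroup.lift fun j => c (Fin.natAdd m j)
  have hc : ∀ a u, Commute (f a) (g u) := by
    intro a u
    refine Commute.symm (MonoidHom.commute_noncommPiCoprod
      (hcomm := fun i j _ a b => (h i _).zpow_zpow _ _) _ (fun i x => ?_) _)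
    refine Commute.zpow_right ?_ _
    induction u using FreeGroup.induction_on with
    | C1 => simp
    | of x => simpa [g] using (h i _).symm
    | inv_of x ih => simpa using ih
    | mul x y hx hy => simpa using hx.mul_left hy
  refine ⟨f.noncommCoprod g hc, fun x => ?_⟩
  refine Fin.addCases (fun i => ?_) (fun j => ?_) x
  · rw [gn_l]
    change f _ * g 1 = _
    rw [hf, map_one, mul_one]
  · rw [gn_r]
    change f 1 * g _ = _
    simp [g]

abbrev Co (m n : ℕ) := Fin (m + n) → Wn (m + n)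
abbrev Vo (k m n : ℕ) := Fin k → List (Wn (m + n) × Bool)

def pjw (w : Wn (m + n)) : Fn n := (ev (gn m n) w).2

@[fun_prop] theorem pr_pjw {f : α → Wn (m + n)} (hf : PR f) : PR fun a => pjw (f a) :=
  pr_hw (gen := gn m n) (fun _ : Unit => MonoidHom.snd (AA m) (Fn n)) (PR.const ()) hf

def exw (s : Fin m ⊕ Fin n) (w : Wn (m + n)) : Fn 1 := a1 ^ (co s (ev (gn m n) w)).toAdd

@[fun_prop] theorem pr_exw {s : α → Fin m ⊕ Fin n} {f : α → Wn (m + n)} (hs : PR s) (hf : PR f) :
    PR fun a => exw (s a) (f a) := pr_hw (fun s => (zpowersHom (Fn 1) a1).comp (co s)) hs hf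

def cf (j : Fin n) (u : Fn n) : Fn 1 := a1 ^ (coF j u).toAdd

@[fun_prop] theorem pr_cf {s : α → Fin n} {f : α → Fn n} (hs : PR s) (hf : PR f) :
    PR fun a => cf (s a) (f a) :=
  (pr_hw (gen := (of : Fin n → Fn n)) (fun s => (zpowersHom (Fn 1) a1).comp (coF s)) hs
    (pr_toWord hf)).of_eq fun a => by rw [ev_of, mk_toWord]; rfl

def Eqv (u v : Wn (m + n)) : Prop := ev (gn m n) u = ev (gn m n) v

@[fun_prop] theorem pp_eqv {f g : α → Wn (m + n)} (hf : PR f) (hg : PR g) :
    PP fun a => Eqv (f a) (g a) := by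
  have : PP fun a => pjw (f a) = pjw (g a) ∧ Ball (List.finRange m) fun i =>
      exw (Sum.inl i) (f a) = exw (Sum.inl i) (g a) := by fun_prop
  refine this.of_eq fun a => ⟨fun h => Prod.ext ?_ h.1, fun h => ⟨congrArg Prod.snd h, fun i _ => by
    beta_reduce
    rw [exw, exw, h]⟩⟩
  exact Multiplicative.toAdd.injective (funext fun i => a1_inj (h.2 i (List.mem_finRange i)))

def lT (m n : ℕ) : List (Fin (m + n)) := (List.finRange m).map (Fin.castAdd n)
noncomputable def lS (m n : ℕ) : List (Fin m ⊕ Fin n) := Finset.univ.toList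
noncomputable def lL (k : ℕ) : List (Fin k × Bool) := Finset.univ.toList

def IsE (c : Co m n) : Prop := Ball (lT m n) fun x => Ball (List.finRange (m + n)) fun y =>
  Eqv (apf c x ++ apf c y) (apf c y ++ apf c x)

def Fx (c : Co m n) (l : List (Wn (m + n))) : Prop := Ball l fun w => Eqv (sub c w) w

def NEG1 (l : List (Wn (m + n))) (c : Co m n) : Prop :=
  (Ball (List.finRange (m + n)) fun x => Ball (List.finRange (m + n)) fun y =>
    Eqv (apf c x ++ apf c y) (apf c y ++ apf c x)) ∧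
    (Ball l fun w => Eqv (sub c w) []) ∧ Bex (lT m n) fun x => ¬ Eqv (apf c x) []

def Ent (l : List (Wn (m + n))) (v : List (Wn (m + n) × Bool)) : Prop :=
  Ball v fun p => Bex l fun w => p.1 = w

lemma Ent.mem {l : List (Wn (m + n))} {v : List (Wn (m + n) × Bool)} (h : Ent l v) :
    ev (gn m n) (fw v) ∈ HH (gn m n) l := mem_HH.2 ⟨_, fun p hp => by
  obtain ⟨w, hw, e⟩ := h p hp
  exact e ▸ hw, rfl⟩

def POS1 (l : List (Wn (m + n))) (V : Vo m m n) : Prop :=
  Ball (List.finRange m) fun i => Ent l (apf V i) ∧ ¬ exw (Sum.inl i) (fw (apf V i)) = 1 ∧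
    Ball (lS m n) fun s => s = Sum.inl i ∨ exw s (fw (apf V i)) = 1

def T2 (l : List (Wn (m + n))) (c : Co m n) : Prop :=
  IsE c ∧ Fx c l ∧ Bex (lT m n) fun x => ¬ pjw (apf c x) = 1

def toF {k : ℕ} (L : List (Wn k)) : Fin k → Wn k := fun x => L.getD x []

@[fun_prop] theorem pr_toF {k : ℕ} {f : α → List (Wn k)} (hf : PR f) : PR fun a => toF (f a) :=
  pr_fin fun x => (Primrec.list_getD []).comp hf (Primrec.const x.1)

noncomputable def allC (k B : ℕ) : List (Fin k → Wn k) :=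
  (allL (allL (lL k) B) k).map fun L => toF L

lemma mem_allC {k B : ℕ} {c : Fin k → Wn k} (h : ∀ x, (c x).length ≤ B) : c ∈ allC k B := by
  refine List.mem_map.2 ⟨List.ofFn c, (mem_allL _ _ _).2 ⟨by simp, fun w hw => ?_⟩, ?_⟩
  · obtain ⟨x, rfl⟩ := List.mem_ofFn.1 hw
    exact (mem_allL _ _ _).2 ⟨h x, fun p _ => by simp [lL]⟩
  · funext x
    rw [toF, List.getD_eq_getElem _ _ (by rw [List.length_ofFn]; exact x.2), List.getElem_ofFn]

def n1 (V : Vo m m n) : ℕ := ((List.finRange m).flatMap fun i => fw (apf V i)).length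

lemma isE_iff {c : Co m n} : IsE c ↔ ∃ Ψ, Rep (gn m n) Ψ c := by
  constructor
  · intro h
    refine exists_end _ fun i x => ?_
    have := h _ (List.mem_map.2 ⟨i, List.mem_finRange i, rfl⟩) x (List.mem_finRange x)
    beta_reduce at this
    rwa [Eqv, ev_append, ev_append] at this
  · rintro ⟨Ψ, h⟩ x hx y -
    obtain ⟨i, -, rfl⟩ := List.mem_map.1 hx
    rw [Eqv, ev_append, ev_append, apf, apf, ← h, ← h, ← map_mul, ← map_mul, gn_l]
    congr 1
    exact Prod.ext (mul_comm _ _) (by simp)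

lemma fx_iff {c : Co m n} {l : List (Wn (m + n))} {Ψ : Monoid.End (GG m n)}
    (h : Rep (gn m n) Ψ c) : Fx c l ↔ Ψ ∈ eStab (HH (gn m n) l) := by
  rw [mem_eStab_HH]
  simp only [Fx, Ball, Eqv, ev_sub h]

lemma neg1_sound {l : List (Wn (m + n))} {c : Co m n} (h : NEG1 l c) :
    ¬ Cond (HH (gn m n) l) := by
  obtain ⟨h1, h2, x, hx, h3⟩ := h
  obtain ⟨i, -, rfl⟩ := List.mem_map.1 hx
  obtain ⟨Ψ, hΨ⟩ := isE_iff.1 fun x _ y hy => h1 x (List.mem_finRange x) y hy
  intro hc
  obtain ⟨N, hN, u, hu, hm⟩ := hc (Multiplicative.ofAdd (Pi.single i 1))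
  have k1 : HH (gn m n) l ≤ MonoidHom.ker Ψ := (Subgroup.closure_le _).2 (by
    rintro _ ⟨w, hw, rfl⟩
    exact (ev_sub hΨ w).trans (h2 w hw))
  have c0 : ∀ a b : Fin n, Commute (Ψ (1, of a)) (Ψ (1, of b)) := fun a b => by
    have := h1 (Fin.natAdd m a) (List.mem_finRange _) (Fin.natAdd m b) (List.mem_finRange _)
    beta_reduce at this
    rwa [Eqv, ev_append, ev_append, apf, apf, ← hΨ, ← hΨ, gn_r, gn_r] at this
  let f : Fn n →* GG m n := MonoidHom.comp Ψ (MonoidHom.inr _ _)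
  have c1 : ∀ (a : Fin n) (v : Fn n), Commute (f (of a)) (f v) := fun a v => by
    induction v using FreeGroup.induction_on with
    | C1 => simp
    | of x => exact c0 a x
    | inv_of x ih => simpa using ih
    | mul x y hx hy => simpa using hx.mul_right hy
  have c2 : ∀ v w : Fn n, Commute (f v) (f w) := fun v w => by
    induction v using FreeGroup.induction_on with
    | C1 => simp
    | of x => exact c1 x w
    | inv_of x ih => simpa using ih
    | mul x y hx hy => simpa using hx.mul_left hy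
  have k2 : commutator (Fn n) ≤ f.ker := Subgroup.commutator_le.2 fun v _ w _ => by
    rw [MonoidHom.mem_ker, map_commutatorElement]
    exact commutatorElement_eq_one_iff_commute.2 (c2 v w)
  have e : Ψ (gn m n (Fin.castAdd n i)) ^ N * f u = 1 := by
    rw [← map_pow, gn_l]
    refine (map_mul Ψ _ _).symm.trans (Eq.trans (congrArg Ψ ?_) (k1 hm))
    simp
  rw [k2 hu, mul_one, pow_eq_one_iff_left hN.ne', hΨ] at e
  exact h3 e

lemma pos1_spec {l : List (Wn (m + n))} {V : Vo m m n} (h : POS1 l V) (i : Fin m) :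
    ∃ e : ℤ, e ≠ 0 ∧ ∃ u ∈ commutator (Fn n), u.norm ≤ n1 V ∧
      (Multiplicative.ofAdd (Pi.single i 1) ^ e, u) ∈ HH (gn m n) l := by
  obtain ⟨h1, h2, h3⟩ := h i (List.mem_finRange i)
  have z : ∀ s, s ≠ Sum.inl i → (co s (ev (gn m n) (fw (apf V i)))).toAdd = 0 := fun s hs =>
    a1_inj ((h3 s (by simp [lS])).resolve_left hs)
  refine ⟨(ev (gn m n) (fw (apf V i))).1.toAdd i, fun e => h2 ?_, (ev (gn m n) (fw (apf V i))).2,
    (mem_comm_iff _).2 fun j => z (Sum.inr j) (by simp), (norm_snd_le _).trans ?_, ?_⟩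
  · exact (congrArg (fun t : ℤ => a1 ^ t) e).trans (zpow_zero _)
  · exact (List.sublist_flatten_of_mem (List.mem_map_of_mem (f := fun i => fw (apf V i))
      (List.mem_finRange i))).length_le
  · convert h1.mem using 1
    refine Prod.ext (Multiplicative.toAdd.injective (funext fun j => ?_)) rfl
    by_cases e : j = i
    · subst e; simp
    · have := z (Sum.inl j) (by simpa using e)
      simp only [toAdd_zpow, toAdd_ofAdd, Pi.smul_apply, Pi.single_eq_of_ne e, smul_zero]
      exact this.symm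

lemma pos1_sound {l : List (Wn (m + n))} {V : Vo m m n} (h : POS1 l V) : Cond (HH (gn m n) l) := by
  generalize hH : HH (gn m n) l = H
  let Q : Subgroup (AA m) :=
    { carrier := {t | ∃ e : ℤ, e ≠ 0 ∧ ∃ u ∈ commutator (Fn n), (t ^ e, u) ∈ H}
      one_mem' := ⟨1, one_ne_zero, 1, Subgroup.one_mem _, by rw [one_zpow]; exact H.one_mem⟩
      mul_mem' := by
        rintro a b ⟨e, he, u, hu, h1⟩ ⟨e', he', u', hu', h2⟩
        refine ⟨e * e', mul_ne_zero he he', u ^ e' * u' ^ e, Subgroup.mul_mem _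
          (Subgroup.zpow_mem _ hu _) (Subgroup.zpow_mem _ hu' _), ?_⟩
        convert H.mul_mem (H.zpow_mem h1 e') (H.zpow_mem h2 e) using 1
        exact Prod.ext (by simp [mul_zpow, ← zpow_mul, mul_comm]) rfl
      inv_mem' := by
        rintro a ⟨e, he, u, hu, h1⟩
        exact ⟨-e, neg_ne_zero.2 he, u, hu, by simpa using h1⟩ }
  intro t
  have : t ∈ Q := by
    rw [show t = MonoidHom.id _ t from rfl, expandA]
    refine Subgroup.prod_mem _ fun i _ => Subgroup.zpow_mem _ ?_ _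
    obtain ⟨e, he, u, hu, -, h1⟩ := pos1_spec h i
    exact ⟨e, he, u, hu, hH ▸ h1⟩
  obtain ⟨e, he, u, hu, h1⟩ := this
  refine ⟨e.natAbs * e.natAbs, by positivity, u ^ e, Subgroup.zpow_mem _ hu _, ?_⟩
  convert H.zpow_mem h1 e using 1
  refine Prod.ext ?_ rfl
  change _ = (t ^ e) ^ e
  rw [← zpow_mul, ← Int.natAbs_mul_self, zpow_natCast]

lemma cert_total (l : List (Wn (m + n))) : ∃ x : Co m n × Vo m m n, NEG1 l x.1 ∨ POS1 l x.2 := by
  by_cases hc : ∀ i : Fin m, ∃ N : ℕ, 0 < N ∧ ∃ u ∈ commutator (Fn n),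
    (Multiplicative.ofAdd (Pi.single i 1) ^ N, u) ∈ HH (gn m n) l
  · choose N hN u hu hm using hc
    choose V h1 h2 using fun i => mem_HH.1 (hm i)
    refine ⟨(default, V), Or.inr fun i _ => ⟨fun p hp => ⟨_, h1 i p hp, rfl⟩, fun e => ?_,
      fun s _ => ?_⟩⟩
    · rw [exw, apf, h2, ← zpow_zero a1] at e
      have := a1_inj e
      simp [co] at this
      exact (hN i).ne' this
    · beta_reduce
      rw [exw, apf, h2]
      rcases s with j | j
      · by_cases e : j = i
        · exact Or.inl (congrArg _ e)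
        · right; simp [co, Pi.single_eq_of_ne e]
      · right; simp [co, (mem_comm_iff _).1 (hu i) j]
  · push Not at hc
    obtain ⟨i, hi⟩ := hc
    obtain ⟨f, f1, f2⟩ := exists_fun _ _ hi
    let Ψ : Monoid.End (GG m n) := (zpowersHom _ (gn m n (Fin.castAdd n i))).comp f
    have hΨ : ∀ g, Ψ g = gn m n (Fin.castAdd n i) ^ (f g).toAdd := fun g => rfl
    choose c hc using fun x => ev_surj (Ψ (gn m n x))
    refine ⟨(c, default), Or.inl ⟨fun x _ y _ => ?_, fun w hw => ?_, Fin.castAdd n i,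
      List.mem_map.2 ⟨i, List.mem_finRange i, rfl⟩, fun e => f2 ?_⟩⟩
    · beta_reduce
      rw [Eqv, ev_append, ev_append, apf, apf, hc, hc, hΨ, hΨ]
      exact zpow_mul_comm _ _ _
    · beta_reduce
      rw [Eqv, ← ev_sub (Ψ := Ψ) (fun x => (hc x).symm), hΨ,
        f1 _ (Subgroup.subset_closure ⟨w, hw, rfl⟩)]
      exact zpow_zero _
    · rw [Eqv, apf, hc, hΨ, gn_l] at e
      have := congrArg (fun g : GG m n => g.1.toAdd i) e
      simpa [ev] using this

lemma t2_sound {l : List (Wn (m + n))} {c : Co m n} (h : T2 l c) :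
    ¬ (eStab (HH (gn m n) l)).FG := by
  obtain ⟨h1, h2, x, hx, h3⟩ := h
  obtain ⟨i, -, rfl⟩ := List.mem_map.1 hx
  obtain ⟨Ψ, hΨ⟩ := isE_iff.1 h1
  have z : cZ Ψ ≠ 1 := fun e => h3 (by
    rw [pjw, apf, ← hΨ, gn_l]
    exact DFunLike.congr_fun e _)
  exact fun hfg => neg_typeII _ hfg z
    (typeII_graph centralizer_cyclic comm_root (cond_of_fg _ hfg) ((fx_iff hΨ).1 h2) z)

lemma t2_small {l : List (Wn (m + n))} {V : Vo m m n} (h : POS1 l V) {Ψ : Monoid.End (GG m n)}
    (h1 : Ψ ∈ eStab (HH (gn m n) l)) (h2 : cZ Ψ ≠ 1) :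
    Bex (allC (m + n) (1 + n1 V)) fun c => T2 l c := by
  have hg := typeII_graph centralizer_cyclic comm_root (pos1_sound h) h1 h2
  generalize cZ Ψ = z at h2 hg
  let T : Monoid.End (GG m n) := (MonoidHom.fst _ _).prod (z.comp (MonoidHom.fst _ _))
  have hT : ∀ g, T g = (g.1, z g.1) := fun g => rfl
  have sm : ∀ x, ∃ w, w.length ≤ 1 + n1 V ∧ ev (gn m n) w = T (gn m n x) := fun x => by
    refine Fin.addCases (fun i => ?_) (fun j => ?_) x
    · obtain ⟨e, he, u, -, hu, hm⟩ := pos1_spec h i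
      have e1 : u = z _ := hg _ hm
      rw [e1, map_zpow] at hu
      refine ⟨[(Fin.castAdd n i, true)] ++
        emb m (z (Multiplicative.ofAdd (Pi.single i 1))).toWord, ?_, ?_⟩
      · rw [List.length_append, emb, List.length_map]
        exact Nat.add_le_add_left ((norm_le_zpow _ he).trans hu) _
      · rw [ev_append, ev_one, ev_emb, mk_toWord, gn_l, hT]; simp
    · exact ⟨[], by simp, by rw [gn_r, hT, map_one]; rfl⟩
  choose c c1 c2 using sm
  refine ⟨c, mem_allC c1, isE_iff.2 ⟨T, fun x => (c2 x).symm⟩,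
    (fx_iff (Ψ := T) fun x => (c2 x).symm).2 fun g hg' => by rw [hT, ← hg g hg'], ?_⟩
  by_contra hc
  refine h2 (MonoidHom.ext fun a => ?_)
  have : ∀ i, z (Multiplicative.ofAdd (Pi.single i 1)) = 1 := fun i => by
    by_contra h3
    refine hc ⟨Fin.castAdd n i, List.mem_map.2 ⟨i, List.mem_finRange i, rfl⟩, fun e => h3 ?_⟩
    rwa [pjw, apf, c2, gn_l] at e
  have k : a ∈ z.ker := by
    rw [show a = MonoidHom.id _ a from rfl, expandA]
    exact Subgroup.prod_mem _ fun i _ => Subgroup.zpow_mem _ (this i) _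
  exact k

end Pool.Agent.Lib.MP_d96856_al.N
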