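import Mathlib
import Pool.Agent.Lib.MP_d96856_al.NC

namespace Pool.Agent.Lib.MP_d96856_al.N
open FreeGroup hiding map_mul map_one map_inv

variable {α : Type} [Primcodable α] {m n : ℕ}

abbrev Do (m n : ℕ) := (Fin n → Fn n) × Vo n m n × (Fin n → ℕ)

/-- certificate that the homomorphisms `coF k ∘ ψ` generate the annihilator of the projection -/
def DC (l : List (Wn (m + n))) (d : Do m n) : Prop :=
  (Ball l fun w => Ball (List.finRange n) fun k => cf k (lw d.1 (pjw w).toWord) = 1) ∧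
  Ball (List.finRange n) fun j => Ent l (apf d.2.1 j) ∧ Ball (List.finRange n) fun k =>
    cf k (pjw (fw (apf d.2.1 j))) = cf k (((mk [(j, true)])⁻¹ * apf d.1 j) ^ (apf d.2.2 j + 1))

def abF : Fn n →* Multiplicative (Fin n → ℤ) where
  toFun g := Multiplicative.ofAdd fun k => (coF k g).toAdd
  map_one' := by simp; rfl
  map_mul' g h := by simp; rfl

lemma abF_of (j : Fin n) : abF (of j) = Multiplicative.ofAdd (Pi.single j 1) := by
  refine congrArg Multiplicative.ofAdd (funext fun k => ?_)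
  simp [coF, Pi.single_apply, eq_comm]

lemma abF_surj (v : AA n) : ∃ u, abF u = v := by
  change v ∈ abF.range
  rw [show v = MonoidHom.id _ v from rfl, expandA]
  exact Subgroup.prod_mem _ fun i _ => Subgroup.zpow_mem _ (MonoidHom.mem_range.2 ⟨of i, abF_of i⟩) _

lemma dc_total (l : List (Wn (m + n))) : ∃ d, DC l d := by
  let A : Submodule ℤ (Fin n → ℤ) :=
    { carrier := {v | ∃ h ∈ HH (gn m n) l, (abF h.2).toAdd = v}
      zero_mem' := ⟨1, Subgroup.one_mem _, by simp⟩
      add_mem' := by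
        rintro _ _ ⟨h, hh, rfl⟩ ⟨h', hh', rfl⟩
        exact ⟨h * h', Subgroup.mul_mem _ hh hh', by simp⟩
      smul_mem' := by
        rintro c _ ⟨h, hh, rfl⟩
        exact ⟨h ^ c, Subgroup.zpow_mem _ hh _, by simp⟩ }
  let q := (Submodule.torsion ℤ ((Fin n → ℤ) ⧸ A)).mkQ ∘ₗ A.mkQ
  have hq : LinearMap.range q = ⊤ := LinearMap.range_eq_top.2
    ((Submodule.mkQ_surjective _).comp (Submodule.mkQ_surjective _))
  have htf : Module.IsTorsionFree ℤ
      (((Fin n → ℤ) ⧸ A) ⧸ Submodule.torsion ℤ ((Fin n → ℤ) ⧸ A)) := inferInstance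
  obtain ⟨σ, hσ⟩ := q.exists_rightInverse_of_surjective hq
  choose c hc using fun j : Fin n => abF_surj (Multiplicative.ofAdd (σ (q (Pi.single j 1))))
  have e : ∀ u, (abF (FreeGroup.lift c u)).toAdd = σ (q (abF u).toAdd) := fun u =>
    congrArg Multiplicative.toAdd (DFunLike.congr_fun (FreeGroup.ext_hom
      (abF.comp (FreeGroup.lift c)) ((AddMonoidHom.toMultiplicative (σ ∘ₗ q).toAddMonoidHom).comp abF)
      fun j => by simp [hc, abF_of]) u)
  have ex : ∀ j : Fin n, ∃ (N : ℕ) (v : List (Wn (m + n) × Bool)), (∀ p ∈ v, p.1 ∈ l) ∧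
      abF (pjw (fw v)) = abF (((of j)⁻¹ * c j) ^ (N + 1)) := by
    intro j
    have z : q (abF ((of j)⁻¹ * c j)).toAdd = 0 := by
      have := DFunLike.congr_fun hσ (q (Pi.single j 1))
      simp only [LinearMap.comp_apply, LinearMap.id_apply] at this
      rw [map_mul, map_inv, hc, abF_of, toAdd_mul, toAdd_inv, toAdd_ofAdd, toAdd_ofAdd, map_add,
        map_neg, this, neg_add_cancel]
    obtain ⟨⟨a, ha⟩, h1⟩ := (Submodule.Quotient.mk_eq_zero _).1 z
    have a0 : a ≠ 0 := nonZeroDivisors.ne_zero ha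
    have h2 : a • (abF ((of j)⁻¹ * c j)).toAdd ∈ A := (Submodule.Quotient.mk_eq_zero _).1 h1
    obtain ⟨h, hh, h3⟩ := A.smul_mem a h2
    obtain ⟨v, v1, rfl⟩ := mem_HH.1 hh
    obtain ⟨N, hN⟩ := Nat.exists_eq_succ_of_ne_zero
      (show a.natAbs * a.natAbs ≠ 0 by simpa using a0)
    refine ⟨N, v, v1, Multiplicative.toAdd.injective (h3.trans ?_)⟩
    rw [map_pow, toAdd_pow, smul_smul, ← Int.natAbs_mul_self, hN, natCast_zsmul]
  choose N U h1 h2 using ex
  refine ⟨(c, U, N), fun w hw k _ => ?_, fun j _ => ⟨fun p hp => ⟨_, h1 j p hp, rfl⟩, fun k _ => ?_⟩⟩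
  · have z : q (abF (pjw w)).toAdd = 0 := by
      have : A.mkQ (abF (pjw w)).toAdd = 0 := (Submodule.Quotient.mk_eq_zero _).2
        ⟨_, Subgroup.subset_closure ⟨w, hw, rfl⟩, rfl⟩
      simp only [q, LinearMap.comp_apply, this, map_zero]
    have := congrFun (e (pjw w)) k
    rw [z, map_zero] at this
    beta_reduce
    rw [cf, lw, mk_toWord]
    exact (congrArg (fun t : ℤ => a1 ^ t) this).trans (zpow_zero _)
  · exact congrArg (fun t : AA n => a1 ^ t.toAdd k) (h2 j)

lemma dc_sound {l : List (Wn (m + n))} {d : Do m n} (h : DC l d) :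
    (∀ k, ∀ g ∈ HH (gn m n) l, coF k (FreeGroup.lift d.1 g.2) = 1) ∧
    ∀ δ : Fn n →* Multiplicative ℤ, (∀ g ∈ HH (gn m n) l, δ g.2 = 1) →
      δ = ∏ k, (coF k).comp (FreeGroup.lift d.1) ^ (δ (of k)).toAdd := by
  refine ⟨fun k => (Subgroup.closure_le (((coF k).comp (FreeGroup.lift d.1)).comp
    (MonoidHom.snd (AA m) (Fn n))).ker).2 ?_, fun δ hδ => FreeGroup.ext_hom _ _ fun j => ?_⟩
  · rintro _ ⟨w, hw, rfl⟩
    have := h.1 w hw k (List.mem_finRange k)
    beta_reduce at this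
    rw [cf, lw, mk_toWord, ← zpow_zero a1] at this
    exact a1_inj this
  · obtain ⟨h1, h2⟩ := h.2 j (List.mem_finRange j)
    have e : δ (pjw (fw (apf d.2.1 j))) = δ (((of j)⁻¹ * d.1 j) ^ (d.2.2 j + 1)) := by
      rw [expandF δ, expandF δ (_ ^ _)]
      exact Finset.prod_congr rfl fun k _ => congrArg _ (a1_inj (h2 k (List.mem_finRange k)))
    rw [pjw, hδ _ h1.mem, map_pow, eq_comm, pow_eq_one_iff_left (by omega), map_mul, map_inv,
      inv_mul_eq_one] at e
    rw [e, expandF δ, MonoidHom.finsetProd_apply]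
    refine Finset.prod_congr rfl fun k _ => Multiplicative.toAdd.injective ?_
    simp [mul_comm]

def liftC (m : ℕ) (φ : Fin n → Wn n) : Co m n :=
  Fin.addCases (fun i => [(Fin.castAdd n i, true)]) fun j => emb m (apf φ j)

@[fun_prop] theorem pr_liftC {f : α → Fin n → Wn n} (hf : PR f) : PR fun a => liftC m (f a) :=
  pr_fin fun x => by
    refine Fin.addCases (fun i => ?_) (fun j => ?_) x <;>
      simp only [liftC, Fin.addCases_left, Fin.addCases_right] <;> fun_prop

lemma rep_liftC {φ : Monoid.End (Fn n)} {c : Fin n → Wn n} (h : Rep of φ c) :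
    Rep (gn m n) (liftE φ) (liftC m c) := fun x => by
  refine Fin.addCases (fun i => ?_) (fun j => ?_) x <;>
    simp only [liftC, Fin.addCases_left, Fin.addCases_right]
  · rw [ev_one, gn_l]; exact Prod.ext rfl (map_one φ)
  · rw [ev_emb, gn_r, apf, ← ev_of, ← h]; rfl

def shC (i : Fin m) (e : Fin n → Fn 1) : Co m n :=
  Fin.addCases (fun i => [(Fin.castAdd n i, true)])
    fun j => tw (Fin.castAdd n i) (e j) ++ [(Fin.natAdd m j, true)]

def io (i : Fin m) : Multiplicative ℤ →* AA m := zpowersHom _ (Multiplicative.ofAdd (Pi.single i 1))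

lemma sh_apply (P : Fn n →* AA m) (g : GG m n) : shear P g = (g.1 * P g.2, g.2) := rfl

lemma rep_shC (i : Fin m) (δ : Fn n →* Multiplicative ℤ) :
    Rep (gn m n) (shear ((io i).comp δ)) (shC i fun j => a1 ^ (δ (of j)).toAdd) := fun x => by
  refine Fin.addCases (fun i => ?_) (fun j => ?_) x <;>
    simp only [shC, Fin.addCases_left, Fin.addCases_right]
  · rw [ev_one, gn_l, sh_apply]; simp
  · rw [ev_append, ev_one, ev_tw, gn_l, gn_r, sh_apply]; simp [io]

def shL (m : ℕ) (c : Fin n → Fn n) : List (Co m n) :=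
  (List.finRange m).flatMap fun i => (List.finRange n).flatMap fun k =>
    [shC i fun j => cf k (apf c j), shC i fun j => (cf k (apf c j))⁻¹]

lemma pr_shC {s : α → Fin m} {e : α → Fin n → Fn 1} (hs : PR s) (he : ∀ j, PR fun a => e a j) :
    PR fun a => shC (s a) (e a) :=
  pr_fin fun x => by
    have h1 : PR fun a => Fin.castAdd n (s a) := PR.comp (Primrec.dom_finite _) hs
    refine Fin.addCases (fun i => ?_) (fun j => ?_) x <;>
      simp only [shC, Fin.addCases_left, Fin.addCases_right]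
    · fun_prop
    · have h2 := he j
      generalize (fun a => Fin.castAdd n (s a)) = t at h1
      exact PR.append (PR.map (g := fun a (p : Fin 1 × Bool) => (Fin.castAdd n (s a), p.2))
        (pr_toWord h2) (PR.prodMk (PR.comp (g := fun a => Fin.castAdd n (s a))
          (PR.comp (Primrec.dom_finite _) hs) (PR.fst PR.id)) (PR.snd (PR.snd PR.id)))) (PR.const _)

@[fun_prop] theorem pr_shL {f : α → Fin n → Fn n} (hf : PR f) : PR fun a => shL m (f a) := by
  unfold shL
  refine PR.flatMap (PR.const _) (PR.flatMap (PR.const _) (PR.cons ?_ (PR.cons ?_ (PR.const _))))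
  · exact pr_shC (by fun_prop) fun j => by fun_prop
  · exact pr_shC (by fun_prop) fun j => by fun_prop

lemma mem_shL {c : Fin n → Fn n} {s : Co m n} : s ∈ shL m c ↔ ∃ i k, ∃ δ : Fn n →* Multiplicative ℤ,
    (δ = (coF k).comp (FreeGroup.lift c) ∨ δ = ((coF k).comp (FreeGroup.lift c))⁻¹) ∧
      s = shC i fun j => a1 ^ (δ (of j)).toAdd := by
  simp [shL, cf, apf, exists_or, or_and_right]

def prL (l : List (Wn (m + n))) : List (Wn n) := l.map fun w => (pjw w).toWord

lemma map_snd_HH (l : List (Wn (m + n))) :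
    (HH (gn m n) l).map (MonoidHom.snd (AA m) (Fn n)) = HH of (prL l) := by
  rw [HH, HH, MonoidHom.map_closure]
  congr 1
  ext u
  simp only [prL, Set.mem_image, Set.mem_ofPred_eq, List.mem_map, ev_of]
  constructor
  · rintro ⟨_, ⟨w, hw, rfl⟩, rfl⟩
    exact ⟨_, ⟨w, hw, rfl⟩, mk_toWord⟩
  · rintro ⟨_, ⟨w, hw, rfl⟩, rfl⟩
    exact ⟨_, ⟨w, hw, rfl⟩, mk_toWord.symm⟩

lemma good_G {l : List (Wn (m + n))} {d : Do m n} (hd : DC l d) (hc : Cond (HH (gn m n) l))
    (h2 : ∀ Ψ ∈ eStab (HH (gn m n) l), cZ Ψ = 1) {S : List (Fin n → Wn n)}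
    (hS : Good of S (eStab (HH of (prL l)))) :
    Good (gn m n) (S.map (fun c => liftC m c) ++ shL m d.1) (eStab (HH (gn m n) l)) := by
  obtain ⟨d1, d2⟩ := dc_sound hd
  have uniq : ∀ {Ψ Φ : Monoid.End (GG m n)} {c}, Rep (gn m n) Ψ c → Rep (gn m n) Φ c → Ψ = Φ :=
    fun h h' => MonoidHom.ext fun g => by
      obtain ⟨w, rfl⟩ := ev_surj g
      exact (ev_sub h w).trans (ev_sub h' w).symm
  have key : ∀ c ∈ S.map (fun c => liftC m c) ++ shL m d.1,
      ∃ Ψ ∈ eStab (HH (gn m n) l), Rep (gn m n) Ψ c := by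
    intro c hc
    rcases List.mem_append.1 hc with hc | hc
    · obtain ⟨c', hc', rfl⟩ := List.mem_map.1 hc
      obtain ⟨φ, hφ⟩ := hS.1 c' hc'
      refine ⟨_, liftE_mem ?_, rep_liftC hφ⟩
      rw [map_snd_HH, ← hS.2]
      exact Submonoid.subset_closure ⟨c', hc', hφ⟩
    · obtain ⟨i, k, δ, h, rfl⟩ := mem_shL.1 hc
      refine ⟨_, fun g hg => ?_, rep_shC i δ⟩
      have : δ g.2 = 1 := by rcases h with rfl | rfl <;> simp [d1 k g hg]
      rw [sh_apply, MonoidHom.comp_apply, this, map_one, mul_one]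
  refine ⟨fun c hc => (key c hc).imp fun _ h => h.2, le_antisymm (Submonoid.closure_le.2 ?_) ?_⟩
  · rintro Ψ ⟨c, hc, h⟩
    obtain ⟨Φ, h1, h3⟩ := key c hc
    exact uniq h h3 ▸ h1
  intro Ψ hΨ
  have e : Ψ = liftE (cF Ψ) * shear (cP Ψ) := by
    apply MonoidHom.ext; rintro ⟨a, u⟩
    have := apply_eq Ψ a u
    rw [cQ_id hc hΨ, h2 Ψ hΨ] at this
    exact this.trans (by simp; rfl)
  have m1 := typeI_mem hΨ (h2 Ψ hΨ)
  have m2 : ∀ g ∈ HH (gn m n) l, cP Ψ g.2 = 1 := fun g hg => by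
    have := congrArg Prod.fst ((apply_eq Ψ _ _).symm.trans (hΨ g hg))
    rw [cQ_id hc hΨ] at this
    simpa using this
  rw [e]
  generalize cF Ψ = φ, cP Ψ = P at m1 m2
  refine Submonoid.mul_mem _ ?_ ?_
  · rw [map_snd_HH, ← hS.2] at m1
    induction m1 using Submonoid.closure_induction with
    | mem x hx =>
      obtain ⟨c, h1, h3⟩ := hx
      exact Submonoid.subset_closure
        ⟨_, List.mem_append_left _ (List.mem_map_of_mem h1), rep_liftC h3⟩
    | one => rw [map_one]; exact Submonoid.one_mem _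
    | mul x y _ _ hx hy => rw [map_mul]; exact Submonoid.mul_mem _ hx hy
  · let ρ : Fin m → AA m →* Multiplicative ℤ :=
      fun i => AddMonoidHom.toMultiplicative (Pi.evalAddMonoidHom (fun _ => ℤ) i)
    have eP : P = ∏ i, (io i).comp ((ρ i).comp P) := by
      ext1 u
      rw [MonoidHom.finsetProd_apply]
      exact expandA (MonoidHom.id _) (P (of u))
    rw [eP, ← Submonoid.mem_comap]
    refine Submonoid.prod_mem _ fun i _ => ?_
    rw [d2 ((ρ i).comp P) fun g hg => by rw [MonoidHom.comp_apply, m2 g hg, map_one]]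
    change MonoidHom.compHom (io i) _ ∈ _
    rw [← Submonoid.mem_comap]
    refine Submonoid.prod_mem _ fun k _ => ?_
    have g : ∀ δ : Fn n →* Multiplicative ℤ, (δ = (coF k).comp (FreeGroup.lift d.1) ∨
        δ = ((coF k).comp (FreeGroup.lift d.1))⁻¹) → shear ((io i).comp δ) ∈ Submonoid.closure
        {Ψ | ∃ c ∈ S.map (fun c => liftC m c) ++ shL m d.1, Rep (gn m n) Ψ c} := fun δ h =>
      Submonoid.subset_closure
        ⟨_, List.mem_append_right _ (mem_shL.2 ⟨i, k, δ, h, rfl⟩), rep_shC i δ⟩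
    obtain ⟨N, h | h⟩ := Int.eq_nat_or_neg (((ρ i).comp P) (of k)).toAdd <;> rw [h]
    · rw [zpow_natCast]
      refine Submonoid.pow_mem _ ?_ _
      exact g _ (Or.inl rfl)
    · rw [zpow_neg, zpow_natCast, ← inv_pow]
      refine Submonoid.pow_mem _ ?_ _
      exact g _ (Or.inr rfl)

def Neg (l : List (Wn (m + n))) (x : Co m n × Vo m m n) : Prop :=
  NEG1 l x.1 ∨ Bex (allC (m + n) (1 + n1 x.2)) fun c => T2 l c

lemma free_surj (g : Fn n) : ∃ w, ev of w = g := ⟨g.toWord, by rw [ev_of, mk_toWord]⟩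

theorem up (h : Solvable (of : Fin n → Fn n)) : Solvable (gn m n) := by
  classical
  obtain ⟨B, hB, h⟩ := (solvable_iff free_surj).1 h
  obtain ⟨f, hf, hR⟩ := unif (fun (l : List (Wn (m + n))) (x : (Co m n × Vo m m n) × Do m n) =>
    (NEG1 l x.1.1 ∨ POS1 l x.1.2) ∧ DC l x.2) (by unfold NEG1 POS1 DC Ent; fun_prop) fun l => by
      obtain ⟨x, hx⟩ := cert_total l
      obtain ⟨d, hd⟩ := dc_total l
      exact ⟨(x, d), hx, hd⟩
  let out : (List (Wn (m + n)) × (Co m n × Vo m m n) × Do m n) × Option (List (Fin n → Wn n)) →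
      Option (List (Co m n)) := fun z => if Neg z.1.1 z.1.2.1 then none else
        z.2.map fun S => S.map (fun c => liftC m c) ++ shL m z.1.2.2.1
  have p1 : PR out := by
    refine PR.ite ?_ (PR.const _) (Primrec.option_map Primrec.snd (?_ : PR _))
    · unfold Neg NEG1 T2 IsE Fx allC n1
      fun_prop
    · fun_prop
  have p2 : PR fun l : List (Wn (m + n)) => prL l := by unfold prL; fun_prop
  refine (solvable_iff ev_surj).2 ⟨fun l => out ((l, f l), B (prL l)), (Primrec.to_comp p1).comp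
    ((Computable.id.pair hf).pair (hB.comp (Primrec.to_comp p2))), fun l => ⟨fun e hfg => ?_, ?_⟩⟩
  · by_cases hN : Neg l (f l).1
    · rcases hN with hN | ⟨c, -, hN⟩
      · exact neg1_sound hN (cond_of_fg _ hfg)
      · exact t2_sound hN hfg
    · simp only [out, hN, if_false, Option.map_eq_none_iff] at e
      exact (h _).1 e (map_snd_HH l ▸ ((criterion _).1 hfg).2.1)
  · intro S hS
    by_cases hN : Neg l (f l).1
    · simp [out, hN] at hS
    simp only [out, hN, if_false, Option.map_eq_some_iff] at hS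
    obtain ⟨S', h1, rfl⟩ := hS
    have hp := (hR l).1.resolve_left fun e => hN (Or.inl e)
    refine good_G (hR l).2 (pos1_sound hp) (fun Ψ hΨ => ?_) ((h _).2 S' h1)
    by_contra e
    exact hN (Or.inr (t2_small hp hΨ e))

def upL (m : ℕ) (l : List (Wn n)) : List (Wn (m + n)) :=
  (lT m n).map (fun x => [(x, true)]) ++ l.map fun w => emb m w

lemma upL_snd (l : List (Wn n)) :
    (HH (gn m n) (upL m l)).map (MonoidHom.snd (AA m) (Fn n)) = HH of l := by
  refine le_antisymm (Subgroup.map_le_iff_le_comap.2 ((Subgroup.closure_le _).2 ?_))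
    ((Subgroup.closure_le _).2 ?_)
  · rintro _ ⟨w, hw, rfl⟩
    rcases List.mem_append.1 hw with hw | hw
    · obtain ⟨_, hx, rfl⟩ := List.mem_map.1 hw
      obtain ⟨i, -, rfl⟩ := List.mem_map.1 hx
      rw [ev_one, gn_l]
      exact Subgroup.one_mem (HH of l)
    · obtain ⟨w', hw', rfl⟩ := List.mem_map.1 hw
      rw [ev_emb]
      exact Subgroup.subset_closure (k := {g | ∃ w ∈ l, ev of w = g}) ⟨w', hw', ev_of w'⟩
  · rintro _ ⟨w, hw, rfl⟩
    exact ⟨_, Subgroup.subset_closure ⟨_, List.mem_append_right _ (List.mem_map_of_mem hw), rfl⟩,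
      by rw [ev_emb, ev_of]; rfl⟩

lemma upL_fst (l : List (Wn n)) (t : AA m) : (t, 1) ∈ HH (gn m n) (upL m l) := by
  change t ∈ (HH (gn m n) (upL m l)).comap (MonoidHom.inl _ _)
  rw [show t = MonoidHom.id _ t from rfl, expandA]
  refine Subgroup.prod_mem _ fun i _ => Subgroup.zpow_mem _ ?_ _
  exact Subgroup.subset_closure (k := {g | ∃ w ∈ upL m l, ev (gn m n) w = g})
    ⟨_, List.mem_append_left _ (List.mem_map_of_mem
      (List.mem_map_of_mem (List.mem_finRange i))), by rw [ev_one, gn_l]; rfl⟩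

theorem down (h : Solvable (gn m n)) : Solvable (of : Fin n → Fn n) := by
  obtain ⟨A, hA, h⟩ := (solvable_iff ev_surj).1 h
  let dn : Co m n → Fin n → Wn n := fun c j => (pjw (apf c (Fin.natAdd m j))).toWord
  have p0 : PR dn := pr_fin fun j => by fun_prop
  have p1 : PR fun o : Option (List (Co m n)) => o.map fun S => S.map fun c => dn c :=
    Primrec.option_map Primrec.id (by fun_prop : PR _)
  have p2 : PR fun l : List (Wn n) => upL m l := by unfold upL; fun_prop
  refine (solvable_iff free_surj).2 ⟨fun l => (A (upL m l)).map fun S => S.map fun c => dn c,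
    (Primrec.to_comp p1).comp (hA.comp (Primrec.to_comp p2)), fun l => ?_⟩
  have hc : Cond (HH (gn m n) (upL m l)) := fun t =>
    ⟨1, one_pos, 1, Subgroup.one_mem _, upL_fst l _⟩
  have hg : ∀ z : AA m →* Fn n, Graph (HH (gn m n) (upL m l)) z → z = 1 :=
    fun z hz => MonoidHom.ext fun t => (hz _ (upL_fst l t)).symm
  have z1 : ∀ Ψ ∈ eStab (HH (gn m n) (upL m l)), cZ Ψ = 1 := fun Ψ hΨ =>
    MonoidHom.ext fun t => congrArg Prod.snd (hΨ _ (upL_fst l t))
  refine ⟨fun e hfg => (h _).1 (Option.map_eq_none_iff.1 e)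
    ((criterion _).2 ⟨hc, (upL_snd l).symm ▸ hfg, hg⟩), fun S hS => ?_⟩
  obtain ⟨S, h1, rfl⟩ := Option.map_eq_some_iff.1 hS
  obtain ⟨g1, g2⟩ := (h _).2 S h1
  have rp : ∀ {Ψ c}, Rep (gn m n) Ψ c → Rep of (cF Ψ) (dn c) := fun {Ψ c} h j => by
    rw [ev_of, mk_toWord, pjw, apf, ← h, gn_r]; rfl
  refine ⟨fun c hc => ?_, le_antisymm (Submonoid.closure_le.2 ?_) fun φ hφ => ?_⟩
  · obtain ⟨c', hc', rfl⟩ := List.mem_map.1 hc
    obtain ⟨Ψ, hΨ⟩ := g1 c' hc'
    exact ⟨_, rp hΨ⟩
  · rintro φ ⟨c', hc', h2⟩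
    obtain ⟨c, hc, rfl⟩ := List.mem_map.1 hc'
    obtain ⟨Ψ, hΨ⟩ := g1 c hc
    have m1 : Ψ ∈ eStab (HH (gn m n) (upL m l)) := g2 ▸ Submonoid.subset_closure ⟨c, hc, hΨ⟩
    obtain rfl : φ = cF Ψ := FreeGroup.ext_hom _ _ fun j => (h2 j).trans (rp hΨ j).symm
    exact upL_snd (m := m) l ▸ typeI_mem m1 (z1 Ψ m1)
  · have key : ∀ Ψ ∈ Submonoid.closure {Ψ | ∃ c ∈ S, Rep (gn m n) Ψ c}, cF Ψ ∈
        Submonoid.closure {φ | ∃ c ∈ S.map fun c => dn c, Rep of φ c} := by
      intro Ψ hΨ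
      induction hΨ using Submonoid.closure_induction with
      | mem x hx =>
        obtain ⟨c, h2, h3⟩ := hx
        exact Submonoid.subset_closure ⟨_, List.mem_map_of_mem h2, rp h3⟩
      | one => exact Submonoid.one_mem _
      | mul x y mx _ hx hy =>
        have : cF (x * y) = cF x * cF y := MonoidHom.ext fun u => by
          have := cF_mul x y u
          rw [z1 x (g2 ▸ mx), MonoidHom.one_apply, one_mul] at this
          exact this
        rw [this]
        exact Submonoid.mul_mem _ hx hy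
    exact key (liftE φ) (g2.symm ▸ liftE_mem ((upL_snd l).symm ▸ hφ))

end Pool.Agent.Lib.MP_d96856_al.N
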