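import Mathlib
import Pool.Agent.Lib.MP_d96856_al.R2T

namespace Pool.Agent.Lib.MP_d96856_al
open FreeGroup hiding map_mul map_one map_inv

abbrev F2 := FreeGroup (Fin 2)

section Nielsen
variable {α : Type} [DecidableEq α]

lemma key3 (x y z : FreeGroup α) (h : x.norm + z.norm < (x * y).norm + (y * z).norm) :
    (x * (y * z)).norm + y.norm = (x * y).norm + (y * z).norm := by
  have f1 := four x⁻¹ y (y * z)
  have f2 := four x⁻¹ (y * z) y
  simp only [inv_inv, inv_mul_cancel_left, norm_inv_eq] at f1 f2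
  rw [show (y * z)⁻¹ * y = z⁻¹ by group, norm_inv_eq] at f2
  omega

lemma word_bound {β : Type} (φ : FreeGroup β →* FreeGroup α)
    (N1 : ∀ p q : β × Bool, (p.1 = q.1 → p.2 = q.2) →
      (φ (mk [p])).norm ≤ (φ (mk [p]) * φ (mk [q])).norm ∧
      (φ (mk [q])).norm ≤ (φ (mk [p]) * φ (mk [q])).norm)
    (N2 : ∀ p q r : β × Bool, (p.1 = q.1 → p.2 = q.2) → (q.1 = r.1 → q.2 = r.2) →
      (φ (mk [p])).norm + (φ (mk [r])).norm <
        (φ (mk [p]) * φ (mk [q])).norm + (φ (mk [q]) * φ (mk [r])).norm) :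
    ∀ (l : List (β × Bool)) (q : β × Bool), IsReduced (q :: l) →
      (∀ y ∈ q :: l, (φ (mk [y])).norm ≤ (φ (mk (q :: l))).norm) ∧
      ∀ p : β × Bool, (p.1 = q.1 → p.2 = q.2) →
        (φ (mk [p]) * φ (mk (q :: l))).norm + (φ (mk [q])).norm =
          (φ (mk [p]) * φ (mk [q])).norm + (φ (mk (q :: l))).norm
  | [], q, _ => ⟨fun y hy => by rw [List.mem_singleton.1 hy], fun _ _ => rfl⟩
  | r :: l, q, h => by
    obtain ⟨h1, h2⟩ := isReduced_cons_cons.1 h
    obtain ⟨i1, i2⟩ := word_bound φ N1 N2 l r h2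
    have i3 := i2 q h1
    have i4 := i1 r (by simp)
    have n1 := N1 q r h1
    rw [mk_cons q (r :: l), map_mul]
    refine ⟨fun y hy => ?_, fun p hp => ?_⟩
    · rcases List.mem_cons.1 hy with rfl | hy
      · omega
      · have := i1 y hy
        omega
    · have n2 := N2 p q r hp h1
      exact key3 _ _ _ (by omega)

def Bad (x y : FreeGroup α) : Prop := (x * y).norm ≤ x.norm ∧ (y * x).norm ≤ x.norm

lemma norm_inv_mul (x y : FreeGroup α) : (y⁻¹ * x⁻¹).norm = (x * y).norm := by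
  rw [← mul_inv_rev, norm_inv_eq]

lemma bad_inv {x y : FreeGroup α} (h : Bad x⁻¹ y⁻¹) : Bad x y := by
  simp only [Bad, norm_inv_mul, norm_inv_eq] at h ⊢
  exact h.symm

lemma no_bad (M : FreeGroup α → FreeGroup α → Prop) (sw : ∀ x y, M x y → M y x)
    (iv : ∀ x y, M x y → M x⁻¹ y) (le : ∀ x y, M x y → y.norm ≤ (x * y).norm)
    (st : ∀ x y, M x y → (x * y).norm ≤ y.norm → M x (x * y)) (ne : ∀ x y, M x y → x ≠ 1)
    {u v : FreeGroup α} (h : M u v) :
    ∃ x y, M x y ∧ ¬ Bad x y ∧ ¬ Bad x y⁻¹ ∧ ¬ Bad y x ∧ ¬ Bad y x⁻¹ := by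
  by_cases hb : ∃ x y, M x y ∧ Bad x y
  · obtain ⟨x, y, m, b1, b2⟩ := hb
    have m1 : M y⁻¹ x⁻¹ := iv _ _ (sw _ _ (iv _ _ m))
    have l1 := le _ _ m1
    have l2 := le _ _ m
    have m2 := st _ _ m1 (by rw [norm_inv_mul, norm_inv_eq]; exact b1)
    rw [norm_inv_mul, norm_inv_eq] at l1
    have m3 : M (x * y) y := by
      have := iv _ _ (sw _ _ (iv _ _ m2))
      simpa using this
    have s := norm_sq_gt (ne _ _ (sw _ _ m))
    have a1 : (x * y).norm < (x * y * y).norm := by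
      have := key3 x y y (by omega)
      rw [mul_assoc]
      omega
    have a2 : (x * y).norm < (y⁻¹ * (x * y)).norm := by
      have f1 := four y (x * y) y⁻¹
      have f2 := four y⁻¹ x (x * y)
      simp only [inv_inv, inv_mul_cancel_left, norm_inv_eq, norm_inv_mul] at f1 f2
      omega
    refine ⟨x * y, y, m3, fun b => ?_, fun b => ?_, fun b => ?_, fun b => ?_⟩
    · have := b.1; omega
    · have := b.2; omega
    · have := b.2; omega
    · have := b.2
      rw [← norm_inv_eq, mul_inv_rev, inv_inv] at this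
      omega
  · push Not at hb
    exact ⟨u, v, h, hb _ _ h, hb _ _ (sw _ _ (iv _ _ (sw _ _ h))), hb _ _ (sw _ _ h),
      hb _ _ (sw _ _ (iv _ _ h))⟩

end Nielsen

/-- the homomorphism with given images of the two generators -/
def E {G : Type} [Group G] (u v : G) : F2 →* G := FreeGroup.lift ![u, v]

@[simp] lemma E_a {G : Type} [Group G] (u v : G) : E u v (of 0) = u := by simp [E]
@[simp] lemma E_b {G : Type} [Group G] (u v : G) : E u v (of 1) = v := by simp [E]

lemma hom_ext2 {G : Type} [Group G] {f g : F2 →* G} (h0 : f (of 0) = g (of 0))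
    (h1 : f (of 1) = g (of 1)) : f = g :=
  FreeGroup.ext_hom _ _ (Fin.forall_fin_two.2 ⟨h0, h1⟩)

lemma aut_ext2 {f g : MulAut F2} (h0 : f (of 0) = g (of 0)) (h1 : f (of 1) = g (of 1)) : f = g :=
  MulEquiv.toMonoidHom_injective (hom_ext2 h0 h1)

def mkAut (u v u' v' : F2) (h1 : E u v u' = of 0) (h2 : E u v v' = of 1)
    (h3 : E u' v' u = of 0) (h4 : E u' v' v = of 1) : MulAut F2 :=
  MonoidHom.toMulEquiv (E u v) (E u' v') (hom_ext2 (by simpa using h3) (by simpa using h4))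
    (hom_ext2 (by simpa using h1) (by simpa using h2))

def sg : MulAut F2 := mkAut (of 1) (of 0) (of 1) (of 0) (by simp) (by simp) (by simp) (by simp)
def io : MulAut F2 := mkAut (of 0)⁻¹ (of 1) (of 0)⁻¹ (of 1) (by simp) (by simp) (by simp) (by simp)
def LL : MulAut F2 := mkAut (of 0) (of 0 * of 1) (of 0) ((of 0)⁻¹ * of 1)
  (by simp) (by simp) (by simp) (by simp)

lemma mkAut_apply (u v u' v' : F2) (h1 h2 h3 h4) (w : F2) :
    mkAut u v u' v' h1 h2 h3 h4 w = E u v w := rfl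

lemma mkAut_inv_apply (u v u' v' : F2) (h1 h2 h3 h4) (w : F2) :
    (mkAut u v u' v' h1 h2 h3 h4)⁻¹ w = E u' v' w := rfl

@[simp] lemma sg_a : sg (of 0) = of 1 := by simp [sg, mkAut_apply]
@[simp] lemma sg_b : sg (of 1) = of 0 := by simp [sg, mkAut_apply]
@[simp] lemma io_a : io (of 0) = (of 0)⁻¹ := by simp [io, mkAut_apply]
@[simp] lemma io_b : io (of 1) = of 1 := by simp [io, mkAut_apply]
@[simp] lemma LL_a : LL (of 0) = of 0 := by simp [LL, mkAut_apply]
@[simp] lemma LL_b : LL (of 1) = of 0 * of 1 := by simp [LL, mkAut_apply]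

def Nie : Subgroup (MulAut F2) := Subgroup.closure {sg, io, LL}

lemma sg_mem : sg ∈ Nie := Subgroup.subset_closure (by simp)
lemma io_mem : io ∈ Nie := Subgroup.subset_closure (by simp)
lemma LL_mem : LL ∈ Nie := Subgroup.subset_closure (by simp)

lemma mk_t {β : Type} (i : β) : mk [(i, true)] = of i := rfl
lemma mk_f {β : Type} (i : β) : mk [(i, false)] = (of i)⁻¹ := rfl

section
variable {α : Type} [DecidableEq α] (φ : F2 →* FreeGroup α)

/-- the Nielsen class of a pair -/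
def Cls (x y : FreeGroup α) : Prop := ∃ ν ∈ Nie, φ (ν (of 0)) = x ∧ φ (ν (of 1)) = y

omit [DecidableEq α] in
lemma Cls.sw {x y : FreeGroup α} : Cls φ x y → Cls φ y x := by
  rintro ⟨ν, h, rfl, rfl⟩
  exact ⟨ν * sg, Nie.mul_mem h sg_mem, by simp, by simp⟩

omit [DecidableEq α] in
lemma Cls.iv {x y : FreeGroup α} : Cls φ x y → Cls φ x⁻¹ y := by
  rintro ⟨ν, h, rfl, rfl⟩
  exact ⟨ν * io, Nie.mul_mem h io_mem, by simp, by simp⟩

omit [DecidableEq α] in
lemma Cls.st {x y : FreeGroup α} : Cls φ x y → Cls φ x (x * y) := by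
  rintro ⟨ν, h, rfl, rfl⟩
  exact ⟨ν * LL, Nie.mul_mem h LL_mem, by simp, by simp⟩

theorem exists_good : ∃ ν ∈ Nie, φ (ν (of 0)) = 1 ∨ ((∀ i, φ (ν (of i)) ≠ 1) ∧
    ∀ w : F2, ∀ p ∈ w.toWord, (φ (ν (of p.1))).norm ≤ (φ (ν w)).norm) := by
  have hex : ∃ n, ∃ x y, Cls φ x y ∧ x.norm + y.norm = n :=
    ⟨_, _, _, ⟨1, Nie.one_mem, rfl, rfl⟩, rfl⟩
  classical
  have hmin : ∀ x y, Cls φ x y → Nat.find hex ≤ x.norm + y.norm :=
    fun x y h => Nat.find_min' hex ⟨x, y, h, rfl⟩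
  obtain ⟨u, v, huv⟩ := Nat.find_spec hex
  let M : FreeGroup α → FreeGroup α → Prop :=
    fun x y => Cls φ x y ∧ x.norm + y.norm = Nat.find hex
  by_cases h1 : ∃ y, Cls φ 1 y
  · obtain ⟨y, ν, hν, h, -⟩ := h1
    exact ⟨ν, hν, Or.inl h⟩
  have sw : ∀ x y, M x y → M y x := fun x y h => ⟨h.1.sw, by rw [add_comm]; exact h.2⟩
  have iv : ∀ x y, M x y → M x⁻¹ y := fun x y h => ⟨h.1.iv, by rw [norm_inv_eq]; exact h.2⟩
  have le : ∀ x y, M x y → y.norm ≤ (x * y).norm := fun x y h => by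
    have := hmin _ _ h.1.st
    have := h.2
    omega
  have ne : ∀ x y, M x y → x ≠ 1 := fun x y h e => h1 ⟨y, e ▸ h.1⟩
  obtain ⟨x, y, m, b1, b2, b3, b4⟩ := no_bad M sw iv le (fun x y h h' => ⟨h.1.st, by
    have := le _ _ h
    have := h.2
    omega⟩) ne huv
  obtain ⟨ν, hν, hx, hy⟩ := m.1
  let ψ : F2 →* FreeGroup α := φ.comp ν.toMonoidHom
  have ex : ψ (of 0) = x := hx
  have ey : ψ (of 1) = y := hy
  have G : ∀ p q : Fin 2 × Bool, p.1 ≠ q.1 → M (ψ (mk [p])) (ψ (mk [q])) ∧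
      ¬ Bad (ψ (mk [p])) (ψ (mk [q])) := by
    have m2 := iv _ _ m
    have m3 := iv _ _ (sw _ _ m)
    have m4 := iv _ _ (sw _ _ m2)
    rintro ⟨i, s⟩ ⟨j, t⟩ hij
    fin_cases i <;> fin_cases j <;> cases s <;> cases t <;>
      simp only [mk_t, mk_f, Fin.zero_eta, Fin.mk_one, map_inv, ex, ey, ne_eq, not_true_eq_false] at hij ⊢
    · exact ⟨sw _ _ m4, fun b => b1 (bad_inv b)⟩
    · exact ⟨m2, fun b => b2 (bad_inv (by simpa using b))⟩
    · exact ⟨sw _ _ m3, b2⟩
    · exact ⟨m, b1⟩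
    · exact ⟨m4, fun b => b3 (bad_inv b)⟩
    · exact ⟨m3, fun b => b4 (bad_inv (by simpa using b))⟩
    · exact ⟨sw _ _ m2, b4⟩
    · exact ⟨sw _ _ m, b3⟩
  have nz : ∀ p : Fin 2 × Bool, ψ (mk [p]) ≠ 1 := fun p =>
    ne _ _ (G p (p.1 + 1, true) (by generalize p.1 = i; revert i; decide)).1
  have N1 : ∀ p q : Fin 2 × Bool, (p.1 = q.1 → p.2 = q.2) →
      (ψ (mk [p])).norm ≤ (ψ (mk [p]) * ψ (mk [q])).norm ∧
      (ψ (mk [q])).norm ≤ (ψ (mk [p]) * ψ (mk [q])).norm := by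
    intro p q h
    by_cases e : p.1 = q.1
    · obtain rfl : p = q := Prod.ext e (h e)
      exact ⟨(norm_sq_gt (nz p)).le, (norm_sq_gt (nz p)).le⟩
    · have m1 := (G p q e).1
      have := le _ _ (iv _ _ (sw _ _ (iv _ _ m1)))
      rw [norm_inv_mul, norm_inv_eq] at this
      exact ⟨this, le _ _ m1⟩
  have N2 : ∀ p q r : Fin 2 × Bool, (p.1 = q.1 → p.2 = q.2) → (q.1 = r.1 → q.2 = r.2) →
      (ψ (mk [p])).norm + (ψ (mk [r])).norm <
        (ψ (mk [p]) * ψ (mk [q])).norm + (ψ (mk [q]) * ψ (mk [r])).norm := by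
    intro p q r h h'
    have n1 := N1 p q h
    have n2 := N1 q r h'
    have s := norm_sq_gt (nz q)
    by_cases e : p.1 = q.1
    · obtain rfl : p = q := Prod.ext e (h e)
      omega
    by_cases e' : q.1 = r.1
    · obtain rfl : q = r := Prod.ext e' (h' e')
      omega
    have e2 : r.1 = p.1 := by
      revert e e'
      generalize p.1 = i, q.1 = j, r.1 = k
      revert i j k
      decide
    by_cases e3 : r.2 = p.2
    · obtain rfl : r = p := Prod.ext e2 e3
      have := (G r q e).2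
      simp only [Bad] at this
      omega
    · have e4 : mk [r] = (mk [p])⁻¹ := by
        rw [inv_mk]
        congr 2
        refine Prod.ext e2 ?_
        change r.2 = !p.2
        revert e3
        cases r.2 <;> cases p.2 <;> simp
      rw [e4, map_inv] at n2 ⊢
      have f := four (ψ (mk [q]))⁻¹ (ψ (mk [p]))⁻¹ (ψ (mk [q]))
      simp only [inv_inv, norm_inv_eq] at f n2 ⊢
      omega
  refine ⟨ν, hν, Or.inr ⟨fun i => nz (i, true), fun w p hp => ?_⟩⟩
  obtain ⟨q, l, hl⟩ := List.exists_cons_of_ne_nil (List.ne_nil_of_mem hp)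
  have := (word_bound ψ N1 N2 l q (hl ▸ isReduced_toWord)).1 p (hl ▸ hp)
  rw [← hl, mk_toWord] at this
  obtain ⟨i, s⟩ := p
  cases s
  · rwa [mk_f, map_inv, norm_inv_eq] at this
  · exact this

end

lemma mem_zpowers_of {β : Type} [DecidableEq β] (w : FreeGroup β) (j : β)
    (h : ∀ p ∈ w.toWord, p.1 = j) : w ∈ Subgroup.zpowers (of j) := by
  rw [← mk_toWord (x := w)]
  generalize w.toWord = l at h
  induction l with
  | nil => exact Subgroup.one_mem _
  | cons p l ih =>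
    rw [mk_cons]
    refine Subgroup.mul_mem _ ?_ (ih fun q hq => h q (List.mem_cons_of_mem _ hq))
    obtain ⟨i, s⟩ := p
    obtain rfl : i = j := h (i, s) (by simp)
    cases s
    · exact Subgroup.inv_mem _ (Subgroup.mem_zpowers _)
    · exact Subgroup.mem_zpowers _

lemma occurs (w : F2) (i : Fin 2) (h : w ∉ Subgroup.zpowers (of (i + 1))) :
    ∃ p ∈ w.toWord, p.1 = i := by
  by_contra hc
  push Not at hc
  refine h (mem_zpowers_of w _ fun p hp => ?_)
  have := hc p hp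
  revert this
  generalize p.1 = j
  clear h hc
  revert i j
  decide

lemma not_comm_ab : ¬ Commute (of 0 : F2) (of 1) := by
  unfold Commute SemiconjBy
  decide

lemma norm_one_iff {β : Type} [DecidableEq β] {w : FreeGroup β} (h0 : w ≠ 1) (h : w.norm ≤ 1) :
    ∃ i, w = of i ∨ w = (of i)⁻¹ := by
  have h1 : w.toWord.length = 1 := by
    have : w.norm ≠ 0 := fun e => h0 (norm_eq_zero.1 e)
    change w.norm = 1
    omega
  obtain ⟨⟨i, s⟩, hp⟩ := List.length_eq_one_iff.1 h1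
  refine ⟨i, ?_⟩
  rw [← mk_toWord (x := w), hp]
  cases s
  · exact Or.inr rfl
  · exact Or.inl rfl

theorem aut_gen (φ : MulAut F2) : φ ∈ Nie := by
  obtain ⟨ν, hν, h | ⟨h0, h⟩⟩ := exists_good φ.toMonoidHom
  · exact absurd ((φ * ν).injective (h.trans (map_one _).symm)) (of_ne_one _)
  have h1 : ∀ i, (φ (ν (of i))).norm ≤ 1 := by
    intro i
    have : ∃ j, (φ * ν)⁻¹ (of j) ∉ Subgroup.zpowers (of (i + 1) : F2) := by
      by_contra hc
      push Not at hc
      obtain ⟨a, ha⟩ := hc 0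
      obtain ⟨b, hb⟩ := hc 1
      have c : Commute ((φ * ν)⁻¹ (of 0)) ((φ * ν)⁻¹ (of 1)) := by
        rw [← ha, ← hb]; exact Commute.zpow_zpow_self _ _ _
      have := c.map (φ * ν)
      simp only [MulAut.apply_inv_self] at this
      exact not_comm_ab this
    obtain ⟨j, hj⟩ := this
    obtain ⟨p, hp, rfl⟩ := occurs _ i hj
    have := h _ p hp
    change _ ≤ ((φ * ν) ((φ * ν)⁻¹ (of j))).norm at this
    rwa [MulAut.apply_inv_self, norm_of] at this
  obtain ⟨i, hi⟩ := norm_one_iff (h0 0) (h1 0)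
  obtain ⟨j, hj⟩ := norm_one_iff (h0 1) (h1 1)
  have c0 : Cls φ.toMonoidHom _ _ := ⟨ν, hν, rfl, rfl⟩
  have c1 : Cls φ.toMonoidHom (of i) (of j) := by
    rcases hi with hi | hi <;> rcases hj with hj | hj <;> rw [hi, hj] at c0
    · exact c0
    · simpa using c0.sw.iv.sw
    · simpa using c0.iv
    · simpa using c0.iv.sw.iv.sw
  have c2 : Cls φ.toMonoidHom (of 0) (of 1) := by
    have hij : i ≠ j := by
      rintro rfl
      obtain ⟨μ, -, e0, e1⟩ := c1
      have := (φ * μ).injective (e0.trans e1.symm)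
      exact absurd (of_injective this) (by decide)
    fin_cases i <;> fin_cases j
    · exact absurd rfl hij
    · exact c1
    · exact c1.sw
    · exact absurd rfl hij
  obtain ⟨μ, hμ, e0, e1⟩ := c2
  have : φ * μ = 1 := aut_ext2 e0 e1
  rw [eq_inv_of_mul_eq_one_left this]
  exact Nie.inv_mem hμ

lemma inj_or_cyc {α : Type} [DecidableEq α] (φ : F2 →* FreeGroup α) :
    Function.Injective φ ∨ ∃ z, ∀ w, φ w ∈ Subgroup.zpowers z := by
  obtain ⟨ν, -, h | ⟨h0, h⟩⟩ := exists_good φ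
  · refine Or.inr ⟨φ (ν (of 1)), fun w => ?_⟩
    obtain ⟨w, rfl⟩ := ν.surjective w
    induction w using FreeGroup.induction_on with
    | C1 => simp
    | of x =>
      fin_cases x
      · exact h ▸ Subgroup.one_mem _
      · exact Subgroup.mem_zpowers _
    | inv_of x ih => simpa using ih
    | mul x y hx hy => simpa using Subgroup.mul_mem _ hx hy
  · refine Or.inl ((injective_iff_map_eq_one φ).2 fun w hw => ?_)
    obtain ⟨w, rfl⟩ := ν.surjective w
    by_contra hc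
    have h1 : w.toWord ≠ [] := fun e => hc (by rw [toWord_eq_nil_iff.1 e, map_one])
    obtain ⟨p, hp⟩ := List.exists_mem_of_ne_nil _ h1
    have := h w p hp
    rw [hw, FreeGroup.norm_one, Nat.le_zero, FreeGroup.norm_eq_zero] at this
    exact h0 _ this

theorem surj_of_inj (φ : Monoid.End F2) (hi : Function.Injective φ) (h : F2)
    (hh : ∀ (ν : MulAut F2) (e : ℤ), h ≠ ν (of 0) ^ e) (hφ : φ h = h) :
    Function.Surjective φ := by
  have fx : ∀ k : ℕ, (φ ^ k) h = h := fun k => by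
    induction k with
    | zero => rfl
    | succ k ih => rw [pow_succ, Monoid.End.coe_mul, Function.comp_apply, hφ, ih]
  have ij : ∀ k : ℕ, Function.Injective (φ ^ k : Monoid.End F2) := fun k => by
    rw [Monoid.End.coe_pow]; exact hi.iterate k
  have ex : ∀ k : ℕ, ∃ ν : MulAut F2, ∀ i, ((φ ^ k) (ν (of i))).norm ≤ h.norm := by
    intro k
    obtain ⟨ν, -, h1 | ⟨-, h1⟩⟩ := exists_good (φ ^ k : Monoid.End F2)
    · exact absurd (ν.injective (ij k (h1.trans (by simp)))) (of_ne_one (0 : Fin 2))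
    refine ⟨ν, fun i => ?_⟩
    have e : (φ ^ k) (ν (ν⁻¹ h)) = h := by rw [MulAut.apply_inv_self, fx]
    obtain ⟨p, hp, rfl⟩ := occurs (ν⁻¹ h) i (by
      rintro ⟨e, he⟩
      have h2 : h = ν (of (i + 1)) ^ e := by
        rw [← map_zpow]
        exact (MulAut.apply_inv_self _ ν h).symm.trans (congrArg ν he.symm)
      fin_cases i
      · exact hh (ν * sg) e (by simpa using h2)
      · exact hh ν e h2)
    exact e ▸ h1 _ p hp
  choose ν hν using ex
  have fin := (finite_ball (α := Fin 2) h.norm).prod (finite_ball (α := Fin 2) h.norm)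
  obtain ⟨i, j, hij, e⟩ := Set.Finite.exists_lt_map_eq_of_forall_mem
    (f := fun k : ℕ => ((φ ^ k) (ν k (of 0)), (φ ^ k) (ν k (of 1)))) (fun k => Set.mk_mem_prod (hν k 0) (hν k 1)) fin
  have e2 : MonoidHom.comp (φ ^ i : Monoid.End F2) (ν i).toMonoidHom =
      MonoidHom.comp (φ ^ j : Monoid.End F2) (ν j).toMonoidHom :=
    hom_ext2 (congrArg Prod.fst e) (congrArg Prod.snd e)
  obtain ⟨d, rfl⟩ := Nat.exists_eq_add_of_lt hij
  intro w
  obtain ⟨w, rfl⟩ := (ν i).surjective w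
  refine ⟨(φ ^ d) (ν (i + d + 1) w), ij i ?_⟩
  have := DFunLike.congr_fun e2 w
  refine Eq.trans ?_ this.symm
  rw [show i + d + 1 = i + (1 + d) by omega, pow_add, pow_add, pow_one]
  rfl

theorem dichotomy (φ : F2 →* F2) (h : F2) (hh : ∀ (ν : MulAut F2) (e : ℤ), h ≠ ν (of 0) ^ e)
    (hφ : φ h = h) : Function.Bijective φ ∨ ∃ z, ∀ w, φ w ∈ Subgroup.zpowers z :=
  (inj_or_cyc φ).imp_left fun hi => ⟨hi, surj_of_inj φ hi h hh hφ⟩

end Pool.Agent.Lib.MP_d96856_al
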