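import Mathlib

namespace Pool.Agent.Lib.MP_d96856_al

/-- The generators `t_1, ..., t_m, a_1, ..., a_n` of `Z^m x F_n`. -/
def genG {m n : ℕ} : Fin m ⊕ Fin n → Multiplicative (Fin m → ℤ) × FreeGroup (Fin n)
  | Sum.inl i => (Multiplicative.ofAdd (Pi.single i 1), 1)
  | Sum.inr j => (1, FreeGroup.of j)

/-- The element of `Z^m x F_n` given by a word in the generators (`true`) and their inverses
(`false`). -/
def evalW {m n : ℕ} (w : List ((Fin m ⊕ Fin n) × Bool)) :
    Multiplicative (Fin m → ℤ) × FreeGroup (Fin n) :=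
  (w.map fun x => if x.2 = true then genG x.1 else (genG x.1)⁻¹).prod

end Pool.Agent.Lib.MP_d96856_al
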