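import Mathlib

namespace Pool.Agent.Lib.MP_d96856_al.R2

open FreeGroup hiding map_mul map_one map_inv

/-- length of the longest common initial segment -/
def lcp {β : Type} [DecidableEq β] : List β → List β → ℕ
  | x :: l, y :: m => if x = y then lcp l m + 1 else 0
  | _, _ => 0

section lcp
variable {β : Type} [DecidableEq β]

@[simp] lemma lcp_nil_left (m : List β) : lcp [] m = 0 := by cases m <;> rfl
@[simp] lemma lcp_nil_right (l : List β) : lcp l [] = 0 := by cases l <;> rfl
lemma lcp_cons (x y : β) (l m : List β) :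
    lcp (x :: l) (y :: m) = if x = y then lcp l m + 1 else 0 := rfl

lemma lcp_comm : ∀ l m : List β, lcp l m = lcp m l
  | [], m => by simp
  | _ :: _, [] => by simp
  | x :: l, y :: m => by
    rw [lcp_cons, lcp_cons, lcp_comm l m]
    by_cases h : x = y
    · simp [h]
    · simp [h, Ne.symm h]

lemma lcp_le : ∀ l m : List β, lcp l m ≤ l.length
  | [], m => by simp
  | _ :: _, [] => by simp
  | x :: l, y :: m => by
    have := lcp_le l m
    rw [lcp_cons]; split <;> simp; omega

lemma lcp_ultra : ∀ l m k : List β, min (lcp l m) (lcp m k) ≤ lcp l k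
  | [], m, k => by simp
  | _ :: _, [], k => by simp
  | _ :: _, _ :: _, [] => by simp
  | x :: l, y :: m, z :: k => by
    have := lcp_ultra l m k
    rw [lcp_cons, lcp_cons, lcp_cons]
    by_cases h : x = y
    · subst h
      by_cases h' : x = z
      · simp only [h', if_true]; omega
      · simp [h']
    · simp [h]

end lcp

variable {α : Type} [DecidableEq α]

lemma norm_mk_red {L : List (α × Bool)} (h : IsReduced L) : norm (mk L) = L.length := by
  rw [FreeGroup.norm, toWord_mk, h.reduce_eq]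

lemma red_invRev {L : List (α × Bool)} (h : IsReduced L) : IsReduced (invRev L) := by
  rw [isReduced_iff_reduce_eq, reduce_invRev, h.reduce_eq]

omit [DecidableEq α] in
lemma red_tail {x : α × Bool} {L : List (α × Bool)} (h : IsReduced (x :: L)) : IsReduced L :=
  List.IsChain.tail h

lemma norm_lcp : ∀ L M : List (α × Bool), IsReduced L → IsReduced M →
    norm ((mk L)⁻¹ * mk M) + 2 * lcp L M = L.length + M.length
  | [], M, _, hM => by simp [← one_eq_mk, norm_mk_red hM]
  | x :: L, [], hL, _ => by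
    rw [← one_eq_mk, mul_one, norm_inv_eq, norm_mk_red hL]; simp
  | x :: L, y :: M, hL, hM => by
    rw [lcp_cons]
    by_cases h : x = y
    · subst h
      have := norm_lcp L M (red_tail hL) (red_tail hM)
      have e : (mk (x :: L))⁻¹ * mk (x :: M) = (mk L)⁻¹ * mk M := by
        rw [show x :: L = [x] ++ L from rfl, show x :: M = [x] ++ M from rfl, ← mul_mk, ← mul_mk]
        group
      rw [e, if_pos rfl, List.length_cons, List.length_cons]; omega
    · have hr : IsReduced (invRev (x :: L) ++ y :: M) := by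
        refine List.isChain_append.2 ⟨red_invRev hL, hM, ?_⟩
        intro p hp q hq
        simp only [invRev, List.map_cons, List.reverse_cons, List.getLast?_concat,
          Option.mem_def, Option.some.injEq, List.head?_cons] at hp hq
        subst hp hq
        intro h1
        obtain ⟨x1, x2⟩ := x
        obtain ⟨y1, y2⟩ := y
        simp only at h1
        subst h1
        cases x2 <;> cases y2 <;> simp_all
      rw [inv_mk, mul_mk, norm_mk_red hr]
      simp [h]

/-- the Gromov product -/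
def cp (g h : FreeGroup α) : ℕ := lcp g.toWord h.toWord

lemma cp_comm (g h : FreeGroup α) : cp g h = cp h g := lcp_comm _ _
lemma cp_le (g h : FreeGroup α) : cp g h ≤ norm g := lcp_le _ _
lemma cp_le' (g h : FreeGroup α) : cp g h ≤ norm h := by rw [cp_comm]; exact cp_le _ _
lemma cp_ultra (g h k : FreeGroup α) : min (cp g h) (cp h k) ≤ cp g k := lcp_ultra _ _ _

lemma norm_cp (g h : FreeGroup α) : norm (g⁻¹ * h) + 2 * cp g h = norm g + norm h := by
  have := norm_lcp g.toWord h.toWord isReduced_toWord isReduced_toWord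
  rwa [mk_toWord, mk_toWord] at this

lemma norm_cp' (g h : FreeGroup α) : norm (g * h) + 2 * cp g⁻¹ h = norm g + norm h := by
  have := norm_cp g⁻¹ h
  rwa [inv_inv, norm_inv_eq] at this

lemma cp_eq_of_lt {g h k : FreeGroup α} (H : cp g h < cp h k) : cp g k = cp g h := by
  have h1 := cp_ultra g h k
  have h2 := cp_ultra g k h
  rw [cp_comm k h] at h2
  omega

lemma exists_first {g : FreeGroup α} (hg : g ≠ 1) : ∃ t : FreeGroup α, norm t = 1 ∧ cp t g = 1 := by
  obtain ⟨x, L, h⟩ := List.exists_cons_of_ne_nil (fun h => hg (toWord_eq_nil_iff.1 h))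
  refine ⟨mk [x], norm_mk_red IsReduced.singleton, ?_⟩
  rw [cp, toWord_mk, reduce_singleton, h, lcp_cons]; simp

/-- number of letters with a given property in the reduced word -/
def cnt (p : α → Bool) (g : FreeGroup α) : ℕ := g.toWord.countP fun x => p x.1
/-- the same for the cyclically reduced word -/
def cyc (p : α → Bool) (g : FreeGroup α) : ℕ := (reduceCyclically g.toWord).countP fun x => p x.1
def cjn (p : α → Bool) (g : FreeGroup α) : ℕ :=
  (reduceCyclically.conjugator g.toWord).countP fun x => p x.1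

omit [DecidableEq α] in
lemma countP_invRev (p : α → Bool) (L : List (α × Bool)) :
    (invRev L).countP (fun x => p x.1) = L.countP fun x => p x.1 := by
  simp [invRev, List.countP_map, Function.comp_def]

lemma cnt_inv (p : α → Bool) (g : FreeGroup α) : cnt p g⁻¹ = cnt p g := by
  rw [cnt, toWord_inv, countP_invRev, cnt]

lemma cnt_mul (p : α → Bool) (g h : FreeGroup α) : cnt p (g * h) ≤ cnt p g + cnt p h := by
  have := (toWord_mul_sublist g h).countP_le (p := fun x => p x.1)
  rwa [List.countP_append] at this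

lemma cnt_le (p : α → Bool) (g : FreeGroup α) : cnt p g ≤ norm g := List.countP_le_length

lemma cnt_true (g : FreeGroup α) : cnt (fun _ => true) g = norm g := by simp [cnt, FreeGroup.norm]

lemma cnt_pow (p : α → Bool) (g : FreeGroup α) (n : ℕ) :
    cnt p (g ^ (n + 1)) = (n + 1) * cyc p g + 2 * cjn p g := by
  rw [cnt, toWord_pow, reduceCyclically.reduce_flatten_replicate_succ isReduced_toWord,
    List.countP_append, List.countP_append, countP_invRev, List.countP_flatten]
  simp [cyc, cjn]; ring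

lemma cnt_eq (p : α → Bool) (g : FreeGroup α) : cnt p g = cyc p g + 2 * cjn p g := by
  simpa using cnt_pow p g 0

lemma le_cnt_pow (p : α → Bool) (g : FreeGroup α) (n : ℕ) : n * cyc p g ≤ cnt p (g ^ n) := by
  cases n with
  | zero => simp
  | succ n => rw [cnt_pow]; omega

lemma cnt_pow_le (p : α → Bool) (g : FreeGroup α) (n : ℕ) :
    cnt p (g ^ n) ≤ n * cyc p g + norm g := by
  cases n with
  | zero => simp [cnt]
  | succ n =>
    have := cnt_eq p g
    have := cnt_le p g
    rw [cnt_pow]; omega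

lemma le_of_lin {A B C : ℕ} (h : ∀ n, n * A ≤ n * B + C) : A ≤ B := by
  by_contra hc
  have h1 := h (C + 1)
  have : (C + 1) * (B + 1) ≤ (C + 1) * A := Nat.mul_le_mul_left _ (by omega)
  nlinarith

lemma cyc_le (p : α → Bool) (g : FreeGroup α) : cyc p g ≤ norm g := by
  have := cnt_eq p g
  have := cnt_le p g
  omega

lemma cyc_conj_le (p : α → Bool) (k g : FreeGroup α) : cyc p (k * g * k⁻¹) ≤ cyc p g := by
  refine le_of_lin (C := norm g + 2 * norm k) fun n => ?_
  have h1 := le_cnt_pow p (k * g * k⁻¹) n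
  rw [conj_pow] at h1
  have h2 := cnt_mul p (k * g ^ n) k⁻¹
  have h3 := cnt_mul p k (g ^ n)
  have h4 := cnt_pow_le p g n
  have h5 := cnt_le p k
  rw [cnt_inv] at h2
  omega

lemma cyc_conj (p : α → Bool) (k g : FreeGroup α) : cyc p (k * g * k⁻¹) = cyc p g := by
  refine le_antisymm (cyc_conj_le p k g) ?_
  have := cyc_conj_le p k⁻¹ (k * g * k⁻¹)
  rwa [show k⁻¹ * (k * g * k⁻¹) * k⁻¹⁻¹ = g by group] at this

/-- cyclic length -/
def cl (g : FreeGroup α) : ℕ := cyc (fun _ => true) g

lemma cl_conj (k g : FreeGroup α) : cl (k * g * k⁻¹) = cl g := cyc_conj _ _ _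

lemma norm_eq_cl (g : FreeGroup α) : norm g = cl g + 2 * cp g g⁻¹ := by
  have h1 := cnt_pow (fun _ => true) g 1
  have h2 := cnt_eq (fun _ => true) g
  have h3 := norm_cp' g g
  rw [cnt_true] at h1 h2
  rw [cp_comm] at h3
  rw [show g ^ (1 + 1) = g * g from pow_two g] at h1
  unfold cl; omega

lemma cl_pos {g : FreeGroup α} (hg : g ≠ 1) : 0 < cl g := by
  rw [cl, cyc, List.countP_true, List.length_pos_iff]
  intro h
  have := reduceCyclically.conj_conjugator_reduceCyclically g.toWord
  rw [h, List.append_nil] at this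
  apply hg
  rw [← mk_toWord (x := g), ← this, ← mul_mk, ← inv_mk, mul_inv_cancel]

lemma cp_inv_lt {g : FreeGroup α} (hg : g ≠ 1) : 2 * cp g g⁻¹ < norm g := by
  have := norm_eq_cl g
  have := cl_pos hg
  omega

lemma norm_le_pow (g : FreeGroup α) {n : ℕ} (hn : n ≠ 0) : norm g ≤ norm (g ^ n) := by
  obtain ⟨n, rfl⟩ := Nat.exists_eq_succ_of_ne_zero hn
  rw [← cnt_true, ← cnt_true, cnt_pow, cnt_eq]
  nlinarith

lemma norm_pos {g : FreeGroup α} (hg : g ≠ 1) : 0 < norm g :=
  Nat.pos_of_ne_zero fun h => hg (norm_eq_zero.1 h)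

section letter
variable {t x : FreeGroup α}

lemma conj_le_of (ht : norm t = 1) (h : cp t x = 1 ∨ cp t x⁻¹ = 1) :
    norm (t⁻¹ * x * t) ≤ norm x := by
  rcases h with h | h
  · have h1 := norm_cp t x
    have h2 := norm_mul_le (t⁻¹ * x) t
    omega
  · have h1 := norm_cp' x t
    have h2 := norm_mul_le t⁻¹ (x * t)
    rw [cp_comm] at h1
    rw [norm_inv_eq, ← mul_assoc] at h2
    omega

lemma conj_lt_of (ht : norm t = 1) (h : cp t x = 1) (h' : cp t x⁻¹ = 1) :
    norm (t⁻¹ * x * t) + 2 ≤ norm x := by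
  have hx : x ≠ 1 := by
    rintro rfl
    have := cp_le' t (1 : FreeGroup α)
    rw [FreeGroup.norm_one] at this; omega
  have h0 := cp_inv_lt hx
  have h1 := cp_ultra x t x⁻¹
  rw [cp_comm x t] at h1
  have h2 := norm_cp' x t
  rw [cp_comm] at h2
  have h3 := norm_cp x (x * t)
  rw [inv_mul_cancel_left] at h3
  have h4 := cp_ultra t x (x * t)
  have h5 := norm_cp t (x * t)
  rw [← mul_assoc] at h5
  omega

lemma conj_le_add (ht : norm t = 1) : norm (t⁻¹ * x * t) ≤ norm x + 2 := by
  have h1 := norm_mul_le (t⁻¹ * x) t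
  have h2 := norm_mul_le t⁻¹ x
  rw [norm_inv_eq] at h2
  omega

lemma cp_of_conj_lt (ht : norm t = 1) (h : norm (t⁻¹ * x * t) < norm x) : cp t x⁻¹ = 1 := by
  have h1 := norm_cp' x t
  rw [cp_comm] at h1
  have h2 := norm_cp t (x * t)
  rw [← mul_assoc] at h2
  have h3 := cp_le t x⁻¹
  have h4 := cp_le t (x * t)
  omega

end letter

/-- displacement is quasi-convex along geodesics -/
lemma conj_qc {t h v : FreeGroup α} (ht : norm t = 1) (hh : norm (t⁻¹ * h) = norm h + 1) :
    norm (h * v * h⁻¹) ≤ max (norm v) (norm (t⁻¹ * h * v * (t⁻¹ * h)⁻¹)) := by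
  set y := h * v * h⁻¹ with hy
  by_contra hc
  rw [show t⁻¹ * h * v * (t⁻¹ * h)⁻¹ = t⁻¹ * y * t by rw [hy]; group] at hc
  have c1 : cp t y⁻¹ = 1 := cp_of_conj_lt ht (by omega)
  have c2 : cp t y = 1 := by
    have := cp_of_conj_lt (x := y⁻¹) ht (by
      rw [show t⁻¹ * y⁻¹ * t = (t⁻¹ * y * t)⁻¹ by group, norm_inv_eq, norm_inv_eq]; omega)
    rwa [inv_inv] at this
  have c3 := norm_cp t h
  have c4 := cp_ultra t y h
  have c5 := cp_ultra t y⁻¹ h
  have c6 := norm_cp' y h
  have c7 := norm_cp y (y * h)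
  rw [inv_mul_cancel_left] at c7
  have c8 : cp h (y * h) = cp h y := cp_eq_of_lt (by rw [cp_comm h y]; omega)
  have c9 := norm_cp h (y * h)
  rw [show h⁻¹ * (y * h) = v by rw [hy]; group] at c9
  rw [cp_comm h y] at c8
  omega

lemma cl_mul_of {x y : FreeGroup α} (hx : x ≠ 1) (hy : y ≠ 1) (h1 : cp x⁻¹ y = 0)
    (h2 : cp x y⁻¹ = 0) : cl (x * y) = norm x + norm y := by
  have a1 := norm_cp' x y
  have a2 := norm_cp x (x * y)
  rw [inv_mul_cancel_left] at a2
  have a3 := norm_cp y⁻¹ (x * y)⁻¹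
  rw [show y⁻¹⁻¹ * (x * y)⁻¹ = x⁻¹ by group, norm_inv_eq, norm_inv_eq, norm_inv_eq] at a3
  have := norm_pos hx
  have := norm_pos hy
  have a4 : cp x (x * y)⁻¹ = cp x y⁻¹ := cp_eq_of_lt (by omega)
  have a5 : cp (x * y)⁻¹ (x * y) = cp (x * y)⁻¹ x := cp_eq_of_lt (by rw [cp_comm]; omega)
  have a6 := norm_eq_cl (x * y)
  rw [cp_comm] at a4 a6
  omega

/-- a finite family can be conjugated to short words -/
lemma exists_conj_short (u : List (FreeGroup α)) (B : ℕ) (h1 : ∀ x ∈ u, cl x ≤ B)
    (h2 : ∀ x ∈ u, ∀ y ∈ u, cl (x * y) ≤ B) : ∃ k, ∀ x ∈ u, norm (k * x * k⁻¹) ≤ B := by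
  obtain ⟨k, hk⟩ := (measure fun k : FreeGroup α => (u.map fun x => norm (k * x * k⁻¹)).sum).wf.has_min
    Set.univ ⟨1, trivial⟩
  refine ⟨k, fun x hx => ?_⟩
  set x' := k * x * k⁻¹ with hx'
  by_cases h0 : cp x' x'⁻¹ = 0
  · have := norm_eq_cl x'
    have := h1 x hx
    rw [← cl_conj k x, ← hx'] at this
    omega
  have hx1 : x' ≠ 1 := by
    intro h; rw [h] at h0; exact h0 (by simp [cp])
  obtain ⟨t, ht, c1⟩ := exists_first hx1
  have c2 : cp t x'⁻¹ = 1 := by
    have := cp_ultra t x' x'⁻¹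
    have := cp_le t x'⁻¹
    omega
  by_cases hy : ∃ y ∈ u, norm (k * y * k⁻¹) < norm (t⁻¹ * (k * y * k⁻¹) * t)
  · obtain ⟨y, hy, hlt⟩ := hy
    set y' := k * y * k⁻¹ with hy'
    have d1 : cp t y' = 0 := by
      have := cp_le t y'
      by_contra h
      have := conj_le_of (x := y') ht (Or.inl (by omega))
      omega
    have d2 : cp t y'⁻¹ = 0 := by
      have := cp_le t y'⁻¹
      by_contra h
      have := conj_le_of (x := y') ht (Or.inr (by omega))
      omega
    have hy1 : y' ≠ 1 := by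
      intro h; rw [h] at hlt; simp at hlt
    have e1 := cp_ultra t x'⁻¹ y'
    have e2 := cp_ultra t x' y'⁻¹
    have := cl_mul_of hx1 hy1 (by omega) (by omega)
    rw [show x' * y' = k * (x * y) * k⁻¹ by rw [hx', hy']; group, cl_conj] at this
    have := h2 x hx y hy
    omega
  · exfalso
    push Not at hy
    refine hk.2 (t⁻¹ * k) trivial ?_
    change (u.map fun x => norm (t⁻¹ * k * x * (t⁻¹ * k)⁻¹)).sum < (u.map fun x => norm (k * x * k⁻¹)).sum
    refine List.sum_lt_sum _ _ (fun y hy' => ?_) ⟨x, hx, ?_⟩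
    · rw [show t⁻¹ * k * y * (t⁻¹ * k)⁻¹ = t⁻¹ * (k * y * k⁻¹) * t by group]; exact hy y hy'
    · rw [show t⁻¹ * k * x * (t⁻¹ * k)⁻¹ = t⁻¹ * x' * t by rw [hx']; group]
      have := conj_lt_of ht c1 c2
      rw [← hx']
      omega

section chain
variable {β : Type} (v : β → FreeGroup α) (ok : β → β → Prop)

/-- total cancellation between neighbours -/
def ksum : List β → ℕ
  | x :: y :: L => cp (v x)⁻¹ (v y) + ksum (y :: L)
  | _ => 0

lemma chain_norm (H : ∀ x y z, ok x y → ok y z → cp (v x)⁻¹ (v y) + cp (v y)⁻¹ (v z) < norm (v y)) :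
    ∀ L : List β, L.IsChain ok →
      norm (L.map v).prod + 2 * ksum v L = (L.map fun x => norm (v x)).sum ∧
      ∀ y L', L = y :: L' → ∀ x, ok x y → cp (v x)⁻¹ (L.map v).prod = cp (v x)⁻¹ (v y)
  | [], _ => by simp [ksum]
  | [y], _ => by simp [ksum]
  | y :: z :: L, h => by
    rw [List.isChain_cons_cons] at h
    obtain ⟨h1, h2⟩ := chain_norm H (z :: L) h.2
    have h3 := h2 z L rfl y h.1
    have h4 := norm_cp' (v y) ((z :: L).map v).prod
    constructor
    · rw [List.map_cons, List.prod_cons, List.map_cons (f := fun x => norm (v x)), List.sum_cons, ksum]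
      omega
    · rintro y' L' e x hx
      obtain ⟨rfl, rfl⟩ := List.cons.inj e
      have h5 := norm_cp (v y) (v y * ((z :: L).map v).prod)
      rw [inv_mul_cancel_left] at h5
      have := H x y z hx h.1
      rw [List.map_cons, List.prod_cons]
      exact cp_eq_of_lt (by omega)

end chain

end Pool.Agent.Lib.MP_d96856_al.R2
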