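import Mathlib
import Pool.Agent.Lib.MP_d96856_al.R2Len

namespace Pool.Agent.Lib.MP_d96856_al.R2

open FreeGroup hiding map_mul map_one map_inv

abbrev F2 := FreeGroup (Fin 2)
abbrev E2 := Monoid.End F2

def ga : F2 := of 0
def gb : F2 := of 1

def mkE (x y : F2) : E2 := FreeGroup.lift ![x, y]

@[simp] lemma mkE_a (x y : F2) : mkE x y ga = x := FreeGroup.lift_apply_of
@[simp] lemma mkE_b (x y : F2) : mkE x y gb = y := FreeGroup.lift_apply_of
@[simp] lemma mulE (φ ψ : E2) (g : F2) : (φ * ψ) g = φ (ψ g) := rfl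
@[simp] lemma oneE (g : F2) : (1 : E2) g = g := rfl

lemma extE {φ ψ : E2} (h1 : φ ga = ψ ga) (h2 : φ gb = ψ gb) : φ = ψ := by
  apply FreeGroup.ext_hom
  intro i
  fin_cases i
  · exact h1
  · exact h2

def inn (g : F2) : E2 := (MulAut.conj g).toMonoidHom
@[simp] lemma inn_apply (g x : F2) : inn g x = g * x * g⁻¹ := rfl

def tw (k : ℤ) : E2 := mkE ga (gb * ga ^ k)
def sw : E2 := mkE gb ga
def iv : E2 := mkE ga⁻¹ gb
def rh : E2 := tw 1
def la : E2 := mkE (ga * gb) gb

@[simp] lemma tw_a (k : ℤ) : tw k ga = ga := mkE_a _ _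
@[simp] lemma tw_b (k : ℤ) : tw k gb = gb * ga ^ k := mkE_b _ _
@[simp] lemma sw_a : sw ga = gb := mkE_a _ _
@[simp] lemma sw_b : sw gb = ga := mkE_b _ _
@[simp] lemma iv_a : iv ga = ga⁻¹ := mkE_a _ _
@[simp] lemma iv_b : iv gb = gb := mkE_b _ _
@[simp] lemma rh_a : rh ga = ga := mkE_a _ _
@[simp] lemma rh_b : rh gb = gb * ga := by simp [rh]
@[simp] lemma la_a : la ga = ga * gb := mkE_a _ _
@[simp] lemma la_b : la gb = gb := mkE_b _ _

lemma sw_sw : sw * sw = 1 := extE (by simp) (by simp)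
lemma iv_iv : iv * iv = 1 := extE (by simp) (by simp)

def pa : Fin 2 → Bool := fun i => decide (i = 0)
def pb : Fin 2 → Bool := fun i => decide (i = 1)

lemma mk_cons (x : Fin 2 × Bool) (L : List (Fin 2 × Bool)) :
    mk (x :: L) = cond x.2 (of x.1) (of x.1)⁻¹ * mk L := by
  obtain ⟨i, d⟩ := x
  rw [show (i, d) :: L = [(i, d)] ++ L from rfl, ← mul_mk]
  cases d <;> rfl

lemma cnt_of (p : Fin 2 → Bool) (i : Fin 2) : cnt p (of i) = if p i then 1 else 0 := by
  simp [cnt, List.countP_cons]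

lemma cnt_map_le (φ : E2) (p q : Fin 2 → Bool) (c : ℕ)
    (h : ∀ i, cnt q (φ (of i)) ≤ if p i then c else 0) (g : F2) : cnt q (φ g) ≤ c * cnt p g := by
  have key : ∀ L : List (Fin 2 × Bool), cnt q (φ (mk L)) ≤ c * L.countP fun x => p x.1 := by
    intro L
    induction L with
    | nil => simp [← one_eq_mk, cnt]
    | cons x L ih =>
      rw [mk_cons, map_mul, List.countP_cons]
      have h1 := cnt_mul q (φ (cond x.2 (of x.1) (of x.1)⁻¹)) (φ (mk L))
      have h2 : cnt q (φ (cond x.2 (of x.1) (of x.1)⁻¹)) ≤ if p x.1 then c else 0 := by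
        cases x.2
        · simpa [cnt_inv] using h x.1
        · simpa using h x.1
      split_ifs at h2 ⊢ <;> nlinarith
  have := key g.toWord
  rwa [mk_toWord] at this

lemma cyc_eq_of (φ : E2) (p q : Fin 2 → Bool) (h : ∀ g, cnt q (φ g) = cnt p g) (g : F2) :
    cyc q (φ g) = cyc p g := by
  apply le_antisymm
  · refine le_of_lin (C := norm g) fun n => ?_
    have h1 := le_cnt_pow q (φ g) n
    rw [← map_pow, h] at h1
    exact h1.trans (cnt_pow_le p g n)
  · refine le_of_lin (C := norm (φ g)) fun n => ?_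
    have h1 := le_cnt_pow p g n
    rw [← h, map_pow] at h1
    exact h1.trans (cnt_pow_le q _ n)

lemma cnt_invol (φ : E2) (hφ : φ * φ = 1) (p q : Fin 2 → Bool)
    (h : ∀ i, cnt q (φ (of i)) ≤ if p i then 1 else 0)
    (h' : ∀ i, cnt p (φ (of i)) ≤ if q i then 1 else 0) (g : F2) : cnt q (φ g) = cnt p g := by
  have h1 := cnt_map_le φ p q 1 h g
  have h2 := cnt_map_le φ q p 1 h' (φ g)
  rw [← mulE, hφ, oneE] at h2
  omega

lemma of0 : (of 0 : F2) = ga := rfl
lemma of1 : (of 1 : F2) = gb := rfl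
@[simp] lemma cnt_ga (p : Fin 2 → Bool) : cnt p ga = if p 0 then 1 else 0 := cnt_of _ _
@[simp] lemma cnt_gb (p : Fin 2 → Bool) : cnt p gb = if p 1 then 1 else 0 := cnt_of _ _

def X (g : F2) : ℕ := cyc pa g
def Y (g : F2) : ℕ := cyc pb g

lemma cl_eq (g : F2) : cl g = X g + Y g := by
  unfold cl X Y cyc
  generalize reduceCyclically g.toWord = L
  induction L with
  | nil => simp
  | cons x L ih =>
    obtain ⟨i, d⟩ := x
    simp only [List.countP_cons] at ih ⊢
    fin_cases i <;> simp [pa, pb] at ih ⊢ <;> omega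

lemma X_sw (g : F2) : X (sw g) = Y g :=
  cyc_eq_of sw pb pa (cnt_invol sw sw_sw pb pa (by simp [Fin.forall_fin_two, of0, of1, pa, pb])
    (by simp [Fin.forall_fin_two, of0, of1, pa, pb])) g
lemma Y_sw (g : F2) : Y (sw g) = X g := by rw [← X_sw, ← mulE, sw_sw, oneE]
lemma cyc_iv (p : Fin 2 → Bool) (g : F2) : cyc p (iv g) = cyc p g :=
  cyc_eq_of iv p p (cnt_invol iv iv_iv p p (by simp [Fin.forall_fin_two, of0, of1, cnt_inv])
    (by simp [Fin.forall_fin_two, of0, of1, cnt_inv])) g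
lemma X_iv (g : F2) : X (iv g) = X g := cyc_iv _ _
lemma Y_iv (g : F2) : Y (iv g) = Y g := cyc_iv _ _
lemma X_inn (k g : F2) : X (inn k g) = X g := cyc_conj _ _ _
lemma Y_inn (k g : F2) : Y (inn k g) = Y g := cyc_conj _ _ _

/-- syllable form -/
def ev : ℤ → List (Bool × ℤ) → F2
  | n, [] => ga ^ n
  | n, p :: S => ga ^ n * (cond p.1 gb gb⁻¹ * ev p.2 S)

def Adm (S : List (Bool × ℤ)) : Prop := S.IsChain fun p q => p.1 ≠ q.1 → p.2 ≠ 0

lemma ev_add (k n : ℤ) (S : List (Bool × ℤ)) : ev (k + n) S = ga ^ k * ev n S := by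
  cases S <;> simp [ev, zpow_add, mul_assoc]

lemma exists_ev (g : F2) : ∃ n S, Adm S ∧ g = ev n S := by
  rw [← mk_toWord (x := g)]
  generalize g.toWord = L
  induction L with
  | nil => exact ⟨0, [], List.isChain_nil, by simp [ev, ← one_eq_mk]⟩
  | cons x L ih =>
    obtain ⟨n, S, hS, e⟩ := ih
    obtain ⟨i, d⟩ := x
    rw [mk_cons, e]
    fin_cases i
    · cases d
      · exact ⟨-1 + n, S, hS, by simp [ev_add, of0]⟩
      · exact ⟨1 + n, S, hS, by simp [ev_add, of0]⟩
    · cases S with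
      | nil => exact ⟨0, [(d, n)], List.isChain_singleton _, by simp [ev, of1]⟩
      | cons p S =>
        by_cases h : d ≠ p.1 → n ≠ 0
        · exact ⟨0, (d, n) :: p :: S, List.isChain_cons_cons.2 ⟨h, hS⟩, by simp [ev, of1]⟩
        · push Not at h
          obtain ⟨h1, rfl⟩ := h
          refine ⟨p.2, S, List.IsChain.tail hS, ?_⟩
          obtain ⟨d', m⟩ := p
          cases d <;> cases d' <;> simp [ev, of1] at h1 ⊢

def pw (n : ℤ) : List (Fin 2 × Bool) := List.replicate n.natAbs (0, decide (0 ≤ n))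

def wd : ℤ → List (Bool × ℤ) → List (Fin 2 × Bool)
  | n, [] => pw n
  | n, p :: S => pw n ++ (1, p.1) :: wd p.2 S

lemma mk_rep (k : ℕ) (x : Fin 2 × Bool) : mk (List.replicate k x) = mk [x] ^ k := by
  induction k with
  | zero => simp [← one_eq_mk]
  | succ k ih => rw [List.replicate_succ, pow_succ', ← ih, mul_mk]; rfl

lemma mk_pw (n : ℤ) : mk (pw n) = ga ^ n := by
  rw [pw, mk_rep, mk_cons, ← one_eq_mk, mul_one]
  rcases Int.natAbs_eq n with h | h
  · rw [decide_eq_true (by omega)]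
    conv_rhs => rw [h, zpow_natCast]
    rfl
  · by_cases h0 : n = 0
    · simp [h0]
    rw [decide_eq_false (by omega)]
    conv_rhs => rw [h, zpow_neg, zpow_natCast, ← inv_pow]
    rfl

lemma mk_wd : ∀ (S : List (Bool × ℤ)) (n : ℤ), mk (wd n S) = ev n S
  | [], n => mk_pw n
  | p :: S, n => by rw [wd, ← mul_mk, mk_cons, mk_pw, mk_wd S, ev, of1]

lemma red_rep (s : Bool) {L : List (Fin 2 × Bool)} (hL : IsReduced L)
    (h : ∀ y ∈ L.head?, y.1 = 1) (k : ℕ) : IsReduced (List.replicate k (0, s) ++ L) := by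
  induction k with
  | zero => exact hL
  | succ k ih =>
    rw [List.replicate_succ, List.cons_append]
    refine List.isChain_cons.2 ⟨fun y hy => ?_, ih⟩
    cases k with
    | zero => intro h0; rw [h y hy] at h0; exact absurd h0 (by simp)
    | succ k =>
      simp only [List.replicate_succ, List.cons_append, List.head?_cons, Option.mem_def,
        Option.some.injEq] at hy
      subst hy; simp

lemma red_cons_wd : ∀ (S : List (Bool × ℤ)) (p : Bool × ℤ), Adm (p :: S) →
    IsReduced (((1 : Fin 2), p.1) :: wd p.2 S)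
  | [], p, _ => by
    refine List.isChain_cons.2 ⟨fun y hy => ?_, ?_⟩
    · have := List.eq_of_mem_replicate (List.mem_of_mem_head? hy)
      subst this; simp
    · have := red_rep (decide (0 ≤ p.2)) IsReduced.nil (by simp) p.2.natAbs
      rwa [List.append_nil] at this
  | q :: S, p, h => by
    have h' := List.isChain_cons_cons.1 h
    refine List.isChain_cons.2 ⟨fun y hy => ?_, red_rep _ (red_cons_wd S q h'.2) (by simp) _⟩
    by_cases h0 : p.2 = 0
    · simp only [wd, pw, h0, Int.natAbs_zero, List.replicate_zero, List.nil_append, List.head?_cons,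
        Option.mem_def, Option.some.injEq] at hy
      subst hy
      intro _
      by_contra hc
      exact h'.1 hc h0
    · obtain ⟨k, hk⟩ := Nat.exists_eq_succ_of_ne_zero (Int.natAbs_ne_zero.2 h0)
      simp only [wd, pw, hk, List.replicate_succ, List.cons_append, List.head?_cons,
        Option.mem_def, Option.some.injEq] at hy
      subst hy; simp

lemma red_wd {S : List (Bool × ℤ)} (h : Adm S) (n : ℤ) : IsReduced (wd n S) := by
  cases S with
  | nil => simpa [wd, pw] using red_rep (decide (0 ≤ n)) IsReduced.nil (by simp) n.natAbs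
  | cons p S => exact red_rep _ (red_cons_wd S p h) (by simp) _

def sa (S : List (Bool × ℤ)) : ℕ := (S.map fun p => p.2.natAbs).sum

lemma cnt_ev {S : List (Bool × ℤ)} (h : Adm S) (n : ℤ) :
    cnt pa (ev n S) = n.natAbs + sa S ∧ cnt pb (ev n S) = S.length := by
  rw [← mk_wd, cnt, cnt, toWord_mk, (red_wd h n).reduce_eq]
  clear h
  induction S generalizing n with
  | nil => simp [wd, pw, sa, pa, pb, List.countP_replicate]
  | cons p S ih =>
    have := ih p.2
    simp only [wd, List.countP_append, List.countP_cons, this]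
    simp [pw, sa, pa, pb, List.countP_replicate]

def ng : List (Bool × ℤ) → ℤ
  | [] => 0
  | p :: _ => cond p.1 0 1

def twS (k : ℤ) : List (Bool × ℤ) → List (Bool × ℤ)
  | [] => []
  | p :: S => (p.1, cond p.1 k 0 + (p.2 - k * ng S)) :: twS k S

lemma tw_ev (k : ℤ) : ∀ (S : List (Bool × ℤ)) (n : ℤ), tw k (ev n S) = ev (n - k * ng S) (twS k S)
  | [], n => by simp [ev, twS, ng]
  | (d, m) :: S, n => by
    rw [ev, map_mul, map_mul, tw_ev k S, twS, ev, ev_add]
    cases d <;> simp [ng, zpow_sub, mul_assoc]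

lemma adm_twS (k : ℤ) : ∀ S : List (Bool × ℤ), Adm S → Adm (twS k S)
  | [], _ => List.isChain_nil
  | [_], _ => List.isChain_singleton _
  | (d, m) :: (e, r) :: S, h => by
    have h' := List.isChain_cons_cons.1 h
    have := adm_twS k _ h'.2
    rw [twS] at this
    rw [twS, twS]
    refine List.isChain_cons_cons.2 ⟨?_, this⟩
    have := h'.1
    cases d <;> cases e <;> simp [ng] at this ⊢ <;> exact this

lemma len_twS (k : ℤ) : ∀ S : List (Bool × ℤ), (twS k S).length = S.length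
  | [] => rfl
  | _ :: S => by simp [twS, len_twS k S]

lemma sa_tw1 : ∀ S : List (Bool × ℤ), 2 * sa S ≤ sa (twS 1 S) + sa (twS (-1) S)
  | [] => by simp [sa, twS]
  | (d, m) :: S => by
    have := sa_tw1 S
    simp only [sa, twS, List.map_cons, List.sum_cons] at this ⊢
    cases d <;> simp only [cond_true, cond_false] <;> omega

lemma sa_tw2 : ∀ S : List (Bool × ℤ), Adm S → 2 * S.length ≤ sa (twS 1 S) + sa (twS (-1) S) + 2
  | [], _ => by simp
  | [_], _ => by simp
  | (d, m) :: (e, r) :: S, h => by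
    have h' := List.isChain_cons_cons.1 h
    have := sa_tw2 _ h'.2
    have h1 := h'.1
    rw [twS.eq_2 1 (d, m), twS.eq_2 (-1) (d, m)]
    simp only [sa, List.map_cons, List.sum_cons, List.length_cons] at this ⊢
    cases d <;> cases e <;> simp [ng] at h1 ⊢ <;> omega

lemma Y_tw (k : ℤ) (g : F2) : Y (tw k g) = Y g := by
  refine cyc_eq_of (tw k) pb pb (fun g => ?_) g
  obtain ⟨n, S, hS, rfl⟩ := exists_ev g
  rw [tw_ev, (cnt_ev (adm_twS k S hS) _).2, (cnt_ev hS _).2, len_twS]

lemma cnt_tw (g : F2) : 2 * cnt pa g ≤ cnt pa (tw 1 g) + cnt pa (tw (-1) g) ∧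
    2 * cnt pb g ≤ cnt pa (tw 1 g) + cnt pa (tw (-1) g) + 2 := by
  obtain ⟨n, S, hS, rfl⟩ := exists_ev g
  rw [tw_ev, tw_ev, (cnt_ev (adm_twS _ S hS) _).1, (cnt_ev (adm_twS _ S hS) _).1, (cnt_ev hS _).1,
    (cnt_ev hS _).2]
  have := sa_tw1 S
  have := sa_tw2 S hS
  omega

lemma X_tw (g : F2) : 2 * max (X g) (Y g) ≤ X (tw 1 g) + X (tw (-1) g) := by
  refine le_of_lin (C := norm (tw 1 g) + norm (tw (-1) g) + 2) fun n => ?_
  have h1 := cnt_tw (g ^ n)
  rw [map_pow, map_pow] at h1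
  have h2 := cnt_pow_le pa (tw 1 g) n
  have h3 := cnt_pow_le pa (tw (-1) g) n
  have h4 := le_cnt_pow pa g n
  have h5 := le_cnt_pow pb g n
  unfold X Y
  rcases le_total (cyc pa g) (cyc pb g) with h | h
  · rw [max_eq_right h]; nlinarith
  · rw [max_eq_left h]; nlinarith

end Pool.Agent.Lib.MP_d96856_al.R2
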