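import Mathlib
import Pool.Agent.Lib.MP_d96856_al.R2Syl

namespace Pool.Agent.Lib.MP_d96856_al.R2

open FreeGroup hiding map_mul map_one map_inv

def DD : Submonoid E2 := Submonoid.closure {sw, iv}
def G0 : Submonoid E2 := Submonoid.closure (Set.range inn ∪ {sw, iv, rh})
def lai : E2 := mkE (ga * gb⁻¹) gb
@[simp] lemma lai_a : lai ga = ga * gb⁻¹ := mkE_a _ _
@[simp] lemma lai_b : lai gb = gb := mkE_b _ _

lemma mul_inn (φ : E2) (g : F2) : φ * inn g = inn (φ g) * φ := extE (by simp) (by simp)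
lemma inn_mul (g h : F2) : inn g * inn h = inn (g * h) :=
  extE (by simp [mul_assoc]) (by simp [mul_assoc])
lemma inn_one : inn 1 = 1 := extE (by simp) (by simp)

lemma sw_DD : sw ∈ DD := Submonoid.subset_closure (by simp)
lemma iv_DD : iv ∈ DD := Submonoid.subset_closure (by simp)
lemma inn_G0 (g : F2) : inn g ∈ G0 := Submonoid.subset_closure (Or.inl ⟨g, rfl⟩)
lemma sw_G0 : sw ∈ G0 := Submonoid.subset_closure (by simp)
lemma iv_G0 : iv ∈ G0 := Submonoid.subset_closure (by simp)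
lemma rh_G0 : rh ∈ G0 := Submonoid.subset_closure (by simp)
lemma twi_eq : tw (-1) = iv * rh * iv := extE (by simp) (by simp)
lemma la_eq : la = sw * rh * sw := extE (by simp) (by simp)
lemma lai_eq : lai = sw * tw (-1) * sw := extE (by simp) (by simp)
lemma twi_G0 : tw (-1) ∈ G0 := twi_eq ▸ G0.mul_mem (G0.mul_mem iv_G0 rh_G0) iv_G0
lemma la_G0 : la ∈ G0 := la_eq ▸ G0.mul_mem (G0.mul_mem sw_G0 rh_G0) sw_G0
lemma rh_twi : rh * tw (-1) = 1 := extE (by simp) (by simp)
lemma twi_rh : tw (-1) * rh = 1 := extE (by simp) (by simp)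

lemma G0_inv {γ : E2} (h : γ ∈ G0) : ∃ δ ∈ G0, δ * γ = 1 ∧ γ * δ = 1 := by
  induction h using Submonoid.closure_induction with
  | mem x hx =>
    rcases hx with ⟨g, rfl⟩ | rfl | rfl | rfl
    · exact ⟨inn g⁻¹, inn_G0 _, by simp [inn_mul, inn_one], by simp [inn_mul, inn_one]⟩
    · exact ⟨sw, sw_G0, sw_sw, sw_sw⟩
    · exact ⟨iv, iv_G0, iv_iv, iv_iv⟩
    · exact ⟨tw (-1), twi_G0, twi_rh, rh_twi⟩
  | one => exact ⟨1, G0.one_mem, by simp, by simp⟩
  | mul x y _ _ hx hy =>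
    obtain ⟨x', h1, h2, h3⟩ := hx
    obtain ⟨y', h4, h5, h6⟩ := hy
    refine ⟨y' * x', G0.mul_mem h4 h1, ?_, ?_⟩
    · rw [mul_assoc, ← mul_assoc x', h2, one_mul, h5]
    · rw [mul_assoc, ← mul_assoc y, h6, one_mul, h3]

def T4 (μ : E2) : Prop := μ = rh ∨ μ = la ∨ μ = tw (-1) ∨ μ = lai

lemma DD_T4 {σ : E2} (h : σ ∈ DD) : ∀ μ, T4 μ → ∃ k μ', T4 μ' ∧ σ * μ = inn k * μ' * σ := by
  induction h using Submonoid.closure_induction with
  | mem x hx =>
    rintro μ (rfl | rfl | rfl | rfl) <;> rcases hx with rfl | rfl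
    · exact ⟨1, la, by simp [T4], extE (by simp) (by simp)⟩
    · exact ⟨1, tw (-1), by simp [T4], extE (by simp) (by simp)⟩
    · exact ⟨1, rh, by simp [T4], extE (by simp) (by simp)⟩
    · exact ⟨gb⁻¹, lai, by simp [T4], extE (by simp [mul_assoc]) (by simp)⟩
    · exact ⟨1, lai, by simp [T4], extE (by simp) (by simp)⟩
    · exact ⟨1, rh, by simp [T4], extE (by simp) (by simp)⟩
    · exact ⟨1, tw (-1), by simp [T4], extE (by simp) (by simp)⟩
    · exact ⟨gb, la, by simp [T4], extE (by simp [mul_assoc]) (by simp)⟩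
  | one => exact fun μ hμ => ⟨1, μ, hμ, by simp [inn_one]⟩
  | mul x y _ _ hx hy =>
    intro μ hμ
    obtain ⟨k, μ', h1, h2⟩ := hy μ hμ
    obtain ⟨k', μ'', h3, h4⟩ := hx μ' h1
    refine ⟨x k * k', μ'', h3, ?_⟩
    rw [mul_assoc, h2, ← mul_assoc, ← mul_assoc, mul_inn, mul_assoc (inn _), h4, ← inn_mul]
    simp only [mul_assoc]

def mv (e : Bool) : E2 := cond e rh la

/-- positive paths; the head of the list is applied first -/
def act : List Bool → E2
  | [] => 1
  | e :: L => act L * mv e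

def NF (γ : E2) : Prop := ∃ k, ∃ σ ∈ DD, ∃ L, ∃ σ' ∈ DD, γ = inn k * σ * act L * σ'

lemma act_T4 (L : List Bool) {μ : E2} (h : T4 μ) : NF (act L * μ) := by
  rcases h with rfl | rfl | rfl | rfl
  · exact ⟨1, 1, DD.one_mem, true :: L, 1, DD.one_mem, by simp [inn_one, act, mv]⟩
  · exact ⟨1, 1, DD.one_mem, false :: L, 1, DD.one_mem, by simp [inn_one, act, mv]⟩
  · rcases L with _ | ⟨_ | _, L⟩
    · exact ⟨1, iv, iv_DD, [true], iv, iv_DD, extE (by simp [act, mv]) (by simp [act, mv])⟩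
    · exact ⟨act L ga, 1, DD.one_mem, true :: L, iv * sw, DD.mul_mem iv_DD sw_DD,
        extE (by simp [act, mv, mul_assoc]) (by simp [act, mv])⟩
    · exact ⟨1, 1, DD.one_mem, L, 1, DD.one_mem, extE (by simp [act, mv]) (by simp [act, mv])⟩
  · rcases L with _ | ⟨_ | _, L⟩
    · exact ⟨1, sw * iv, DD.mul_mem sw_DD iv_DD, [true], iv * sw, DD.mul_mem iv_DD sw_DD,
        extE (by simp [act, mv]) (by simp [act, mv])⟩
    · exact ⟨1, 1, DD.one_mem, L, 1, DD.one_mem, extE (by simp [act, mv]) (by simp [act, mv])⟩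
    · exact ⟨act L gb, 1, DD.one_mem, false :: L, sw * iv, DD.mul_mem sw_DD iv_DD,
        extE (by simp [act, mv]) (by simp [act, mv, mul_assoc])⟩

lemma G0_NF {γ : E2} (h : γ ∈ G0) : NF γ := by
  induction h using Submonoid.closure_induction_right with
  | one => exact ⟨1, 1, DD.one_mem, [], 1, DD.one_mem, by simp [inn_one, act]⟩
  | mul_right x _ y hy ih =>
    obtain ⟨k, σ, h1, L, σ', h2, rfl⟩ := ih
    rcases hy with ⟨g, rfl⟩ | rfl | rfl | rfl
    · refine ⟨k * (σ * act L * σ') g, σ, h1, L, σ', h2, ?_⟩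
      rw [← inn_mul]
      simp only [mul_assoc]
      rw [← mul_inn]
      simp only [mul_assoc]
    · exact ⟨k, σ, h1, L, σ' * sw, DD.mul_mem h2 sw_DD, mul_assoc _ _ _⟩
    · exact ⟨k, σ, h1, L, σ' * iv, DD.mul_mem h2 iv_DD, mul_assoc _ _ _⟩
    · obtain ⟨k', μ, h3, h4⟩ := DD_T4 h2 rh (Or.inl rfl)
      obtain ⟨k'', σ1, h5, L', σ2, h6, h7⟩ := act_T4 L h3
      refine ⟨k * σ (act L k' * k''), σ * σ1, DD.mul_mem h1 h5, L', σ2 * σ', DD.mul_mem h6 h2, ?_⟩
      calc inn k * σ * act L * σ' * rh = inn k * σ * (act L * inn k') * μ * σ' := by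
            rw [mul_assoc, h4]; simp only [mul_assoc]
        _ = inn k * σ * inn (act L k') * (act L * μ) * σ' := by
            rw [mul_inn]; simp only [mul_assoc]
        _ = inn k * (σ * inn (act L k' * k'')) * σ1 * act L' * (σ2 * σ') := by
            rw [h7, ← inn_mul]; simp only [mul_assoc]
        _ = _ := by rw [mul_inn, ← inn_mul]; simp only [mul_assoc]

def MM (g : F2) : ℕ := max (X g) (Y g)

lemma X_la (g : F2) : X (la g) = X g := by rw [la_eq, mulE, mulE, X_sw, rh, Y_tw, Y_sw]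
lemma X_lai (g : F2) : X (lai g) = X g := by rw [lai_eq, mulE, mulE, X_sw, Y_tw, Y_sw]
lemma Y_la (g : F2) : Y (la g) = X (rh g) := by
  have : la = inn ga * rh * iv * sw * rh := extE (by simp [mul_assoc]) (by simp [mul_assoc])
  rw [this, mulE, mulE, mulE, mulE, Y_inn, rh, Y_tw, Y_iv, Y_sw]
lemma X_twi_la (g : F2) : X (tw (-1) (la g)) = Y g := by
  have : tw (-1) * la = inn (ga * gb⁻¹) * lai * iv * sw :=
    extE (by simp [mul_assoc]) (by simp [mul_assoc])
  rw [← mulE, this, mulE, mulE, mulE, X_inn, X_lai, X_iv, X_sw]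

lemma mv_step {g : F2} (e : Bool) (h : MM g ≤ X (rh g)) :
    MM (mv e g) ≤ X (rh (mv e g)) ∧ MM g ≤ MM (mv e g) := by
  have h1 := X_tw (mv e g)
  cases e
  · simp only [mv, cond_false, MM] at h h1 ⊢
    rw [X_twi_la] at h1
    rw [X_la, Y_la] at h1 ⊢
    rw [rh] at *
    omega
  · simp only [mv, cond_true, MM] at h h1 ⊢
    rw [← mulE (tw (-1)), twi_rh, oneE] at h1
    rw [rh] at *
    rw [Y_tw] at h1 ⊢
    omega

lemma act_mono : ∀ (L : List Bool) {g : F2}, MM g ≤ X (rh g) → MM g ≤ MM (act L g)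
  | [], _, _ => le_rfl
  | e :: L, _, h => (mv_step e h).2.trans (act_mono L (mv_step e h).1)

lemma act_qc (L : List Bool) (e : Bool) (g : F2) :
    MM (mv e g) ≤ max (MM g) (MM (act L (mv e g))) := by
  by_cases h : MM g ≤ X (rh g)
  · exact (act_mono L (mv_step e h).1).trans (le_max_right _ _)
  · refine le_trans ?_ (le_max_left _ _)
    cases e
    · simp only [mv, cond_false, MM] at h ⊢
      rw [X_la, Y_la]; omega
    · simp only [mv, cond_true, MM] at h ⊢
      rw [rh] at *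
      rw [Y_tw]; omega

lemma MM_sw (g : F2) : MM (sw g) = MM g := by rw [MM, X_sw, Y_sw, max_comm, MM]
lemma MM_iv (g : F2) : MM (iv g) = MM g := by rw [MM, X_iv, Y_iv, MM]
lemma MM_inn (k g : F2) : MM (inn k g) = MM g := by rw [MM, X_inn, Y_inn, MM]
lemma MM_DD {σ : E2} (h : σ ∈ DD) (g : F2) : MM (σ g) = MM g := by
  induction h using Submonoid.closure_induction_left with
  | one => rfl
  | mul_left x hx y _ ih =>
    rcases hx with rfl | rfl
    · rw [mulE, MM_sw, ih]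
    · rw [mulE, MM_iv, ih]
lemma MM_le (g : F2) : MM g ≤ norm g := max_le (cyc_le _ _) (cyc_le _ _)

def El : List E2 := [sw, iv, rh, la, inn ga, inn ga⁻¹, inn gb, inn gb⁻¹]

lemma El_G0 {ε : E2} (h : ε ∈ El) : ε ∈ G0 := by
  simp only [El, List.mem_cons, List.not_mem_nil, or_false] at h
  rcases h with rfl | rfl | rfl | rfl | rfl | rfl | rfl | rfl
  exacts [sw_G0, iv_G0, rh_G0, la_G0, inn_G0 _, inn_G0 _, inn_G0 _, inn_G0 _]

def Bd (K : ℕ) (u : List F2) (γ : E2) : Prop := ∀ x ∈ u, norm (γ x) ≤ K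

inductive Reach (K : ℕ) (u : List F2) : E2 → Prop
  | one : Reach K u 1
  | step {γ ε : E2} : Reach K u γ → ε ∈ El → Bd K u (ε * γ) → Reach K u (ε * γ)

lemma letter_cases {t : F2} (h : norm t = 1) : t = ga ∨ t = ga⁻¹ ∨ t = gb ∨ t = gb⁻¹ := by
  obtain ⟨⟨i, d⟩, hx⟩ := List.length_eq_one_iff.1 h
  rw [← mk_toWord (x := t), hx, mk_cons, ← one_eq_mk, mul_one]
  fin_cases i <;> cases d <;> simp [of0, of1]

lemma reach_inn {K : ℕ} {u : List F2} {δ : E2} (h1 : Reach K u δ) (h2 : Bd K u δ) (h : F2) :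
    Bd K u (inn h * δ) → Reach K u (inn h * δ) := by
  induction hn : norm h generalizing h with
  | zero => rw [norm_eq_zero.1 hn, inn_one, one_mul]; exact fun _ => h1
  | succ n ih =>
    intro hb
    obtain ⟨t, ht, c⟩ := exists_first (g := h) (by rintro rfl; simp at hn)
    have h3 := norm_cp t h
    have h4 : Bd K u (inn (t⁻¹ * h) * δ) := fun x hx => by
      have := conj_qc (t := t⁻¹) (h := t⁻¹ * h) (v := δ x) (by rw [norm_inv_eq, ht])
        (by rw [inv_inv, mul_inv_cancel_left]; omega)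
      rw [inv_inv, mul_inv_cancel_left] at this
      exact this.trans (max_le (h2 x hx) (hb x hx))
    have e : inn h * δ = inn t * (inn (t⁻¹ * h) * δ) := by
      rw [← mul_assoc, inn_mul, mul_inv_cancel_left]
    rw [e] at hb ⊢
    refine (ih _ (by omega) h4).step ?_ hb
    rcases letter_cases ht with rfl | rfl | rfl | rfl <;> simp [El]

lemma norm_map_le (φ : E2) (h1 : norm (φ ga) ≤ 2) (h2 : norm (φ gb) ≤ 2) (g : F2) :
    norm (φ g) ≤ 2 * norm g := by
  rw [← cnt_true, ← cnt_true]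
  exact cnt_map_le φ _ _ 2 (by simp [Fin.forall_fin_two, of0, of1, cnt_true, h1, h2]) g

lemma norm_ga : norm ga = 1 := norm_of _
lemma norm_gb : norm gb = 1 := norm_of _

section peak
variable {K : ℕ} {u : List F2}

def WW (u : List F2) (h : F2) : Prop := h ∈ u ∨ ∃ x ∈ u, ∃ y ∈ u, h = x * y
def PP (K : ℕ) (u : List F2) (E : E2) : Prop := ∀ h, WW u h → MM (E h) ≤ 2 * K
def QQ (K : ℕ) (u : List F2) (E : E2) : Prop :=
  ∀ k, Bd (8 * K) u (inn k * E) → Reach (8 * K) u (inn k * E)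

lemma QQ_step {E ε : E2} (hQ : QQ K u E) (hP : PP K u E) (hε : ε ∈ El)
    (h1 : norm (ε ga) ≤ 2) (h2 : norm (ε gb) ≤ 2) : QQ K u (ε * E) := by
  have c : ∀ h, WW u h → cl (E h) ≤ 4 * K := fun h hh => by
    have := hP h hh
    rw [cl_eq]; unfold MM at this; omega
  obtain ⟨k0, hk0⟩ := exists_conj_short (u.map E) (4 * K)
    (by simpa using fun x hx => c x (Or.inl hx))
    (by simpa using fun x hx y hy => map_mul E x y ▸ c _ (Or.inr ⟨x, hx, y, hy, rfl⟩))
  have b1 : ∀ x ∈ u, norm ((inn k0 * E) x) ≤ 4 * K := fun x hx => hk0 _ (List.mem_map_of_mem hx)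
  have b2 : Bd (8 * K) u (ε * (inn k0 * E)) := fun x hx => by
    have := norm_map_le ε h1 h2 ((inn k0 * E) x)
    have := b1 x hx
    rw [mulE]; omega
  have r := (hQ k0 fun x hx => by have := b1 x hx; omega).step hε b2
  intro k hk
  have e : inn k * (ε * E) = inn (k * (ε k0)⁻¹) * (ε * (inn k0 * E)) := by
    rw [← mul_assoc ε, mul_inn, mul_assoc (inn _), ← mul_assoc (inn (k * _)), inn_mul]; simp
  rw [e] at hk ⊢
  exact reach_inn r b2 _ hk

lemma QQ_DD {σ : E2} (h : σ ∈ DD) {E : E2} (hQ : QQ K u E) (hP : PP K u E) : QQ K u (σ * E) := by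
  induction h using Submonoid.closure_induction_left with
  | one => rwa [one_mul]
  | mul_left x hx y hy ih =>
    rw [mul_assoc]
    refine QQ_step ih (fun h hh => by rw [mulE, MM_DD hy]; exact hP h hh) ?_ ?_ ?_ <;>
      rcases hx with rfl | rfl <;> simp [El, norm_ga, norm_gb]

lemma QQ_act : ∀ (L : List Bool) {E : E2}, QQ K u E → PP K u E → PP K u (act L * E) →
    QQ K u (act L * E)
  | [], _, hQ, _, _ => by rwa [act, one_mul]
  | e :: L, E, hQ, hP, hP' => by
    rw [act, mul_assoc] at hP' ⊢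
    have n1 := norm_mul_le ga gb
    have n2 := norm_mul_le gb ga
    rw [norm_ga, norm_gb] at n1 n2
    refine QQ_act L (QQ_step hQ hP ?_ ?_ ?_) (fun h hh => ?_) hP'
    · cases e <;> simp [El, mv]
    · cases e <;> simp [mv, norm_ga, n1]
    · cases e <;> simp [mv, norm_gb, n2]
    · exact (act_qc L e (E h)).trans (max_le (hP h hh) (hP' h hh))

lemma PP_of_Bd {E : E2} (h : Bd K u E) : PP K u E := by
  rintro _ (hx | ⟨x, hx, y, hy, rfl⟩)
  · have := h _ hx
    exact (MM_le _).trans (by omega)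
  · have := h _ hx
    have := h _ hy
    have := norm_mul_le (E x) (E y)
    rw [map_mul]
    exact (MM_le _).trans (by omega)

/-- peak reduction in rank two -/
theorem peak {γ : E2} (hγ : γ ∈ G0) (h1 : Bd K u 1) (h2 : Bd K u γ) : Reach (8 * K) u γ := by
  obtain ⟨k, σ, hσ, L, σ', hσ', rfl⟩ := G0_NF hγ
  have q0 : QQ K u 1 := fun k => reach_inn Reach.one (fun x hx => by have := h1 x hx; omega) k
  have p0 := PP_of_Bd h1
  have p1 : PP K u (σ' * 1) := fun h hh => by rw [mulE, MM_DD hσ']; exact p0 h hh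
  have p2 : PP K u (act L * (σ' * 1)) := fun h hh => by
    have := PP_of_Bd h2 h hh
    rwa [mulE, mulE, mulE, MM_inn, MM_DD hσ] at this
  have := QQ_DD hσ (QQ_act L (QQ_DD hσ' q0 p0) p1 p2) p2 k
  simp only [mul_one, ← mul_assoc] at this
  exact this fun x hx => by have := h2 x hx; omega

end peak

end Pool.Agent.Lib.MP_d96856_al.R2
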