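import Mathlib
import Pool.Agent.Lib.MP_d96856_al.R2NF

namespace Pool.Agent.Lib.MP_d96856_al.R2

open FreeGroup hiding map_mul map_one map_inv

lemma exmin {β : Type} (S : β → Prop) (f : β → ℕ) (h : ∃ x, S x) : ∃ x, S x ∧ ∀ y, S y → f x ≤ f y := by
  obtain ⟨x, hx, hm⟩ := (measure f).wf.has_min {x | S x} h
  exact ⟨x, hx, fun y hy => not_lt.1 (hm y hy)⟩

/-- a reduced pair: theta graph or barbell -/
structure RedP (u v : F2) : Prop where
  u1 : u ≠ 1
  v1 : v ≠ 1
  vV : cp v v⁻¹ = 0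
  UV : cp u⁻¹ v⁻¹ = 0
  uV : cp u v⁻¹ = 0
  Uv : cp u⁻¹ v = 0
  hu : 2 * cp u v ≤ norm u
  hv : 2 * cp u v ≤ norm v
  alt : cp u u⁻¹ = 0 ∨ cp u v = 0

lemma exists_red (O : F2 → F2 → Prop) (h0 : ∃ u v, O u v) (hs : ∀ u v, O u v → O v u)
    (hi : ∀ u v, O u v → O u⁻¹ v) (hr : ∀ u v, O u v → O u (v * u))
    (hc : ∀ u v t, O u v → O (t⁻¹ * u * t) (t⁻¹ * v * t)) :
    ∃ u v, O u v ∧ (u = 1 ∨ v = 1 ∨ RedP u v) := by
  obtain ⟨p1, -, m1⟩ := exmin (fun p : F2 × F2 => O p.1 p.2) (fun p => norm p.1 + norm p.2)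
    (by obtain ⟨u, v, h⟩ := h0; exact ⟨(u, v), h⟩)
  have m1' : ∃ p : F2 × F2, O p.1 p.2 ∧ ∀ q : F2 × F2, O q.1 q.2 →
      norm p.1 + norm p.2 ≤ norm q.1 + norm q.2 :=
    exmin (fun p : F2 × F2 => O p.1 p.2) (fun p => norm p.1 + norm p.2)
      (by obtain ⟨u, v, h⟩ := h0; exact ⟨(u, v), h⟩)
  clear m1 p1
  obtain ⟨p2, m2⟩ := exmin _ (fun p : F2 × F2 => norm p.2) m1'
  obtain ⟨⟨u, v⟩, ⟨⟨hO, m1⟩, m2⟩, m3⟩ := exmin
    (fun p : F2 × F2 => (O p.1 p.2 ∧ ∀ q : F2 × F2, O q.1 q.2 →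
      norm p.1 + norm p.2 ≤ norm q.1 + norm q.2) ∧ ∀ q : F2 × F2, (O q.1 q.2 ∧ ∀ r : F2 × F2,
        O r.1 r.2 → norm q.1 + norm q.2 ≤ norm r.1 + norm r.2) → norm p.2 ≤ norm q.2)
    (fun p : F2 × F2 => norm (p.1⁻¹ * p.2)) ⟨p2, m2⟩
  simp only at hO m1 m2 m3
  have k1 : ∀ u' v', O u' v' → norm u + norm v ≤ norm u' + norm v' := fun u' v' h => m1 (u', v') h
  have k2 : ∀ u' v', O u' v' → norm u' + norm v' ≤ norm u + norm v → norm v ≤ norm v' :=
    fun u' v' h h' => m2 (u', v') ⟨h, fun r hr => h'.trans (m1 r hr)⟩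
  have k3 : ∀ u' v', O u' v' → norm u' ≤ norm u → norm v' ≤ norm v →
      norm (u⁻¹ * v) ≤ norm (u'⁻¹ * v') := fun u' v' h h' h'' =>
    m3 (u', v') ⟨⟨h, fun r hr => (add_le_add h' h'').trans (m1 r hr)⟩,
      fun q hq => h''.trans (m2 q hq)⟩
  clear m1 m2 m3
  have hi' : ∀ u v, O u v → O u v⁻¹ := fun u v h => hs _ _ (hi _ _ (hs _ _ h))
  refine ⟨u, v, hO, ?_⟩
  by_cases u1 : u = 1
  · exact Or.inl u1
  by_cases v1 : v = 1
  · exact Or.inr (Or.inl v1)
  refine Or.inr (Or.inr ?_)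
  have n1 := norm_cp u v
  have n2 := norm_cp v u
  rw [cp_comm v u] at n2
  have pu := norm_pos u1
  have pv := norm_pos v1
  have hu : 2 * cp u v ≤ norm u := by
    have := k1 _ _ (hr _ _ (hi' _ _ hO))
    omega
  have hv : 2 * cp u v ≤ norm v := by
    have := k1 _ _ (hr _ _ (hi' _ _ (hs _ _ hO)))
    omega
  have vV : cp v v⁻¹ = 0 := by
    by_contra h
    obtain ⟨t, ht, c⟩ := exists_first v1
    have := cp_ultra t v v⁻¹
    have := cp_le t v⁻¹
    have := conj_lt_of ht c (by omega)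
    have := conj_le_add (x := u) ht
    have := k2 _ _ (hc _ _ t hO) (by omega)
    omega
  have UV : cp u⁻¹ v⁻¹ = 0 := by
    by_contra h
    obtain ⟨t, ht, c⟩ := exists_first (inv_ne_one.2 u1)
    have := cp_ultra t u⁻¹ v⁻¹
    have := cp_le t v⁻¹
    have c' : cp t v⁻¹ = 1 := by omega
    have a1 := k3 _ _ (hc _ _ t hO) (conj_le_of ht (Or.inr c)) (conj_le_of ht (Or.inr c'))
    rw [show (t⁻¹ * u * t)⁻¹ * (t⁻¹ * v * t) = t⁻¹ * (u⁻¹ * v) * t by group] at a1
    have a2 := norm_cp' u (u⁻¹ * v)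
    have a3 := norm_cp' v (v⁻¹ * u)
    rw [mul_inv_cancel_left] at a2 a3
    have := cp_ultra t u⁻¹ (u⁻¹ * v)
    have := cp_ultra t v⁻¹ (v⁻¹ * u)
    have := cp_le t (u⁻¹ * v)
    have := cp_le t (v⁻¹ * u)
    have := conj_lt_of (x := u⁻¹ * v) ht (by omega)
      (by rw [show (u⁻¹ * v)⁻¹ = v⁻¹ * u by group]; omega)
    omega
  have uV : cp u v⁻¹ = 0 := by
    have := k3 _ _ (hi' _ _ hO) le_rfl norm_inv_eq.le
    have a := norm_cp u v⁻¹
    rw [norm_inv_eq] at a
    have := cp_ultra v u v⁻¹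
    rw [cp_comm v u] at this
    omega
  have Uv : cp u⁻¹ v = 0 := by
    by_contra h
    have := k3 _ _ (hi _ _ hO) norm_inv_eq.le le_rfl
    have a := norm_cp u⁻¹ v
    rw [norm_inv_eq] at a
    obtain ⟨t, ht, c⟩ := exists_first v1
    have b1 := cp_ultra t v u
    have b2 := cp_ultra t v u⁻¹
    rw [cp_comm v] at b1 b2
    have := cp_le t u
    have := cp_le t u⁻¹
    have := conj_lt_of (x := u) ht (by omega) (by omega)
    have := conj_le_of ht (Or.inl c)
    have := k1 _ _ (hc _ _ t hO)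
    omega
  refine ⟨u1, v1, vV, UV, uV, Uv, hu, hv, ?_⟩
  have := cp_ultra u⁻¹ u v
  rw [cp_comm u⁻¹ u] at this
  omega

abbrev Lt := Fin 2 × Bool

def vv (φ : E2) (x : Lt) : F2 := cond x.2 (φ (of x.1)) (φ (of x.1))⁻¹

lemma map_mk' (φ : E2) (L : List Lt) : φ (mk L) = (L.map (vv φ)).prod := by
  induction L with
  | nil => simp [← one_eq_mk]
  | cons x L ih =>
    rw [mk_cons, map_mul, ih, List.map_cons, List.prod_cons, vv]
    cases x.2 <;> simp

def q1 (x y : Lt) : ℕ := if x.1 = 0 ∧ y.1 = 0 then 1 else 0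
def p1 (x y : Lt) : ℕ := if x.1 ≠ y.1 ∧ x.2 = false ∧ y.2 = true then 1 else 0

def adj (f : Lt → Lt → ℕ) : List Lt → ℕ
  | x :: y :: L => f x y + adj f (y :: L)
  | _ => 0

lemma kap {u v : F2} (h : RedP u v) (x y : Lt) (ok : x.1 = y.1 → x.2 = y.2) :
    cp (vv (mkE u v) x)⁻¹ (vv (mkE u v) y) = cp u u⁻¹ * q1 x y + cp u v * p1 x y := by
  obtain ⟨i, d⟩ := x
  obtain ⟨j, e⟩ := y
  have := h.vV
  have := h.UV
  have := h.uV
  have := h.Uv
  have := cp_comm v v⁻¹
  have := cp_comm u⁻¹ v⁻¹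
  have := cp_comm u v⁻¹
  have := cp_comm u⁻¹ v
  have := cp_comm u u⁻¹
  have := cp_comm u v
  fin_cases i <;> fin_cases j <;> cases d <;> cases e <;>
    simp [vv, of0, of1, q1, p1] at ok ⊢ <;> omega

def ca (L : List Lt) : ℕ := L.countP fun x => pa x.1
def cb (L : List Lt) : ℕ := L.countP fun x => pb x.1

lemma red_norm {u v : F2} (h : RedP u v) {L : List Lt} (hL : IsReduced L) :
    norm (mkE u v (mk L)) + 2 * (cp u u⁻¹ * adj q1 L + cp u v * adj p1 L) =
      ca L * norm u + cb L * norm v := by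
  have H := (chain_norm (vv (mkE u v)) (fun x y => x.1 = y.1 → x.2 = y.2) ?_ L hL).1
  · have e1 : ∀ L : List Lt, IsReduced L →
        ksum (vv (mkE u v)) L = cp u u⁻¹ * adj q1 L + cp u v * adj p1 L := by
      intro L hL
      induction L with
      | nil => simp [ksum, adj]
      | cons x L ih =>
        cases L with
        | nil => simp [ksum, adj]
        | cons y L =>
          rw [ksum, ih (red_tail hL), kap h x y (List.isChain_cons_cons.1 hL).1, adj, adj]; ring
    have e2 : ∀ L : List Lt, (L.map fun x => norm (vv (mkE u v) x)).sum =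
        ca L * norm u + cb L * norm v := by
      intro L
      induction L with
      | nil => simp [ca, cb]
      | cons x L ih =>
        obtain ⟨i, d⟩ := x
        rw [List.map_cons, List.sum_cons, ih]
        fin_cases i <;> cases d <;> simp [ca, cb, pa, pb, vv, of0, of1] <;> ring
    rw [map_mk', ← e1 L hL, ← e2, H]
  · intro x y z h1 h2
    rw [kap h x y h1, kap h y z h2]
    have := cp_inv_lt h.u1
    have := norm_pos h.v1
    have := h.hu
    have := h.hv
    have := h.alt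
    obtain ⟨i, d⟩ := x
    obtain ⟨j, e⟩ := y
    obtain ⟨k, f⟩ := z
    fin_cases i <;> fin_cases j <;> fin_cases k <;> cases d <;> cases e <;> cases f <;>
      simp [vv, of0, of1, q1, p1] at h1 h2 ⊢ <;> omega

def th : E2 := mkE ga (ga * gb)

lemma th_eq : th = inn ga * rh := extE (by simp [th]) (by simp [th, mul_assoc])

lemma cnt_th1 (x : Lt) : cnt pa (th (mk [x])) ≤ 1 := by
  obtain ⟨i, d⟩ := x
  have := cnt_mul pa ga gb
  rw [mk_cons, ← one_eq_mk, mul_one]
  fin_cases i <;> cases d <;> simp [th, of0, of1, cnt_inv, pa, -mul_inv_rev] at this ⊢ <;>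
    exact this

lemma cnt_th : ∀ L : List Lt, cnt pa (th (mk L)) + 2 * adj p1 L ≤ L.length
  | [] => by simp [← one_eq_mk, cnt, adj]
  | [x] => cnt_th1 x
  | x :: y :: L => by
    by_cases h : x.1 ≠ y.1 ∧ x.2 = false ∧ y.2 = true
    · have ih := cnt_th L
      have e : adj p1 (y :: L) = adj p1 L := by
        cases L with
        | nil => rfl
        | cons z L => simp [adj, p1, h.2.2]
      have c : cnt pa (th (mk [x, y])) = 0 := by
        obtain ⟨i, d⟩ := x
        obtain ⟨j, e⟩ := y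
        obtain ⟨h1, rfl, rfl⟩ := h
        rw [mk_cons, mk_cons, ← one_eq_mk]
        fin_cases i <;> fin_cases j <;> simp [th, of0, of1, cnt_inv, pa] at h1 ⊢
      have := cnt_mul pa (th (mk [x, y])) (th (mk L))
      rw [← map_mul, mul_mk] at this
      rw [adj, e, p1, if_pos h]
      simp only [List.cons_append, List.nil_append, List.length_cons] at this ⊢
      omega
    · have ih := cnt_th (y :: L)
      have h1 := cnt_th1 x
      have := cnt_mul pa (th (mk [x])) (th (mk (y :: L)))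
      rw [← map_mul, mul_mk] at this
      rw [adj, p1, if_neg h]
      simp only [List.cons_append, List.nil_append, List.length_cons] at this ih ⊢
      omega

lemma adj_q_split (y : Lt) (hy : y.1 = 1) (M : List Lt) :
    ∀ L : List Lt, adj q1 (L ++ y :: M) = adj q1 L + adj q1 M
  | [] => by cases M <;> simp [adj, q1, hy]
  | [x] => by
    have := adj_q_split y hy M []
    simp [adj, q1, hy] at this ⊢
    exact this
  | x :: z :: L => by
    have := adj_q_split y hy M (z :: L)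
    simp only [List.cons_append, adj] at this ⊢
    omega

lemma adj_q_le : ∀ L : List Lt, adj q1 L + min 1 (ca L) ≤ ca L
  | [] => by simp [adj, ca]
  | [x] => by simp [adj]
  | x :: y :: L => by
    have := adj_q_le (y :: L)
    obtain ⟨i, d⟩ := x
    obtain ⟨j, e⟩ := y
    fin_cases i <;> fin_cases j <;> simp [adj, q1, ca, pa] at this ⊢ <;> omega

def rep (n : ℕ) (L : List Lt) : List Lt := (List.replicate n L).flatten

lemma rep_succ (n : ℕ) (L : List Lt) : rep (n + 1) L = L ++ rep n L := by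
  simp [rep, List.replicate_succ]

lemma ca_rep (n : ℕ) (L : List Lt) : ca (rep n L) = n * ca L := by simp [ca, rep, List.countP_flatten]
lemma cb_rep (n : ℕ) (L : List Lt) : cb (rep n L) = n * cb L := by simp [cb, rep, List.countP_flatten]
lemma mk_rep' (n : ℕ) (L : List Lt) : mk (rep n L) = mk L ^ n := by
  induction n with
  | zero => simp [rep, ← one_eq_mk]
  | succ n ih => rw [rep_succ, ← mul_mk, ih, pow_succ']

lemma adj_q_rep {L : List Lt} (ha : 0 < ca L) (hb : 0 < cb L) (n : ℕ) :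
    adj q1 (rep (n + 1) L) + n ≤ (n + 1) * ca L := by
  obtain ⟨y, hy, hy'⟩ := List.countP_pos_iff.1 hb
  obtain ⟨L1, L2, rfl⟩ := List.append_of_mem hy
  have y1 : y.1 = 1 := by simpa [pb] using hy'
  have c1 : ca (L1 ++ y :: L2) = ca L1 + ca L2 := by simp [ca, pa, y1]
  have c2 : ca (L2 ++ L1) = ca L1 + ca L2 := by simp [ca, add_comm]
  have key : ∀ n, adj q1 (L2 ++ rep n (L1 ++ y :: L2)) + n ≤ n * ca (L1 ++ y :: L2) + ca L2 := by
    intro n
    induction n with
    | zero => have := adj_q_le L2; simp [rep]; omega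
    | succ n ih =>
      have := adj_q_le (L2 ++ L1)
      rw [rep_succ, List.append_assoc, ← List.append_assoc, List.cons_append, adj_q_split y y1,
        add_mul]
      omega
  have := key n
  have := adj_q_le L1
  rw [rep_succ, List.append_assoc, List.cons_append, adj_q_split y y1, add_mul]
  omega

lemma len_eq (L : List Lt) : L.length = ca L + cb L := by
  induction L with
  | nil => rfl
  | cons x L ih =>
    obtain ⟨i, d⟩ := x
    fin_cases i <;> simp [ca, cb, pa, pb] at ih ⊢ <;> omega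

lemma comm_of_cb {L : List Lt} (h : cb L = 0) : Commute (mk L) ga := by
  induction L with
  | nil => rw [← one_eq_mk]; exact Commute.one_left _
  | cons x L ih =>
    obtain ⟨i, d⟩ := x
    rw [mk_cons]
    fin_cases i
    · refine Commute.mul_left ?_ (ih (by simpa [cb, pb] using h))
      cases d <;> simp [of0]
    · simp [cb, pb] at h

lemma comm_of_ca {L : List Lt} (h : ca L = 0) : Commute (sw (mk L)) ga := by
  induction L with
  | nil => rw [← one_eq_mk, map_one]; exact Commute.one_left _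
  | cons x L ih =>
    obtain ⟨i, d⟩ := x
    rw [mk_cons, map_mul]
    fin_cases i
    · simp [ca, pa] at h
    · refine Commute.mul_left ?_ (ih (by simpa [ca, pa] using h))
      cases d <;> simp [of1]

lemma exists_cyc (g : F2) : ∃ k L, IsCyclicallyReduced L ∧ mk L = inn k g ∧ L.length = cl g := by
  refine ⟨(mk (reduceCyclically.conjugator g.toWord))⁻¹, reduceCyclically g.toWord,
    reduceCyclically.isCyclicallyReduced isReduced_toWord, ?_, by simp [cl, cyc]⟩
  have := congrArg mk (reduceCyclically.conj_conjugator_reduceCyclically g.toWord)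
  rw [mk_toWord, ← mul_mk, ← mul_mk, ← inv_mk] at this
  rw [inn_apply]
  generalize mk (reduceCyclically.conjugator g.toWord) = c at this ⊢
  generalize mk (reduceCyclically g.toWord) = r at this ⊢
  rw [← this]; group

lemma cp_self (g : F2) : cp g g = norm g := by
  have := norm_cp g g
  rw [inv_mul_cancel, FreeGroup.norm_one] at this
  omega

lemma letters_G0 {u v : F2} (hu : norm u = 1) (hv : norm v = 1) (h1 : cp u v = 0)
    (h2 : cp u v⁻¹ = 0) : mkE u v ∈ G0 := by
  have s := sw_G0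
  have i := iv_G0
  have n1 : u ≠ v := by rintro rfl; rw [cp_self] at h1; omega
  have n2 : u ≠ v⁻¹ := by rintro rfl; rw [cp_self] at h2; omega
  rcases letter_cases hu with rfl | rfl | rfl | rfl <;>
    rcases letter_cases hv with rfl | rfl | rfl | rfl <;>
    first
    | exact absurd rfl n1
    | exact absurd rfl n2
    | exact absurd (inv_inv _).symm n2
    | exact (show mkE ga gb = 1 from extE (by simp) (by simp)) ▸ G0.one_mem
    | exact s
    | exact i
    | exact (show mkE ga gb⁻¹ = sw * iv * sw from extE (by simp) (by simp)) ▸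
        G0.mul_mem (G0.mul_mem s i) s
    | exact (show mkE ga⁻¹ gb⁻¹ = iv * (sw * iv * sw) from extE (by simp) (by simp)) ▸
        G0.mul_mem i (G0.mul_mem (G0.mul_mem s i) s)
    | exact (show mkE gb ga⁻¹ = iv * sw from extE (by simp) (by simp)) ▸ G0.mul_mem i s
    | exact (show mkE gb⁻¹ ga = sw * iv from extE (by simp) (by simp)) ▸ G0.mul_mem s i
    | exact (show mkE gb⁻¹ ga⁻¹ = iv * sw * iv from extE (by simp) (by simp)) ▸
        G0.mul_mem (G0.mul_mem i s) i

lemma red_eq {u v : F2} (h : RedP u v) {L : List Lt} (hL : IsCyclicallyReduced L) {N : ℕ}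
    (ha : 0 < ca L) (hb : 0 < cb L) (h1 : cl (mkE u v (mk L)) ≤ N) (h2 : N ≤ L.length)
    (h3 : N ≤ cl (th (mk L))) : mkE u v ∈ G0 := by
  have R := fun n => red_norm h (L := rep n L) (hL.flatten_replicate n).isReduced
  have U : ∀ n, norm (mkE u v (mk (rep n L))) ≤ n * N + norm (mkE u v (mk L)) := fun n => by
    have := cnt_pow_le (fun _ => true) (mkE u v (mk L)) n
    rw [cnt_true, ← map_pow, ← mk_rep'] at this
    exact this.trans (Nat.add_le_add_right (Nat.mul_le_mul_left n h1) _)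
  simp only [ca_rep, cb_rep] at R
  rw [len_eq] at h2
  have pv := norm_pos h.v1
  have t0 : cp u u⁻¹ = 0 := by
    refine h.alt.elim id fun d0 => ?_
    obtain ⟨r, hr⟩ := Nat.exists_eq_add_of_lt (cp_inv_lt h.u1)
    obtain ⟨s, hs⟩ := Nat.exists_eq_add_of_lt pv
    refine Nat.le_zero.1 (le_of_lin (C := norm (mkE u v (mk L))) fun n => ?_)
    have a1 := R (n + 1)
    have a2 := U (n + 1)
    have a3 := Nat.mul_le_mul_left (cp u u⁻¹) (adj_q_rep ha hb n)
    have a4 := Nat.mul_le_mul_left (n + 1) h2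
    rw [d0, hr, hs] at a1
    nlinarith [Nat.zero_le ((n + 1) * ca L * r), Nat.zero_le ((n + 1) * cb L * s)]
  obtain ⟨r, hr⟩ : ∃ r, norm u = cp u v + r + 1 :=
    Nat.exists_eq_add_of_lt (by have := h.hu; have := norm_pos h.u1; omega)
  obtain ⟨s, hs⟩ : ∃ s, norm v = cp u v + s + 1 :=
    Nat.exists_eq_add_of_lt (by have := h.hv; omega)
  have key : ca L * (r + 1) + cb L * (s + 1) + cp u v * X (th (mk L)) ≤ N := by
    refine le_of_lin (C := norm (mkE u v (mk L))) fun n => ?_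
    have a1 := R n
    have a2 := U n
    have a3 := cnt_th (rep n L)
    have a4 := le_cnt_pow pa (th (mk L)) n
    rw [← map_pow, ← mk_rep'] at a4
    rw [len_eq, ca_rep, cb_rep] at a3
    have a5 := Nat.mul_le_mul_left (cp u v) ((Nat.add_le_add_right a4 _).trans a3)
    rw [t0, hr, hs] at a1
    unfold X
    nlinarith
  have y1 : Y (th (mk L)) = cb L := by
    rw [th_eq, mulE, Y_inn, rh, Y_tw]
    have a1 := cnt_pow pb (mk L) 1
    have a2 := cnt_eq pb (mk L)
    rw [← mk_rep', cnt, toWord_mk, rep, (hL.flatten_replicate _).isReduced.reduce_eq] at a1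
    rw [cnt, toWord_mk, hL.isReduced.reduce_eq] at a2
    have a3 : cb (rep (1 + 1) L) = (1 + 1) * cyc pb (mk L) + 2 * cjn pb (mk L) := a1
    have a4 : cb L = cyc pb (mk L) + 2 * cjn pb (mk L) := a2
    rw [cb_rep] at a3
    unfold Y
    omega
  rw [cl_eq, y1] at h3
  have d0 : cp u v = 0 := by
    by_contra hc
    have : 1 * 1 ≤ cp u v * X (th (mk L)) := Nat.mul_le_mul (by omega) (by nlinarith)
    nlinarith
  have r0 : r = 0 := by nlinarith
  have s0 : s = 0 := by nlinarith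
  exact letters_G0 (by omega) (by omega) d0 h.uV

lemma comm_img {ψ : E2} (h : Commute (ψ ga) (ψ gb)) (g g' : F2) : Commute (ψ g) (ψ g') := by
  have key : ∀ z, Commute (ψ ga) z → Commute (ψ gb) z → ∀ g, Commute (ψ g) z := by
    intro z h1 h2 g
    induction g using FreeGroup.induction_on with
    | C1 => simp
    | of x => fin_cases x; exacts [h1, h2]
    | inv_of x ih => rw [map_inv]; exact ih.inv_left
    | mul x y hx hy => rw [map_mul]; exact hx.mul_left hy
  exact key _ (key _ (Commute.refl _) h.symm g').symm (key _ h (Commute.refl _) g').symm g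

/-- the theorems of Nielsen and Turner in rank two -/
theorem turner {φ : E2} {w : F2} (h : φ w = w) (hw : ∀ γ ∈ G0, ¬ Commute (γ w) ga) :
    φ ∈ G0 ∨ Commute (φ ga) (φ gb) := by
  obtain ⟨γ, hγ, hm⟩ := exmin (· ∈ G0) (fun γ => norm (γ w)) ⟨1, G0.one_mem⟩
  obtain ⟨γ', hγ', e1, e2⟩ := G0_inv hγ
  have hm' : ∀ δ ∈ G0, norm (γ w) ≤ cl (δ w) := fun δ hδ => by
    obtain ⟨k, L, hL, e, e'⟩ := exists_cyc (δ w)
    have := hm (inn k * δ) (G0.mul_mem (inn_G0 k) hδ)
    rwa [mulE, ← e, norm_mk_red hL.isReduced, e'] at this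
  obtain ⟨u, v, ⟨k, β, hβ, e⟩, hr⟩ := exists_red
    (fun u v => ∃ k, ∃ β ∈ G0, mkE u v = inn k * γ * φ * β)
    ⟨_, _, 1, 1, G0.one_mem, extE (mkE_a _ _) (mkE_b _ _)⟩
    (by
      rintro u v ⟨k, β, hβ, e⟩
      exact ⟨k, β * sw, G0.mul_mem hβ sw_G0, by rw [← mul_assoc, ← e]; exact extE (by simp) (by simp)⟩)
    (by
      rintro u v ⟨k, β, hβ, e⟩
      exact ⟨k, β * iv, G0.mul_mem hβ iv_G0, by rw [← mul_assoc, ← e]; exact extE (by simp) (by simp)⟩)
    (by
      rintro u v ⟨k, β, hβ, e⟩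
      exact ⟨k, β * rh, G0.mul_mem hβ rh_G0, by rw [← mul_assoc, ← e]; exact extE (by simp) (by simp)⟩)
    (by
      rintro u v t ⟨k, β, hβ, e⟩
      refine ⟨t⁻¹ * k, β, hβ, ?_⟩
      have : mkE (t⁻¹ * u * t) (t⁻¹ * v * t) = inn t⁻¹ * mkE u v := extE (by simp) (by simp)
      rw [this, e, ← inn_mul]
      simp only [mul_assoc])
  obtain ⟨β', hβ', e3, e4⟩ := G0_inv hβ
  have e5 : φ = γ' * inn k⁻¹ * mkE u v * β' := by
    rw [e]
    calc φ = (γ' * (inn k⁻¹ * inn k) * γ) * φ * (β * β') := by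
          rw [inn_mul, inv_mul_cancel, inn_one, mul_one, e1, e4, one_mul, mul_one]
      _ = _ := by simp only [mul_assoc]
  have ab : Commute u v → Commute (φ ga) (φ gb) := fun c => by
    rw [e5]
    exact (comm_img (ψ := mkE u v) (by simpa using c) (β' ga) (β' gb)).map (γ' * inn k⁻¹)
  rcases hr with rfl | rfl | hr
  · exact Or.inr (ab (Commute.one_left _))
  · exact Or.inr (ab (Commute.one_right _))
  left
  obtain ⟨c, L, hL, f1, f2⟩ := exists_cyc (β' w)
  have g1 : inn c * β' ∈ G0 := G0.mul_mem (inn_G0 c) hβ'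
  have : mkE u v ∈ G0 := by
    refine red_eq hr hL (N := norm (γ w)) ?_ ?_ ?_ (f2 ▸ hm' _ hβ') ?_
    · refine Nat.pos_of_ne_zero fun h0 => hw _ (G0.mul_mem sw_G0 g1) ?_
      have := comm_of_ca h0
      rwa [f1] at this
    · refine Nat.pos_of_ne_zero fun h0 => hw _ g1 ?_
      have := comm_of_cb h0
      rwa [f1] at this
    · rw [f1, ← mulE, mul_inn, mulE, inn_apply, cl_conj, e, mulE, ← mulE β, e4, oneE, mulE, h, mulE,
        inn_apply, cl_conj]
      exact cyc_le _ _
    · rw [f1]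
      exact hm' _ (G0.mul_mem (th_eq ▸ G0.mul_mem (inn_G0 _) rh_G0) g1)
  rw [e5]
  exact G0.mul_mem (G0.mul_mem (G0.mul_mem hγ' (inn_G0 _)) this) hβ'

end Pool.Agent.Lib.MP_d96856_al.R2
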