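import Mathlib
import Pool.Agent.Lib.MP_d96856_al.R2Tur
import Pool.Agent.Lib.MP_d96856_al.Main

namespace Pool.Agent.Lib.MP_d96856_al.R2

open FreeGroup hiding map_mul map_one map_inv

/-- endomorphisms fixing a list -/
def St (u : List F2) : Submonoid E2 where
  carrier := {φ | ∀ x ∈ u, φ x = x}
  one_mem' := fun _ _ => rfl
  mul_mem' := fun {φ ψ} h1 h2 x hx => by rw [mulE, h2 x hx, h1 x hx]

lemma mem_St {u : List F2} {φ : E2} : φ ∈ St u ↔ ∀ x ∈ u, φ x = x := Iff.rfl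

def Cl (out : List E2) : Submonoid E2 := Submonoid.closure {φ | φ ∈ out}

lemma mem_Cl {out : List E2} {φ : E2} (h : φ ∈ out) : φ ∈ Cl out := Submonoid.subset_closure h

/-- a finite certificate for the McCool graph -/
def McC (u : List F2) (K : ℕ) (T : List (E2 × E2)) (out : List E2) : Prop :=
  (∀ x ∈ u, norm x ≤ K) ∧ (∃ p ∈ T, p.1 = 1 ∧ p.2 = 1) ∧ ∀ p ∈ T, p.1 * p.2 = 1 ∧
    ((∃ x ∈ u, p.1 x ≠ x) ∨ p.1 ∈ out) ∧ ∀ ε ∈ El, (∃ x ∈ u, 8 * K < norm (ε (p.1 x))) ∨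
      ∃ q ∈ T, (∀ x ∈ u, q.1 x = ε (p.1 x)) ∧ q.2 * ε * p.1 ∈ out

section
variable {u : List F2} {K : ℕ} {T : List (E2 × E2)} {out : List E2}

lemma McC.mono (h : McC u K T out) {out' : List E2} (hs : ∀ φ ∈ out, φ ∈ out') :
    McC u K T out' :=
  ⟨h.1, h.2.1, fun p hp => ⟨(h.2.2 p hp).1, (h.2.2 p hp).2.1.imp_right (hs _), fun ε hε =>
    ((h.2.2 p hp).2.2 ε hε).imp_right fun ⟨q, h1, h2, h3⟩ => ⟨q, h1, h2, hs _ h3⟩⟩⟩

lemma McC.reach (h : McC u K T out) {γ : E2} (hγ : γ ∈ G0) (hb : Bd K u γ) :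
    ∃ p ∈ T, (∀ x ∈ u, p.1 x = γ x) ∧ p.2 * γ ∈ Cl out := by
  have := peak hγ h.1 hb
  clear hγ hb
  induction this with
  | one =>
    obtain ⟨p, hp, h1, h2⟩ := h.2.1
    exact ⟨p, hp, fun x _ => by rw [h1], by rw [h2, one_mul]; exact Submonoid.one_mem _⟩
  | @step γ ε _ hε hb ih =>
    obtain ⟨p, hp, h1, h2⟩ := ih
    obtain ⟨h3, -, h4⟩ := h.2.2 p hp
    rcases h4 ε hε with ⟨x, hx, h5⟩ | ⟨q, hq, h5, h6⟩
    · have := hb x hx
      rw [mulE, ← h1 x hx] at this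
      omega
    · refine ⟨q, hq, fun x hx => by rw [h5 x hx, h1 x hx, mulE], ?_⟩
      have : q.2 * (ε * γ) = q.2 * ε * p.1 * (p.2 * γ) := by
        rw [mul_assoc (q.2 * ε), ← mul_assoc p.1, h3, one_mul, mul_assoc]
      rw [this]
      exact Submonoid.mul_mem _ (mem_Cl h6) h2

lemma McC.gen (h : McC u K T out) {γ : E2} (hγ : γ ∈ G0) (hs : γ ∈ St u) : γ ∈ Cl out := by
  obtain ⟨p, hp, h1, h2⟩ := h.reach hγ fun x hx => by rw [hs x hx]; exact h.1 x hx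
  obtain ⟨h3, h4, -⟩ := h.2.2 p hp
  rcases h4 with ⟨x, hx, h5⟩ | h4
  · exact absurd ((h1 x hx).trans (hs x hx)) h5
  · have : γ = p.1 * (p.2 * γ) := by rw [← mul_assoc, h3, one_mul]
    rw [this]
    exact Submonoid.mul_mem _ (mem_Cl h4) h2

end

lemma ball_finite (K : ℕ) : {g : F2 | norm g ≤ K}.Finite :=
  (List.finite_length_le (Fin 2 × Bool) K).preimage toWord_injective.injOn

lemma lists_finite {β : Type} {B : Set β} (hB : B.Finite) (n : ℕ) :
    {v : List β | v.length = n ∧ ∀ x ∈ v, x ∈ B}.Finite := by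
  have := hB.to_subtype
  refine ((List.finite_length_eq B n).image (List.map Subtype.val)).subset ?_
  rintro v ⟨h1, h2⟩
  exact ⟨v.attachWith _ h2, by simpa using h1, by simp⟩

lemma mc_complete (u : List F2) : ∃ K T out, McC u K T out ∧ (∀ φ ∈ out, φ ∈ St u ∧ φ ∈ G0) ∧
    ∀ p ∈ T, p.1 ∈ G0 := by
  classical
  set K := (u.map FreeGroup.norm).sum
  have hV := lists_finite (ball_finite (8 * K)) u.length
  have hc : ∀ v : List F2, ∃ p : E2 × E2, p.1 ∈ G0 ∧ p.2 ∈ G0 ∧ p.2 * p.1 = 1 ∧ p.1 * p.2 = 1 ∧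
      ((∃ γ ∈ G0, u.map γ = v) → u.map p.1 = v) := fun v => by
    by_cases h : ∃ γ ∈ G0, u.map γ = v
    · obtain ⟨γ, h1, h2⟩ := h
      obtain ⟨δ, h3, h4, h5⟩ := G0_inv h1
      exact ⟨(γ, δ), h1, h3, h4, h5, fun _ => h2⟩
    · exact ⟨(1, 1), G0.one_mem, G0.one_mem, mul_one _, mul_one _, fun h' => absurd h' h⟩
  choose c c1 c2 c3 c4 c5 using hc
  set T : List (E2 × E2) := (1, 1) :: hV.toFinset.toList.map c with hT
  have t1 : ∀ p ∈ T, p.1 ∈ G0 ∧ p.2 ∈ G0 ∧ p.2 * p.1 = 1 ∧ p.1 * p.2 = 1 := by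
    intro p hp
    rcases List.mem_cons.1 hp with rfl | hp
    · exact ⟨G0.one_mem, G0.one_mem, mul_one _, mul_one _⟩
    · obtain ⟨v, -, rfl⟩ := List.mem_map.1 hp
      exact ⟨c1 v, c2 v, c3 v, c4 v⟩
  refine ⟨K, T, (T.map Prod.fst ++ T.flatMap fun p => El.flatMap fun ε =>
    T.map fun q => q.2 * ε * p.1).filter fun φ => φ ∈ St u ∧ φ ∈ G0, ⟨fun x hx => ?_,
      ⟨(1, 1), List.mem_cons_self, rfl, rfl⟩, fun p hp => ⟨(t1 p hp).2.2.2, ?_, fun ε hε => ?_⟩⟩,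
    fun φ hφ => by simpa using (List.mem_filter.1 hφ).2, fun p hp => (t1 p hp).1⟩
  · exact List.single_le_sum (fun _ _ => Nat.zero_le _) _ (List.mem_map_of_mem hx)
  · refine or_iff_not_imp_left.2 fun h => ?_
    push Not at h
    exact List.mem_filter.2 ⟨List.mem_append_left _ (List.mem_map_of_mem hp),
      by simpa using ⟨h, (t1 p hp).1⟩⟩
  · refine or_iff_not_imp_left.2 fun h => ?_
    push Not at h
    have g1 : ε * p.1 ∈ G0 := G0.mul_mem (El_G0 hε) (t1 p hp).1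
    have e := c5 (u.map (ε * p.1 : E2)) ⟨_, g1, rfl⟩
    have hq : c (u.map (ε * p.1 : E2)) ∈ T := by
      refine List.mem_cons_of_mem _ (List.mem_map_of_mem ?_)
      rw [Finset.mem_toList, Set.Finite.mem_toFinset]
      exact ⟨by simp, by simpa using h⟩
    set q := c (u.map (ε * p.1 : E2))
    have e' : ∀ x ∈ u, q.1 x = ε (p.1 x) := List.map_inj_left.1 e
    refine ⟨q, hq, e', List.mem_filter.2 ⟨List.mem_append_right _ ?_, ?_⟩⟩
    · exact List.mem_flatMap.2 ⟨p, hp, List.mem_flatMap.2 ⟨ε, hε, List.mem_map.2 ⟨q, hq, rfl⟩⟩⟩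
    · simp only [Bool.decide_and, Bool.and_eq_true, decide_eq_true_eq]
      refine ⟨fun x hx => ?_, G0.mul_mem (G0.mul_mem (t1 q hq).2.1 (El_G0 hε)) (t1 p hp).1⟩
      rw [mulE, mulE, ← e' x hx, ← mulE, (t1 q hq).2.2.1, oneE]

def ea (g : F2) : ℤ := (coF 0 g).toAdd
def eb (g : F2) : ℤ := (coF 1 g).toAdd

@[simp] lemma ea_a : ea ga = 1 := by simp [ea, ga, coF]
@[simp] lemma ea_b : ea gb = 0 := by simp [ea, gb, coF]
@[simp] lemma eb_a : eb ga = 0 := by simp [eb, ga, coF]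
@[simp] lemma eb_b : eb gb = 1 := by simp [eb, gb, coF]
@[simp] lemma ea_mul (g h : F2) : ea (g * h) = ea g + ea h := by simp [ea]
@[simp] lemma eb_mul (g h : F2) : eb (g * h) = eb g + eb h := by simp [eb]
@[simp] lemma ea_inv (g : F2) : ea g⁻¹ = -ea g := by simp [ea]
@[simp] lemma eb_inv (g : F2) : eb g⁻¹ = -eb g := by simp [eb]
@[simp] lemma ea_one : ea 1 = 0 := by simp [ea]
@[simp] lemma eb_one : eb 1 = 0 := by simp [eb]
@[simp] lemma ea_zpow (g : F2) (k : ℤ) : ea (g ^ k) = k * ea g := by simp [ea]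
@[simp] lemma eb_zpow (g : F2) (k : ℤ) : eb (g ^ k) = k * eb g := by simp [eb]

lemma ea_map (φ : E2) (g : F2) : ea (φ g) = ea g * ea (φ ga) + eb g * ea (φ gb) := by
  induction g using FreeGroup.induction_on with
  | C1 => simp
  | of x => fin_cases x <;> simp [of0, of1]
  | inv_of x ih => rw [map_inv, ea_inv, ih]; simp; ring
  | mul x y hx hy => rw [map_mul, ea_mul, hx, hy]; simp; ring

lemma eb_map (φ : E2) (g : F2) : eb (φ g) = ea g * eb (φ ga) + eb g * eb (φ gb) := by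
  induction g using FreeGroup.induction_on with
  | C1 => simp
  | of x => fin_cases x <;> simp [of0, of1]
  | inv_of x ih => rw [map_inv, eb_inv, ih]; simp; ring
  | mul x y hx hy => rw [map_mul, eb_mul, hx, hy]; simp; ring

lemma comm_form {G : Type} [Group G] (φ : F2 →* G) (h : Commute (φ ga) (φ gb)) (g : F2) :
    φ g = φ ga ^ ea g * φ gb ^ eb g := by
  induction g using FreeGroup.induction_on with
  | C1 => simp
  | of x => fin_cases x <;> simp [of0, of1]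
  | inv_of x ih =>
    rw [map_inv, ih, mul_inv_rev, ea_inv, eb_inv, ← zpow_neg, ← zpow_neg, (h.zpow_zpow _ _).eq]
  | mul x y hx hy =>
    rw [map_mul, hx, hy, ea_mul, eb_mul, zpow_add, zpow_add]
    exact (h.zpow_zpow _ _).symm.mul_mul_mul_comm _ _

lemma exists_root {w : F2} (hw : w ≠ 1) :
    ∃ r : F2, Commute r w ∧ ∀ x, Commute x w → ∃ k : ℤ, x = r ^ k := by
  obtain ⟨⟨r, hr⟩, h⟩ := (centralizer_cyclic w hw).exists_generator
  refine ⟨r, (Subgroup.mem_centralizer_singleton_iff.1 hr), fun x hx => ?_⟩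
  obtain ⟨k, hk⟩ := h ⟨x, Subgroup.mem_centralizer_singleton_iff.2 hx⟩
  exact ⟨k, (congrArg Subtype.val hk).symm⟩

lemma comm_trans {w x y : F2} (hw : w ≠ 1) (h1 : Commute x w) (h2 : Commute y w) : Commute x y := by
  obtain ⟨r, -, h⟩ := exists_root hw
  obtain ⟨i, rfl⟩ := h x h1
  obtain ⟨j, rfl⟩ := h y h2
  exact Commute.zpow_zpow_self r i j

lemma root_of_prim {w r : F2} (hw : w ≠ 1) (h : Commute r w) {i j : ℤ} (e : i * ea r + j * eb r = 1)
    {x : F2} (hx : Commute x w) : ∃ k : ℤ, x = r ^ k := by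
  obtain ⟨s, -, hs⟩ := exists_root hw
  obtain ⟨e', rfl⟩ := hs r h
  obtain ⟨k, rfl⟩ := hs x hx
  rw [ea_zpow, eb_zpow] at e
  have : e' * (i * ea s + j * eb s) = 1 := by rw [← e]; ring
  refine ⟨e' * k, ?_⟩
  rw [← zpow_mul, ← mul_assoc]
  rcases Int.eq_one_or_neg_one_of_mul_eq_one this with rfl | rfl <;> simp

lemma ga_ne : ga ≠ 1 := of_ne_one _

lemma comm_a {g : F2} (h : Commute g ga) : ∃ k : ℤ, g = ga ^ k :=
  root_of_prim ga_ne (Commute.refl _) (i := 1) (j := 0) (by simp) h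

lemma G0_inj {γ : E2} (h : γ ∈ G0) : Function.Injective γ := by
  obtain ⟨δ, -, h1, -⟩ := G0_inv h
  exact Function.LeftInverse.injective (g := δ) fun x => by rw [← mulE, h1, oneE]

lemma norm_zpow (g : F2) (k : ℤ) : norm (g ^ k) = norm (g ^ k.natAbs) := by
  rcases Int.natAbs_eq k with h | h
  · conv_lhs => rw [h, zpow_natCast]
  · conv_lhs => rw [h, zpow_neg, zpow_natCast, norm_inv_eq]

lemma McC.nocomm {w : F2} {K : ℕ} {T : List (E2 × E2)} {out : List E2} (h : McC [w] K T out)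
    (hT : ∀ p ∈ T, p.1 w * ga ≠ ga * p.1 w) : ∀ γ ∈ G0, ¬ Commute (γ w) ga := by
  intro γ hγ hc
  obtain ⟨k, hk⟩ := comm_a hc
  obtain ⟨δ, hδ, h1, -⟩ := G0_inv hγ
  have h2 : w = δ ga ^ k := by rw [← map_zpow, ← hk, ← mulE, h1, oneE]
  have h3 := le_cnt_pow (fun _ => true) (δ ga) k.natAbs
  have h4 : 0 < cl (δ ga) := cl_pos fun h => ga_ne (G0_inj hδ (h.trans (map_one δ).symm))
  rw [cnt_true, ← norm_zpow, ← h2] at h3
  obtain ⟨p, hp, h5, -⟩ := h.reach hγ (by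
    intro x hx
    rw [List.mem_singleton.1 hx, hk, norm_zpow, ga, norm_of_pow]
    exact (Nat.le_mul_of_pos_right _ h4).trans (h3.trans (h.1 w (by simp))))
  exact hT p hp (by rw [h5 w (by simp)]; exact hc.eq)

lemma comm_G0 {φ : E2} {w : F2} (hw : w ≠ 1) (h1 : ea w = 0) (h2 : eb w = 0) (h : φ w = w) :
    φ ∈ G0 := by
  refine (turner h fun γ hγ hc => ?_).resolve_right fun hc => hw ?_
  · obtain ⟨k, hk⟩ := comm_a hc
    have := ea_map γ w
    rw [hk, h1, h2] at this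
    simp at this
    rw [this, zpow_zero] at hk
    exact hw (G0_inj hγ (hk.trans (map_one γ).symm))
  · have : φ w = φ ga ^ ea w * φ gb ^ eb w := comm_form φ hc w
    rw [← h, this, h1, h2]; simp

lemma fix_of_comm {φ : E2} {w x : F2} (hw : w ≠ 1) (h : φ w = w) (hx : Commute x w) : φ x = x := by
  obtain ⟨r, -, hr⟩ := exists_root hw
  obtain ⟨k, rfl⟩ := hr w (Commute.refl _)
  obtain ⟨j, rfl⟩ := hr x hx
  rw [map_zpow] at h ⊢
  rw [zpow_left_injective (by rintro rfl; simp at hw) h]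

end Pool.Agent.Lib.MP_d96856_al.R2
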