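import Mathlib
import Pool.Agent.Lib.MP_d96856_al.R2Mc

namespace Pool.Agent.Lib.MP_d96856_al.R2

open FreeGroup hiding map_mul map_one map_inv

def fa (i j : ℤ) (g : F2) : ℤ := i * ea g + j * eb g
def fb (r g : F2) : ℤ := ea r * eb g - eb r * ea g
def g0 (i j : ℤ) : F2 := ga ^ (-j) * gb ^ i
def tt (i j : ℤ) (φ : E2) : ℤ := fa i j (φ (g0 i j))
def ee (r : F2) (i j : ℤ) (φ : E2) : ℤ := fb r (φ (g0 i j))
def RR (r : F2) (i j s : ℤ) : E2 := mkE (r ^ (i - s * eb r)) (r ^ (j + s * ea r))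

section
variable {r : F2} {i j : ℤ}

lemma RR_apply (s : ℤ) (g : F2) : RR r i j s g = r ^ (fa i j g + s * fb r g) := by
  have : RR r i j s g = RR r i j s ga ^ ea g * RR r i j s gb ^ eb g :=
    comm_form (RR r i j s) (by
      change Commute (RR r i j s ga) (RR r i j s gb)
      rw [RR, mkE_a, mkE_b]; exact Commute.zpow_zpow_self r _ _) g
  rw [this, RR, mkE_a, mkE_b, ← zpow_mul, ← zpow_mul, ← zpow_add, fa, fb]
  congr 1; ring

lemma fa_map (e : i * ea r + j * eb r = 1) {φ : E2} (h : φ r = r) (g : F2) :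
    fa i j (φ g) = fa i j g + fb r g * tt i j φ ∧ fb r (φ g) = fb r g * ee r i j φ := by
  have h1 := ea_map φ r
  have h2 := eb_map φ r
  rw [h] at h1 h2
  simp only [fa, fb, tt, ee, ea_map φ g, eb_map φ g, ea_map φ (g0 i j), eb_map φ (g0 i j)]
  simp only [g0, ea_mul, eb_mul, ea_zpow, eb_zpow, ea_a, ea_b, eb_a, eb_b]
  constructor <;> grind

lemma te_mul (e : i * ea r + j * eb r = 1) {φ : E2} (h : φ r = r) (ψ : E2) :
    tt i j (φ * ψ) = tt i j ψ + ee r i j ψ * tt i j φ ∧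
      ee r i j (φ * ψ) = ee r i j ψ * ee r i j φ := fa_map e h _

lemma te_one (e : i * ea r + j * eb r = 1) : tt i j 1 = 0 ∧ ee r i j 1 = 1 := by
  simp only [tt, ee, fa, fb, g0, oneE, ea_mul, eb_mul, ea_zpow, eb_zpow, ea_a, ea_b, eb_a, eb_b]
  constructor <;> grind

lemma te_RR (e : i * ea r + j * eb r = 1) (s : ℤ) :
    tt i j (RR r i j s) = s ∧ ee r i j (RR r i j s) = 0 := by
  have := te_one e
  simp only [tt, ee, oneE] at this
  rw [tt, ee, RR_apply, this.1, this.2]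
  simp only [fa, fb, ea_zpow, eb_zpow]
  constructor <;> grind

lemma RR_fix (e : i * ea r + j * eb r = 1) (s : ℤ) : RR r i j s r = r := by
  rw [RR_apply, fa, e, fb]; simp [mul_comm]

lemma RR_mul (e : i * ea r + j * eb r = 1) {φ : E2} (h : φ r = r) (s : ℤ) :
    RR r i j s * φ = RR r i j (tt i j φ + s * ee r i j φ) := by
  have : ∀ g, (RR r i j s * φ) g = RR r i j (tt i j φ + s * ee r i j φ) g := fun g => by
    rw [mulE, RR_apply, RR_apply, (fa_map e h g).1, (fa_map e h g).2]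
    congr 1; ring
  exact extE (this _) (this _)

lemma prim_ne (e : i * ea r + j * eb r = 1) : r ≠ 1 := by rintro rfl; simp at e

lemma zpow_inj' {r : F2} (hr : r ≠ 1) {a b : ℤ} (h : r ^ a = r ^ b) : a = b :=
  injective_zpow_iff_not_isOfFinOrder.2 (fun h => hr h.eq_one') h

lemma comm_fix {φ : E2} {w : F2} (h : φ w = w) (hc : Commute (φ ga) (φ gb)) (g : F2) :
    Commute (φ g) w := h ▸ comm_img hc g w

lemma eq_RR (e : i * ea r + j * eb r = 1) {φ : E2} (h : φ r = r) (hc : Commute (φ ga) (φ gb)) :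
    ∃ s, φ = RR r i j s := by
  obtain ⟨x, hx⟩ := root_of_prim (prim_ne e) (Commute.refl r) e (comm_fix h hc ga)
  obtain ⟨y, hy⟩ := root_of_prim (prim_ne e) (Commute.refl r) e (comm_fix h hc gb)
  have h1 : φ r = φ ga ^ ea r * φ gb ^ eb r := comm_form φ hc r
  rw [h, hx, hy, ← zpow_mul, ← zpow_mul, ← zpow_add] at h1
  have h2 : (1 : ℤ) = x * ea r + y * eb r := zpow_inj' (prim_ne e) ((zpow_one r).trans h1)
  refine ⟨i * y - j * x, extE ?_ ?_⟩
  · rw [hx, RR, mkE_a]; congr 1; grind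
  · rw [hy, RR, mkE_b]; congr 1; grind

end

def IsBall (n : ℕ) (B : List F2) : Prop :=
  1 ∈ B ∧ ∀ z ∈ B, ∀ t ∈ [ga, ga⁻¹, gb, gb⁻¹], n < norm (t * z) ∨ t * z ∈ B

lemma IsBall.mem {n : ℕ} {B : List F2} (h : IsBall n B) (z : F2) : norm z ≤ n → z ∈ B := by
  induction hn : norm z generalizing z with
  | zero => rw [norm_eq_zero.1 hn]; exact fun _ => h.1
  | succ k ih =>
    intro hk
    obtain ⟨t, ht, c⟩ := exists_first (g := z) (by rintro rfl; simp at hn)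
    have h3 := norm_cp t z
    have := h.2 _ (ih (t⁻¹ * z) (by omega) (by omega)) t (by simpa using letter_cases ht)
    rw [mul_inv_cancel_left] at this
    exact this.resolve_left (by omega)

lemma exists_ball (n : ℕ) : ∃ B, IsBall n B := by
  refine ⟨(ball_finite n).toFinset.toList, by simp, fun z _ t _ => ?_⟩
  rw [Finset.mem_toList, Set.Finite.mem_toFinset]
  exact lt_or_ge _ _

def Cyc (u : List F2) (w : F2) (K : ℕ) (T : List (E2 × E2)) (out : List E2) : Prop :=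
  w ∈ u ∧ w ≠ 1 ∧ (∀ x ∈ u, x * w = w * x) ∧ (∀ φ ∈ out, φ w = w) ∧ McC [w] K T out ∧
    ∀ p ∈ T, p.1 w * ga ≠ ga * p.1 w

def YesF (u : List F2) (out : List E2) : Prop :=
  (∀ φ ∈ out, ∀ x ∈ u, φ x = x) ∧
  ((∃ x ∈ u, ∃ y ∈ u, x * y ≠ y * x ∧ ∃ K T, McC u K T out) ∨
    ∃ w K T, Cyc u w K T out ∧
      ((∃ B, IsBall (norm w) B ∧ ∀ z ∈ B, z * w ≠ w * z ∨
          ∃ d : ℕ, d ≠ 1 ∧ ∃ i j : ℤ, ea z = d * i ∧ eb z = d * j) ∨
        ∃ r i j, r * w = w * r ∧ i * ea r + j * eb r = 1 ∧ ∃ χ : E2, χ w = w ∧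
          χ ga * χ gb ≠ χ gb * χ ga ∧ ee r i j χ = 1 ∧ ∃ n : ℕ, n ≠ 0 ∧ tt i j χ = n ∧
            ∀ k ∈ List.range n, RR r i j k ∈ out))

def NoF (u : List F2) : Prop :=
  (∃ γ γ' : E2, γ' * γ = 1 ∧ ∀ x ∈ u, γ x * ga = ga * γ x) ∨
    ∃ w K T out, Cyc u w K T out ∧ ∃ r i j τ, r * w = w * r ∧ i * ea r + j * eb r = 1 ∧
      ∀ χ ∈ out, (ee r i j χ = 1 ∧ tt i j χ = 0) ∨ (ee r i j χ = -1 ∧ tt i j χ = τ)

lemma Cyc.split {u : List F2} {w : F2} {K : ℕ} {T : List (E2 × E2)} {out : List E2}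
    (h : Cyc u w K T out) {φ : E2} (hφ : φ w = w) :
    (φ ∈ G0 ∧ φ ∈ Cl out) ∨ Commute (φ ga) (φ gb) :=
  (turner hφ (h.2.2.2.2.1.nocomm h.2.2.2.2.2)).imp_left fun h1 =>
    ⟨h1, h.2.2.2.2.1.gen h1 (by simpa [mem_St] using hφ)⟩

theorem YesF.sound {u : List F2} {out : List E2} (h : YesF u out) : Cl out = St u := by
  refine le_antisymm (Submonoid.closure_le.2 fun φ hφ => h.1 φ hφ) fun φ hφ => ?_
  rcases h.2 with ⟨x, hx, y, hy, hxy, K, T, hM⟩ | ⟨w, K, T, hC, h2⟩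
  · refine hM.gen (comm_G0 (w := x * y * (y * x)⁻¹) (by rwa [Ne, mul_inv_eq_one]) ?_ ?_ ?_) hφ
    · simp; ring
    · simp; ring
    · simp [hφ x hx, hφ y hy]
  have hw := hφ w hC.1
  refine (hC.split hw).elim (·.2) fun hc => ?_
  rcases h2 with ⟨B, hB, h3⟩ | ⟨r, i, j, h3, e, χ, c1, c2, c3, n, hn, c4, c5⟩
  · exfalso
    obtain ⟨r, r1, r2⟩ := exists_root hC.2.1
    obtain ⟨x, hx⟩ := r2 _ (comm_fix hw hc ga)
    obtain ⟨y, hy⟩ := r2 _ (comm_fix hw hc gb)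
    obtain ⟨k, hk⟩ := r2 w (Commute.refl _)
    have k0 : k ≠ 0 := by rintro rfl; exact hC.2.1 (by simpa using hk)
    have hr : r ≠ 1 := by rintro rfl; exact hC.2.1 (by simpa using hk)
    have h1 : φ r = φ ga ^ ea r * φ gb ^ eb r := comm_form φ hc r
    rw [fix_of_comm hC.2.1 hw r1, hx, hy, ← zpow_mul, ← zpow_mul, ← zpow_add] at h1
    have h2 : (1 : ℤ) = x * ea r + y * eb r := zpow_inj' hr ((zpow_one r).trans h1)
    have h4 := norm_le_pow r (Int.natAbs_ne_zero.2 k0)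
    rw [← norm_zpow, ← hk] at h4
    rcases h3 r (hB.mem r h4) with h5 | ⟨d, hd, i, j, h5, h6⟩
    · exact h5 r1
    · refine hd (Nat.dvd_one.1 (Int.natCast_dvd_natCast.1 ⟨x * i + y * j, ?_⟩))
      rw [h5, h6] at h2
      push_cast; linear_combination h2
  · obtain ⟨s, rfl⟩ := eq_RR e (fix_of_comm hC.2.1 hw h3) hc
    obtain ⟨g1, g2⟩ := (hC.split c1).resolve_right c2
    obtain ⟨χ', g3, g4, g5⟩ := G0_inv g1
    have c1' : χ' w = w := by conv_lhs => rw [← c1, ← mulE, g4, oneE]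
    have g6 := hC.2.2.2.2.1.gen g3 (by simpa [mem_St] using c1')
    have f1 := fix_of_comm hC.2.1 c1 h3
    have f2 := fix_of_comm hC.2.1 c1' h3
    have m := te_mul e f2 χ
    rw [g4, (te_one e).1, (te_one e).2, c3, c4] at m
    have key : ∀ q : ℤ, RR r i j (s % n + q * n) ∈ Cl out := by
      intro q
      induction q using Int.induction_on with
      | zero =>
        have h0 : (n : ℤ) ≠ 0 := by exact_mod_cast hn
        have h1 := Int.emod_nonneg s h0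
        have h2 := Int.emod_lt_of_pos s (show (0 : ℤ) < n by omega)
        have := c5 (s % n).toNat (by rw [List.mem_range]; omega)
        rw [Int.toNat_of_nonneg h1] at this
        simpa using mem_Cl this
      | succ q ih =>
        have := Submonoid.mul_mem _ ih g2
        rw [RR_mul e f1, c3, c4] at this
        convert this using 2; ring
      | pred q ih =>
        have := Submonoid.mul_mem _ ih g6
        rw [RR_mul e f2, show ee r i j χ' = 1 by omega, show tt i j χ' = -n by omega] at this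
        convert this using 2; ring
    have := key (s / n)
    rwa [Int.emod_add_ediv_mul] at this

def chi2 : E2 →* ℤ where
  toFun φ := ea (φ ga) * eb (φ gb) - ea (φ gb) * eb (φ ga)
  map_one' := by simp
  map_mul' φ ψ := by
    simp only [mulE, ea_map φ (ψ ga), ea_map φ (ψ gb), eb_map φ (ψ ga), eb_map φ (ψ gb)]; ring

theorem NoF.sound {u : List F2} (h : NoF u) : ¬ (St u).FG := by
  rcases h with ⟨γ, γ', h1, h2⟩ | ⟨w, K, T, out, hC, r, i, j, τ, h3, e, h4⟩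
  · refine not_fg_of_primes _ chi2 fun N => ?_
    obtain ⟨p, hN, hp⟩ := Nat.exists_infinite_primes (N + 1)
    refine ⟨p, hp, hN, γ' * mkE ga (gb ^ (p : ℤ)) * γ, fun x hx => ?_, ?_⟩
    · obtain ⟨k, hk⟩ := comm_a (h2 x hx)
      rw [mulE, mulE, hk, map_zpow, mkE_a, ← hk, ← mulE, h1, oneE]
    · have : chi2 (mkE ga (gb ^ (p : ℤ))) = p := by simp [chi2, -zpow_natCast]
      rw [map_mul, map_mul, this, mul_right_comm, ← map_mul, h1, map_one, one_mul]
  rintro ⟨S, hS⟩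
  have fx : ∀ φ : E2, φ w = w → φ r = r := fun φ h => fix_of_comm hC.2.1 h h3
  have k1 : ∀ φ ∈ Cl out, φ w = w ∧
      ((ee r i j φ = 1 ∧ tt i j φ = 0) ∨ (ee r i j φ = -1 ∧ tt i j φ = τ)) := by
    intro φ hφ
    induction hφ using Submonoid.closure_induction with
    | mem x hx => exact ⟨hC.2.2.2.1 x hx, h4 x hx⟩
    | one => exact ⟨rfl, Or.inl (te_one e).symm⟩
    | mul x y _ _ hx hy =>
      refine ⟨by rw [mulE, hy.1, hx.1], ?_⟩
      rw [(te_mul e (fx x hx.1) y).1, (te_mul e (fx x hx.1) y).2]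
      rcases hx.2 with ⟨a1, a2⟩ | ⟨a1, a2⟩ <;> rcases hy.2 with ⟨b1, b2⟩ | ⟨b1, b2⟩ <;>
        simp [a1, a2, b1, b2]
  set C := S.sup fun φ => (2 * tt i j φ - τ).natAbs
  have k2 : ∀ φ ∈ Submonoid.closure (S : Set E2),
      (ee r i j φ = 1 ∧ tt i j φ = 0) ∨ (ee r i j φ = -1 ∧ tt i j φ = τ) ∨
        (ee r i j φ = 0 ∧ (2 * tt i j φ - τ).natAbs ≤ C) := by
    intro φ hφ
    induction hφ using Submonoid.closure_induction with
    | mem x hx =>
      have hw : x w = w := (hS ▸ Submonoid.subset_closure hx : x ∈ St u) w hC.1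
      rcases hC.split hw with h | h
      · exact (k1 x h.2).2.imp_right Or.inl
      · obtain ⟨s, hs⟩ := eq_RR e (fx x hw) h
        exact Or.inr (Or.inr ⟨hs ▸ (te_RR e s).2,
          Finset.le_sup (f := fun φ => (2 * tt i j φ - τ).natAbs) hx⟩)
    | one => exact Or.inl (te_one e).symm
    | mul x y hx' _ hx hy =>
      have hw : x w = w := (hS ▸ hx' : x ∈ St u) w hC.1
      rw [(te_mul e (fx x hw) y).1, (te_mul e (fx x hw) y).2]
      rcases hx with ⟨a1, a2⟩ | ⟨a1, a2⟩ | ⟨a1, a2⟩ <;>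
        rcases hy with ⟨b1, b2⟩ | ⟨b1, b2⟩ | ⟨b1, b2⟩ <;> rw [a1, b1] <;> omega
  have := k2 (RR r i j (C + τ.natAbs + 1)) (hS ▸ fun x hx => by
    obtain ⟨k, rfl⟩ := root_of_prim hC.2.1 h3 e (hC.2.2.1 x hx)
    rw [map_zpow, RR_fix e])
  rw [(te_RR e _).1, (te_RR e _).2] at this
  omega

theorem free_complete (u : List F2) : NoF u ∨ ∃ out, YesF u out := by
  by_cases h1 : ∃ x ∈ u, ∃ y ∈ u, x * y ≠ y * x
  · obtain ⟨x, hx, y, hy, h⟩ := h1
    obtain ⟨K, T, out, h2, h3, -⟩ := mc_complete u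
    exact Or.inr ⟨out, fun φ hφ => (h3 φ hφ).1, Or.inl ⟨x, hx, y, hy, h, K, T, h2⟩⟩
  push Not at h1
  by_cases h2 : ∀ x ∈ u, x = 1
  · exact Or.inl (Or.inl ⟨1, 1, mul_one _, fun x hx => by simp [h2 x hx]⟩)
  push Not at h2
  obtain ⟨w, hw, w1⟩ := h2
  by_cases h3 : ∃ γ ∈ G0, Commute (γ w) ga
  · obtain ⟨γ, hγ, hc⟩ := h3
    obtain ⟨γ', -, h4, -⟩ := G0_inv hγ
    refine Or.inl (Or.inl ⟨γ, γ', h4, fun x hx => comm_trans (w := γ w) ?_ ?_ hc.symm⟩)
    · exact fun h => w1 (G0_inj hγ (h.trans (map_one γ).symm))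
    · exact Commute.map (h1 x hx w hw) γ
  push Not at h3
  obtain ⟨K, T, out, h4, h5, h6⟩ := mc_complete [w]
  have h7 : ∀ φ ∈ out, φ w = w := fun φ hφ => (h5 φ hφ).1 w (by simp)
  have hC : Cyc u w K T out :=
    ⟨hw, w1, fun x hx => h1 x hx w hw, h7, h4, fun p hp => h3 _ (h6 p hp)⟩
  have fu : ∀ φ : E2, φ w = w → ∀ x ∈ u, φ x = x := fun φ h x hx =>
    fix_of_comm w1 h (h1 x hx w hw)
  by_cases h8 : ∃ r i j, r * w = w * r ∧ i * ea r + j * eb r = 1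
  swap
  · obtain ⟨B, hB⟩ := exists_ball (norm w)
    refine Or.inr ⟨out, fun φ hφ => fu φ (h7 φ hφ), Or.inr ⟨w, K, T, hC, Or.inl ⟨B, hB, fun z _ =>
      or_iff_not_imp_left.2 fun hz => ⟨Int.gcd (ea z) (eb z), fun hd => h8
        ⟨z, Int.gcdA (ea z) (eb z), Int.gcdB (ea z) (eb z), not_not.1 hz, ?_⟩, ?_⟩⟩⟩⟩
    · have := Int.gcd_eq_gcd_ab (ea z) (eb z)
      rw [hd] at this
      push_cast at this
      linear_combination -this
    · obtain ⟨i, hi⟩ := Int.gcd_dvd_left (ea z) (eb z)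
      obtain ⟨j, hj⟩ := Int.gcd_dvd_right (ea z) (eb z)
      exact ⟨i, j, hi, hj⟩
  obtain ⟨r, i, j, c, e⟩ := h8
  have fx : ∀ φ : E2, φ w = w → φ r = r := fun φ h => fix_of_comm w1 h c
  have inv : ∀ χ ∈ G0, χ w = w → ∃ χ' ∈ G0, χ' w = w ∧ 0 = tt i j χ + ee r i j χ * tt i j χ' ∧
      1 = ee r i j χ * ee r i j χ' := fun χ g1 c1 => by
    obtain ⟨χ', g3, g4, -⟩ := G0_inv g1
    have c1' : χ' w = w := by conv_lhs => rw [← c1, ← mulE, g4, oneE]
    have m := te_mul e (fx _ c1') χ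
    rw [g4, (te_one e).1, (te_one e).2] at m
    exact ⟨χ', g3, c1', m⟩
  by_cases h9 : ∃ χ ∈ G0, χ w = w ∧ ee r i j χ = 1 ∧ 0 < tt i j χ
  · obtain ⟨χ, g1, c1, c2, c3⟩ := h9
    have rw' : ∀ s, RR r i j s w = w := fun s =>
      fix_of_comm (prim_ne e) (RR_fix e s) (Commute.symm c)
    have o : ∀ φ ∈ out ++ (List.range (tt i j χ).toNat).map fun k : ℕ => RR r i j k, φ w = w := by
      intro φ hφ
      rcases List.mem_append.1 hφ with h | h
      · exact h7 φ h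
      · obtain ⟨k, -, rfl⟩ := List.mem_map.1 h
        exact rw' k
    refine Or.inr ⟨_, fun φ hφ => fu φ (o φ hφ), Or.inr ⟨w, K, T, ⟨hw, w1, hC.2.2.1, o,
      h4.mono fun φ => List.mem_append_left _, hC.2.2.2.2.2⟩, Or.inr ⟨r, i, j, c, e, χ, c1, ?_, c2,
        (tt i j χ).toNat, by omega, by omega,
          fun k hk => List.mem_append_right _ (List.mem_map_of_mem hk)⟩⟩⟩
    intro h
    rw [← map_mul, ← map_mul] at h
    obtain ⟨k, hk⟩ := comm_a (g := gb) (G0_inj g1 h).symm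
    simpa using congrArg eb hk
  have z : ∀ χ ∈ G0, χ w = w → ee r i j χ = 1 → tt i j χ = 0 := fun χ g1 c1 c2 => by
    obtain ⟨χ', g3, c3, m1, m2⟩ := inv χ g1 c1
    rw [c2] at m1 m2
    rcases lt_trichotomy (tt i j χ) 0 with h | h | h
    · exact absurd ⟨χ', g3, c3, by omega, by omega⟩ h9
    · exact h
    · exact absurd ⟨χ, g1, c1, c2, h⟩ h9
  have z' : ∃ τ, ∀ χ ∈ G0, χ w = w → ee r i j χ = -1 → tt i j χ = τ := by
    by_cases h : ∃ χ ∈ G0, χ w = w ∧ ee r i j χ = -1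
    · obtain ⟨χ1, g1, c1, c2⟩ := h
      refine ⟨tt i j χ1, fun χ g2 c3 c4 => ?_⟩
      have m := te_mul e (fx χ c3) χ1
      rw [c2, c4] at m
      have := z _ (G0.mul_mem g2 g1) (by rw [mulE, c1, c3]) (by omega)
      omega
    · exact ⟨0, fun χ g c1 c2 => absurd ⟨χ, g, c1, c2⟩ h⟩
  obtain ⟨τ, hτ⟩ := z'
  refine Or.inl (Or.inr ⟨w, K, T, out, hC, r, i, j, τ, c, e, fun χ hχ => ?_⟩)
  obtain ⟨χ', -, -, -, m⟩ := inv χ (h5 χ hχ).2 (h7 χ hχ)
  rcases Int.eq_one_or_neg_one_of_mul_eq_one m.symm with h | h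
  · exact Or.inl ⟨h, z χ (h5 χ hχ).2 (h7 χ hχ) h⟩
  · exact Or.inr ⟨h, hτ χ (h5 χ hχ).2 (h7 χ hχ) h⟩

end Pool.Agent.Lib.MP_d96856_al.R2
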