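import Mathlib
import Pool.Agent.Lib.MP_d96856_al.R2Free

namespace Pool.Agent.Lib.MP_d96856_al.R2

open FreeGroup hiding map_mul map_one map_inv

variable {m : ℕ}

def HH (l : List (GG m 2)) : Subgroup (GG m 2) := Subgroup.closure {g | g ∈ l}

lemma mem_eStab_closure {G : Type} [Group G] {s : Set G} {Ψ : Monoid.End G} :
    Ψ ∈ eStab (Subgroup.closure s) ↔ ∀ g ∈ s, Ψ g = g :=
  ⟨fun h g hg => h g (Subgroup.subset_closure hg), fun h _ hg =>
    MonoidHom.eqOn_closure (f := Ψ) (g := MonoidHom.id G) h hg⟩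

lemma eStab_snd (l : List (GG m 2)) :
    eStab ((HH l).map (MonoidHom.snd _ _)) = St (l.map Prod.snd) := by
  ext φ
  rw [HH, MonoidHom.map_closure, mem_eStab_closure, mem_St]
  simp

def MemH (l : List (GG m 2)) (g : GG m 2) : Prop :=
  ∃ L : List (GG m 2), (∀ x ∈ L, x ∈ l ∨ x⁻¹ ∈ l) ∧ L.prod = g

lemma memH_iff {l : List (GG m 2)} {g : GG m 2} : MemH l g ↔ g ∈ HH l := by
  constructor
  · rintro ⟨L, h, rfl⟩
    exact Subgroup.list_prod_mem _ fun x hx => (h x hx).elim (fun h => Subgroup.subset_closure h)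
      fun h => (Subgroup.inv_mem_iff _).1 (Subgroup.subset_closure h)
  · intro hg
    induction hg using Subgroup.closure_induction with
    | mem x hx => exact ⟨[x], by simpa using Or.inl hx, by simp⟩
    | one => exact ⟨[], by simp, rfl⟩
    | mul x y _ _ hx hy =>
      obtain ⟨L, h1, rfl⟩ := hx
      obtain ⟨M, h2, rfl⟩ := hy
      exact ⟨L ++ M, fun z hz => (List.mem_append.1 hz).elim (h1 z) (h2 z), List.prod_append⟩
    | inv x _ hx =>
      obtain ⟨L, h1, rfl⟩ := hx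
      refine ⟨(L.map fun x => x⁻¹).reverse, fun z hz => ?_, (List.prod_inv_reverse L).symm⟩
      obtain ⟨y, hy, rfl⟩ := List.mem_map.1 (List.mem_reverse.1 hz)
      rw [inv_inv]; exact (h1 y hy).symm

def cz (k : Fin m) (g : GG m 2) : ℤ := g.1.toAdd k
def dot (κ g : GG m 2) : ℤ := ∑ k, cz k κ * cz k g
def eb1 (k : Fin m) : AA m := Multiplicative.ofAdd (Pi.single k 1)
def te (k : Fin m) : GG m 2 := (eb1 k, 1)

lemma fst_eq {g h : GG m 2} {N : ℕ} (H : ∀ k, cz k h = N * cz k g) : h.1 = g.1 ^ N := by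
  apply Multiplicative.toAdd.injective
  ext k
  simpa [cz] using H k

def dotH (κ : GG m 2) : AA m →* Multiplicative ℤ where
  toFun t := Multiplicative.ofAdd (dot κ (t, 1))
  map_one' := by simp [dot, cz]
  map_mul' t s := by simp [dot, cz, mul_add, Finset.sum_add_distrib, ofAdd_add]

lemma dotH_apply (κ g : GG m 2) : (dotH κ g.1).toAdd = dot κ g := rfl

lemma dotH_e (κ : GG m 2) (k : Fin m) : (dotH κ (eb1 k)).toAdd = cz k κ := by
  simp [dotH, dot, cz, eb1, Pi.single_apply]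

lemma sub_top (K : Subgroup (AA m)) (h : ∀ k, eb1 k ∈ K) (t : AA m) : t ∈ K := by
  have := expandA (MonoidHom.id _) t
  rw [MonoidHom.id_apply] at this
  rw [this]
  exact K.prod_mem fun k _ => K.zpow_mem (h k) _

def CondS (l : List (GG m 2)) : Prop :=
  ∀ k, ∃ h, MemH l h ∧ ea h.2 = 0 ∧ eb h.2 = 0 ∧ ∃ N : ℕ, N ≠ 0 ∧ ∀ k', cz k' h = N * cz k' (te k)

lemma mem_comm2 (u : F2) : u ∈ commutator F2 ↔ ea u = 0 ∧ eb u = 0 := by
  rw [mem_comm_iff, Fin.forall_fin_two]; rfl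

lemma condS_iff {l : List (GG m 2)} : CondS l ↔ Cond (HH l) := by
  constructor
  · intro h
    refine sub_top
      { carrier := {t | ∃ N : ℕ, 0 < N ∧ ∃ u ∈ commutator F2, (t ^ N, u) ∈ HH l}
        one_mem' := ⟨1, one_pos, 1, Subgroup.one_mem _, by rw [one_pow]; exact Subgroup.one_mem _⟩
        mul_mem' := ?_
        inv_mem' := ?_ } fun k => ?_
    · rintro t s ⟨N, hN, u, hu, h1⟩ ⟨M, hM, v, hv, h2⟩
      refine ⟨N * M, by positivity, u ^ M * v ^ N,
        Subgroup.mul_mem _ (Subgroup.pow_mem _ hu _) (Subgroup.pow_mem _ hv _), ?_⟩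
      have := Subgroup.mul_mem _ (Subgroup.pow_mem _ h1 M) (Subgroup.pow_mem _ h2 N)
      rwa [Prod.pow_mk, Prod.pow_mk, Prod.mk_mul_mk, ← pow_mul, ← pow_mul, mul_comm M, ← mul_pow]
        at this
    · rintro t ⟨N, hN, u, hu, h1⟩
      exact ⟨N, hN, u⁻¹, Subgroup.inv_mem _ hu, by simpa using Subgroup.inv_mem _ h1⟩
    · obtain ⟨g, h1, h2, h3, N, hN, h4⟩ := h k
      refine ⟨N, Nat.pos_of_ne_zero hN, g.2, (mem_comm2 _).2 ⟨h2, h3⟩, ?_⟩
      rw [show eb1 k ^ N = g.1 from (fst_eq h4).symm]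
      exact memH_iff.1 h1
  · intro h k
    obtain ⟨N, hN, u, hu, h1⟩ := h (eb1 k)
    exact ⟨_, memH_iff.2 h1, ((mem_comm2 _).1 hu).1, ((mem_comm2 _).1 hu).2, N, hN.ne',
      fun k' => by simp [cz, te]⟩

def N1 (l : List (GG m 2)) : Prop :=
  ∃ (κ : GG m 2) (i j : ℤ), (∀ g ∈ l, dot κ g + fa i j g.2 = 0) ∧ ∃ k, cz k κ ≠ 0

lemma N1.sound {l : List (GG m 2)} (h : N1 l) : ¬ Cond (HH l) := by
  obtain ⟨κ, i, j, h1, k, hk⟩ := h
  intro hc
  have key : ∀ g ∈ HH l, (dotH κ g.1).toAdd + fa i j g.2 = 0 := by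
    intro g hg
    induction hg using Subgroup.closure_induction with
    | mem x hx => exact h1 x hx
    | one => simp [fa]
    | mul x y _ _ hx hy => simp [fa] at hx hy ⊢; linear_combination hx + hy
    | inv x _ hx => simp [fa] at hx ⊢; linear_combination -hx
  obtain ⟨N, hN, u, hu, h2⟩ := hc (eb1 k)
  have := key _ h2
  simp [fa, (mem_comm2 u).1 hu, dotH_e, hk, hN.ne'] at this

lemma N1.complete {l : List (GG m 2)} (h : ¬ Cond (HH l)) : N1 l := by
  simp only [Cond, not_forall, not_exists, not_and] at h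
  obtain ⟨t, ht⟩ := h
  obtain ⟨f, f1, f2⟩ := exists_fun (HH l) t ht
  have e : ∀ g, (f g).toAdd = dot (Multiplicative.ofAdd fun k => (f (gen (Sum.inl k))).toAdd, 1) g +
      fa (f (gen (Sum.inr 0))).toAdd (f (gen (Sum.inr 1))).toAdd g.2 := fun g => by
    rw [expandZ, Fintype.sum_sum_type, Fin.sum_univ_two]; rfl
  refine ⟨_, _, _, fun g hg => (e g).symm.trans ?_, ?_⟩
  · rw [f1 g (Subgroup.subset_closure hg)]; rfl
  · by_contra hc
    push Not at hc
    apply f2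
    apply Multiplicative.toAdd.injective
    rw [e]
    simp [dot, hc, fa]

def N2 (l : List (GG m 2)) : Prop :=
  ∃ (r : F2) (κ : GG m 2), r ≠ 1 ∧ (∃ k, cz k κ ≠ 0) ∧ ∀ g ∈ l, g.2 = r ^ dot κ g

def zH (r : F2) (κ : GG m 2) : AA m →* F2 := (zpowersHom F2 r).comp (dotH κ)

lemma N2.sound {l : List (GG m 2)} (h : N2 l) : ¬ (eStab (HH l)).FG := by
  obtain ⟨r, κ, hr, ⟨k, hk⟩, h1⟩ := h
  intro hf
  obtain ⟨hc, -, h3⟩ := (main _).1 hf
  have hg : Graph (HH l) (zH r κ) := fun g hg =>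
    MonoidHom.eqOn_closure (f := MonoidHom.snd (AA m) F2)
      (g := (zH r κ).comp (MonoidHom.fst (AA m) F2)) (s := {g | g ∈ l}) (fun x hx => h1 x hx) hg
  have hz : zH r κ (eb1 k) ≠ 1 := fun h => hk (zpow_inj' hr (by
    rw [← dotH_e, zpow_zero]; exact h))
  obtain ⟨S, hS, h4⟩ := h3 ⟨_, fun h => hz (by rw [h]; rfl), hg⟩
  obtain ⟨N, hN, u, hu, h2⟩ := hc (eb1 k)
  have u1 : u ≠ 1 := fun h => hz (by
    have : u = zH r κ (eb1 k ^ N) := hg _ h2
    rw [h, map_pow] at this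
    exact (pow_eq_one_iff_left hN.ne').1 this.symm)
  choose s s1 φ s2 s3 using fun n : ℕ => h4 (coF 0 ^ n)
  have := hS.to_subtype
  obtain ⟨n, n', hn, e⟩ := Finite.exists_ne_map_eq_of_infinite fun n => (⟨s n, s1 n⟩ : S)
  have e' : s n = s n' := congrArg Subtype.val e
  have key : ∀ n n', s n = s n' → n' ∣ n := fun n n' e => by
    obtain ⟨δ, -, -, h5⟩ := G0_inv (comm_G0 u1 ((mem_comm2 u).1 hu).1 ((mem_comm2 u).1 hu).2
      (s2 n' u ⟨_, h2, rfl⟩))
    have a1 := DFunLike.congr_fun (s3 n) ga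
    have a2 := DFunLike.congr_fun (s3 n') (δ (φ n ga))
    have a3 : φ n' (δ (φ n ga)) = φ n ga := by rw [← mulE, h5, oneE]
    change _ = s n (φ n ga) at a1
    change _ = s n' (φ n' (δ (φ n ga))) at a2
    rw [a3, ← e, ← a1] at a2
    have a4 : (n' : ℤ) * ea (δ (φ n ga)) = n * ea ga := by
      simpa [ea] using congrArg Multiplicative.toAdd a2
    exact Int.natCast_dvd_natCast.1 ⟨_, by rw [a4]; simp⟩
  exact hn (Nat.dvd_antisymm (key _ _ e'.symm) (key _ _ e'))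

def NG (l : List (GG m 2)) : Prop :=
  ∃ h, MemH l h ∧ (((∀ k, cz k h = 0) ∧ h.2 ≠ 1) ∨ ∃ N : ℕ, N ≠ 0 ∧
    (∃ g : GG m 2, ∀ k, cz k h = N * cz k g) ∧ ∃ B, IsBall (norm h.2) B ∧ ∀ y ∈ B, y ^ N ≠ h.2)

lemma NG.sound {l : List (GG m 2)} (h : NG l) (z : AA m →* F2) : ¬ Graph (HH l) z := by
  obtain ⟨h, h1, ⟨h2, h3⟩ | ⟨N, hN, ⟨g, h2⟩, B, hB, h3⟩⟩ := h <;> intro hg
  · have := fst_eq (g := h) (h := h) (N := 0) (by simpa using h2)
    exact h3 (by rw [hg h (memH_iff.1 h1), this, pow_zero, map_one])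
  · have : h.2 = z g.1 ^ N := by rw [hg h (memH_iff.1 h1), fst_eq h2, map_pow]
    exact h3 _ (hB.mem _ (this ▸ norm_le_pow _ hN)) this.symm

lemma NG.complete {l : List (GG m 2)} (hc : Cond (HH l)) {g : GG m 2} (hg : g ∈ l) (g1 : g.2 ≠ 1)
    (h : ¬ NG l) : N2 l := by
  have a1 : ∀ h ∈ HH l, h.1 = 1 → h.2 = 1 := fun x hx h1 => by
    by_contra h2
    exact h ⟨x, memH_iff.2 hx, Or.inl ⟨fun k => by simp [cz, h1], h2⟩⟩
  have gH : g ∈ HH l := Subgroup.subset_closure hg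
  obtain ⟨r, -, hr⟩ := exists_root g1
  have a2 : ∀ k, ∃ c : ℤ, ∃ N : ℕ, 0 < N ∧ (eb1 k, r ^ c) ^ N ∈ HH l := fun k => by
    obtain ⟨N, hN, u, -, h1⟩ := hc (eb1 k)
    obtain ⟨B, hB⟩ := exists_ball (norm u)
    obtain ⟨y, rfl⟩ : ∃ y, y ^ N = u := by
      by_contra h2
      exact h ⟨_, memH_iff.2 h1, Or.inr ⟨N, hN.ne', ⟨te k, fun k' => by simp [cz, te]⟩, B, hB,
        fun y _ hy => h2 ⟨y, hy⟩⟩⟩
    have c : Commute g.2 (y ^ N) := by
      have := a1 _ (Subgroup.mul_mem _ (Subgroup.mul_mem _ gH h1)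
        (Subgroup.inv_mem _ (Subgroup.mul_mem _ h1 gH))) (mul_inv_eq_one.2 (mul_comm _ _))
      exact mul_inv_eq_one.1 this
    have c' : Commute y g.2 := by
      by_cases y1 : y = 1
      · rw [y1]; exact Commute.one_left _
      · exact comm_trans (fun h => y1 ((pow_eq_one_iff_left hN.ne').1 h)) (Commute.self_pow y N) c
    obtain ⟨d, rfl⟩ := hr y c'
    exact ⟨d, N, hN, h1⟩
  choose c hc using a2
  set κ : GG m 2 := (Multiplicative.ofAdd c, 1)
  let ζ : AA m →* GG m 2 := (MonoidHom.id _).prod (zH r κ)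
  have a3 : ∀ t, ∃ N : ℕ, 0 < N ∧ ζ t ^ N ∈ HH l := by
    refine sub_top
      { carrier := {t | ∃ N : ℕ, 0 < N ∧ ζ t ^ N ∈ HH l}
        one_mem' := ⟨1, one_pos, by simp⟩
        mul_mem' := ?_
        inv_mem' := ?_ } fun k => ?_
    · rintro t s ⟨N, hN, h1⟩ ⟨M, hM, h2⟩
      refine ⟨N * M, by positivity, ?_⟩
      have := Subgroup.mul_mem _ (Subgroup.pow_mem _ h1 M) (Subgroup.pow_mem _ h2 N)
      rwa [← pow_mul, ← pow_mul, mul_comm M, ← map_pow, ← map_pow, ← map_mul, ← mul_pow, map_pow]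
        at this
    · rintro t ⟨N, hN, h1⟩
      exact ⟨N, hN, by simpa using h1⟩
    · have : ζ (eb1 k) = (eb1 k, r ^ c k) := by
        change (eb1 k, r ^ (dotH κ (eb1 k)).toAdd) = _
        rw [dotH_e]; rfl
      change ∃ N : ℕ, 0 < N ∧ ζ (eb1 k) ^ N ∈ HH l
      rw [this]; exact hc k
  have a4 : ∀ x ∈ l, x.2 = r ^ dot κ x := fun x hx => by
    obtain ⟨N, hN, h1⟩ := a3 x.1
    have hx' : x ∈ HH l := Subgroup.subset_closure hx
    have := a1 _ (Subgroup.mul_mem _ (Subgroup.pow_mem _ hx' N)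
      (Subgroup.inv_mem _ h1)) (by simp [ζ])
    exact pow_left_injective hN.ne' (mul_inv_eq_one.1 this)
  refine ⟨r, κ, ?_, ?_, a4⟩
  · rintro rfl
    exact g1 (by simpa using a4 g hg)
  · by_contra h0
    push Not at h0
    exact g1 (by simpa [dot, h0] using a4 g hg)

def Kill (u : List F2) (β : ℤ × ℤ) : Prop := ∀ x ∈ u, fa β.1 β.2 x = 0

def AnnC (u : List F2) (Bs : List (ℤ × ℤ)) : Prop :=
  ((1, 0) ∈ Bs ∧ (-1, 0) ∈ Bs ∧ (0, 1) ∈ Bs ∧ (0, -1) ∈ Bs) ∨
  (∃ x ∈ u, ∃ k p q s t : ℤ, k ≠ 0 ∧ ea x = k * p ∧ eb x = k * q ∧ s * p + t * q = 1 ∧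
    (-q, p) ∈ Bs ∧ (q, -p) ∈ Bs) ∨ ∃ x ∈ u, ∃ y ∈ u, ea x * eb y ≠ ea y * eb x

lemma zsmul_mem_cl {S : AddSubmonoid (ℤ × ℤ)} {β : ℤ × ℤ} (h : β ∈ S) (h' : -β ∈ S) (k : ℤ) :
    k • β ∈ S := by
  rcases Int.natAbs_eq k with e | e
  · rw [e, natCast_zsmul]; exact S.nsmul_mem h _
  · rw [e, neg_smul, ← smul_neg, natCast_zsmul]; exact S.nsmul_mem h' _

lemma AnnC.sound {u : List F2} {Bs : List (ℤ × ℤ)} (h : AnnC u Bs) {S : AddSubmonoid (ℤ × ℤ)}
    (hS : ∀ β ∈ Bs, β ∈ S) {β : ℤ × ℤ} (hβ : Kill u β) : β ∈ S := by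
  obtain ⟨i, j⟩ := β
  rcases h with ⟨h1, h2, h3, h4⟩ | ⟨x, hx, k, p, q, s, t, k0, h1, h2, h3, h4, h5⟩ | ⟨x, hx, y, hy, h⟩
  · have := S.add_mem (zsmul_mem_cl (hS _ h1) (hS _ h2) i) (zsmul_mem_cl (hS _ h3) (hS _ h4) j)
    simpa using this
  · have h6 := hβ x hx
    simp only [fa, h1, h2] at h6
    have h7 : i * p + j * q = 0 := mul_left_cancel₀ k0 (by linear_combination h6)
    have := zsmul_mem_cl (hS _ h4) (hS _ (by simpa using h5)) (s * j - t * i)
    convert this using 1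
    ext <;> simp <;> grind
  · have h1 := hβ x hx
    have h2 := hβ y hy
    simp only [fa] at h1 h2
    have h0 := sub_ne_zero.2 h
    have : i = 0 := mul_left_cancel₀ h0 (by linear_combination eb y * h1 - eb x * h2)
    have : j = 0 := mul_left_cancel₀ h0 (by linear_combination ea x * h2 - ea y * h1)
    subst i j
    exact S.zero_mem

lemma ann_complete (u : List F2) : ∃ Bs, AnnC u Bs ∧ ∀ β ∈ Bs, Kill u β := by
  by_cases h : ∃ x ∈ u, ∃ y ∈ u, ea x * eb y ≠ ea y * eb x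
  · exact ⟨[], Or.inr (Or.inr h), by simp⟩
  push Not at h
  by_cases h' : ∀ x ∈ u, Int.gcd (ea x) (eb x) = 0
  · refine ⟨[(1, 0), (-1, 0), (0, 1), (0, -1)], Or.inl (by simp), fun β _ x hx => ?_⟩
    simp [fa, Int.gcd_eq_zero_iff.1 (h' x hx)]
  push Not at h'
  obtain ⟨x, hx, h0⟩ := h'
  obtain ⟨p, hp⟩ := Int.gcd_dvd_left (ea x) (eb x)
  obtain ⟨q, hq⟩ := Int.gcd_dvd_right (ea x) (eb x)
  have h1 := Int.gcd_eq_gcd_ab (ea x) (eb x)
  have k0 : (Int.gcd (ea x) (eb x) : ℤ) ≠ 0 := by exact_mod_cast h0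
  generalize (Int.gcd (ea x) (eb x) : ℤ) = k at *
  have h2 : ∀ y ∈ u, p * eb y = ea y * q := fun y hy =>
    mul_left_cancel₀ k0 (by have := h x hx y hy; rw [hp, hq] at this; linear_combination this)
  refine ⟨[(-q, p), (q, -p)], Or.inr (Or.inl ⟨x, hx, k, p, q, Int.gcdA (ea x) (eb x),
    Int.gcdB (ea x) (eb x), k0, hp, hq, mul_left_cancel₀ k0 ?_, by simp, by simp⟩), fun β hβ y hy => ?_⟩
  · linear_combination -h1 - Int.gcdA (ea x) (eb x) * hp - Int.gcdB (ea x) (eb x) * hq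
  · have := h2 y hy
    simp only [List.mem_cons, List.not_mem_nil, or_false] at hβ
    rcases hβ with rfl | rfl <;> simp only [fa] <;> linarith

/-- the endomorphism that fixes the central factor and has given values on the free letters -/
def EE (p : GG m 2 × GG m 2) : Monoid.End (GG m 2) :=
  liftE (mkE p.1.2 p.2.2) * shear (FreeGroup.lift ![p.1.1, p.2.1])

lemma lift_form (x y : AA m) (g : F2) : FreeGroup.lift ![x, y] g = x ^ ea g * y ^ eb g := by
  rw [comm_form _ (Commute.all _ _)]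
  simp [ga, gb]

lemma EE_apply (p : GG m 2 × GG m 2) (g : GG m 2) :
    EE p g = (g.1 * (p.1.1 ^ ea g.2 * p.2.1 ^ eb g.2), mkE p.1.2 p.2.2 g.2) := by
  rw [← lift_form]; rfl

def FixE (p : GG m 2 × GG m 2) (g : GG m 2) : Prop :=
  (∀ k, ea g.2 * cz k p.1 + eb g.2 * cz k p.2 = 0) ∧ mkE p.1.2 p.2.2 g.2 = g.2

lemma fixE_iff {p : GG m 2 × GG m 2} {g : GG m 2} : FixE p g ↔ EE p g = g := by
  rw [EE_apply, Prod.ext_iff, mul_eq_left, FixE]
  refine and_congr_left' ?_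
  rw [← Multiplicative.toAdd.injective.eq_iff, funext_iff]
  simp [cz]

def inr2 (u : F2) : GG m 2 := (1, u)

def YesG (l : List (GG m 2)) (o : List (GG m 2 × GG m 2)) : Prop :=
  CondS l ∧ NG l ∧ (∀ p ∈ o, ∀ g ∈ l, FixE p g) ∧
    (∃ out, YesF (l.map Prod.snd) out ∧ ∀ φ ∈ out, (inr2 (φ ga), inr2 (φ gb)) ∈ o) ∧
    ∃ Bs, AnnC (l.map Prod.snd) Bs ∧
      ∀ β ∈ Bs, ∀ k, (te k ^ β.1 * inr2 ga, te k ^ β.2 * inr2 gb) ∈ o

def NoG (l : List (GG m 2)) : Prop := N1 l ∨ N2 l ∨ NoF (l.map Prod.snd)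

theorem NoG.sound {l : List (GG m 2)} (h : NoG l) : ¬ (eStab (HH l)).FG := by
  rcases h with h | h | h
  · exact fun hf => h.sound (cond_of_fg _ hf)
  · exact h.sound
  · exact fun hf => h.sound (eStab_snd l ▸ ((main _).1 hf).2.1)

def sh (k : Fin m) (β : ℤ × ℤ) : F2 →* AA m := FreeGroup.lift ![eb1 k ^ β.1, eb1 k ^ β.2]

lemma hom_ext2 {P Q : F2 →* AA m} (h1 : P ga = Q ga) (h2 : P gb = Q gb) : P = Q := by
  apply FreeGroup.ext_hom
  intro i
  fin_cases i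
  exacts [h1, h2]

theorem YesG.sound {l : List (GG m 2)} {o : List (GG m 2 × GG m 2)} (h : YesG l o) :
    Submonoid.closure {Ψ | Ψ ∈ o.map EE} = eStab (HH l) := by
  obtain ⟨h1, h2, h3, ⟨out, h4, h5⟩, Bs, h6, h7⟩ := h
  have hH := condS_iff.1 h1
  refine le_antisymm (Submonoid.closure_le.2 fun Ψ hΨ => ?_) fun Ψ hΨ => ?_
  · obtain ⟨p, hp, rfl⟩ := List.mem_map.1 hΨ
    exact mem_eStab_closure.2 fun g hg => fixE_iff.1 (h3 p hp g hg)
  set C := Submonoid.closure {Ψ | Ψ ∈ o.map (EE (m := m))}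
  have z1 : cZ Ψ = 1 := by
    by_contra hz
    exact h2.sound _ (typeII_graph centralizer_cyclic comm_root hH hΨ hz)
  have e : Ψ = liftE (cF Ψ) * shear (cP Ψ) := by
    apply MonoidHom.ext; rintro ⟨a, u⟩
    have := apply_eq Ψ a u
    rw [cQ_id hH hΨ, z1] at this
    exact this.trans (by simp; rfl)
  rw [e]
  refine C.mul_mem ?_ ?_
  · have : cF Ψ ∈ Cl out := by rw [h4.sound, ← eStab_snd]; exact typeI_mem hΨ z1
    refine (Submonoid.closure_le (S := C.comap liftE)).2 (fun φ hφ => ?_) this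
    refine Submonoid.subset_closure (List.mem_map.2 ⟨_, h5 φ hφ, ?_⟩)
    have e1 : mkE (φ ga) (φ gb) = φ := extE (by simp) (by simp)
    apply MonoidHom.ext; intro g
    change EE _ g = _
    rw [EE_apply]
    simp [inr2, e1]; rfl
  · have p1 : ∀ g ∈ l, cP Ψ g.2 = 1 := by
      rintro ⟨a, u⟩ h
      have := congrArg Prod.fst ((apply_eq Ψ _ _).symm.trans (hΨ _ (Subgroup.subset_closure h)))
      rw [cQ_id hH hΨ] at this
      simpa using this
    have e2 : cP Ψ = ∏ k, sh k ((cP Ψ ga).toAdd k, (cP Ψ gb).toAdd k) := by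
      refine hom_ext2 ?_ ?_
      · rw [MonoidHom.finsetProd_apply]
        simpa [sh, ga, eb1] using expandA (MonoidHom.id _) (cP Ψ ga)
      · rw [MonoidHom.finsetProd_apply]
        simpa [sh, gb, eb1] using expandA (MonoidHom.id _) (cP Ψ gb)
    rw [e2]
    refine (C.comap shear).prod_mem fun k _ => ?_
    refine h6.sound (S :=
      { carrier := {β | shear (sh k β) ∈ C}
        zero_mem' := ?_
        add_mem' := ?_ }) (fun β hβ => ?_) ?_
    · intro β β' b1 b2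
      have : sh k (β + β') = sh k β * sh k β' :=
        hom_ext2 (by simp [sh, ga, zpow_add]) (by simp [sh, gb, zpow_add])
      change shear (sh k (β + β')) ∈ C
      rw [this, map_mul]; exact C.mul_mem b1 b2
    · have : sh k 0 = 1 := hom_ext2 (by simp [sh, ga]) (by simp [sh, gb])
      change shear (sh k 0) ∈ C
      rw [this, map_one]; exact C.one_mem
    · refine Submonoid.subset_closure (List.mem_map.2 ⟨_, h7 β hβ k, ?_⟩)
      have e1 : mkE ga gb = 1 := extE (by simp) (by simp)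
      simp [EE, te, inr2, e1, sh]
    · intro x hx
      obtain ⟨g, hg, rfl⟩ := List.mem_map.1 hx
      have := p1 g hg
      rw [comm_form _ (Commute.all _ _)] at this
      have := congrFun (congrArg Multiplicative.toAdd this) k
      simp only [fa]
      simp at this
      linarith

theorem G_complete (l : List (GG m 2)) : NoG l ∨ ∃ o, YesG l o := by
  by_cases hc : Cond (HH l)
  swap
  · exact Or.inl (Or.inl (N1.complete hc))
  rcases free_complete (l.map Prod.snd) with h | ⟨out, h⟩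
  · exact Or.inl (Or.inr (Or.inr h))
  obtain ⟨x, hx, x1⟩ : ∃ x ∈ l.map Prod.snd, x ≠ 1 := by
    rcases h.2 with ⟨x, hx, y, -, hxy, -⟩ | ⟨w, K, T, hC, -⟩
    · exact ⟨x, hx, by rintro rfl; simp at hxy⟩
    · exact ⟨w, hC.1, hC.2.1⟩
  obtain ⟨g, hg, rfl⟩ := List.mem_map.1 hx
  by_cases hn : NG l
  swap
  · exact Or.inl (Or.inr (Or.inl (NG.complete hc hg x1 hn)))
  obtain ⟨Bs, b1, b2⟩ := ann_complete (l.map Prod.snd)
  refine Or.inr ⟨(out.map fun φ => (inr2 (φ ga), inr2 (φ gb))) ++ Bs.flatMap fun β =>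
    (List.finRange m).map fun k => (te k ^ β.1 * inr2 ga, te k ^ β.2 * inr2 gb), condS_iff.2 hc, hn,
    fun p hp g hg => ?_, ⟨out, h, fun φ hφ => List.mem_append_left _ (List.mem_map_of_mem hφ)⟩,
    Bs, b1, fun β hβ k => List.mem_append_right _
      (List.mem_flatMap.2 ⟨β, hβ, List.mem_map_of_mem (List.mem_finRange k)⟩)⟩
  rcases List.mem_append.1 hp with hp | hp
  · obtain ⟨φ, hφ, rfl⟩ := List.mem_map.1 hp
    have e1 : mkE (φ ga) (φ gb) = φ := extE (by simp) (by simp)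
    exact ⟨fun k => by simp [cz, inr2], by
      simpa [inr2, e1] using h.1 φ hφ _ (List.mem_map_of_mem hg)⟩
  · obtain ⟨β, hβ, hp⟩ := List.mem_flatMap.1 hp
    obtain ⟨k, -, rfl⟩ := List.mem_map.1 hp
    have e1 : mkE ga gb = 1 := extE (by simp) (by simp)
    have := b2 β hβ _ (List.mem_map_of_mem hg)
    refine ⟨fun k' => ?_, by simp [inr2, te, e1]⟩
    simp only [fa] at this
    simp [cz, inr2, te, eb1]
    linear_combination (Pi.single k (1 : ℤ) : Fin m → ℤ) k' * this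

end Pool.Agent.Lib.MP_d96856_al.R2
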