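import Mathlib
import Pool.Agent.Lib.MP_5e3ef6_lc.PR

namespace Pool.Agent.Lib.MP_d96856_al.R2

open Pool.Agent.Lib.MP_5e3ef6_lc

/-- a type whose elements are given by codes -/
class Pres (X : Type) : Type 1 where
  C : Type
  pc : Primcodable C
  val : C → X
  surj : Function.Surjective val

attribute [instance_reducible] Pres.pc
attribute [instance] Pres.pc

open Pres

variable {X Y Z : Type} [Pres X] [Pres Y] [Pres Z]

@[fun_prop]
def Comp (f : X → Y) : Prop := ∃ f' : C X → C Y, PR f' ∧ ∀ c, val (f' c) = f (val c)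

def Sig (p : X → Prop) : Prop :=
  ∃ P : C X × ℕ → Bool, PR P ∧ ∀ c, p (val c) ↔ ∃ n, P (c, n) = true

instance presProd : Pres (X × Y) where
  C := C X × C Y
  pc := inferInstance
  val c := (val c.1, val c.2)
  surj := surj.prodMap surj

instance presList : Pres (List X) where
  C := List (C X)
  pc := inferInstance
  val c := c.map val
  surj := surj.list_map

instance presOption : Pres (Option X) where
  C := Option (C X)
  pc := inferInstance
  val c := c.map val
  surj := by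
    rintro (_ | x)
    · exact ⟨none, rfl⟩
    · obtain ⟨c, rfl⟩ := surj x
      exact ⟨some c, rfl⟩

instance presNat : Pres ℕ where
  C := ℕ
  pc := inferInstance
  val c := c
  surj := Function.surjective_id

instance presInt : Pres ℤ where
  C := ℕ × ℕ
  pc := inferInstance
  val c := (c.1 : ℤ) - c.2
  surj x := ⟨(x.toNat, (-x).toNat), Int.toNat_sub_toNat_neg x⟩

namespace Comp

theorem of_eq {f g : X → Y} (h : Comp f) (H : ∀ a, f a = g a) : Comp g := funext H ▸ h

@[fun_prop] theorem id : Comp fun a : X => a := ⟨_, PR.id, fun _ => rfl⟩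
@[fun_prop] theorem const (b : Y) : Comp fun _ : X => b := by
  obtain ⟨c, rfl⟩ := surj b
  exact ⟨_, PR.const c, fun _ => rfl⟩
@[fun_prop] theorem comp {g : Y → Z} {f : X → Y} (hg : Comp g) (hf : Comp f) :
    Comp fun a => g (f a) := by
  obtain ⟨g', h1, h2⟩ := hg
  obtain ⟨f', h3, h4⟩ := hf
  exact ⟨_, h1.comp h3, fun c => by rw [h2, h4]⟩
@[fun_prop] theorem prodMk {f : X → Y} {g : X → Z} (hf : Comp f) (hg : Comp g) :
    Comp fun a => (f a, g a) := by
  obtain ⟨g', h1, h2⟩ := hg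
  obtain ⟨f', h3, h4⟩ := hf
  exact ⟨_, h3.prodMk h1, fun c => Prod.ext (h4 c) (h2 c)⟩
@[fun_prop] theorem fst {f : X → Y × Z} (hf : Comp f) : Comp fun a => (f a).1 := by
  obtain ⟨f', h3, h4⟩ := hf
  exact ⟨_, PR.fst (β := C Y) (γ := C Z) h3, fun c => congrArg Prod.fst (h4 c)⟩
@[fun_prop] theorem snd {f : X → Y × Z} (hf : Comp f) : Comp fun a => (f a).2 := by
  obtain ⟨f', h3, h4⟩ := hf
  exact ⟨_, PR.snd (β := C Y) (γ := C Z) h3, fun c => congrArg Prod.snd (h4 c)⟩

theorem two {W : Type} [Pres W] {op : Y → Z → W} (h : Comp fun z : Y × Z => op z.1 z.2) {f : X → Y}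
    {g : X → Z} (hf : Comp f) (hg : Comp g) : Comp fun a => op (f a) (g a) :=
  h.comp (hf.prodMk hg)

@[fun_prop] theorem cons {f : X → Y} {g : X → List Y} (hf : Comp f) (hg : Comp g) :
    Comp fun a => f a :: g a := by
  obtain ⟨g', h1, h2⟩ := hg
  obtain ⟨f', h3, h4⟩ := hf
  exact ⟨fun c => List.cons (f' c) (g' c), Primrec.list_cons.comp h3 h1,
    fun c => congrArg₂ List.cons (h4 c) (h2 c)⟩

@[fun_prop] theorem map {f : X → List Y} {g : Y → Z} (hf : Comp f) (hg : Comp g) :
    Comp fun a => (f a).map g := by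
  obtain ⟨g', h1, h2⟩ := hg
  obtain ⟨f', h3, h4⟩ := hf
  refine ⟨fun c => List.map g' (f' c), PR.map (β := C Y) h3 (h1.comp (PR.snd PR.id)), fun c => ?_⟩
  beta_reduce
  rw [← h4]
  change List.map val (List.map g' (f' c)) = List.map g (List.map val (f' c))
  simp [h2]

theorem foldl {f : X → List Y} {g : X → Z} {h : X → Z → Y → Z} (hf : Comp f) (hg : Comp g)
    (hh : Comp fun x : X × Z × Y => h x.1 x.2.1 x.2.2) :
    Comp fun a => (f a).foldl (h a) (g a) := by
  obtain ⟨g', h1, h2⟩ := hg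
  obtain ⟨f', h3, h4⟩ := hf
  obtain ⟨k, h5, h6⟩ := hh
  refine ⟨fun c => List.foldl (fun r y => k (c, r, y)) (g' c) (f' c),
    PR.foldl (β := C Y) (h := fun c r y => k (c, r, y)) h3 h1 h5, fun c => ?_⟩
  beta_reduce
  rw [← h4, ← h2]
  change val (List.foldl _ _ (f' c : List (C Y))) = List.foldl _ _ (List.map val (f' c))
  generalize (f' c : List (C Y)) = L
  generalize g' c = r
  induction L generalizing r with
  | nil => rfl
  | cons y L ih => rw [List.foldl_cons, ih, h6]; rfl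

@[fun_prop] theorem range {f : X → ℕ} (hf : Comp f) : Comp fun a => List.range (f a) := by
  obtain ⟨f', h3, h4⟩ := hf
  exact ⟨fun c => List.range (f' c), PR.range h3, fun c => by
    beta_reduce
    rw [← h4]; exact List.map_id _⟩

@[fun_prop] theorem nmul {f g : X → ℕ} (hf : Comp f) (hg : Comp g) : Comp fun a => f a * g a :=
  two (op := (· * ·)) ⟨fun c : ℕ × ℕ => c.1 * c.2, by fun_prop, fun _ => rfl⟩ hf hg

@[fun_prop] theorem cast {f : X → ℕ} (hf : Comp f) : Comp fun a => (f a : ℤ) :=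
  comp (g := fun n : ℕ => (n : ℤ))
    ⟨fun c : ℕ => ((c, 0) : ℕ × ℕ), by fun_prop, fun _ => sub_zero _⟩ hf

@[fun_prop] theorem zadd {f g : X → ℤ} (hf : Comp f) (hg : Comp g) : Comp fun a => f a + g a :=
  two (op := (· + ·)) ⟨fun c : (ℕ × ℕ) × ℕ × ℕ => ((c.1.1 + c.2.1, c.1.2 + c.2.2) : ℕ × ℕ),
    by fun_prop, fun c => by simp only [val]; push_cast; ring⟩ hf hg

@[fun_prop] theorem zmul {f g : X → ℤ} (hf : Comp f) (hg : Comp g) : Comp fun a => f a * g a :=
  two (op := (· * ·)) ⟨fun c : (ℕ × ℕ) × ℕ × ℕ =>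
    ((c.1.1 * c.2.1 + c.1.2 * c.2.2, c.1.1 * c.2.2 + c.1.2 * c.2.1) : ℕ × ℕ),
    by fun_prop, fun c => by simp only [val]; push_cast; ring⟩ hf hg

@[fun_prop] theorem zneg {f : X → ℤ} (hf : Comp f) : Comp fun a => -f a :=
  comp (g := fun n : ℤ => -n) ⟨fun c : ℕ × ℕ => ((c.2, c.1) : ℕ × ℕ), by fun_prop,
    fun c => by simp only [val]; ring⟩ hf

@[fun_prop] theorem zsub {f g : X → ℤ} (hf : Comp f) (hg : Comp g) : Comp fun a => f a - g a :=
  (hf.zadd hg.zneg).of_eq fun _ => (sub_eq_add_neg _ _).symm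

theorem zsum {ι : Type} (s : Finset ι) {f : ι → X → ℤ} (hf : ∀ i, Comp (f i)) :
    Comp fun a => ∑ i ∈ s, f i a := by
  classical
  induction s using Finset.induction_on with
  | empty => exact const _
  | insert i s hi ih => exact ((hf i).zadd ih).of_eq fun _ => by rw [Finset.sum_insert hi]

section group
variable {G : Type} [Pres G] [Group G] (hm : Comp fun z : G × G => z.1 * z.2)
include hm

theorem lprod {f : X → List G} (hf : Comp f) : Comp fun a => (f a).prod :=
  (foldl (h := fun _ r y => r * y) hf (const 1) (two hm id.snd.fst id.snd.snd)).of_eq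
    fun _ => List.prod_eq_foldl.symm

theorem npow {f : X → G} {g : X → ℕ} (hf : Comp f) (hg : Comp g) : Comp fun a => f a ^ g a := by
  refine (foldl (h := fun a r _ => r * f a) hg.range (const 1)
    (two hm id.snd.fst (hf.comp id.fst))).of_eq fun a => ?_
  induction g a with
  | zero => simp
  | succ n ih => rw [List.range_succ, List.foldl_append, ih, pow_succ]; rfl

theorem zpow (hi : Comp fun z : G => z⁻¹) {f : X → G} {g : X → ℤ} (hf : Comp f) (hg : Comp g) :
    Comp fun a => f a ^ g a := by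
  refine two (op := fun (x : G) (k : ℤ) => x ^ k) ?_ hf hg
  have : Comp fun z : G × ℕ × ℕ => z.1 ^ z.2.1 * (z.1 ^ z.2.2)⁻¹ :=
    two hm (npow hm id.fst id.snd.fst) (hi.comp (npow hm id.fst id.snd.snd))
  obtain ⟨k, h1, h2⟩ := this
  exact ⟨k, h1, fun c => (h2 c).trans (by simp only [val]; rw [zpow_sub, zpow_natCast, zpow_natCast])⟩

end group

end Comp

lemma PR_fin {L A B : Type} [Primcodable L] [Primcodable A] [Primcodable B] [Fintype L] [Inhabited L]
    (c : L → A → B) (h : ∀ x, PR (c x)) : PR fun z : A × L => c z.2 z.1 := by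
  classical
  have : ∀ s : List L, ∃ g : A × L → B, PR g ∧ ∀ x ∈ s, ∀ a, g (a, x) = c x a := by
    intro s
    induction s with
    | nil => exact ⟨fun z => c default z.1, (h _).comp (PR.fst PR.id), by simp⟩
    | cons y s ih =>
      obtain ⟨g, h1, h2⟩ := ih
      refine ⟨fun z => if z.2 = y then c y z.1 else g z,
        PR.ite (PR.dec_eq (PR.snd PR.id) (PR.const y)) ((h _).comp (PR.fst PR.id)) h1,
        fun x hx a => ?_⟩
      by_cases e : x = y
      · simp [e]
      · simp only [e, if_false]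
        exact h2 x ((List.mem_cons.1 hx).resolve_left e) a
  obtain ⟨g, h1, h2⟩ := this Finset.univ.toList
  exact h1.of_eq fun z => h2 _ (by simp) _

/-- groups whose elements are coded by words -/
@[reducible] def wordPres {L W : Type} [Primcodable L] (v : List L → W) (hv : Function.Surjective v) :
    Pres W where
  C := List L
  pc := inferInstance
  val := v
  surj := hv

theorem Comp.word {L W : Type} [Primcodable L] [Fintype L] [Inhabited L] [Monoid W]
    {v : List L → W} {hv : Function.Surjective v} (v1 : v [] = 1)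
    (v2 : ∀ l l', v (l ++ l') = v l * v l') {f : X → W → Y} {op : Y → Y → Y}
    (hop : Comp fun z : Y × Y => op z.1 z.2) (hf : ∀ a g h, f a (g * h) = op (f a g) (f a h))
    (h1 : ∀ g, Comp fun a => f a g) :
    letI := wordPres v hv
    Comp fun z : X × W => f z.1 z.2 := by
  obtain ⟨o, o1, o2⟩ := hop
  choose c c1 c2 using h1
  have c3 := PR_fin (fun x : L => c (v [x])) fun x => c1 _
  refine ⟨fun z : C X × List L => z.2.foldl (fun r x => o (r, c (v [x]) z.1)) (c 1 z.1),
    PR.foldl (h := fun (z : C X × List L) r x => o (r, c (v [x]) z.1)) (PR.snd PR.id)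
      ((c1 _).comp (PR.fst PR.id)) (o1.comp ((PR.fst (PR.snd PR.id)).prodMk
        (c3.comp ((PR.fst (PR.fst PR.id)).prodMk (PR.snd (PR.snd PR.id)))))), ?_⟩
  rintro ⟨a, l⟩
  change val (List.foldl _ _ l) = f (val a) (v l)
  induction l using List.reverseRecOn with
  | nil => rw [v1]; exact c2 _ _
  | append_singleton l x ih =>
    rw [List.foldl_append, List.foldl_cons, List.foldl_nil, o2, v2, hf, ← ih]
    exact congrArg (op _) (c2 _ _)

namespace Sig

theorem of_iff {p q : X → Prop} (h : Sig p) (H : ∀ a, p a ↔ q a) : Sig q :=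
  (funext fun a => propext (H a) : p = q) ▸ h

theorem dec {p : X → Prop} (P : C X → Bool) (h : PR P) (H : ∀ c, p (val c) ↔ P c = true) : Sig p :=
  ⟨fun z => P z.1, h.comp (PR.fst PR.id), fun c => by simp [H]⟩

theorem comp {p : Y → Prop} {f : X → Y} (hp : Sig p) (hf : Comp f) : Sig fun a => p (f a) := by
  obtain ⟨P, h1, h2⟩ := hp
  obtain ⟨f', h3, h4⟩ := hf
  exact ⟨fun z => P (f' z.1, z.2), by fun_prop, fun c => by beta_reduce; rw [← h4, h2]⟩

theorem and {p q : X → Prop} (hp : Sig p) (hq : Sig q) : Sig fun a => p a ∧ q a := by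
  obtain ⟨P, h1, h2⟩ := hp
  obtain ⟨Q, h3, h4⟩ := hq
  refine ⟨fun z => P (z.1, z.2.unpair.1) && Q (z.1, z.2.unpair.2), by fun_prop, fun c => ?_⟩
  beta_reduce
  rw [h2, h4]
  exact ⟨fun ⟨⟨n, hn⟩, k, hk⟩ => ⟨n.pair k, by simp [hn, hk]⟩,
    fun ⟨n, hn⟩ => by simp only [Bool.and_eq_true] at hn; exact ⟨⟨_, hn.1⟩, _, hn.2⟩⟩

theorem or {p q : X → Prop} (hp : Sig p) (hq : Sig q) : Sig fun a => p a ∨ q a := by
  obtain ⟨P, h1, h2⟩ := hp
  obtain ⟨Q, h3, h4⟩ := hq
  refine ⟨fun z => P z || Q z, by fun_prop, fun c => ?_⟩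
  beta_reduce
  rw [h2, h4]
  simp [exists_or]

theorem ex {p : X → Y → Prop} (hp : Sig fun z : X × Y => p z.1 z.2) : Sig fun a => ∃ y, p a y := by
  obtain ⟨P, h1, h2⟩ := hp
  have h1' : PR fun z : (C X × C Y) × ℕ => P z := h1
  refine ⟨fun z => (((Encodable.decode z.2.unpair.1 : Option (C Y))).bind
    fun d => some (P ((z.1, d), z.2.unpair.2))).getD false, by fun_prop, fun c => ⟨?_, ?_⟩⟩
  · rintro ⟨y, hy⟩
    obtain ⟨d, rfl⟩ := surj y
    obtain ⟨n, hn⟩ := (h2 (c, d)).1 hy
    exact ⟨(Encodable.encode d).pair n, by simpa using hn⟩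
  · rintro ⟨n, hn⟩
    cases e : (Encodable.decode n.unpair.1 : Option (C Y)) with
    | none => simp [e] at hn
    | some d => exact ⟨val d, (h2 (c, d)).2 ⟨_, by simpa [e] using hn⟩⟩

theorem exl {p : X → Y → Prop} {f : X → List Y} (hp : Sig fun z : X × Y => p z.1 z.2)
    (hf : Comp f) : Sig fun a => ∃ y ∈ f a, p a y := by
  obtain ⟨P, h1, h2⟩ := hp
  obtain ⟨f', h3, h4⟩ := hf
  have h1' : PR fun z : (C X × C Y) × ℕ => P z := h1
  have h3' : PR fun z : C X => (f' z : List (C Y)) := h3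
  refine ⟨fun z => List.any (f' z.1) fun d => P ((z.1, d), z.2), by fun_prop, fun c => ?_⟩
  beta_reduce
  rw [← h4]
  constructor
  · rintro ⟨y, hy, h⟩
    obtain ⟨d, hd, rfl⟩ := List.mem_map.1 hy
    obtain ⟨n, hn⟩ := (h2 (c, d)).1 h
    exact ⟨n, List.any_eq_true.2 ⟨d, hd, hn⟩⟩
  · rintro ⟨n, hn⟩
    obtain ⟨d, hd, h⟩ := List.any_eq_true.1 hn
    exact ⟨val d, List.mem_map_of_mem hd, (h2 (c, d)).2 ⟨n, h⟩⟩

theorem all {p : X → Y → Prop} {f : X → List Y} (hp : Sig fun z : X × Y => p z.1 z.2)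
    (hf : Comp f) : Sig fun a => ∀ y ∈ f a, p a y := by
  obtain ⟨P, h1, h2⟩ := hp
  obtain ⟨f', h3, h4⟩ := hf
  have h1' : PR fun z : (C X × C Y) × ℕ => P z := h1
  have h3' : PR fun z : C X => (f' z : List (C Y)) := h3
  refine ⟨fun z => List.all (f' z.1) fun d => (List.range z.2).any fun k => P ((z.1, d), k),
    by fun_prop, fun c => ?_⟩
  beta_reduce
  rw [← h4]
  constructor
  · intro h
    have : ∀ d : C Y, ∃ n, d ∈ (show List (C Y) from f' c) → P ((c, d), n) = true := fun d => by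
      by_cases hd : d ∈ (show List (C Y) from f' c)
      · exact ((h2 (c, d)).1 (h _ (List.mem_map_of_mem hd))).imp fun _ h _ => h
      · exact ⟨0, fun h => absurd h hd⟩
    choose n hn using this
    refine ⟨(List.map n (f' c)).sum + 1, List.all_eq_true.2 fun d hd =>
      List.any_eq_true.2 ⟨n d, List.mem_range.2 (Nat.lt_succ_of_le ?_), hn d hd⟩⟩
    exact List.single_le_sum (fun _ _ => Nat.zero_le _) _ (List.mem_map_of_mem hd)
  · rintro ⟨n, hn⟩ y hy
    obtain ⟨d, hd, rfl⟩ := List.mem_map.1 hy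
    obtain ⟨k, -, hk⟩ := List.any_eq_true.1 (List.all_eq_true.1 hn d hd)
    exact (h2 (c, d)).2 ⟨k, hk⟩

theorem const (q : Prop) : Sig fun _ : X => q := by
  classical exact dec (fun _ => decide q) (PR.const _) (by simp)

theorem fall {m : ℕ} {p : Fin m → X → Prop} (h : ∀ k, Sig (p k)) : Sig fun a => ∀ k, p k a := by
  have : ∀ s : Finset (Fin m), Sig fun a => ∀ k ∈ s, p k a := fun s => by
    induction s using Finset.induction_on with
    | empty => exact (const True).of_iff (by simp)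
    | insert i s _ ih => exact ((h i).and ih).of_iff (by simp)
  exact (this Finset.univ).of_iff (by simp)

theorem fex {m : ℕ} {p : Fin m → X → Prop} (h : ∀ k, Sig (p k)) : Sig fun a => ∃ k, p k a := by
  have : ∀ s : Finset (Fin m), Sig fun a => ∃ k ∈ s, p k a := fun s => by
    induction s using Finset.induction_on with
    | empty => exact (const False).of_iff (by simp)
    | insert i s _ ih => exact ((h i).or ih).of_iff (by simp)
  exact (this Finset.univ).of_iff (by simp)

end Sig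

class EqS (X : Type) [Pres X] : Prop where
  h : Sig fun z : X × X => z.1 = z.2

class NeS (X : Type) [Pres X] : Prop where
  h : Sig fun z : X × X => z.1 ≠ z.2

theorem Sig.eq [EqS Y] {f g : X → Y} (hf : Comp f) (hg : Comp g) : Sig fun a => f a = g a :=
  EqS.h.comp (hf.prodMk hg)

theorem Sig.ne [NeS Y] {f g : X → Y} (hf : Comp f) (hg : Comp g) : Sig fun a => f a ≠ g a :=
  NeS.h.comp (hf.prodMk hg)

theorem Sig.mem [EqS Y] {f : X → Y} {g : X → List Y} (hf : Comp f) (hg : Comp g) :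
    Sig fun a => f a ∈ g a :=
  (Sig.exl (p := fun a y => y = f a) (Sig.eq (by fun_prop) (by fun_prop)) hg).of_iff (by simp)

theorem Sig.lt {f g : X → ℕ} (hf : Comp f) (hg : Comp g) : Sig fun a => f a < g a :=
  (Sig.dec (p := fun z : ℕ × ℕ => z.1 < z.2) (fun c : ℕ × ℕ => decide (c.1 < c.2)) (by fun_prop)
    (fun _ => decide_eq_true_iff.symm)).comp (hf.prodMk hg)

theorem Sig.le {f g : X → ℕ} (hf : Comp f) (hg : Comp g) : Sig fun a => f a ≤ g a :=
  (Sig.dec (p := fun z : ℕ × ℕ => z.1 ≤ z.2) (fun c : ℕ × ℕ => decide (c.1 ≤ c.2)) (by fun_prop)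
    (fun _ => decide_eq_true_iff.symm)).comp (hf.prodMk hg)

instance : NeS ℕ := ⟨Sig.dec (fun c : ℕ × ℕ => decide (¬ c.1 = c.2)) (by fun_prop)
  fun _ => decide_eq_true_iff.symm⟩

instance : EqS ℤ := ⟨Sig.dec (fun c : (ℕ × ℕ) × ℕ × ℕ => decide (c.1.1 + c.2.2 = c.2.1 + c.1.2))
  (by fun_prop) fun c => by simp only [val, decide_eq_true_eq]; omega⟩

instance : NeS ℤ := ⟨Sig.dec (fun c : (ℕ × ℕ) × ℕ × ℕ => decide (¬ c.1.1 + c.2.2 = c.2.1 + c.1.2))
  (by fun_prop) fun c => by simp only [val, decide_eq_true_eq]; omega⟩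

instance [EqS X] [EqS Y] : EqS (X × Y) :=
  ⟨((Sig.eq (f := fun z : (X × Y) × X × Y => z.1.1) (g := fun z => z.2.1) (by fun_prop)
    (by fun_prop)).and (Sig.eq (f := fun z : (X × Y) × X × Y => z.1.2) (g := fun z => z.2.2)
      (by fun_prop) (by fun_prop))).of_iff fun _ => Prod.ext_iff.symm⟩

/-- uniformisation -/
theorem Sig.unif {p : X → Y → Prop} (hp : Sig fun z : X × Y => p z.1 z.2) (h : ∀ x, ∃ y, p x y) :
    ∃ f : C X → C Y, Computable f ∧ ∀ c, p (val c) (val (f c)) := by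
  obtain ⟨P, h1, h2⟩ := hp
  have h1' : PR fun z : (C X × C Y) × ℕ => P z := h1
  let t : C X → ℕ → Option (C Y) := fun c n =>
    (Encodable.decode n.unpair.1 : Option (C Y)).bind fun d =>
      cond (P ((c, d), n.unpair.2)) (some d) none
  have ht : Computable₂ t := PR.computable₂ (by fun_prop)
  have hd : ∀ c, (Nat.rfindOpt (t c)).Dom := fun c => by
    obtain ⟨y, hy⟩ := h (val c)
    obtain ⟨d, rfl⟩ := surj y
    obtain ⟨n, hn⟩ := (h2 (c, d)).1 hy
    exact Nat.rfindOpt_dom.2 ⟨(Encodable.encode d).pair n, d, by simp [t, hn]⟩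
  refine ⟨fun c => (Nat.rfindOpt (t c)).get (hd c),
    (Partrec.rfindOpt ht).of_eq_tot fun c => Part.get_mem _, fun c => ?_⟩
  obtain ⟨n, hn⟩ := Nat.rfindOpt_spec (Part.get_mem (hd c))
  obtain ⟨d, -, h3⟩ := Option.mem_bind_iff.1 hn
  cases e : P ((c, d), n.unpair.2)
  · simp [e] at h3
  · rw [e] at h3
    beta_reduce
    rw [← (Option.some.inj h3 : d = _)]
    exact (h2 (c, d)).2 ⟨_, e⟩

end Pool.Agent.Lib.MP_d96856_al.R2
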