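import Mathlib
import Pool.Agent.Lib.MP_d96856_al.R2G
import Pool.Agent.Lib.MP_d96856_al.R2Sig
import Pool.Agent.Lib.MP_d96856_al.R2Defs

namespace Pool.Agent.Lib.MP_d96856_al.R2

open FreeGroup hiding map_mul map_one map_inv
open Pool.Agent.Lib.MP_5e3ef6_lc
open Pres hiding mk

variable {X : Type} [Pres X] {m : ℕ}

lemma mk_surj : Function.Surjective (mk : List Lt → F2) := fun g => ⟨g.toWord, mk_toWord⟩

instance presF : Pres F2 := wordPres mk mk_surj

theorem F_word {Y : Type} [Pres Y] {f : X → F2 → Y} {op : Y → Y → Y}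
    (hop : Comp fun z : Y × Y => op z.1 z.2) (hf : ∀ a g h, f a (g * h) = op (f a g) (f a h))
    (h1 : ∀ g, Comp fun a => f a g) : Comp fun z : X × F2 => f z.1 z.2 :=
  Comp.word (hv := mk_surj) one_eq_mk.symm (fun _ _ => mul_mk.symm) hop hf h1

theorem F_hom {Y : Type} [Pres Y] {f : F2 → Y} {op : Y → Y → Y}
    (hop : Comp fun z : Y × Y => op z.1 z.2) (hf : ∀ g h, f (g * h) = op (f g) (f h)) : Comp f :=
  (F_word (X := ℕ) (f := fun _ => f) hop (fun _ => hf) fun _ => Comp.const _).comp
    ((Comp.const 0).prodMk Comp.id)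

theorem F_mul' : Comp fun z : F2 × F2 => z.1 * z.2 :=
  ⟨fun c : List Lt × List Lt => c.1 ++ c.2, Primrec.list_append.comp Primrec.fst Primrec.snd,
    fun _ => mul_mk.symm⟩

@[fun_prop] theorem F_mul {f g : X → F2} (hf : Comp f) (hg : Comp g) : Comp fun a => f a * g a :=
  Comp.two (op := (· * ·)) F_mul' hf hg

theorem F_inv' : Comp fun z : F2 => z⁻¹ :=
  F_hom (op := fun y z => z * y) (by fun_prop) mul_inv_rev

@[fun_prop] theorem F_pow {f : X → F2} {g : X → ℕ} (hf : Comp f) (hg : Comp g) :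
    Comp fun a => f a ^ g a := Comp.npow F_mul' hf hg

@[fun_prop] theorem F_zpow {f : X → F2} {g : X → ℤ} (hf : Comp f) (hg : Comp g) :
    Comp fun a => f a ^ g a := Comp.zpow F_mul' F_inv' hf hg

@[fun_prop] theorem F_ea : Comp ea := F_hom (op := (· + ·)) (by fun_prop) ea_mul
@[fun_prop] theorem F_eb : Comp eb := F_hom (op := (· + ·)) (by fun_prop) eb_mul

lemma PR_reduce : PR (reduce : List Lt → List Lt) := by
  have : Primrec fun L : List Lt => L.foldr (fun x r => List.casesOn (motive := fun _ => List Lt) r [x]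
      fun y s => if x.1 = y.1 ∧ x.2 = !y.2 then s else x :: y :: s) [] := by
    refine Primrec.list_foldr (h := fun _ (p : Lt × List Lt) => List.casesOn
      (motive := fun _ => List Lt) p.2 [p.1]
        fun y s => if p.1.1 = y.1 ∧ p.1.2 = !y.2 then s else p.1 :: y :: s)
      Primrec.id (Primrec.const _) ?_
    refine Primrec.list_casesOn (h := fun (a : List Lt × Lt × List Lt) (q : Lt × List Lt) =>
      if a.2.1.1 = q.1.1 ∧ a.2.1.2 = !q.1.2 then q.2 else a.2.1 :: q.1 :: q.2)
      (Primrec.snd.comp Primrec.snd)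
      (Primrec.list_cons.comp (Primrec.fst.comp Primrec.snd) (Primrec.const [])) ?_
    refine PR.ite (by fun_prop) (by fun_prop) ?_
    exact Primrec.list_cons.comp (Primrec.fst.comp (Primrec.snd.comp Primrec.fst))
      (Primrec.list_cons.comp (Primrec.fst.comp Primrec.snd) (Primrec.snd.comp Primrec.snd))
  refine PR.of_eq this fun L => ?_
  induction L with
  | nil => rfl
  | cons x L ih => rw [List.foldr_cons, ih, reduce.cons]

@[fun_prop] theorem F_norm : Comp (FreeGroup.norm : F2 → ℕ) :=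
  ⟨fun c : List Lt => (reduce c).length, PR_reduce.length, fun _ => rfl⟩

lemma mk_eq_iff (c d : List Lt) : mk c = mk d ↔ reduce c = reduce d := ⟨reduce.sound, reduce.exact⟩

instance : EqS F2 := ⟨Sig.dec (fun c : List Lt × List Lt => decide (reduce c.1 = reduce c.2))
  (by have := PR_reduce; fun_prop) fun c => (mk_eq_iff _ _).trans decide_eq_true_iff.symm⟩

instance : NeS F2 := ⟨Sig.dec (fun c : List Lt × List Lt => decide (¬ reduce c.1 = reduce c.2))
  (by have := PR_reduce; fun_prop) fun c => (mk_eq_iff _ _).not.trans decide_eq_true_iff.symm⟩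

lemma mkE_self (φ : E2) : mkE (φ ga) (φ gb) = φ := extE (by simp) (by simp)

instance presE : Pres E2 where
  C := C (F2 × F2)
  pc := inferInstance
  val c := mkE (val c : F2 × F2).1 (val c : F2 × F2).2
  surj φ := by
    obtain ⟨c, hc⟩ := surj (φ ga, φ gb)
    exact ⟨c, by simp only [hc, mkE_self]⟩

@[fun_prop] theorem E_mk {f g : X → F2} (hf : Comp f) (hg : Comp g) :
    Comp fun a => mkE (f a) (g a) :=
  Comp.two (op := mkE) ⟨_, PR.id, fun _ => rfl⟩ hf hg

theorem E_app' : Comp fun z : E2 × F2 => z.1 z.2 := by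
  have ha : Comp fun φ : E2 => φ ga := ⟨fun c : List Lt × List Lt => c.1, by fun_prop,
    fun c => (mkE_a _ _).symm⟩
  have hb : Comp fun φ : E2 => φ gb := ⟨fun c : List Lt × List Lt => c.2, by fun_prop,
    fun c => (mkE_b _ _).symm⟩
  refine F_word (f := fun (φ : E2) g => φ g) F_mul' (fun φ => map_mul φ) fun g => ?_
  induction g using FreeGroup.induction_on with
  | C1 => exact (Comp.const 1).of_eq fun φ => (map_one φ).symm
  | of x => fin_cases x; exacts [ha, hb]
  | inv_of x ih => exact (F_inv'.comp ih).of_eq fun φ => (map_inv φ _).symm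
  | mul x y hx hy => exact (F_mul hx hy).of_eq fun φ => (map_mul φ _ _).symm

@[fun_prop] theorem E_app {f : X → E2} {g : X → F2} (hf : Comp f) (hg : Comp g) :
    Comp fun a => f a (g a) := Comp.two (op := fun (φ : E2) g => φ g) E_app' hf hg

@[fun_prop] theorem E_mul {f g : X → E2} (hf : Comp f) (hg : Comp g) : Comp fun a => f a * g a :=
  (E_mk (E_app hf (E_app hg (Comp.const ga))) (E_app hf (E_app hg (Comp.const gb)))).of_eq
    fun a => mkE_self (f a * g a)

instance : EqS E2 :=
  ⟨((Sig.eq (f := fun z : E2 × E2 => z.1 ga) (g := fun z => z.2 ga) (by fun_prop)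
    (by fun_prop)).and (Sig.eq (f := fun z : E2 × E2 => z.1 gb) (g := fun z => z.2 gb)
      (by fun_prop) (by fun_prop))).of_iff fun _ =>
        ⟨fun h => extE h.1 h.2, fun h => by rw [h]; exact ⟨rfl, rfl⟩⟩⟩

abbrev Wd (m : ℕ) := List ((Fin m ⊕ Fin 2) × Bool)

lemma evalW_append (v w : Wd m) : evalW (v ++ w) = evalW v * evalW w := by simp [evalW]

lemma evalW_surj : Function.Surjective (evalW : Wd m → GG m 2) := by
  have e : ∀ w : Wd m, evalW w = FreeGroup.lift genG (mk w) := fun w => by
    simp [evalW, FreeGroup.lift_mk, Bool.cond_eq_ite]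
  set K := (FreeGroup.lift (genG (m := m) (n := 2))).range
  have h1 : ∀ t : AA m, ((t, 1) : GG m 2) ∈ K :=
    sub_top (K.comap (MonoidHom.inl (AA m) F2)) fun k => ⟨of (Sum.inl k), FreeGroup.lift_apply_of⟩
  have h2 : ∀ u : F2, ((1, u) : GG m 2) ∈ K := fun u => by
    change u ∈ K.comap (MonoidHom.inr (AA m) F2)
    induction u using FreeGroup.induction_on with
    | C1 => exact Subgroup.one_mem _
    | of x => exact ⟨of (Sum.inr x), FreeGroup.lift_apply_of⟩
    | inv_of x ih => exact Subgroup.inv_mem _ ih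
    | mul x y hx hy => exact Subgroup.mul_mem _ hx hy
  rintro ⟨t, u⟩
  obtain ⟨x, hx⟩ := K.mul_mem (h1 t) (h2 u)
  obtain ⟨w, rfl⟩ : ∃ w, FreeGroup.mk w = x := ⟨x.toWord, mk_toWord⟩
  exact ⟨w, by rw [e, hx]; simp⟩

instance presG : Pres (GG m 2) := wordPres evalW evalW_surj

instance : Inhabited (Fin m ⊕ Fin 2) := ⟨Sum.inr 0⟩

theorem G_hom {Y : Type} [Pres Y] {f : GG m 2 → Y} {op : Y → Y → Y}
    (hop : Comp fun z : Y × Y => op z.1 z.2) (hf : ∀ g h, f (g * h) = op (f g) (f h)) : Comp f :=
  (Comp.word (X := ℕ) (hv := evalW_surj) rfl evalW_append (f := fun _ => f) hop (fun _ => hf)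
    fun _ => Comp.const _).comp ((Comp.const 0).prodMk Comp.id)

theorem G_mul' : Comp fun z : GG m 2 × GG m 2 => z.1 * z.2 :=
  ⟨fun c : Wd m × Wd m => c.1 ++ c.2, Primrec.list_append.comp Primrec.fst Primrec.snd,
    fun _ => evalW_append _ _⟩

@[fun_prop] theorem G_mul {f g : X → GG m 2} (hf : Comp f) (hg : Comp g) :
    Comp fun a => f a * g a := Comp.two (op := (· * ·)) G_mul' hf hg

theorem G_inv' : Comp fun z : GG m 2 => z⁻¹ :=
  G_hom (op := fun y z => z * y) (by fun_prop) mul_inv_rev

@[fun_prop] theorem G_inv {f : X → GG m 2} (hf : Comp f) : Comp fun a => (f a)⁻¹ := G_inv'.comp hf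

@[fun_prop] theorem G_zpow {f : X → GG m 2} {g : X → ℤ} (hf : Comp f) (hg : Comp g) :
    Comp fun a => f a ^ g a := Comp.zpow G_mul' G_inv' hf hg

@[fun_prop] theorem G_prod {f : X → List (GG m 2)} (hf : Comp f) : Comp fun a => (f a).prod :=
  Comp.lprod G_mul' hf

/-- the free component -/
def s2 (g : GG m 2) : F2 := g.2

@[fun_prop] theorem G_s2 : Comp (s2 (m := m)) := G_hom F_mul' fun _ _ => rfl
@[fun_prop] theorem G_snd {f : X → GG m 2} (hf : Comp f) : Comp fun a => (f a).2 := G_s2.comp hf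
@[fun_prop] theorem G_map {f : X → List (GG m 2)} (hf : Comp f) :
    Comp fun a => (f a).map Prod.snd := hf.map G_s2
@[fun_prop] theorem G_cz (k : Fin m) : Comp (cz k) :=
  G_hom (op := (· + ·)) (by fun_prop) fun _ _ => rfl
@[fun_prop] theorem G_inr2 : Comp (inr2 (m := m)) := F_hom G_mul' fun _ _ => by simp [inr2]
@[fun_prop] theorem G_dot {f g : X → GG m 2} (hf : Comp f) (hg : Comp g) :
    Comp fun a => dot (f a) (g a) := Comp.zsum _ fun k => by fun_prop

instance : EqS (GG m 2) :=
  ⟨((Sig.fall fun k => Sig.eq (f := fun z : GG m 2 × GG m 2 => cz k z.1) (g := fun z => cz k z.2)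
    (by fun_prop) (by fun_prop)).and (Sig.eq (f := fun z : GG m 2 × GG m 2 => s2 z.1)
      (g := fun z => s2 z.2) (by fun_prop) (by fun_prop))).of_iff fun _ =>
        ⟨fun h => Prod.ext (Multiplicative.toAdd.injective (funext h.1)) h.2,
          fun h => by rw [h]; exact ⟨fun _ => rfl, rfl⟩⟩⟩

@[fun_prop] theorem C_fa {i j : X → ℤ} {g : X → F2} (hi : Comp i) (hj : Comp j) (hg : Comp g) :
    Comp fun a => fa (i a) (j a) (g a) := by unfold fa; fun_prop
@[fun_prop] theorem C_tt {i j : X → ℤ} {g : X → E2} (hi : Comp i) (hj : Comp j) (hg : Comp g) :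
    Comp fun a => tt (i a) (j a) (g a) := by unfold tt g0; fun_prop
@[fun_prop] theorem C_ee {r : X → F2} {i j : X → ℤ} {g : X → E2} (hr : Comp r) (hi : Comp i)
    (hj : Comp j) (hg : Comp g) : Comp fun a => ee (r a) (i a) (j a) (g a) := by
  unfold ee fb g0; fun_prop
@[fun_prop] theorem C_RR {r : X → F2} {i j s : X → ℤ} (hr : Comp r) (hi : Comp i)
    (hj : Comp j) (hs : Comp s) : Comp fun a => RR (r a) (i a) (j a) (s a) := by
  unfold RR; fun_prop

theorem S_McC {u : X → List F2} {K : X → ℕ} {T : X → List (E2 × E2)} {o : X → List E2}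
    (h1 : Comp u) (h2 : Comp K) (h3 : Comp T) (h4 : Comp o) :
    Sig fun a => McC (u a) (K a) (T a) (o a) := by
  unfold McC
  repeat' first
    | apply Sig.exl | apply Sig.and | apply Sig.or | apply Sig.all | apply Sig.ex
    | apply Sig.mem | apply Sig.eq | apply Sig.ne | apply Sig.lt | apply Sig.le | fun_prop

theorem S_ball {n : X → ℕ} {B : X → List F2} (h1 : Comp n) (h2 : Comp B) :
    Sig fun a => IsBall (n a) (B a) := by
  unfold IsBall
  repeat' first
    | apply Sig.and | apply Sig.or | apply Sig.exl | apply Sig.all | apply Sig.ex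
    | apply Sig.mem | apply Sig.eq | apply Sig.ne | apply Sig.lt | apply Sig.le | fun_prop

theorem S_Cyc {u : X → List F2} {w : X → F2} {K : X → ℕ} {T : X → List (E2 × E2)} {o : X → List E2}
    (h1 : Comp u) (h0 : Comp w) (h2 : Comp K) (h3 : Comp T) (h4 : Comp o) :
    Sig fun a => Cyc (u a) (w a) (K a) (T a) (o a) := by
  unfold Cyc
  repeat' first
    | apply Sig.and | apply Sig.or | apply Sig.exl | apply Sig.all | apply Sig.ex
    | apply S_McC | apply Sig.mem | apply Sig.eq | apply Sig.ne | apply Sig.lt | apply Sig.le | fun_prop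

theorem S_YesF {u : X → List F2} {o : X → List E2} (h1 : Comp u) (h4 : Comp o) :
    Sig fun a => YesF (u a) (o a) := by
  unfold YesF
  repeat' first
    | apply Sig.and | apply Sig.or | apply Sig.exl | apply Sig.all | apply Sig.ex
    | apply S_McC | apply S_Cyc | apply S_ball
    | apply Sig.mem | apply Sig.eq | apply Sig.ne | apply Sig.lt | apply Sig.le | fun_prop

theorem S_NoF {u : X → List F2} (h1 : Comp u) : Sig fun a => NoF (u a) := by
  unfold NoF
  repeat' first
    | apply Sig.and | apply Sig.or | apply Sig.exl | apply Sig.all | apply Sig.ex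
    | apply S_Cyc | apply Sig.mem | apply Sig.eq | apply Sig.ne | apply Sig.lt | apply Sig.le | fun_prop

theorem S_MemH {l : X → List (GG m 2)} {g : X → GG m 2} (h1 : Comp l) (h2 : Comp g) :
    Sig fun a => MemH (l a) (g a) := by
  unfold MemH
  repeat' first
    | apply Sig.and | apply Sig.or | apply Sig.exl | apply Sig.all | apply Sig.ex
    | apply Sig.mem | apply Sig.eq | apply Sig.ne | apply Sig.lt | apply Sig.le | fun_prop

theorem S_NoG : Sig (NoG (m := m)) := by
  unfold NoG N1 N2
  repeat' first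
    | apply Sig.and | apply Sig.or | apply Sig.exl | apply Sig.all | apply Sig.ex
    | apply S_NoF | (apply Sig.fex; intro) | apply Sig.mem | apply Sig.eq | apply Sig.ne | apply Sig.lt | apply Sig.le | fun_prop

theorem S_YesG : Sig fun z : List (GG m 2) × List (GG m 2 × GG m 2) => YesG z.1 z.2 := by
  unfold YesG CondS NG FixE AnnC
  repeat' first
    | apply Sig.and | apply Sig.or | apply Sig.exl | apply Sig.all | apply Sig.ex
    | apply S_YesF | apply S_MemH | apply S_ball | (apply Sig.fall; intro)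
    | apply Sig.mem | apply Sig.eq | apply Sig.ne | apply Sig.lt | apply Sig.le | fun_prop

end Pool.Agent.Lib.MP_d96856_al.R2
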