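import Mathlib
import Pool.Agent.Lib.MP_d96856_al.R2A

namespace Pool.Agent.Lib.MP_d96856_al
open FreeGroup hiding map_mul map_one map_inv

def RR : MulAut F2 := mkAut (of 1 * of 0) (of 1) ((of 1)⁻¹ * of 0) (of 1)
  (by simp) (by simp) (by simp) (by simp)

@[simp] lemma RR_a : RR (of 0) = of 1 * of 0 := by simp [RR, mkAut_apply]
@[simp] lemma RR_b : RR (of 1) = of 1 := by simp [RR, mkAut_apply]

lemma sg_sg : sg * sg = 1 := aut_ext2 (by simp) (by simp)
lemma io_io : io * io = 1 := aut_ext2 (by simp) (by simp)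
lemma sg_inv : sg⁻¹ = sg := inv_eq_of_mul_eq_one_right sg_sg
lemma io_inv : io⁻¹ = io := inv_eq_of_mul_eq_one_right io_io
lemma RR_eq : RR = sg * LL * sg := aut_ext2 (by simp) (by simp)
lemma LL_eq : LL = sg * RR * sg := aut_ext2 (by simp) (by simp)
lemma LL_inv : LL⁻¹ = io * LL * io :=
  inv_eq_of_mul_eq_one_right (aut_ext2 (by simp) (by simp))

def mv : Bool → MulAut F2
  | true => LL
  | false => RR

def WW (s : List Bool) : MulAut F2 := (s.map mv).prod

/-- signed permutations of the basis -/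
def TT : Submonoid (MulAut F2) := Submonoid.closure {sg, io}

lemma sg_T : sg ∈ TT := Submonoid.subset_closure (by simp)
lemma io_T : io ∈ TT := Submonoid.subset_closure (by simp)

def Inn : Subgroup (MulAut F2) := (MulAut.conj : F2 →* MulAut F2).range

lemma mul_conj (ψ : MulAut F2) (g : F2) : ψ * MulAut.conj g = MulAut.conj (ψ g) * ψ := by
  ext w; simp

instance inn_normal : Inn.Normal := ⟨by
  rintro _ ⟨g, rfl⟩ ψ
  exact ⟨ψ g, by rw [mul_conj, mul_inv_cancel_right]⟩⟩

def pi : MulAut F2 →* MulAut F2 ⧸ Inn := QuotientGroup.mk' Inn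

lemma pi_conj (g : F2) : pi (MulAut.conj g) = 1 := (QuotientGroup.eq_one_iff _).2 ⟨g, rfl⟩

lemma pi_eq {x y : MulAut F2} (h : pi x = pi y) : ∃ g, x = MulAut.conj g * y := by
  have : pi (x * y⁻¹) = 1 := by rw [map_mul, map_inv, h, mul_inv_cancel]
  obtain ⟨g, hg⟩ := (QuotientGroup.eq_one_iff _).1 this
  exact ⟨g, by rw [hg, inv_mul_cancel_right]⟩

lemma pi_inv (c : Bool) : (pi (mv c))⁻¹ = pi io * pi (mv c) * pi io := by
  cases c
  · have : RR * (io * RR * io) = MulAut.conj (of 1 : F2) := aut_ext2 (by simp) (by simp)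
    refine inv_eq_of_mul_eq_one_right ?_
    rw [← map_mul, ← map_mul, ← map_mul]
    exact (congrArg pi this).trans (pi_conj _)
  · rw [← map_inv, ← map_mul, ← map_mul]
    exact congrArg pi LL_inv

lemma pi_turn (c : Bool) : ∃ t ∈ TT, (pi (mv c))⁻¹ * pi (mv (!c)) = pi t * pi (mv c) := by
  cases c
  · refine ⟨sg * io, TT.mul_mem sg_T io_T, ?_⟩
    have : LL = RR * (MulAut.conj (of 1 : F2)⁻¹ * (sg * io * RR)) :=
      aut_ext2 (by simp [mul_assoc]) (by simp [mul_assoc])
    change (pi RR)⁻¹ * pi LL = _ * pi RR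
    rw [this]
    simp only [map_mul pi, pi_conj, one_mul, inv_mul_cancel_left]
  · refine ⟨io * sg, TT.mul_mem io_T sg_T, ?_⟩
    have : RR = LL * (MulAut.conj (of 0 : F2)⁻¹ * (io * sg * LL)) :=
      aut_ext2 (by simp [mul_assoc]) (by simp [mul_assoc])
    change (pi LL)⁻¹ * pi RR = _ * pi LL
    rw [this]
    simp only [map_mul pi, pi_conj, one_mul, inv_mul_cancel_left]

lemma pi_pass {t : MulAut F2} (ht : t ∈ TT) : ∀ c, ∃ d,
    pi (mv c) * pi t = pi t * pi (mv d) ∨ pi (mv c) * pi t = pi t * (pi (mv d))⁻¹ := by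
  induction ht using Submonoid.closure_induction with
  | mem x hx =>
    intro c
    rcases hx with rfl | rfl
    · refine ⟨!c, Or.inl ?_⟩
      rw [← map_mul, ← map_mul]
      congr 1
      cases c
      · exact aut_ext2 (by simp [mv]) (by simp [mv])
      · exact aut_ext2 (by simp [mv]) (by simp [mv])
    · refine ⟨c, Or.inr ?_⟩
      rw [pi_inv, ← mul_assoc, ← mul_assoc, ← map_mul pi io io, io_io, map_one, one_mul]
  | one => exact fun c => ⟨c, Or.inl (by simp)⟩
  | mul x y _ _ hx hy =>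
    intro c
    obtain ⟨d, hd⟩ := hx c
    obtain ⟨e, he⟩ := hy d
    refine ⟨e, ?_⟩
    rw [map_mul, ← mul_assoc]
    rcases hd with hd | hd <;> rcases he with he | he <;> rw [hd, mul_assoc]
    · left; rw [he, mul_assoc]
    · right; rw [he, mul_assoc]
    · right
      rw [mul_assoc, mul_left_cancel_iff, inv_mul_eq_iff_eq_mul, ← mul_assoc, he]
      group
    · left
      rw [mul_assoc, mul_left_cancel_iff, inv_mul_eq_iff_eq_mul, ← mul_assoc, he]
      group

def NF (q : MulAut F2 ⧸ Inn) : Prop :=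
  ∃ t ∈ TT, ∃ t' ∈ TT, ∃ s : List Bool, q = pi t * (pi (WW s) * pi t')

lemma WW_cons (c : Bool) (s : List Bool) : WW (c :: s) = mv c * WW s := by simp [WW]

lemma NF.tmul {q} {t : MulAut F2} (ht : t ∈ TT) : NF q → NF (pi t * q) := by
  rintro ⟨t1, h1, t2, h2, s, rfl⟩
  exact ⟨t * t1, TT.mul_mem ht h1, t2, h2, s, by rw [map_mul, mul_assoc]⟩

lemma nf_pos (c : Bool) (s : List Bool) {t : MulAut F2} (ht : t ∈ TT) :
    NF (pi (mv c) * (pi (WW s) * pi t)) :=
  ⟨1, TT.one_mem, t, ht, c :: s, by rw [WW_cons, map_mul, map_one, one_mul, mul_assoc]⟩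

lemma nf_neg (c : Bool) (s : List Bool) {t : MulAut F2} (ht : t ∈ TT) :
    NF ((pi (mv c))⁻¹ * (pi (WW s) * pi t)) := by
  rcases s with _ | ⟨d, s⟩
  · refine ⟨io, io_T, io * t, TT.mul_mem io_T ht, [c], ?_⟩
    rw [pi_inv]
    simp [WW, mul_assoc]
  · rw [WW_cons, map_mul]
    by_cases h : d = c
    · subst h
      exact ⟨1, TT.one_mem, t, ht, s, by simp [mul_assoc]⟩
    · obtain rfl : d = !c := by revert h; cases c <;> cases d <;> simp
      obtain ⟨t1, h1, e⟩ := pi_turn c
      rw [mul_assoc, ← mul_assoc, e, mul_assoc]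
      exact (nf_pos c s ht).tmul h1

lemma NF.mv_mul {q} (c : Bool) : NF q → NF (pi (mv c) * q) := by
  rintro ⟨t1, h1, t2, h2, s, rfl⟩
  obtain ⟨d, hd | hd⟩ := pi_pass h1 c <;> rw [← mul_assoc, hd, mul_assoc]
  · exact (nf_pos d s h2).tmul h1
  · exact (nf_neg d s h2).tmul h1

theorem normal_form (φ : MulAut F2) : ∃ g : F2, ∃ t ∈ TT, ∃ t' ∈ TT, ∃ s : List Bool,
    φ = MulAut.conj g * (t * (WW s * t')) := by
  have key : NF (pi φ) := by
    have h := aut_gen φ
    induction h using Subgroup.closure_induction_left with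
    | one => exact ⟨1, TT.one_mem, 1, TT.one_mem, [], by simp [WW]⟩
    | mul_left x hx y _ ih =>
      rw [map_mul]
      rcases hx with rfl | rfl | rfl
      · exact ih.tmul sg_T
      · exact ih.tmul io_T
      · exact ih.mv_mul true
    | inv_mul_cancel x hx y _ ih =>
      rcases hx with rfl | rfl | rfl
      · rw [sg_inv, map_mul]; exact ih.tmul sg_T
      · rw [io_inv, map_mul]; exact ih.tmul io_T
      · rw [LL_inv, map_mul, map_mul, map_mul, mul_assoc, mul_assoc]
        exact ((ih.tmul io_T).mv_mul true).tmul io_T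
  obtain ⟨t, ht, t', ht', s, e⟩ := key
  rw [← map_mul, ← map_mul] at e
  obtain ⟨g, hg⟩ := pi_eq e
  exact ⟨g, t, ht, t', ht', s, hg⟩

end Pool.Agent.Lib.MP_d96856_al
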