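import Mathlib
import Pool.Agent.Lib.MP_d96856_al.R2B

namespace Pool.Agent.Lib.MP_d96856_al
open FreeGroup hiding map_mul map_one map_inv

abbrev Lt := Fin 2 × Bool

/-- multiply a reduced word by a letter on the left -/
def pc (p : Lt) : List Lt → List Lt
  | [] => [p]
  | hd :: tl => if p.1 = hd.1 ∧ p.2 = !hd.2 then tl else p :: hd :: tl

lemma toWord_pc (p : Lt) (g : F2) : (mk [p] * g).toWord = pc p g.toWord := by
  have : mk [p] * g = mk (p :: g.toWord) := by rw [mk_cons p g.toWord, mk_toWord]
  rw [this, toWord_mk, reduce.cons, reduce_toWord]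
  cases g.toWord <;> rfl

def app (y : Lt) (W : List Lt) : List Lt :=
  if y.1 = 0 then pc y W
  else if y.2 then pc (0, true) (pc (1, true) W) else pc (1, false) (pc (0, false) W)

lemma toWord_app (y : Lt) (g : F2) : (LL (mk [y]) * g).toWord = app y g.toWord := by
  obtain ⟨i, s⟩ := y
  fin_cases i <;> cases s
  · simpa [app, mk_f] using toWord_pc (0, false) g
  · simpa [app, mk_t] using toWord_pc (0, true) g
  · simp only [app, Fin.mk_one, one_ne_zero, if_false, Bool.false_eq_true, ← toWord_pc, mk_f]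
    simp [mul_assoc]
  · simp only [app, Fin.mk_one, one_ne_zero, if_false, if_true, ← toWord_pc, mk_t]
    simp [mul_assoc]

def Inv (x : Lt) (W : List Lt) : Prop :=
  if x.1 = 0 then
    if x.2 then ∃ W', W = (0, true) :: W' ∧ W'.head? ≠ some (1, true)
    else ∃ W', W = (0, false) :: W' ∨ W = (1, true) :: W'
  else if x.2 then ∃ W', W = (0, true) :: (1, true) :: W' else ∃ W', W = (1, false) :: W'

def can (y x : Lt) : ℕ :=
  if (y = (0, false) ∧ x = (1, true)) ∨ (y = (1, false) ∧ x = (0, true)) then 1 else 0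

def wt (y : Lt) : ℕ := if y.1 = 0 then 1 else 2

lemma inv_base (x : Lt) : Inv x (app x []) := by
  obtain ⟨i, s⟩ := x
  fin_cases i <;> cases s <;> simp [Inv, app, pc]

lemma inv_step (y x : Lt) (W : List Lt) (hI : Inv x W) (hr : y.1 = x.1 → y.2 = x.2) :
    Inv y (app y W) ∧ (app y W).length + 2 * can y x = W.length + wt y := by
  obtain ⟨i, s⟩ := x
  obtain ⟨j, t⟩ := y
  fin_cases i <;> cases s <;> simp only [Inv, Fin.zero_eta, Fin.mk_one, if_true, one_ne_zero,
    if_false, Bool.false_eq_true] at hI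
  · obtain ⟨W', rfl | rfl⟩ := hI <;> fin_cases j <;> cases t <;>
      simp [Inv, app, pc, can, wt] at hr ⊢
  · obtain ⟨W', rfl, h⟩ := hI
    fin_cases j <;> cases t <;> simp [Inv, app, pc, can, wt] at hr ⊢
    rcases W' with _ | ⟨⟨k, u⟩, W'⟩
    · simp
    · have : ¬ (1 = k ∧ u = true) := by
        rintro ⟨rfl, rfl⟩
        exact h rfl
      simp [this]
  · obtain ⟨W', rfl⟩ := hI
    fin_cases j <;> cases t <;> simp [Inv, app, pc, can, wt] at hr ⊢
  · obtain ⟨W', rfl⟩ := hI
    fin_cases j <;> cases t <;> simp [Inv, app, pc, can, wt] at hr ⊢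

lemma inv_word : ∀ (l : List Lt) (x : Lt), IsReduced (x :: l) → Inv x (LL (mk (x :: l))).toWord
  | [], x, _ => by
    have := toWord_app x 1
    rw [mul_one, toWord_one] at this
    rw [this]
    exact inv_base x
  | y :: l, x, h => by
    obtain ⟨h1, h2⟩ := isReduced_cons_cons.1 h
    rw [mk_cons, map_mul, toWord_app]
    exact (inv_step x y _ (inv_word l y h2) h1).1

def nL (l : List Lt) : ℕ := (LL (mk l)).norm

lemma nL_step (y x : Lt) (l : List Lt) (h : IsReduced (y :: x :: l)) :
    nL (y :: x :: l) + 2 * can y x = nL (x :: l) + wt y := by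
  obtain ⟨h1, h2⟩ := isReduced_cons_cons.1 h
  unfold nL FreeGroup.norm
  rw [mk_cons y, map_mul, toWord_app]
  exact (inv_step y x _ (inv_word l x h2) h1).2

lemma nL_one (x : Lt) : nL [x] = wt x := by
  have := toWord_app x 1
  rw [mul_one, toWord_one] at this
  unfold nL FreeGroup.norm
  rw [this]
  obtain ⟨i, s⟩ := x
  fin_cases i <;> cases s <;> simp [app, pc, wt]

def fl (p : Lt) : Lt := if p.1 = 0 then (p.1, !p.2) else p
def sw (p : Lt) : Lt := (p.1 + 1, p.2)

lemma red_fl {l : List Lt} (h : IsReduced l) : IsReduced (l.map fl) :=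
  List.isChain_map_of_isChain fl (by decide) h

lemma red_sw {l : List Lt} (h : IsReduced l) : IsReduced (l.map sw) :=
  List.isChain_map_of_isChain sw (by decide) h

lemma map_letters (t : MulAut F2) (f : Lt → Lt) (h : ∀ p, t (mk [p]) = mk [f p]) (l : List Lt) :
    t (mk l) = mk (l.map f) := by
  induction l with
  | nil => exact map_one t
  | cons p l ih => rw [mk_cons, map_mul, h, ih, List.map_cons, mk_cons (f p) (l.map f)]

lemma io_mk (l : List Lt) : io (mk l) = mk (l.map fl) := map_letters io fl (by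
  rintro ⟨i, s⟩
  fin_cases i <;> cases s <;> simp [fl, mk_t, mk_f]) l

lemma sg_mk (l : List Lt) : sg (mk l) = mk (l.map sw) := map_letters sg sw (by
  rintro ⟨i, s⟩
  fin_cases i <;> cases s <;> simp [sw, mk_t, mk_f]) l

lemma norm_io (w : F2) : (io w).norm = w.norm := by
  conv_lhs => rw [← mk_toWord (x := w), io_mk, norm_red (red_fl isReduced_toWord), List.length_map]
  rfl

lemma norm_sg (w : F2) : (sg w).norm = w.norm := by
  conv_lhs => rw [← mk_toWord (x := w), sg_mk, norm_red (red_sw isReduced_toWord), List.length_map]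
  rfl

lemma norm_T {t : MulAut F2} (ht : t ∈ TT) (w : F2) : (t w).norm = w.norm := by
  induction ht using Submonoid.closure_induction generalizing w with
  | mem x hx =>
    rcases hx with rfl | rfl
    · exact norm_sg w
    · exact norm_io w
  | one => rfl
  | mul x y _ _ hx hy => rw [MulAut.mul_apply, hx, hy]

def pot (x : Lt) : ℕ := if x.1 = 0 then 1 else if x.2 then 2 else 0
def pot' (x : Lt) : ℕ := if x.1 = 0 then 0 else if x.2 then 2 else 0

lemma conv_list : ∀ (l : List Lt) (x : Lt), IsReduced (x :: l) →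
    2 * (x :: l).length + pot' x ≤ nL (x :: l) + nL ((x :: l).map fl) ∧
    2 * (x :: l).length + pot x ≤ nL ((x :: l).map sw) + nL ((x :: l).map fl) + 1
  | [], x, h => by
    simp only [List.map_cons, List.map_nil, nL_one]
    clear h
    revert x
    decide
  | y :: l, x, h => by
    obtain ⟨h1, h2⟩ := isReduced_cons_cons.1 h
    obtain ⟨i1, i2⟩ := conv_list l y h2
    have s1 := nL_step x y l h
    have s2 := nL_step (fl x) (fl y) (l.map fl) (red_fl h)
    have s3 := nL_step (sw x) (sw y) (l.map sw) (red_sw h)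
    have c : ∀ x y : Lt, (x.1 = y.1 → x.2 = y.2) →
        2 + 2 * can x y + 2 * can (fl x) (fl y) + pot' x ≤ wt x + wt (fl x) + pot' y ∧
        2 + 2 * can (sw x) (sw y) + 2 * can (fl x) (fl y) + pot x ≤
          wt (sw x) + wt (fl x) + pot y := by decide
    have := c x y h1
    simp only [List.map_cons, List.length_cons] at *
    omega

lemma conv_L (c : Bool) (w : F2) : 2 * w.norm ≤ (mv c w).norm + (LL⁻¹ w).norm + 1 := by
  have e1 : (LL⁻¹ w).norm = nL (w.toWord.map fl) := by
    rw [LL_inv, MulAut.mul_apply, MulAut.mul_apply, norm_io, nL, ← io_mk, mk_toWord]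
  have e2 : (LL w).norm = nL w.toWord := by rw [nL, mk_toWord]
  have e3 : (RR w).norm = nL (w.toWord.map sw) := by
    rw [RR_eq, MulAut.mul_apply, MulAut.mul_apply, norm_sg, nL, ← sg_mk, mk_toWord]
  have hr : IsReduced w.toWord := isReduced_toWord
  have e4 : w.norm = w.toWord.length := rfl
  rcases hl : w.toWord with _ | ⟨x, l⟩
  · rw [e4, hl]; simp
  · rw [hl] at hr e1 e2 e3 e4
    have := conv_list l x hr
    cases c
    · change _ ≤ (RR w).norm + _ + _
      omega
    · change _ ≤ (LL w).norm + _ + _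
      omega

lemma conv_lin (c d : Bool) (w : F2) : 2 * w.norm ≤ (mv c w).norm + ((mv d)⁻¹ w).norm + 1 := by
  cases d
  · have := conv_L (!c) (sg w)
    have e1 : (mv false)⁻¹ = sg * LL⁻¹ * sg := by
      change RR⁻¹ = _
      rw [RR_eq, mul_inv_rev, mul_inv_rev, sg_inv, mul_assoc]
    have e2 : mv c = sg * mv (!c) * sg := by
      cases c
      · exact RR_eq
      · exact LL_eq
    rw [e1, e2]
    simp only [MulAut.mul_apply, norm_sg] at this ⊢
    exact this
  · exact conv_L c w

theorem conv_cl (c d : Bool) (w : F2) :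
    2 * cl (mv d w) ≤ cl (mv c (mv d w)) + cl w := by
  refine le_of_asymp (c := 2 * cd (mv c (mv d w)) + 2 * cd w + 1) fun n => ?_
  have := conv_lin c d (mv d w ^ (n + 1))
  rw [map_pow, map_pow, MulAut.inv_apply_self, norm_pow_succ, norm_pow_succ, norm_pow_succ] at this
  nlinarith

lemma cl_T {t : MulAut F2} (ht : t ∈ TT) (w : F2) : cl (t w) = cl w := by
  have h1 := cl_eq w
  have h2 := cl_eq (t w)
  rw [← map_mul, norm_T ht, norm_T ht] at h2
  omega

lemma WW_append (s s' : List Bool) : WW (s ++ s') = WW s * WW s' := by simp [WW]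

lemma cl_up (s : List Bool) : ∀ (d : Bool) (w : F2), cl w ≤ cl (mv d w) →
    cl (mv d w) ≤ cl (WW s (mv d w)) := by
  induction s using List.reverseRecOn with
  | nil => exact fun _ _ _ => le_rfl
  | append_singleton s c ih =>
    intro d w h
    have h1 := conv_cl c d w
    have h2 := ih c (mv d w) (by omega)
    rw [WW_append, MulAut.mul_apply]
    have : WW [c] = mv c := by simp [WW]
    rw [this]
    omega

theorem cl_quasi (w : F2) : ∀ s2 s1 : List Bool,
    cl (WW s2 w) ≤ max (cl w) (cl (WW (s1 ++ s2) w))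
  | [], _ => le_max_left _ _
  | d :: s3, s1 => by
    have ih := cl_quasi w s3 (s1 ++ [d])
    rw [List.append_assoc, List.singleton_append] at ih
    by_cases h : cl (WW s3 w) ≤ cl (mv d (WW s3 w))
    · have := cl_up s1 d _ h
      rw [WW_append, WW_cons]
      exact le_max_of_le_right this
    · rw [WW_cons, MulAut.mul_apply]
      omega

end Pool.Agent.Lib.MP_d96856_al
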