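import Mathlib
import Pool.Agent.Lib.MP_d96856_al.R2C

namespace Pool.Agent.Lib.MP_d96856_al
open FreeGroup hiding map_mul map_one map_inv

section Helly
variable {α : Type} [DecidableEq α]

lemma zero_prod {X Y u v : FreeGroup α} (hX : X.norm = 1) (hY : Y.norm = 1)
    (hXY : (X⁻¹ * Y).norm = 2) (hu : (X⁻¹ * u).norm + 1 ≤ u.norm)
    (hv : (v⁻¹ * Y).norm + 1 ≤ v.norm) : (u⁻¹ * v).norm = u.norm + v.norm := by
  have f1 := four X v Y
  have f2 := four X u v
  have := norm_mul_le u⁻¹ v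
  rw [norm_inv_eq] at this
  omega

lemma exists_letter {w : FreeGroup α} (h : cl w < w.norm) :
    ∃ x : α × Bool, ((mk [x])⁻¹ * w * mk [x]).norm + 2 ≤ w.norm := by
  have h1 := norm_cl w
  have h2 := reduceCyclically.conj_conjugator_reduceCyclically w.toWord
  rcases hc : reduceCyclically.conjugator w.toWord with _ | ⟨x, c⟩
  · simp only [cd, hc, List.length_nil] at h1
    omega
  · refine ⟨x, ?_⟩
    rw [hc] at h2
    have e : (mk [x])⁻¹ * w * mk [x] = mk (c ++ reduceCyclically w.toWord ++ invRev c) := by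
      conv_lhs => rw [← mk_toWord (x := w), ← h2]
      rw [← mul_mk, ← mul_mk, ← mul_mk, ← mul_mk, ← inv_mk, ← inv_mk, mk_cons x c]
      group
    have := norm_mk_le (L₁ := c ++ reduceCyclically w.toWord ++ invRev c)
    rw [← e] at this
    simp only [cd, cl, hc, List.length_cons, List.length_append, invRev_length] at h1 this
    omega

lemma cl_mul_of_ne {u v : FreeGroup α} {x y : α × Bool} (hxy : x ≠ y)
    (hu : ((mk [x])⁻¹ * u * mk [x]).norm + 2 ≤ u.norm)
    (hv : ((mk [y])⁻¹ * v * mk [y]).norm + 2 ≤ v.norm) : cl (u * v) = u.norm + v.norm := by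
  have n1 : ∀ x : α × Bool, (mk [x]).norm = 1 := fun x => norm_red IsReduced.singleton
  have n2 : ∀ x y : α × Bool, x ≠ y → ((mk [x])⁻¹ * mk [y]).norm = 2 := fun x y h => by
    have := norm_cp [x] [y] IsReduced.singleton IsReduced.singleton
    simpa [cp, h] using this
  have a1 : ∀ (x : α × Bool) (u : FreeGroup α), ((mk [x])⁻¹ * u * mk [x]).norm + 2 ≤ u.norm →
      ((mk [x])⁻¹ * u⁻¹).norm + 1 ≤ u⁻¹.norm ∧ (u⁻¹ * mk [x]).norm + 1 ≤ u.norm := by
    intro x u h
    have t1 := norm_mul_le (mk [x]) ((mk [x])⁻¹ * u * mk [x])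
    have t2 := norm_mul_le ((mk [x])⁻¹ * u * mk [x]) (mk [x])⁻¹
    rw [show mk [x] * ((mk [x])⁻¹ * u * mk [x]) = u * mk [x] by group, n1] at t1
    rw [show (mk [x])⁻¹ * u * mk [x] * (mk [x])⁻¹ = (u⁻¹ * mk [x])⁻¹ by group, norm_inv_eq,
      norm_inv_eq, n1] at t2
    rw [norm_inv_mul, norm_inv_eq]
    omega
  have z1 := zero_prod (n1 x) (n1 y) (n2 x y hxy) (a1 x u hu).1 (a1 y v hv).2
  have z2 := zero_prod (n1 y) (n1 x) (n2 y x hxy.symm) (a1 y v hv).1 (a1 x u hu).2
  rw [inv_inv, norm_inv_eq] at z1 z2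
  have k1 := key3 u v u (by omega)
  have k2 := key3 (u * v) u v (by rw [mul_assoc]; omega)
  have := cl_eq (u * v)
  rw [mul_assoc u v u] at k2
  omega

lemma helly {ι : Type} (B : ℕ) : ∀ (M : ℕ) (h : ι → FreeGroup α), (∀ i, (h i).norm ≤ M) →
    (∀ i, cl (h i) ≤ B) → (∀ i j, cl (h i * h j) ≤ B) →
    ∃ g : FreeGroup α, ∀ i, (g * h i * g⁻¹).norm ≤ B + 2
  | 0, h, hM, _, _ => ⟨1, fun i => by simpa using (hM i).trans (Nat.zero_le _)⟩
  | M + 1, h, hM, h1, h2 => by
    by_cases hB : M + 1 ≤ B + 2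
    · exact ⟨1, fun i => by simpa using (hM i).trans hB⟩
    by_cases hI : ∃ i, M ≤ (h i).norm + 1
    · obtain ⟨i, hi⟩ := hI
      obtain ⟨x, hx⟩ := exists_letter (w := h i) (by have := h1 i; omega)
      have c : ∀ w, cl ((mk [x])⁻¹ * w * mk [x]) = cl w := fun w => by
        simpa using cl_conj (mk [x])⁻¹ w
      obtain ⟨g, hg⟩ := helly B M (fun j => (mk [x])⁻¹ * h j * mk [x]) (fun j => by
        by_cases hj : M ≤ (h j).norm + 1
        · obtain ⟨y, hy⟩ := exists_letter (w := h j) (by have := h1 j; omega)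
          by_cases e : x = y
          · subst e
            have := hM j
            omega
          · have := cl_mul_of_ne e hx hy
            have := h2 i j
            omega
        · have := norm_conj_le (mk [x])⁻¹ (h j)
          rw [inv_inv, norm_inv_eq, norm_red IsReduced.singleton, List.length_singleton] at this
          omega) (fun j => by rw [c]; exact h1 j) (fun j k => by
        rw [show (mk [x])⁻¹ * h j * mk [x] * ((mk [x])⁻¹ * h k * mk [x]) =
          (mk [x])⁻¹ * (h j * h k) * mk [x] by group, c]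
        exact h2 j k)
      refine ⟨g * (mk [x])⁻¹, fun j => ?_⟩
      have := hg j
      rwa [show g * ((mk [x])⁻¹ * h j * mk [x]) * g⁻¹ =
        g * (mk [x])⁻¹ * h j * (g * (mk [x])⁻¹)⁻¹ by group] at this
    · push Not at hI
      exact helly B M h (fun j => by have := hI j; omega) h1 h2

end Helly

/-- Lipschitz in both directions -/
def Lip (B : ℕ) (φ : MulAut F2) : Prop :=
  ∀ w, (φ w).norm ≤ B * w.norm ∧ (φ⁻¹ w).norm ≤ B * w.norm

lemma lip_hom {α β : Type} [DecidableEq α] [DecidableEq β] (f : FreeGroup α →* FreeGroup β) {B : ℕ}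
    (h : ∀ i, (f (of i)).norm ≤ B) (w : FreeGroup α) : (f w).norm ≤ B * w.norm := by
  have : ∀ l : List (α × Bool), (f (mk l)).norm ≤ B * l.length := by
    intro l
    induction l with
    | nil => rw [← one_eq_mk, map_one]; simp
    | cons p l ih =>
      rw [mk_cons, map_mul, List.length_cons]
      refine (FreeGroup.norm_mul_le _ _).trans ?_
      have : (f (mk [p])).norm ≤ B := by
        obtain ⟨i, s⟩ := p
        cases s
        · rw [mk_f, map_inv, norm_inv_eq]; exact h i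
        · exact h i
      nlinarith
  have := this w.toWord
  rwa [mk_toWord] at this

lemma lip_of {B : ℕ} {φ : MulAut F2} (h : ∀ i, (φ (of i)).norm ≤ B)
    (h' : ∀ i, (φ⁻¹ (of i)).norm ≤ B) : Lip B φ :=
  fun w => ⟨lip_hom φ.toMonoidHom h w, lip_hom (φ⁻¹).toMonoidHom h' w⟩

lemma Lip.one : Lip 1 1 := fun w => by simp

lemma Lip.mono {A B : ℕ} {φ : MulAut F2} (h : Lip A φ) (hAB : A ≤ B) : Lip B φ :=
  fun w => ⟨(h w).1.trans (Nat.mul_le_mul_right _ hAB), (h w).2.trans (Nat.mul_le_mul_right _ hAB)⟩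

lemma Lip.inv {A : ℕ} {φ : MulAut F2} (h : Lip A φ) : Lip A φ⁻¹ :=
  fun w => by simpa using (h w).symm

lemma Lip.mul {A B : ℕ} {φ ψ : MulAut F2} (h : Lip A φ) (h' : Lip B ψ) : Lip (A * B) (φ * ψ) := by
  intro w
  rw [mul_inv_rev, MulAut.mul_apply, MulAut.mul_apply]
  refine ⟨(h _).1.trans ?_, (h' _).2.trans ?_⟩
  · rw [mul_assoc]; exact Nat.mul_le_mul_left _ (h' w).1
  · rw [mul_comm A B, mul_assoc]; exact Nat.mul_le_mul_left _ (h w).2

lemma lip_inv_T : ∀ {t : MulAut F2}, t ∈ TT → Lip 3 t := by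
  intro t ht w
  have h1 := norm_T ht w
  have h2 := norm_T ht (t⁻¹ w)
  rw [MulAut.apply_inv_self] at h2
  omega

lemma lip_mv (c : Bool) : Lip 3 (mv c) := by
  cases c
  · refine lip_of ?_ ?_ <;> simp only [Fin.forall_fin_two, mv, RR, mkAut_apply, mkAut_inv_apply,
      E_a, E_b] <;> decide
  · refine lip_of ?_ ?_ <;> simp only [Fin.forall_fin_two, mv, LL, mkAut_apply, mkAut_inv_apply,
      E_a, E_b] <;> decide

lemma lip_conj (x : Lt) : Lip 3 (MulAut.conj (mk [x])) := by
  have n1 : (mk [x]).norm = 1 := norm_red IsReduced.singleton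
  refine lip_of (fun i => ?_) (fun i => ?_)
  · have := norm_conj_le (mk [x]) (of i)
    rwa [n1, norm_of] at this
  · have := norm_conj_le (mk [x])⁻¹ (of i)
    rw [norm_inv_eq, n1, norm_of, inv_inv] at this
    simpa using this

/-- a path of elementary steps through tuples of norm at most `C` -/
inductive Conn {k : ℕ} (C : ℕ) (x : Fin k → F2) : MulAut F2 → Prop
  | base : (∀ i, (x i).norm ≤ C) → Conn C x 1
  | step {g σ : MulAut F2} : Conn C x g → Lip 3 σ → (∀ i, (σ (g (x i))).norm ≤ C) →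
      Conn C x (σ * g)

variable {k C : ℕ}

lemma Conn.trans {x : Fin k → F2} {g g' : MulAut F2} (h : Conn C x g)
    (h' : Conn C (fun i => g (x i)) g') : Conn C x (g' * g) := by
  induction h' with
  | base _ => rwa [one_mul]
  | step _ h2 h3 ih => rw [mul_assoc]; exact Conn.step ih h2 h3

lemma conn_conj (x : Fin k → F2) (hx : ∀ i, (x i).norm ≤ C) : ∀ l : List Lt, IsReduced l →
    (∀ i, (mk l * x i * (mk l)⁻¹).norm ≤ C) → Conn C x (MulAut.conj (mk l))
  | [], _, _ => by rw [← one_eq_mk, map_one]; exact Conn.base hx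
  | p :: l, hr, h => by
    rw [mk_cons, map_mul]
    refine Conn.step (conn_conj x hx l (red_tail hr) fun i => ?_) (lip_conj p) fun i => ?_
    · have := conj_convex (mk l) (mk [p]) (x i) (by
        rw [← mk_cons, norm_red hr, norm_red (red_tail hr), norm_red IsReduced.singleton]
        simp [add_comm])
      rw [← mk_cons] at this
      exact this.trans (max_le (hx i) (h i))
    · have := h i
      rw [mk_cons] at this
      simpa only [MulAut.conj_apply, mul_assoc, mul_inv_rev] using this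

lemma conn_conj' (x : Fin k → F2) (hx : ∀ i, (x i).norm ≤ C) (g : F2)
    (h : ∀ i, (g * x i * g⁻¹).norm ≤ C) : Conn C x (MulAut.conj g) := by
  have := conn_conj x hx g.toWord isReduced_toWord (by rwa [mk_toWord])
  rwa [mk_toWord] at this

def Bd (B : ℕ) (y : Fin k → F2) : Prop := (∀ i, cl (y i) ≤ B) ∧ ∀ i j, cl (y i * y j) ≤ B

lemma Bd.helly {B : ℕ} {y : Fin k → F2} (h : Bd B y) :
    ∃ g : F2, ∀ i, (g * y i * g⁻¹).norm ≤ B + 2 :=
  Pool.Agent.Lib.MP_d96856_al.helly B (Finset.univ.sup fun i => (y i).norm) y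
    (fun i => Finset.le_sup (f := fun i => (y i).norm) (Finset.mem_univ i)) h.1 h.2

def Wk (B : ℕ) (x : Fin k → F2) (θ : MulAut F2) : Prop :=
  ∀ g : F2, (∀ i, (g * θ (x i) * g⁻¹).norm ≤ 3 * (B + 2)) →
    Conn (3 * (B + 2)) x (MulAut.conj g * θ)

lemma Wk.step {B : ℕ} {x : Fin k → F2} {θ σ : MulAut F2} (h : Wk B x θ)
    (hB : Bd B fun i => θ (x i)) (hσ : Lip 3 σ) : Wk B x (σ * θ) := by
  intro g hg
  obtain ⟨g1, h1⟩ := hB.helly
  have b1 : ∀ i, (σ ((MulAut.conj g1 * θ) (x i))).norm ≤ 3 * (B + 2) := fun i =>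
    (hσ _).1.trans (Nat.mul_le_mul_left _ (h1 i))
  have c1 := Conn.step (h g1 fun i => (h1 i).trans (by omega)) hσ b1
  have c2 := c1.trans (conn_conj' _ b1 (g * (σ g1)⁻¹) fun i => by
    have := hg i
    simpa [mul_assoc] using this)
  have e : MulAut.conj (g * (σ g1)⁻¹) * (σ * (MulAut.conj g1 * θ)) = MulAut.conj g * (σ * θ) := by
    ext w
    simp [mul_assoc]
  rwa [e] at c2

theorem conn_all {n : ℕ} (x : Fin k → F2) (hx : ∀ i, (x i).norm ≤ n) (φ : MulAut F2)
    (hφ : ∀ i, (φ (x i)).norm ≤ n) : Conn (3 * (2 * n + 2)) x φ := by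
  obtain ⟨g, t, ht, t', ht', s, rfl⟩ := normal_form φ
  have q : ∀ s1 s2 : List Bool, s = s1 ++ s2 → ∀ w : F2, w.norm ≤ 2 * n →
      ((MulAut.conj g * (t * (WW s * t'))) w).norm ≤ 2 * n → cl ((WW s2 * t') w) ≤ 2 * n := by
    intro s1 s2 e w h1 h2
    refine (cl_quasi (t' w) s2 s1).trans (max_le ?_ ?_)
    · rw [cl_T ht']; exact (cl_le_norm w).trans h1
    · have := (cl_le_norm _).trans h2
      simp only [MulAut.mul_apply, MulAut.conj_apply, cl_conj, cl_T ht] at this
      rwa [← e]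
  have hB : ∀ s1 s2 : List Bool, s = s1 ++ s2 → Bd (2 * n) fun i => (WW s2 * t') (x i) := by
    intro s1 s2 e
    refine ⟨fun i => q s1 s2 e _ ((hx i).trans (by omega)) ((hφ i).trans (by omega)), fun i j => ?_⟩
    rw [← map_mul]
    refine q s1 s2 e _ ((FreeGroup.norm_mul_le _ _).trans ?_) ?_
    · have := hx i; have := hx j; omega
    · rw [map_mul]
      refine (FreeGroup.norm_mul_le _ _).trans ?_
      have := hφ i; have := hφ j; omega
  have w0 : Wk (2 * n) x 1 := fun g hg => by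
    rw [mul_one]
    exact conn_conj' x (fun i => (hx i).trans (by omega)) g hg
  have w1 : Wk (2 * n) x (t' * 1) := w0.step
    ⟨fun i => (cl_le_norm _).trans ((hx i).trans (by omega)), fun i j =>
      (cl_le_norm _).trans ((FreeGroup.norm_mul_le _ _).trans (by
        have := hx i; have := hx j
        change (x i).norm + (x j).norm ≤ _
        omega))⟩ (lip_inv_T ht')
  have w2 : ∀ s2 s1 : List Bool, s = s1 ++ s2 → Wk (2 * n) x (WW s2 * t') := by
    intro s2
    induction s2 with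
    | nil => intro _ _; simpa [WW] using w1
    | cons d s3 ih =>
      intro s1 e
      have e' : s = (s1 ++ [d]) ++ s3 := by simpa using e
      rw [WW_cons, mul_assoc]
      exact (ih _ e').step (hB _ _ e') (lip_mv d)
  exact ((w2 s [] rfl).step (hB [] s rfl) (lip_inv_T ht)) g fun i => (hφ i).trans (by omega)

/-- all lists of length at most `n` with entries in `X` -/
def allL {β : Type} (X : List β) : ℕ → List (List β)
  | 0 => [[]]
  | n + 1 => [] :: X.flatMap fun x => (allL X n).map fun l => x :: l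

lemma mem_allL {β : Type} (X : List β) : ∀ (n : ℕ) (l : List β),
    l ∈ allL X n ↔ l.length ≤ n ∧ ∀ x ∈ l, x ∈ X
  | 0, l => by cases l <;> simp [allL]
  | n + 1, [] => by simp [allL]
  | n + 1, y :: l => by
    simp only [allL, List.mem_cons, reduceCtorEq, List.mem_flatMap, List.mem_map, List.cons.injEq,
      false_or, List.length_cons, Nat.add_le_add_iff_right, forall_eq_or_imp]
    constructor
    · rintro ⟨x, hx, l', hl', rfl, rfl⟩
      rw [mem_allL] at hl'
      exact ⟨hl'.1, hx, hl'.2⟩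
    · rintro ⟨h1, h2, h3⟩
      exact ⟨y, h2, l, (mem_allL X n l).2 ⟨h1, h3⟩, rfl, rfl⟩

def letters : List Lt := [(0, true), (0, false), (1, true), (1, false)]

lemma mem_letters : ∀ p, p ∈ letters := by decide

def NV (k C : ℕ) : ℕ := (allL (allL letters C) k).length

def bd (k n : ℕ) : ℕ := 3 ^ (2 * NV k (3 * (2 * n + 2)) + 1)

def RS (C : ℕ) (x : Fin k → F2) : ℕ → Set (Fin k → F2)
  | 0 => {x}
  | j + 1 => RS C x j ∪ {z | (∀ i, (z i).norm ≤ C) ∧ ∃ y ∈ RS C x j, ∃ σ, Lip 3 σ ∧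
      z = fun i => σ (y i)}

lemma rs_lip {x : Fin k → F2} : ∀ (j : ℕ), ∀ y ∈ RS C x j, ∃ g, Lip (3 ^ j) g ∧ ∀ i, g (x i) = y i
  | 0, y, h => ⟨1, Lip.one, fun i => by rw [Set.mem_singleton_iff.1 h]; rfl⟩
  | j + 1, y, h => by
    rcases h with h | ⟨-, z, hz, σ, hσ, rfl⟩
    · obtain ⟨g, h1, h2⟩ := rs_lip j y h
      exact ⟨g, h1.mono (Nat.pow_le_pow_right (by omega) (by omega)), h2⟩
    · obtain ⟨g, h1, h2⟩ := rs_lip j z hz
      exact ⟨σ * g, pow_succ' 3 j ▸ hσ.mul h1, fun i => by rw [MulAut.mul_apply, h2]⟩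

lemma rs_stable {x : Fin k → F2} (hx : ∀ i, (x i).norm ≤ C) :
    RS C x (NV k C + 1) = RS C x (NV k C) := by
  classical
  have sub : ∀ j, ∀ y ∈ RS C x j, ∀ i, (y i).norm ≤ C := by
    intro j
    induction j with
    | zero => intro y h; rw [Set.mem_singleton_iff.1 h]; exact hx
    | succ j ih => rintro y (h | h); exacts [ih y h, h.1]
  have mp : ∀ j, ∀ y ∈ RS C x j, (List.ofFn fun i => (y i).toWord) ∈
      ((allL (allL letters C) k).toFinset : Set (List (List Lt))) := by
    intro j y hy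
    rw [Finset.mem_coe, List.mem_toFinset, mem_allL]
    refine ⟨by simp, fun l hl => ?_⟩
    obtain ⟨i, rfl⟩ := List.mem_ofFn.1 hl
    exact (mem_allL _ _ _).2 ⟨sub j y hy i, fun p _ => mem_letters p⟩
  have inj : Function.Injective fun y : Fin k → F2 => List.ofFn fun i => (y i).toWord :=
    fun y z h => funext fun i => toWord_injective (congrFun (List.ofFn_injective h) i)
  have fin : ∀ j, (RS C x j).Finite := fun j =>
    Set.Finite.of_injOn (mp j) inj.injOn (Finset.finite_toSet _)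
  have card : ∀ j, (RS C x j).ncard ≤ NV k C := fun j => by
    refine (Set.ncard_le_ncard_of_injOn _ (mp j) inj.injOn (Finset.finite_toSet _)).trans ?_
    rw [Set.ncard_coe_finset]
    exact List.toFinset_card_le _
  have grow : ∀ j, RS C x (j + 1) = RS C x j ∨ j + 2 ≤ (RS C x (j + 1)).ncard := by
    intro j
    by_cases e : RS C x (j + 1) = RS C x j
    · exact Or.inl e
    right
    have lt := Set.ncard_lt_ncard (Set.ssubset_iff_subset_ne.2
      ⟨Set.subset_union_left, Ne.symm e⟩) (fin (j + 1))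
    induction j with
    | zero =>
      have : (RS C x 0).ncard = 1 := Set.ncard_singleton x
      change (RS C x 0).ncard < (RS C x (0 + 1)).ncard at lt
      omega
    | succ j ih =>
      by_cases e' : RS C x (j + 1) = RS C x j
      · exact absurd (by rw [RS, e', ← RS, e']) e
      · have := ih e' (Set.ncard_lt_ncard (Set.ssubset_iff_subset_ne.2
          ⟨Set.subset_union_left, Ne.symm e'⟩) (fin (j + 1)))
        change (RS C x (j + 1)).ncard < (RS C x (j + 1 + 1)).ncard at lt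
        omega
  rcases grow (NV k C) with h | h
  · exact h
  · have := card (NV k C + 1)
    omega

lemma Conn.start {x : Fin k → F2} {g : MulAut F2} (h : Conn C x g) : ∀ i, (x i).norm ≤ C := by
  induction h with
  | base h => exact h
  | step _ _ _ ih => exact ih

lemma Conn.short {x : Fin k → F2} {g : MulAut F2} (h : Conn C x g) :
    ∃ g', Lip (3 ^ NV k C) g' ∧ ∀ i, g' (x i) = g (x i) := by
  refine rs_lip (C := C) _ (fun i => g (x i)) ?_
  have hs := rs_stable h.start
  induction h with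
  | base _ =>
    generalize NV k C = j
    induction j with
    | zero => rfl
    | succ j ih => exact Or.inl ih
  | step _ h2 h3 ih =>
    rw [← hs]
    exact Or.inr ⟨h3, _, ih, _, h2, rfl⟩

theorem whitehead {k n : ℕ} (h : Fin k → F2) (hn : ∀ i, (h i).norm ≤ n) (φ : MulAut F2)
    (hφ : ∀ i, (φ (h i)).norm ≤ n) :
    ∃ ψ : MulAut F2, (∀ i, ψ (h i) = φ (h i)) ∧ Lip (bd k n) ψ := by
  obtain ⟨g, h1, h2⟩ := (conn_all h hn φ hφ).short
  exact ⟨g, h2, h1.mono (Nat.pow_le_pow_right (by omega) (by omega))⟩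

theorem mccool {k n : ℕ} (h : Fin k → F2) (hn : ∀ i, (h i).norm ≤ n) (φ : MulAut F2)
    (hφ : ∀ i, φ (h i) = h i) :
    φ ∈ Submonoid.closure {ψ : MulAut F2 | (∀ i, ψ (h i) = h i) ∧ Lip (bd k n) ψ} := by
  have hc := conn_all h hn φ fun i => by rw [hφ]; exact hn i
  unfold bd
  generalize 3 * (2 * n + 2) = C at hc
  have ex : ∀ y : Fin k → F2, ∃ τ : MulAut F2, (∃ g, Conn C h g ∧ y = fun i => g (h i)) →
      Lip (3 ^ NV k C) τ ∧ ∀ i, τ (h i) = y i := by
    intro y
    by_cases hy : ∃ g, Conn C h g ∧ y = fun i => g (h i)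
    · obtain ⟨g, h1, rfl⟩ := hy
      obtain ⟨τ, h2⟩ := h1.short
      exact ⟨τ, fun _ => h2⟩
    · exact ⟨1, fun h => absurd h hy⟩
  choose τ hτ using ex
  have le : 3 ^ NV k C ≤ 3 ^ (2 * NV k C + 1) := Nat.pow_le_pow_right (by omega) (by omega)
  have key : ∀ g, Conn C h g → (τ fun i => g (h i))⁻¹ * g ∈
      Submonoid.closure {ψ : MulAut F2 | (∀ i, ψ (h i) = h i) ∧ Lip (3 ^ (2 * NV k C + 1)) ψ} := by
    intro g hg
    induction hg with
    | base hb =>
      obtain ⟨h1, h2⟩ := hτ _ ⟨1, Conn.base hb, rfl⟩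
      rw [mul_one]
      refine Submonoid.subset_closure ⟨fun i => ?_, h1.inv.mono le⟩
      exact (MulEquiv.symm_apply_eq _).2 (h2 i).symm
    | @step g σ c1 c2 c3 ih =>
      obtain ⟨h1, h2⟩ := hτ _ ⟨g, c1, rfl⟩
      obtain ⟨h3, h4⟩ := hτ _ ⟨σ * g, Conn.step c1 c2 c3, rfl⟩
      have e : (τ fun i => (σ * g) (h i))⁻¹ * (σ * g) =
          ((τ fun i => (σ * g) (h i))⁻¹ * (σ * τ fun i => g (h i))) *
            ((τ fun i => g (h i))⁻¹ * g) := by group
      rw [e]
      refine Submonoid.mul_mem _ (Submonoid.subset_closure ⟨fun i => ?_, ?_⟩) ih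
      · rw [MulAut.mul_apply, MulAut.mul_apply, h2]
        exact (MulEquiv.symm_apply_eq _).2 (h4 i).symm
      · refine (h3.inv.mul (c2.mul h1)).mono (le_of_eq ?_)
        ring
  obtain ⟨h1, h2⟩ := hτ _ ⟨φ, hc, rfl⟩
  have := Submonoid.mul_mem _ (Submonoid.subset_closure (s := {ψ : MulAut F2 |
    (∀ i, ψ (h i) = h i) ∧ Lip (3 ^ (2 * NV k C + 1)) ψ})
    ⟨fun i => (h2 i).trans (hφ i), h1.mono le⟩) (key φ hc)
  rwa [mul_inv_cancel_left] at this

end Pool.Agent.Lib.MP_d96856_al
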